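import Pool.Agent.LibACSG48.Defs

/-!
# Block A: leftmost derivation trees have linear height.  Definitions and statements used by the rows A1 - A5.
-/

set_option autoImplicit false

namespace Pool.Agent.ACSG48

variable {T : Type}

/-- leftmost derivation trees of height at most `h` -/
inductive Grammar.DerH (G : Grammar T) (w : List T) : ℕ → List (G.V ⊕ T) → Prop
  | leaf (h : ℕ) : Grammar.DerH G w h (w.map Sum.inr)
  | exi (h : ℕ) (γ : List T) (l r δ : List (G.V ⊕ T)) : (l, r) ∈ G.P → ¬ G.Univ l →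
      Grammar.DerH G w h (γ.map Sum.inr ++ r ++ δ) → Grammar.DerH G w (h + 1) (γ.map Sum.inr ++ l ++ δ)
  | univ (h : ℕ) (γ : List T) (l δ : List (G.V ⊕ T)) : G.Univ l → (∃ r, (l, r) ∈ G.P) →
      (∀ r, (l, r) ∈ G.P → Grammar.DerH G w h (γ.map Sum.inr ++ r ++ δ)) →
      Grammar.DerH G w (h + 1) (γ.map Sum.inr ++ l ++ δ)

/-- one leftmost step -/
def Grammar.LStep (G : Grammar T) (f f' : List (G.V ⊕ T)) : Prop :=
  ∃ (γ : List T) (l r δ : List (G.V ⊕ T)), (l, r) ∈ G.P ∧ f = γ.map Sum.inr ++ l ++ δ ∧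
    f' = γ.map Sum.inr ++ r ++ δ

/-- length of the terminal prefix -/
def tp {V T : Type} (f : List (V ⊕ T)) : ℕ := (f.takeWhile Sum.isRight).length

end Pool.Agent.ACSG48
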