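import Pool.Agent.LibACSG48.A0

/-! ROW A1.  Elementary facts on heights.
* `derH_mono`: induction on the tree (`cases h'` in the step cases).
* `derLM_of_derH`: induction.
* `exists_derH`: induction on `DerLM`; in the universal case `{r | (l, r) ∈ P}` is finite (`G.finP`), take the maximum of
  the heights of the finitely many children and use `derH_mono`.
* `chain`: induction on `H` (generalizing `f`).  `H = 0`: constant sequence.  `H + 1`: case on `DerH w (H+1) f`: `leaf` is
  impossible (then `DerH w 0 f`); `exi`: the child `f'` has `DerH w H f'` and no smaller height `h < H` (otherwise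
  `DerH w (h+1) f` with `h + 1 < H + 1`); `univ`: all children have `DerH w H`; if every child had some height `< H` then all have
  `DerH w (H-1)` (`derH_mono`) and `DerH w H f`, contradiction (for `H = 0` take any child); so some child `f'` has no height `< H`.
  Then `F 0 = f`, `F (i+1) = F' i`. -/

set_option autoImplicit false

namespace Pool.Agent.ACSG48

variable {T : Type}

theorem derH_mono (G : Grammar T) (w : List T) {h h' : ℕ} {f : List (G.V ⊕ T)} (hh : h ≤ h') (hf : G.DerH w h f) :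
    G.DerH w h' f := by
  induction hf generalizing h' with
  | leaf h => exact Grammar.DerH.leaf h'
  | exi h γ l r δ hP hU _ ih =>
    obtain ⟨k, rfl⟩ : ∃ k, h' = k + 1 := ⟨h' - 1, by omega⟩
    exact Grammar.DerH.exi k γ l r δ hP hU (ih (by omega))
  | univ h γ l δ hU hex _ ih =>
    obtain ⟨k, rfl⟩ : ∃ k, h' = k + 1 := ⟨h' - 1, by omega⟩
    exact Grammar.DerH.univ k γ l δ hU hex fun r hr => ih r hr (by omega)

theorem derLM_of_derH (G : Grammar T) (w : List T) {h : ℕ} {f : List (G.V ⊕ T)} (hf : G.DerH w h f) :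
    G.DerLM w f := by
  induction hf with
  | leaf h => exact Grammar.DerLM.leaf
  | exi h γ l r δ hP hU _ ih => exact Grammar.DerLM.exi γ l r δ hP hU ih
  | univ h γ l δ hU hex _ ih => exact Grammar.DerLM.univ γ l δ hU hex ih

theorem exists_derH (G : Grammar T) (w : List T) {f : List (G.V ⊕ T)} (hf : G.DerLM w f) :
    ∃ h, G.DerH w h f := by
  classical
  induction hf with
  | leaf => exact ⟨0, Grammar.DerH.leaf 0⟩
  | exi γ l r δ hP hU _ ih =>
    obtain ⟨h, hh⟩ := ih
    exact ⟨h + 1, Grammar.DerH.exi h γ l r δ hP hU hh⟩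
  | univ γ l δ hU hex _ ih =>
    choose hfun hfun' using ih
    refine ⟨(G.finP.toFinset.sup fun p => if hp : (l, p.2) ∈ G.P then hfun p.2 hp else 0) + 1,
      Grammar.DerH.univ _ γ l δ hU hex fun r hr => ?_⟩
    refine derH_mono G w ?_ (hfun' r hr)
    have h1 : (l, r) ∈ G.finP.toFinset := by simpa using hr
    have h2 := Finset.le_sup (f := fun p : List (G.V ⊕ T) × List (G.V ⊕ T) =>
      if hp : (l, p.2) ∈ G.P then hfun p.2 hp else 0) h1
    have h3 : (if hp : (l, ((l, r) : List (G.V ⊕ T) × List (G.V ⊕ T)).2) ∈ G.P then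
      hfun ((l, r) : List (G.V ⊕ T) × List (G.V ⊕ T)).2 hp else 0) = hfun r hr := dif_pos hr
    exact h3 ▸ h2

theorem A1_cons (G : Grammar T) (w : List T) (H : ℕ) (f f' : List (G.V ⊕ T)) (hf : G.DerH w (H + 1) f)
    (hmin : ∀ h < H + 1, ¬ G.DerH w h f) (hs : G.LStep f f')
    (h : ∃ F : ℕ → List (G.V ⊕ T), F 0 = f' ∧ (∀ i < H, G.LStep (F i) (F (i + 1))) ∧
      ∀ i ≤ H, G.DerH w (H - i) (F i) ∧ ∀ h < H - i, ¬ G.DerH w h (F i)) :
    ∃ F : ℕ → List (G.V ⊕ T), F 0 = f ∧ (∀ i < H + 1, G.LStep (F i) (F (i + 1))) ∧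
      ∀ i ≤ H + 1, G.DerH w (H + 1 - i) (F i) ∧ ∀ h < H + 1 - i, ¬ G.DerH w h (F i) := by
  obtain ⟨F, h0, h1, h2⟩ := h
  refine ⟨fun i => match i with | 0 => f | i + 1 => F i, rfl, ?_, ?_⟩
  · intro i hi
    cases i with
    | zero =>
      change G.LStep f (F 0)
      rw [h0]
      exact hs
    | succ i => exact h1 i (by omega)
  · intro i hi
    cases i with
    | zero => exact ⟨hf, hmin⟩
    | succ i =>
      have h3 := h2 i (by omega)
      rw [show H + 1 - (i + 1) = H - i by omega]
      exact h3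

theorem chain (G : Grammar T) (w : List T) (H : ℕ) (f : List (G.V ⊕ T)) (hf : G.DerH w H f)
    (hmin : ∀ h < H, ¬ G.DerH w h f) :
    ∃ F : ℕ → List (G.V ⊕ T), F 0 = f ∧ (∀ i < H, G.LStep (F i) (F (i + 1))) ∧
      ∀ i ≤ H, G.DerH w (H - i) (F i) ∧ ∀ h < H - i, ¬ G.DerH w h (F i) := by
  induction H generalizing f with
  | zero =>
    refine ⟨fun _ => f, rfl, fun i hi => absurd hi (by omega), fun i hi => ⟨?_, ?_⟩⟩
    · rw [show 0 - i = 0 by omega]
      exact hf
    · intro h hh
      exact absurd hh (by omega)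
  | succ H ih =>
    have hf' := hf
    cases hf with
    | leaf h => exact absurd (Grammar.DerH.leaf 0) (hmin 0 (by omega))
    | exi h γ l r δ hP hU hc =>
      refine A1_cons G w H _ (γ.map Sum.inr ++ r ++ δ) hf' hmin ⟨γ, l, r, δ, hP, rfl, rfl⟩
        (ih _ hc fun h hh hd => ?_)
      exact hmin (h + 1) (by omega) (Grammar.DerH.exi h γ l r δ hP hU hd)
    | univ h γ l δ hU hex hc =>
      have key : ∃ r, (l, r) ∈ G.P ∧ ∀ h < H, ¬ G.DerH w h (γ.map Sum.inr ++ r ++ δ) := by
        by_contra hcon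
        push Not at hcon
        cases H with
        | zero =>
          obtain ⟨r, hr⟩ := hex
          obtain ⟨h, hh, -⟩ := hcon r hr
          omega
        | succ H' =>
          refine hmin (H' + 1) (by omega) (Grammar.DerH.univ H' γ l δ hU hex fun r hr => ?_)
          obtain ⟨h, hh, hd⟩ := hcon r hr
          exact derH_mono G w (by omega) hd
      obtain ⟨r, hr, hr'⟩ := key
      exact A1_cons G w H _ (γ.map Sum.inr ++ r ++ δ) hf' hmin ⟨γ, l, r, δ, hr, rfl, rfl⟩
        (ih _ (hc r hr) hr')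

end Pool.Agent.ACSG48
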