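import Pool.Agent.LibACSG48.A0

/-! ROW A2.  Leftmost steps: the terminal prefix and the length never decrease; when the length stays the same only a window of
length `K` after the terminal prefix changes.
Write `l = x.map inr ++ inl A :: α`, `r = x.map inr ++ β` (`G.shape`); `f = (γ ++ x).map inr ++ inl A :: (α ++ δ)`, so
`tp f = |γ| + |x|` and `f' = (γ ++ x).map inr ++ (β ++ δ)`.
`derLM_prefix`: `w` is derived from `f`, so `|f| ≤ |w|` and every terminal prefix of `f` is a prefix of `w`: induction on `DerLM`;
in the step cases a terminal prefix `p` of `f = (γ ++ x).map inr ++ inl A :: …` is a prefix of `γ ++ x`, hence of `f'` (for `univ` use one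
child).  -/

set_option autoImplicit false

namespace Pool.Agent.ACSG48

variable {T : Type}

theorem A2_takeWhile {V T : Type} (u : List T) (g : List (V ⊕ T)) :
    (u.map Sum.inr ++ g).takeWhile Sum.isRight = u.map Sum.inr ++ g.takeWhile Sum.isRight := by
  refine List.takeWhile_append_of_pos fun a ha => ?_
  obtain ⟨b, -, rfl⟩ := List.mem_map.1 ha
  rfl

theorem tp_map_append {V T : Type} (u : List T) (A : V) (g : List (V ⊕ T)) :
    tp (u.map Sum.inr ++ Sum.inl A :: g) = u.length := by
  rw [tp, A2_takeWhile, List.takeWhile_cons_of_neg (by simp)]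
  simp

theorem tp_le_of_prefix {V T : Type} (u : List T) (g : List (V ⊕ T)) : u.length ≤ tp (u.map Sum.inr ++ g) := by
  rw [tp, A2_takeWhile, List.length_append, List.length_map]
  omega

theorem tp_le_length {V T : Type} (f : List (V ⊕ T)) : tp f ≤ f.length :=
  (List.takeWhile_prefix _).length_le

theorem A2_drop {X : Type} (a b : List X) (n : ℕ) (h : a.length ≤ n) :
    (a ++ b).drop n = b.drop (n - a.length) := by
  rw [List.drop_append, List.drop_eq_nil_of_le h, List.nil_append]

theorem LStep_mono (G : Grammar T) {f f' : List (G.V ⊕ T)} (h : G.LStep f f') :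
    tp f ≤ tp f' ∧ f.length ≤ f'.length ∧
      (f.length = f'.length → ∀ K, (∀ l r, (l, r) ∈ G.P → l.length ≤ K) →
        f'.take (tp f) = f.take (tp f) ∧ f'.drop (tp f + K) = f.drop (tp f + K)) := by
  obtain ⟨γ, l, r, δ, hP, hf, hf'⟩ := h
  obtain ⟨x, A, α, β, hl, hr⟩ := G.shape l r hP
  have hmono := G.mono l r hP
  have e1 : f = (γ ++ x).map Sum.inr ++ Sum.inl A :: (α ++ δ) := by
    rw [hf, hl]
    simp
  have e2 : f' = (γ ++ x).map Sum.inr ++ (β ++ δ) := by
    rw [hf', hr]
    simp
  have t1 : tp f = (γ ++ x).length := by rw [e1, tp_map_append]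
  have t2 : (γ ++ x).length ≤ tp f' := by rw [e2]; exact tp_le_of_prefix _ _
  have l1 : f.length = γ.length + l.length + δ.length := by
    rw [hf]
    simp only [List.length_append, List.length_map]
  have l2 : f'.length = γ.length + r.length + δ.length := by
    rw [hf']
    simp only [List.length_append, List.length_map]
  refine ⟨by omega, by omega, fun hlen K hK => ⟨?_, ?_⟩⟩
  · have hm : tp f = ((γ ++ x).map (Sum.inr : T → G.V ⊕ T)).length := by rw [t1, List.length_map]
    rw [hm, e1, e2, List.take_left, List.take_left]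
  · have hK' := hK l r hP
    have hlr : l.length = r.length := by omega
    have hx : (γ ++ x).length = γ.length + x.length := List.length_append
    have h1 : (γ.map (Sum.inr : T → G.V ⊕ T) ++ l).length = γ.length + l.length := by simp
    have h2 : (γ.map (Sum.inr : T → G.V ⊕ T) ++ r).length = γ.length + r.length := by simp
    have d1 : f.drop (tp f + K) = δ.drop (tp f + K - (γ.length + l.length)) := by
      have := A2_drop (γ.map Sum.inr ++ l) δ (tp f + K) (by omega)
      rwa [h1, ← hf] at this
    have d2 : f'.drop (tp f + K) = δ.drop (tp f + K - (γ.length + r.length)) := by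
      have := A2_drop (γ.map Sum.inr ++ r) δ (tp f + K) (by omega)
      rwa [h2, ← hf'] at this
    rw [d1, d2, hlr]

theorem A2_prefix {V T : Type} (p u : List T) (A : V) (g rest : List (V ⊕ T))
    (h : p.map Sum.inr ++ g = u.map Sum.inr ++ Sum.inl A :: rest) : p <+: u := by
  have h1 : p.length ≤ u.length := by
    have := tp_le_of_prefix p g
    rwa [h, tp_map_append] at this
  have h2 : p.map (Sum.inr : T → V ⊕ T) <+: u.map Sum.inr := by
    refine List.prefix_of_prefix_length_le (l₃ := u.map Sum.inr ++ Sum.inl A :: rest) ?_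
      (List.prefix_append _ _) (by simpa using h1)
    rw [← h]
    exact List.prefix_append _ _
  obtain ⟨t, ht⟩ := h2
  have h3 : p = u.take p.length := by
    have h4 := congrArg (List.take p.length) ht
    rw [← List.map_take, List.take_left' (by simp)] at h4
    exact List.map_injective_iff.2 Sum.inr_injective h4
  rw [h3]
  exact List.take_prefix _ _

theorem A2_step (G : Grammar T) (w : List T) (γ : List T) (l r δ : List (G.V ⊕ T)) (hP : (l, r) ∈ G.P)
    (ih : (γ.map Sum.inr ++ r ++ δ).length ≤ w.length ∧ ∀ (p : List T) (g : List (G.V ⊕ T)),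
      γ.map Sum.inr ++ r ++ δ = p.map Sum.inr ++ g → p <+: w) :
    (γ.map Sum.inr ++ l ++ δ).length ≤ w.length ∧ ∀ (p : List T) (g : List (G.V ⊕ T)),
      γ.map Sum.inr ++ l ++ δ = p.map Sum.inr ++ g → p <+: w := by
  have hmono := G.mono l r hP
  refine ⟨?_, fun p g hpg => ?_⟩
  · have := ih.1
    simp only [List.length_append, List.length_map] at this ⊢
    omega
  · obtain ⟨x, A, α, β, hl, hr⟩ := G.shape l r hP
    have e1 : γ.map Sum.inr ++ l ++ δ = (γ ++ x).map Sum.inr ++ Sum.inl A :: (α ++ δ) := by
      rw [hl]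
      simp
    have e2 : γ.map Sum.inr ++ r ++ δ = (γ ++ x).map Sum.inr ++ (β ++ δ) := by
      rw [hr]
      simp
    rw [e1] at hpg
    obtain ⟨t, ht⟩ := A2_prefix p (γ ++ x) A g (α ++ δ) hpg.symm
    refine ih.2 p (t.map Sum.inr ++ (β ++ δ)) ?_
    rw [e2, ← ht]
    simp

theorem derLM_prefix (G : Grammar T) (w : List T) {f : List (G.V ⊕ T)} (hf : G.DerLM w f) :
    f.length ≤ w.length ∧ ∀ (p : List T) (g : List (G.V ⊕ T)), f = p.map Sum.inr ++ g → p <+: w := by
  induction hf with
  | leaf =>
    refine ⟨by simp, fun p g hpg => ?_⟩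
    have h4 := congrArg (List.take p.length) hpg
    rw [← List.map_take, List.take_left' (by simp)] at h4
    rw [← List.map_injective_iff.2 Sum.inr_injective h4]
    exact List.take_prefix _ _
  | exi γ l r δ hP hU _ ih => exact A2_step G w γ l r δ hP ih
  | univ γ l δ hU hex _ ih =>
    obtain ⟨r, hr⟩ := hex
    exact A2_step G w γ l r δ hr (ih r hr)

end Pool.Agent.ACSG48
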