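import Pool.Agent.LibACSG48.A1
import Pool.Agent.LibACSG48.A2

/-! ROW A3.  The height bound (counting).
Let `K` bound the left-hand sides (`G.finP`), `N := card of {lists over G.V ⊕ T of length ≤ K}` (finite: `List.finite_length_le`, needs
`Finite (G.V ⊕ T)`).  Claim: a minimal height `H` (`Nat.find` of `exists_derH`) satisfies `H + 1 ≤ N * (2|w| + 1)`.  Take the chain `F` of
`chain`.  All `F i` (`i ≤ H`) derive `w`, so `tp (F i) ≤ |F i| ≤ |w|` (`derLM_prefix`, `tp_le_length`).  `s i := tp (F i) + |F i| ≤ 2|w|` is
nondecreasing on `i ≤ H`.  If `i < j ≤ H` and `s i = s j` then `tp` and the length are constant on `[i, j]`, so by induction `F j` and `F i` have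
the same `take (tp)` and the same `drop (tp + K)`; if also the windows `((F i).drop tp).take K` are equal then `F i = F j`
(`take ++ (take of drop) ++ drop`), contradiction: `F j` has height `H - j < H - i`.  So on every fibre of `s` the window is injective,
a fibre has at most `N` elements, and `Finset.card_le_mul_card_image` gives the claim.  Finally `|w| ≥ 1` because `1 = |[S]| ≤ |w|`, so
`C := 3 * N` works (`derH_mono`). -/

set_option autoImplicit false

namespace Pool.Agent.ACSG48

variable {T : Type}

private theorem A3_split {X : Type} (l : List X) (a K : ℕ) :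
    l = l.take a ++ ((l.drop a).take K ++ l.drop (a + K)) := by
  conv_lhs => rw [← List.take_append_drop a l, ← List.take_append_drop K (l.drop a), List.drop_drop]

/-- the terminal prefix and the length are nondecreasing along a chain -/
private theorem A3_mono (G : Grammar T) (H : ℕ) (F : ℕ → List (G.V ⊕ T))
    (hF : ∀ i < H, G.LStep (F i) (F (i + 1))) (i : ℕ) :
    ∀ j, i ≤ j → j ≤ H → tp (F i) ≤ tp (F j) ∧ (F i).length ≤ (F j).length := by
  intro j hij
  induction j, hij using Nat.le_induction with
  | base => exact fun _ => ⟨le_rfl, le_rfl⟩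
  | succ j hij ih =>
    intro hj
    have h1 := ih (by omega)
    have h2 := LStep_mono G (hF j (by omega))
    exact ⟨h1.1.trans h2.1, h1.2.trans h2.2.1⟩

private theorem A3_const (G : Grammar T) (H : ℕ) (F : ℕ → List (G.V ⊕ T))
    (hF : ∀ i < H, G.LStep (F i) (F (i + 1))) (K : ℕ) (hK : ∀ l r, (l, r) ∈ G.P → l.length ≤ K) (i : ℕ) :
    ∀ j, i ≤ j → j ≤ H → tp (F i) + (F i).length = tp (F j) + (F j).length →
      tp (F j) = tp (F i) ∧ (F j).take (tp (F i)) = (F i).take (tp (F i)) ∧
        (F j).drop (tp (F i) + K) = (F i).drop (tp (F i) + K) := by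
  intro j hij
  induction j, hij using Nat.le_induction with
  | base => exact fun _ _ => ⟨rfl, rfl, rfl⟩
  | succ j hij ih =>
    intro hj hs
    have h1 := A3_mono G H F hF i j hij (by omega)
    have h2 := A3_mono G H F hF j (j + 1) (by omega) hj
    obtain ⟨e1, e2, e3⟩ := ih (by omega) (by omega)
    obtain ⟨-, -, h3⟩ := LStep_mono G (hF j (by omega))
    obtain ⟨h4, h5⟩ := h3 (by omega) K hK
    rw [e1] at h4 h5
    refine ⟨by omega, h4.trans e2, h5.trans e3⟩

theorem height_bound [Finite T] (G : Grammar T) :
    ∃ C : ℕ, ∀ w : List T, G.DerLM w [Sum.inl G.S] → G.DerH w (C * w.length) [Sum.inl G.S] := by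
  classical
  obtain ⟨K, hK0⟩ := (G.finP.image (fun p => p.1.length)).bddAbove
  have hK : ∀ l r, (l, r) ∈ G.P → l.length ≤ K := fun l r h => hK0 ⟨(l, r), h, rfl⟩
  have := G.finV
  have hfin : {l : List (G.V ⊕ T) | l.length ≤ K}.Finite := List.finite_length_le _ _
  set W := hfin.toFinset with hW
  refine ⟨3 * W.card, fun w hw => ?_⟩
  have hex := exists_derH G w hw
  set H := Nat.find hex with hH
  have hH1 : G.DerH w H [Sum.inl G.S] := Nat.find_spec hex
  have hH2 : ∀ h < H, ¬ G.DerH w h [Sum.inl G.S] := fun h hh => Nat.find_min hex hh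
  obtain ⟨F, hF0, hF1, hF2⟩ := chain G w H _ hH1 hH2
  have hlen : ∀ i ≤ H, (F i).length ≤ w.length := fun i hi =>
    (derLM_prefix G w (derLM_of_derH G w (hF2 i hi).1)).1
  have hcard : (Finset.range (H + 1)).card ≤ (Finset.range (2 * w.length + 1) ×ˢ W).card := by
    refine Finset.card_le_card_of_injOn
      (fun i => (tp (F i) + (F i).length, ((F i).drop (tp (F i))).take K)) ?_ ?_
    · intro i hi
      have hi' : i ≤ H := by
        have := Finset.mem_range.1 (Finset.mem_coe.1 hi)
        omega
      have h1 := hlen i hi'
      have h2 := tp_le_length (F i)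
      simp only [Finset.coe_product, Set.mem_prod, Finset.mem_coe, Finset.mem_range]
      refine ⟨by omega, ?_⟩
      rw [hW, Set.Finite.mem_toFinset]
      simp
    · have key : ∀ i j, i < j → j ≤ H → tp (F i) + (F i).length = tp (F j) + (F j).length →
          ((F i).drop (tp (F i))).take K = ((F j).drop (tp (F j))).take K → False := by
        intro i j hij hj hs hwin
        obtain ⟨e1, e2, e3⟩ := A3_const G H F hF1 K hK i j hij.le hj hs
        have heq : F i = F j := by
          rw [A3_split (F i) (tp (F i)) K, A3_split (F j) (tp (F i)) K, e2, e3, hwin, e1]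
        refine (hF2 i (by omega)).2 (H - j) (by omega) ?_
        rw [heq]
        exact (hF2 j hj).1
      intro i hi j hj he
      have hi' : i ≤ H := by
        have := Finset.mem_range.1 (Finset.mem_coe.1 hi)
        omega
      have hj' : j ≤ H := by
        have := Finset.mem_range.1 (Finset.mem_coe.1 hj)
        omega
      simp only [Prod.mk.injEq] at he
      rcases lt_trichotomy i j with h | h | h
      · exact (key i j h hj' he.1 he.2).elim
      · exact h
      · exact (key j i h hi' he.1.symm he.2.symm).elim
  rw [Finset.card_product, Finset.card_range, Finset.card_range] at hcard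
  have hw1 : 1 ≤ w.length := by
    have := (derLM_prefix G w hw).1
    simpa using this
  refine derH_mono G w ?_ hH1
  have : (2 * w.length + 1) * W.card ≤ (3 * w.length) * W.card := Nat.mul_le_mul_right _ (by omega)
  calc H ≤ (3 * w.length) * W.card := by omega
    _ = 3 * W.card * w.length := by ring

end Pool.Agent.ACSG48
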