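import Pool.Agent.LibACSG48.Defs

/-!
# Block B: an alternating Turing machine simulating the leftmost derivations of `G` in linear time.  Definitions.

Tape `0`: input (never changed), head = number of matched letters.  Tape `1`: the part of the sentential form behind the buffer, as a
stack growing to the right from cell `0`; head on the first free cell.  State: mode, the last matched letters `h` (history), the
buffer `b` (the part of the sentential form after the matched letters).  Sentential form: `u ++ b ++ st`.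
-/

set_option autoImplicit false

namespace Pool.Agent.ACSG48

variable {T : Type}

theorem exists_bound (G : Grammar T) : ∃ K : ℕ, ∀ l r, (l, r) ∈ G.P → l.length ≤ K ∧ r.length ≤ K := by
  obtain ⟨K, hK⟩ := (G.finP.image (fun p => max p.1.length p.2.length)).bddAbove
  refine ⟨K, fun l r h => ?_⟩
  have := hK ⟨(l, r), h, rfl⟩
  exact ⟨le_trans (le_max_left _ _) this, le_trans (le_max_right _ _) this⟩

/-- bound on the lengths of both sides of the productions -/
noncomputable def Grammar.K (G : Grammar T) : ℕ := Classical.choose (exists_bound G)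

theorem Grammar.K_left (G : Grammar T) {l r : List (G.V ⊕ T)} (h : (l, r) ∈ G.P) : l.length ≤ G.K :=
  (Classical.choose_spec (exists_bound G) l r h).1

theorem Grammar.K_right (G : Grammar T) {l r : List (G.V ⊕ T)} (h : (l, r) ∈ G.P) : r.length ≤ G.K :=
  (Classical.choose_spec (exists_bound G) l r h).2

/-- buffer size -/
noncomputable def Grammar.B (G : Grammar T) : ℕ := 2 * G.K + 1

/-- raw states: mode (`inl 0` normal, `inl 1` pop, `inl 2` accept, `inr l` universal choice for the left-hand side `l`),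
history, buffer -/
abbrev Raw (G : Grammar T) : Type := (Fin 3 ⊕ List (G.V ⊕ T)) × List T × List (G.V ⊕ T)

/-- transitions -/
inductive GTr (G : Grammar T) : Raw G → (Fin 2 → Option (G.V ⊕ T)) → Raw G → (Fin 2 → Option (G.V ⊕ T)) → (Fin 2 → ℤ) → Prop
  /-- match a letter -/
  | mat (h h' : List T) (a : T) (b : List (G.V ⊕ T)) (rd : Fin 2 → Option (G.V ⊕ T)) :
      rd 0 = some (Sum.inr a) → h' <:+ h ++ [a] → GTr G (Sum.inl 0, h, Sum.inr a :: b) rd (Sum.inl 0, h', b) rd ![1, 0]
  /-- move the last buffer symbol to the stack -/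
  | push (h : List T) (b : List (G.V ⊕ T)) (X : G.V ⊕ T) (rd : Fin 2 → Option (G.V ⊕ T)) :
      GTr G (Sum.inl 0, h, b ++ [X]) rd (Sum.inl 0, h, b) ![rd 0, some X] ![0, 1]
  | goPop (h : List T) (b : List (G.V ⊕ T)) (rd : Fin 2 → Option (G.V ⊕ T)) :
      GTr G (Sum.inl 0, h, b) rd (Sum.inl 1, h, b) rd ![0, -1]
  /-- move the top of the stack to the end of the buffer -/
  | pop (h : List T) (b : List (G.V ⊕ T)) (X : G.V ⊕ T) (rd : Fin 2 → Option (G.V ⊕ T)) :
      rd 1 = some X → GTr G (Sum.inl 1, h, b) rd (Sum.inl 0, h, b ++ [X]) ![rd 0, none] ![0, 0]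
  /-- everything is matched -/
  | acc (h : List T) (rd : Fin 2 → Option (G.V ⊕ T)) :
      rd 0 = none → rd 1 = none → GTr G (Sum.inl 1, h, []) rd (Sum.inl 2, h, []) rd ![0, 0]
  /-- an existential production -/
  | exi (h x : List T) (A : G.V) (α β b : List (G.V ⊕ T)) (rd : Fin 2 → Option (G.V ⊕ T)) :
      (x.map Sum.inr ++ Sum.inl A :: α, x.map Sum.inr ++ β) ∈ G.P → A ∉ G.U → x <:+ h →
      GTr G (Sum.inl 0, h, Sum.inl A :: α ++ b) rd (Sum.inl 0, h, β ++ b) rd ![0, 0]
  /-- choose a universal left-hand side -/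
  | goUni (h x : List T) (A : G.V) (α b : List (G.V ⊕ T)) (rd : Fin 2 → Option (G.V ⊕ T)) :
      (∃ r, (x.map Sum.inr ++ Sum.inl A :: α, r) ∈ G.P) → A ∈ G.U → x <:+ h → b.length ≤ G.K →
      GTr G (Sum.inl 0, h, Sum.inl A :: α ++ b) rd (Sum.inr (x.map Sum.inr ++ Sum.inl A :: α), h, Sum.inl A :: α ++ b) rd ![0, 0]
  /-- a universal production -/
  | uni (h x : List T) (A : G.V) (α β b : List (G.V ⊕ T)) (rd : Fin 2 → Option (G.V ⊕ T)) :
      (x.map Sum.inr ++ Sum.inl A :: α, x.map Sum.inr ++ β) ∈ G.P →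
      GTr G (Sum.inr (x.map Sum.inr ++ Sum.inl A :: α), h, Sum.inl A :: α ++ b) rd (Sum.inl 0, h, β ++ b) rd ![0, 0]

/-- the states of the machine: raw states with bounded components -/
def GQ (G : Grammar T) : Type :=
  {x : Raw G // (∀ l, x.1 = Sum.inr l → l.length ≤ G.K) ∧ x.2.1.length ≤ G.B ∧ x.2.2.length ≤ G.B}

theorem finite_GQ [Finite T] (G : Grammar T) : Finite (GQ G) := by
  have := G.finV
  have h1 : Finite {l : List (G.V ⊕ T) // l.length ≤ G.K} := (List.finite_length_le _ _).to_subtype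
  have h2 : Finite {l : List T // l.length ≤ G.B} := (List.finite_length_le _ _).to_subtype
  have h3 : Finite {l : List (G.V ⊕ T) // l.length ≤ G.B} := (List.finite_length_le _ _).to_subtype
  let f : GQ G → (Fin 3 ⊕ {l : List (G.V ⊕ T) // l.length ≤ G.K}) × {l : List T // l.length ≤ G.B} ×
      {l : List (G.V ⊕ T) // l.length ≤ G.B} := fun x =>
    (match h : x.1.1 with
      | Sum.inl i => Sum.inl i
      | Sum.inr l => Sum.inr ⟨l, x.2.1 l h⟩, ⟨x.1.2.1, x.2.2.1⟩, ⟨x.1.2.2, x.2.2.2⟩)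
  have hf : Function.Injective f := by
    rintro ⟨⟨m, h, b⟩, hx⟩ ⟨⟨m', h', b'⟩, hx'⟩ he
    simp only [f, Prod.mk.injEq, Subtype.mk.injEq] at he
    obtain ⟨e1, e2, e3⟩ := he
    subst e2 e3
    cases m <;> cases m' <;> simp_all
  exact Finite.of_injective f hf

/-- the machine -/
noncomputable def GM [Finite T] (G : Grammar T) : ATM T where
  k := 1
  Q := GQ G
  finQ := finite_GQ G
  Γ := Option (G.V ⊕ T)
  finΓ := by have := G.finV; infer_instance
  blank := none
  inp := fun a => some (Sum.inr a)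
  inp_inj := by intro a b h; simpa using h
  inp_ne := by intro a; simp
  start := ⟨(Sum.inl 0, [], [Sum.inl G.S]), by simp, by simp, by simp [Grammar.B]⟩
  acc := {q | q.1.1 = Sum.inl 2}
  univ := {q | ∃ l, q.1.1 = Sum.inr l}
  tr := fun q a q' a' m => GTr G q.1 a q'.1 a' m
  tr_move := by
    intro q a q' a' m h i
    obtain ⟨q, hq⟩ := q
    obtain ⟨q', hq'⟩ := q'
    change GTr G q a q' a' m at h
    cases h <;> fin_cases i <;> simp

/-- the stack `st` (top first) on a tape -/
def stk {X : Type} (st : List X) (j : ℤ) : Option X := if 0 ≤ j then st.reverse[j.toNat]? else none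

/-- the configuration `c` of the machine stands for the sentential form `f` -/
def Rep [Finite T] (G : Grammar T) (w : List T) (c : (GM G).Conf) (f : List (G.V ⊕ T)) : Prop :=
  (c.q.1.1 = Sum.inl 2 ∧ f = w.map Sum.inr) ∨
  (c.q.1.1 ≠ Sum.inl 2 ∧ ∃ (u w' : List T) (st : List (G.V ⊕ T)), w = u ++ w' ∧
    c.head 0 = u.length ∧ c.tape 0 = (GM G).inTape w ∧
    (c.q.1.1 = Sum.inl 1 → c.head 1 = (st.length : ℤ) - 1) ∧ (c.q.1.1 ≠ Sum.inl 1 → c.head 1 = st.length) ∧
    c.tape 1 = stk st ∧
    c.q.1.2.1 <:+ u ∧ f = u.map Sum.inr ++ c.q.1.2.2 ++ st ∧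
    (∀ l, c.q.1.1 = Sum.inr l → ∃ (x : List T) (A : G.V) (α b : List (G.V ⊕ T)), l = x.map Sum.inr ++ Sum.inl A :: α ∧
      c.q.1.2.2 = Sum.inl A :: α ++ b ∧ x <:+ c.q.1.2.1 ∧ A ∈ G.U ∧ (∃ r, (l, r) ∈ G.P) ∧ b.length ≤ G.K))

end Pool.Agent.ACSG48
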