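import Pool.Agent.LibACSG48.B0

/-! ROW B1.  Soundness of the machine `GM G`.
`rep_init`: unfold (`u = []`, `w' = w`, buffer `[inl S]`, stack `[]`; `stk [] = fun _ => none`).
`GM_sound`: induction on `t` generalizing `c f`.  If `c.q ∈ acc` the mode is `inl 2` and `f = w.map inr`: `DerLM.leaf`.
Otherwise one step: cases on `GTr` (the state is a subtype: `obtain ⟨q, hq⟩ := …` or generalize `c.q.1`).
`mat`: `u := u ++ [a]` (the letter read is `w[|u|]`, from `c.tape 0 = inTape w`, `c.head 0 = |u|`), same `f`.
`push`: `st := X :: st`, same `f` (`stk (X :: st) = update (stk st) |st| (some X)`).  `goPop`: only the head of tape 1 moves.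
`pop`: the head is at `|st| - 1` and reads `some X`, so `st = X :: st'`, same `f`.
`acc`: the head of tape 1 is at `|st| - 1` and reads `none`, so `st = []`; the input head reads `none`, so `u = w`; `f = w.map inr`.
`exi`: `u = u0 ++ x`; `f = u0.map inr ++ l ++ (b ++ st)`, new form `u0.map inr ++ (x.map inr ++ β) ++ (b ++ st)`: `DerLM.exi`
(`¬ Univ l` because the decomposition of `l` is unique: prove the little lemma `decomp_unique` first).
`goUni`: same `f`, the clause for mode `inr l` of `Rep` is now filled.
Universal state `inr l` (the only universal ones): by the clause of `Rep`, `DerLM.univ`; for every `(l, r) ∈ P` write `r = x.map inr ++ β`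
(`G.shape` + `decomp_unique`), the configuration after `GTr.uni` is a legal state because `|β ++ b| ≤ K + K ≤ B`, apply the induction
hypothesis to it. -/

set_option autoImplicit false

namespace Pool.Agent.ACSG48

variable {T : Type}

private theorem b1_stk_push {X : Type} (st : List X) (x : X) :
    Function.update (stk st) (st.length : ℤ) (some x) = stk (x :: st) := by
  funext j
  by_cases hj : j = (st.length : ℤ)
  · subst hj
    rw [Function.update_self]
    simp [stk]
  · rw [Function.update_of_ne hj]
    unfold stk
    split_ifs with h0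
    · rw [List.reverse_cons]
      rcases lt_or_ge j.toNat st.length with h1 | h1
      · rw [List.getElem?_append_left (by simpa using h1)]
      · rw [List.getElem?_eq_none (by simpa using h1), List.getElem?_eq_none]
        have : st.length ≠ j.toNat := by omega
        simp only [List.length_append, List.length_reverse, List.length_cons, List.length_nil]
        omega
    · rfl

private theorem b1_stk_pop {X : Type} (st : List X) (x : X) :
    Function.update (stk (x :: st)) (st.length : ℤ) none = stk st := by
  rw [← b1_stk_push, Function.update_idem]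
  funext j
  by_cases hj : j = (st.length : ℤ)
  · subst hj
    rw [Function.update_self]
    simp [stk]
  · rw [Function.update_of_ne hj]

private theorem b1_stk_top {X : Type} (st : List X) (x : X) :
    stk (x :: st) (st.length : ℤ) = some x := by
  simp [stk]

private theorem b1_inTape_at [Finite T] (G : Grammar T) (w : List T) (n : ℕ) :
    (GM G).inTape w (n : ℤ) = (w[n]?).elim none (fun a => some (Sum.inr a)) := by
  unfold ATM.inTape
  rw [if_pos (Int.natCast_nonneg n), Int.toNat_natCast]
  rfl

private theorem b1_decomp {V T : Type} {x x' : List T} {A A' : V} {α α' : List (V ⊕ T)}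
    (h : x.map Sum.inr ++ Sum.inl A :: α = x'.map Sum.inr ++ Sum.inl A' :: α') :
    x = x' ∧ A = A' ∧ α = α' := by
  induction x generalizing x' with
  | nil =>
    cases x' with
    | nil => simpa using h
    | cons y x' => simp at h
  | cons z x ih =>
    cases x' with
    | nil => simp at h
    | cons y x' =>
      simp only [List.map_cons, List.cons_append, List.cons.injEq, Sum.inr.injEq] at h
      obtain ⟨rfl, h⟩ := h
      obtain ⟨rfl, h2, h3⟩ := ih h
      exact ⟨rfl, h2, h3⟩

private theorem b1_uni_inv {G : Grammar T} {q q' : Raw G} {rd a' : Fin 2 → Option (G.V ⊕ T)}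
    {m : Fin 2 → ℤ} (h : GTr G q rd q' a' m) (l : List (G.V ⊕ T)) (hl : q.1 = Sum.inr l) :
    ∃ (x : List T) (A : G.V) (α β b : List (G.V ⊕ T)), l = x.map Sum.inr ++ Sum.inl A :: α ∧
      (l, x.map Sum.inr ++ β) ∈ G.P ∧ q.2.2 = Sum.inl A :: α ++ b ∧
      q' = (Sum.inl 0, q.2.1, β ++ b) ∧ a' = rd ∧ m = ![0, 0] := by
  cases h with
  | mat => simp at hl
  | push => simp at hl
  | goPop => simp at hl
  | pop => simp at hl
  | acc => simp at hl
  | exi => simp at hl
  | goUni => simp at hl
  | uni h x A α β b rd hP =>
    have hl' : x.map Sum.inr ++ Sum.inl A :: α = l := Sum.inr.inj hl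
    subst hl'
    exact ⟨x, A, α, β, b, rfl, hP, rfl, rfl, rfl, rfl⟩

/-- the configuration after a transition -/
private def b1_next [Finite T] {G : Grammar T} (c : (GM G).Conf) (q' : Raw G)
    (hq' : (∀ l, q'.1 = Sum.inr l → l.length ≤ G.K) ∧ q'.2.1.length ≤ G.B ∧
      q'.2.2.length ≤ G.B)
    (a' : Fin 2 → Option (G.V ⊕ T)) (m : Fin 2 → ℤ) : (GM G).Conf where
  q := ⟨q', hq'⟩
  tape := fun i => Function.update (c.tape i) (c.head i) (a' i)
  head := fun i => c.head i + m i

private theorem b1_step [Finite T] {G : Grammar T} {c : (GM G).Conf} {q' : Raw G}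
    {a' : Fin 2 → Option (G.V ⊕ T)} {m : Fin 2 → ℤ}
    (h : GTr G c.q.1 (fun i => c.tape i (c.head i)) q' a' m)
    (hq' : (∀ l, q'.1 = Sum.inr l → l.length ≤ G.K) ∧ q'.2.1.length ≤ G.B ∧
      q'.2.2.length ≤ G.B) :
    (GM G).Step c (b1_next c q' hq' a' m) :=
  ⟨a', m, h, fun _ => rfl, fun _ => rfl⟩

theorem decomp_unique {V T : Type} {x x' : List T} {A A' : V} {α α' : List (V ⊕ T)}
    (h : x.map Sum.inr ++ Sum.inl A :: α = x'.map Sum.inr ++ Sum.inl A' :: α') : x = x' ∧ A = A' ∧ α = α' :=
  b1_decomp h

theorem rep_init [Finite T] (G : Grammar T) (w : List T) : Rep G w ((GM G).init w) [Sum.inl G.S] := by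
  refine Or.inr ⟨?_, [], w, [], rfl, rfl, ?_, ?_, fun _ => rfl, ?_, List.nil_suffix, rfl, ?_⟩
  · intro h
    exact absurd (Sum.inl.inj h) (by decide)
  · funext j
    rfl
  · intro h
    exact absurd (Sum.inl.inj h) (by decide)
  · funext j
    have h1 : stk ([] : List (G.V ⊕ T)) j = none := by simp [stk]
    rw [h1]
    rfl
  · intro l h
    exact (Sum.inl_ne_inr h).elim

private theorem b1_suffix_form {G : Grammar T} {x h u : List T} (hx : x <:+ h) (hh : h <:+ u)
    (A : G.V) (α b st : List (G.V ⊕ T)) : ∃ u0 : List T, u = u0 ++ x ∧
    u.map Sum.inr ++ (Sum.inl A :: α ++ b) ++ st =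
      u0.map Sum.inr ++ (x.map Sum.inr ++ Sum.inl A :: α) ++ (b ++ st) := by
  obtain ⟨u0, rfl⟩ := hx.trans hh
  exact ⟨u0, rfl, by simp⟩

/-- the representation of the configuration in normal mode after a step -/
private theorem b1_rep [Finite T] {G : Grammar T} {w : List T} {c : (GM G).Conf}
    {u w' h : List T} {b st f : List (G.V ⊕ T)} {i : Fin 3} (hi : i ≠ 2)
    (hq : c.q.1 = (Sum.inl i, h, b)) (hw : w = u ++ w')
    (h0 : c.head 0 = (u.length : ℤ)) (t0 : c.tape 0 = (GM G).inTape w)
    (h1 : c.head 1 = if i = 1 then (st.length : ℤ) - 1 else (st.length : ℤ))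
    (t1 : c.tape 1 = stk st) (hh : h <:+ u) (hf : f = u.map Sum.inr ++ b ++ st) :
    Rep G w c f := by
  refine Or.inr ⟨?_, u, w', st, hw, h0, t0, ?_, ?_, t1, ?_, ?_, ?_⟩
  · rw [hq]
    intro h
    exact hi (Sum.inl.inj h)
  · intro h
    rw [hq] at h
    have h2 : i = 1 := Sum.inl.inj h
    rw [h1, if_pos h2]
  · intro h
    rw [hq] at h
    have h2 : i ≠ 1 := fun h3 => h (by rw [h3])
    rw [h1, if_neg h2]
  · rw [hq]
    exact hh
  · rw [hq]
    exact hf
  · intro l hl
    rw [hq] at hl
    exact (Sum.inl_ne_inr hl).elim

theorem GM_sound [Finite T] (G : Grammar T) (w : List T) (t : ℕ) (c : (GM G).Conf) (f : List (G.V ⊕ T))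
    (hr : Rep G w c f) (ha : (GM G).Acc t c) : G.DerLM w f := by
  induction t generalizing c f with
  | zero =>
    rcases hr with ⟨-, rfl⟩ | ⟨h, -⟩
    · exact Grammar.DerLM.leaf
    · exact (h ha).elim
  | succ t ih =>
    rcases hr with ⟨-, rfl⟩ | ⟨hne, u, w', st, hw, h0, t0, h1a, h1b, t1, hh, hf, huni⟩
    · exact Grammar.DerLM.leaf
    rcases ha with hacc | ⟨hnu, c', hs, ha'⟩ | ⟨hu, -, hall⟩
    · exact (hne hacc).elim
    · obtain ⟨a', m, htr, htp, hhd⟩ := hs
      change GTr G c.q.1 (fun i => c.tape i (c.head i)) c'.q.1 a' m at htr
      have hst0 : ∀ n, c.tape 0 (c.head 0) = n → w'.head?.elim none (fun a => some (Sum.inr a)) = n := by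
        intro n hn
        rw [h0, t0, b1_inTape_at, hw] at hn
        rw [← hn, List.getElem?_append_right le_rfl, Nat.sub_self]
        cases w' <;> rfl
      generalize hq : c.q.1 = q at htr
      generalize hq' : c'.q.1 = q' at htr
      cases htr with
      | mat h h' a b rd hrd0 hsuf =>
        have hmode : c.q.1.1 = Sum.inl 0 := by rw [hq]
        have hw' := hst0 _ hrd0
        obtain ⟨w'', rfl⟩ : ∃ w'', w' = a :: w'' := by
          cases w' with
          | nil => exact absurd hw' (by simp)
          | cons y w'' =>
            have h2 : some (Sum.inr y) = (some (Sum.inr a) : Option (G.V ⊕ T)) := hw'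
            have h3 : y = a := by simpa using h2
            exact ⟨w'', by rw [h3]⟩
        have hh2 : h <:+ u := by rw [hq] at hh; exact hh
        refine ih c' f ?_ ha'
        refine b1_rep (i := 0) (u := u ++ [a]) (w' := w'') (st := st) (by decide) hq' (by simp [hw]) ?_ ?_ ?_ ?_ ?_ ?_
        · rw [hhd 0, h0]
          change (u.length : ℤ) + 1 = _
          rw [List.length_append, List.length_singleton]
          push_cast
          rfl
        · exact (htp 0).trans ((Function.update_eq_self _ _).trans t0)
        · rw [hhd 1, h1b (by rw [hmode]; simp)]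
          change (st.length : ℤ) + 0 = _
          rw [add_zero, if_neg (by decide)]
        · exact (htp 1).trans ((Function.update_eq_self _ _).trans t1)
        · refine hsuf.trans ?_
          obtain ⟨v, rfl⟩ := hh2
          exact ⟨v, by simp⟩
        · rw [hf, hq]
          simp
      | push h b X rd =>
        have hmode : c.q.1.1 = Sum.inl 0 := by rw [hq]
        have hh2 : h <:+ u := by rw [hq] at hh; exact hh
        have h1' := h1b (by rw [hmode]; simp)
        refine ih c' f ?_ ha'
        refine b1_rep (i := 0) (u := u) (w' := w') (st := X :: st) (by decide) hq' hw ?_ ?_ ?_ ?_ hh2 ?_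
        · rw [hhd 0, h0]
          exact add_zero _
        · exact (htp 0).trans ((Function.update_eq_self _ _).trans t0)
        · rw [hhd 1, h1', if_neg (by decide), List.length_cons]
          push_cast
          rfl
        · rw [htp 1, h1', t1]
          exact b1_stk_push st X
        · rw [hf, hq]
          simp
      | goPop h b rd =>
        have hmode : c.q.1.1 = Sum.inl 0 := by rw [hq]
        have hh2 : h <:+ u := by rw [hq] at hh; exact hh
        have h1' := h1b (by rw [hmode]; simp)
        refine ih c' f ?_ ha'
        refine b1_rep (i := 1) (u := u) (w' := w') (st := st) (by decide) hq' hw ?_ ?_ ?_ ?_ hh2 ?_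
        · rw [hhd 0, h0]
          exact add_zero _
        · exact (htp 0).trans ((Function.update_eq_self _ _).trans t0)
        · rw [hhd 1, h1', if_pos rfl]
          rfl
        · exact (htp 1).trans ((Function.update_eq_self _ _).trans t1)
        · rw [hf, hq]
      | pop h b X rd hrd1 =>
        have hmode : c.q.1.1 = Sum.inl 1 := by rw [hq]
        have hh2 : h <:+ u := by rw [hq] at hh; exact hh
        have h1' := h1a hmode
        obtain ⟨st', rfl⟩ : ∃ st', st = X :: st' := by
          cases st with
          | nil =>
            have h2 : stk ([] : List (G.V ⊕ T)) ((([] : List (G.V ⊕ T)).length : ℤ) - 1) =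
                none := by simp [stk]
            have h3 : c.tape 1 (c.head 1) = _ := hrd1
            rw [h1', t1] at h3
            exact absurd (h2.symm.trans h3) (by simp)
          | cons Y st' =>
            have h3 : c.tape 1 (c.head 1) = _ := hrd1
            have h4 : ((Y :: st').length : ℤ) - 1 = (st'.length : ℤ) := by
              rw [List.length_cons]
              push_cast
              ring
            rw [h1', t1, h4] at h3
            have h5 : some Y = some X := (b1_stk_top st' Y).symm.trans h3
            exact ⟨st', by rw [Option.some.inj h5]⟩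
        have h1'' : c.head 1 = (st'.length : ℤ) := by
          rw [h1', List.length_cons]
          push_cast
          ring
        refine ih c' f ?_ ha'
        refine b1_rep (i := 0) (u := u) (w' := w') (st := st') (by decide) hq' hw ?_ ?_ ?_ ?_ hh2 ?_
        · rw [hhd 0, h0]
          exact add_zero _
        · exact (htp 0).trans ((Function.update_eq_self _ _).trans t0)
        · rw [hhd 1, h1'', if_neg (by decide)]
          exact add_zero _
        · rw [htp 1, h1'', t1]
          exact b1_stk_pop st' X
        · rw [hf, hq]
          simp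
      | acc h rd hrd0 hrd1 =>
        have hmode : c.q.1.1 = Sum.inl 1 := by rw [hq]
        have h1' := h1a hmode
        have hw' := hst0 _ hrd0
        have hw'' : w' = [] := by
          cases w' with
          | nil => rfl
          | cons y w'' => exact absurd hw' (by simp)
        have hst : st = [] := by
          cases st with
          | nil => rfl
          | cons Y st' =>
            have h3 : c.tape 1 (c.head 1) = _ := hrd1
            have h4 : ((Y :: st').length : ℤ) - 1 = (st'.length : ℤ) := by
              rw [List.length_cons]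
              push_cast
              ring
            rw [h1', t1, h4] at h3
            have h5 : some Y = none := (b1_stk_top st' Y).symm.trans h3
            exact absurd h5 (by simp)
        have hf' : f = w.map Sum.inr := by
          rw [hf, hq, hst, hw, hw'']
          simp
        rw [hf']
        exact Grammar.DerLM.leaf
      | exi h x A α β b rd hP hA hx =>
        have hmode : c.q.1.1 = Sum.inl 0 := by rw [hq]
        have hh2 : h <:+ u := by rw [hq] at hh; exact hh
        have h1' := h1b (by rw [hmode]; simp)
        obtain ⟨u0, hu0, hform⟩ := b1_suffix_form (G := G) hx hh2 A α b st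
        have hf1 : f = u0.map Sum.inr ++ (x.map Sum.inr ++ Sum.inl A :: α) ++ (b ++ st) := by
          rw [hf, hq]
          exact hform
        rw [hf1]
        refine Grammar.DerLM.exi u0 _ _ _ hP ?_ (ih c' _ ?_ ha')
        · rintro ⟨x', A', α', hl, hA'⟩
          obtain ⟨-, rfl, -⟩ := b1_decomp hl
          exact hA hA'
        · refine b1_rep (i := 0) (u := u) (w' := w') (st := st) (by decide) hq' hw ?_ ?_ ?_ ?_ hh2 ?_
          · rw [hhd 0, h0]
            exact add_zero _
          · exact (htp 0).trans ((Function.update_eq_self _ _).trans t0)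
          · rw [hhd 1, h1', if_neg (by decide)]
            exact add_zero _
          · exact (htp 1).trans ((Function.update_eq_self _ _).trans t1)
          · rw [hu0]
            simp
      | goUni h x A α b rd hex hA hx hb =>
        have hmode : c.q.1.1 = Sum.inl 0 := by rw [hq]
        have hh2 : h <:+ u := by rw [hq] at hh; exact hh
        have h1' := h1b (by rw [hmode]; simp)
        refine ih c' f ?_ ha'
        refine Or.inr ⟨?_, u, w', st, hw, ?_, ?_, ?_, ?_, ?_, ?_, ?_, ?_⟩
        · rw [hq']
          exact Sum.inr_ne_inl
        · rw [hhd 0, h0]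
          exact add_zero _
        · exact (htp 0).trans ((Function.update_eq_self _ _).trans t0)
        · intro h2
          rw [hq'] at h2
          exact (Sum.inr_ne_inl h2).elim
        · intro _
          rw [hhd 1, h1']
          exact add_zero _
        · exact (htp 1).trans ((Function.update_eq_self _ _).trans t1)
        · rw [hq']
          exact hh2
        · rw [hf, hq, hq']
        · intro l hl
          rw [hq'] at hl
          have hl' : x.map Sum.inr ++ Sum.inl A :: α = l := Sum.inr.inj hl
          subst hl'
          refine ⟨x, A, α, b, rfl, ?_, ?_, hA, hex, hb⟩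
          · rw [hq']
          · rw [hq']
            exact hx
      | uni h x A α β b rd hP =>
        exfalso
        apply hnu
        exact ⟨_, by rw [hq]⟩
    · obtain ⟨l, hl⟩ := hu
      obtain ⟨x, A, α, b, hlx, hbuf, hx, hA, hex, hb⟩ := huni l hl
      have h1' := h1b (by rw [hl]; exact Sum.inr_ne_inl)
      obtain ⟨u0, hu0, hform⟩ := b1_suffix_form (G := G) hx hh A α b st
      have hf1 : f = u0.map Sum.inr ++ l ++ (b ++ st) := by
        rw [hf, hbuf, hlx]
        exact hform
      rw [hf1]
      refine Grammar.DerLM.univ u0 l _ ⟨x, A, α, hlx, hA⟩ hex fun r hr => ?_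
      obtain ⟨x', A', α', β, hl1, hr1⟩ := G.shape _ _ hr
      rw [hlx] at hl1
      obtain ⟨rfl, rfl, rfl⟩ := b1_decomp hl1
      have hK := G.K_right hr
      rw [hr1] at hK
      simp only [List.length_append, List.length_map] at hK
      have hbd := c.q.2.2
      have hP : (x.map Sum.inr ++ Sum.inl A :: α, x.map Sum.inr ++ β) ∈ G.P := by
        rw [← hlx, ← hr1]
        exact hr
      have hq : c.q.1 = (Sum.inr (x.map Sum.inr ++ Sum.inl A :: α), c.q.1.2.1,
          Sum.inl A :: α ++ b) := by
        rw [← hlx, ← hl, ← hbuf]
      have htr : GTr G c.q.1 (fun i => c.tape i (c.head i))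
          (Sum.inl 0, c.q.1.2.1, β ++ b) (fun i => c.tape i (c.head i)) ![0, 0] := by
        have h2 := GTr.uni c.q.1.2.1 x A α β b (fun i => c.tape i (c.head i)) hP
        rw [← hq] at h2
        exact h2
      have hs := b1_step htr ⟨fun l hl => (Sum.inl_ne_inr hl).elim, hbd.1, by
        change (β ++ b).length ≤ G.B
        rw [List.length_append]
        unfold Grammar.B
        omega⟩
      refine ih _ _ ?_ (hall _ hs)
      refine b1_rep (i := 0) (u := u) (w' := w') (st := st) (by decide) rfl hw ?_ ?_ ?_ ?_ hh ?_
      · change c.head 0 + 0 = _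
        rw [h0, add_zero]
      · change Function.update (c.tape 0) (c.head 0) (c.tape 0 (c.head 0)) = _
        rw [Function.update_eq_self, t0]
      · change c.head 1 + 0 = _
        rw [h1', add_zero, if_neg (by decide)]
      · change Function.update (c.tape 1) (c.head 1) (c.tape 1 (c.head 1)) = _
        rw [Function.update_eq_self, t1]
      · rw [hr1, hu0]
        simp

end Pool.Agent.ACSG48
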