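import Pool.Agent.LibACSG48.B0

/-! ROW B2.  The steps of the machine `GM G` (all proofs: write down the successor configuration, its state is the displayed raw
state with the length bounds, check `Step` with the displayed writes/moves, then use the hypothesis on all configurations with
`RepN`).  History of length `min B |u|`: after matching `a` it is `(u ++ [a]).drop (|u| + 1 - B)`, a suffix of the old one `++ [a]`.
`acc_uni` is two steps: `goUni`, then the universal state: all its successors come from `GTr.uni` (decomposition of `l` unique), at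
least one exists. -/

set_option autoImplicit false

namespace Pool.Agent.ACSG48

variable {T : Type}

/-- strong form of the representation in normal mode, with full history -/
def RepN [Finite T] (G : Grammar T) (w : List T) (c : (GM G).Conf) (u : List T) (b st : List (G.V ⊕ T)) : Prop :=
  c.q.1 = (Sum.inl 0, u.drop (u.length - G.B), b) ∧ u <+: w ∧ c.head 0 = u.length ∧
    c.tape 0 = (GM G).inTape w ∧ c.head 1 = st.length ∧ c.tape 1 = stk st

private theorem b2_stk_push {X : Type} (st : List X) (x : X) :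
    Function.update (stk st) (st.length : ℤ) (some x) = stk (x :: st) := by
  funext j
  by_cases hj : j = (st.length : ℤ)
  · subst hj
    rw [Function.update_self]
    simp [stk]
  · rw [Function.update_of_ne hj]
    unfold stk
    split_ifs with h0
    · rw [List.reverse_cons]
      rcases lt_or_ge j.toNat st.length with h1 | h1
      · rw [List.getElem?_append_left (by simpa using h1)]
      · rw [List.getElem?_eq_none (by simpa using h1), List.getElem?_eq_none]
        have : st.length ≠ j.toNat := by omega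
        simp only [List.length_append, List.length_reverse, List.length_cons, List.length_nil]
        omega
    · rfl

private theorem b2_stk_pop {X : Type} (st : List X) (x : X) :
    Function.update (stk (x :: st)) (st.length : ℤ) none = stk st := by
  rw [← b2_stk_push, Function.update_idem]
  funext j
  by_cases hj : j = (st.length : ℤ)
  · subst hj
    rw [Function.update_self]
    simp [stk]
  · rw [Function.update_of_ne hj]

private theorem b2_stk_top {X : Type} (st : List X) (x : X) :
    stk (x :: st) (st.length : ℤ) = some x := by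
  simp [stk]

private theorem b2_inTape_at [Finite T] (G : Grammar T) (w : List T) (n : ℕ) :
    (GM G).inTape w (n : ℤ) = (w[n]?).elim none (fun a => some (Sum.inr a)) := by
  unfold ATM.inTape
  rw [if_pos (Int.natCast_nonneg n), Int.toNat_natCast]
  rfl

private theorem b2_decomp {V T : Type} {x x' : List T} {A A' : V} {α α' : List (V ⊕ T)}
    (h : x.map Sum.inr ++ Sum.inl A :: α = x'.map Sum.inr ++ Sum.inl A' :: α') :
    x = x' ∧ A = A' ∧ α = α' := by
  induction x generalizing x' with
  | nil =>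
    cases x' with
    | nil => simpa using h
    | cons y x' => simp at h
  | cons z x ih =>
    cases x' with
    | nil => simp at h
    | cons y x' =>
      simp only [List.map_cons, List.cons_append, List.cons.injEq, Sum.inr.injEq] at h
      obtain ⟨rfl, h⟩ := h
      obtain ⟨rfl, h2, h3⟩ := ih h
      exact ⟨rfl, h2, h3⟩

private theorem b2_uni_inv {G : Grammar T} {q q' : Raw G} {rd a' : Fin 2 → Option (G.V ⊕ T)}
    {m : Fin 2 → ℤ} (h : GTr G q rd q' a' m) (l : List (G.V ⊕ T)) (hl : q.1 = Sum.inr l) :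
    ∃ (x : List T) (A : G.V) (α β b : List (G.V ⊕ T)), l = x.map Sum.inr ++ Sum.inl A :: α ∧
      (l, x.map Sum.inr ++ β) ∈ G.P ∧ q.2.2 = Sum.inl A :: α ++ b ∧
      q' = (Sum.inl 0, q.2.1, β ++ b) ∧ a' = rd ∧ m = ![0, 0] := by
  cases h with
  | mat => simp at hl
  | push => simp at hl
  | goPop => simp at hl
  | pop => simp at hl
  | acc => simp at hl
  | exi => simp at hl
  | goUni => simp at hl
  | uni h x A α β b rd hP =>
    have hl' : x.map Sum.inr ++ Sum.inl A :: α = l := Sum.inr.inj hl
    subst hl'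
    exact ⟨x, A, α, β, b, rfl, hP, rfl, rfl, rfl, rfl⟩

/-- the configuration after a transition -/
private def b2_next [Finite T] {G : Grammar T} (c : (GM G).Conf) (q' : Raw G)
    (hq' : (∀ l, q'.1 = Sum.inr l → l.length ≤ G.K) ∧ q'.2.1.length ≤ G.B ∧
      q'.2.2.length ≤ G.B)
    (a' : Fin 2 → Option (G.V ⊕ T)) (m : Fin 2 → ℤ) : (GM G).Conf where
  q := ⟨q', hq'⟩
  tape := fun i => Function.update (c.tape i) (c.head i) (a' i)
  head := fun i => c.head i + m i

private theorem b2_step [Finite T] {G : Grammar T} {c : (GM G).Conf} {q' : Raw G}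
    {a' : Fin 2 → Option (G.V ⊕ T)} {m : Fin 2 → ℤ}
    (h : GTr G c.q.1 (fun i => c.tape i (c.head i)) q' a' m)
    (hq' : (∀ l, q'.1 = Sum.inr l → l.length ≤ G.K) ∧ q'.2.1.length ≤ G.B ∧
      q'.2.2.length ≤ G.B) :
    (GM G).Step c (b2_next c q' hq' a' m) :=
  ⟨a', m, h, fun _ => rfl, fun _ => rfl⟩

variable [Finite T] (G : Grammar T) (w : List T)

theorem repN_init : RepN G w ((GM G).init w) [] [Sum.inl G.S] [] := by
  refine ⟨?_, List.nil_prefix, rfl, ?_, rfl, ?_⟩
  · rw [List.drop_nil]
    rfl
  · funext j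
    rfl
  · funext j
    simp [ATM.init, stk]
    rfl

private theorem b2_notUniv {c : (GM G).Conf} {i : Fin 3} (h : c.q.1.1 = Sum.inl i) :
    c.q ∉ (GM G).univ := by
  rintro ⟨l, hl⟩
  rw [h] at hl
  exact Sum.inl_ne_inr hl

private theorem b2_exist {c : (GM G).Conf} {i : Fin 3} (h : c.q.1.1 = Sum.inl i) {t : ℕ}
    {c' : (GM G).Conf} (hs : (GM G).Step c c') (ha : (GM G).Acc t c') :
    (GM G).Acc (t + 1) c :=
  Or.inr (Or.inl ⟨b2_notUniv G h, c', hs, ha⟩)

omit [Finite T] in
private theorem b2_suffix {x u : List T} (hx : x <:+ u) {B : ℕ} (hB : x.length ≤ B) :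
    x <:+ u.drop (u.length - B) := by
  refine List.suffix_of_suffix_length_le hx (List.drop_suffix _ _) ?_
  have := hx.length_le
  rw [List.length_drop]
  omega

theorem acc_mat {c : (GM G).Conf} {u : List T} {a : T} {b st : List (G.V ⊕ T)} {t : ℕ}
    (hc : RepN G w c u (Sum.inr a :: b) st) (hw : u ++ [a] <+: w)
    (h : ∀ c', RepN G w c' (u ++ [a]) b st → (GM G).Acc t c') : (GM G).Acc (t + 1) c := by
  obtain ⟨hq, hu, h0, t0, h1, t1⟩ := hc
  have hbd := c.q.2.2.2
  rw [hq] at hbd
  have hb : b.length ≤ G.B := le_trans (Nat.le_succ _) hbd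
  have hrd : c.tape 0 (c.head 0) = some (Sum.inr a) := by
    rw [h0, t0, b2_inTape_at]
    obtain ⟨v, rfl⟩ := hw
    have h2 : (u ++ [a] ++ v)[u.length]? = some a := by simp
    rw [h2]
    rfl
  have hq' : (∀ l, ((Sum.inl 0, (u ++ [a]).drop ((u ++ [a]).length - G.B), b) : Raw G).1 =
      Sum.inr l → l.length ≤ G.K) ∧ ((u ++ [a]).drop ((u ++ [a]).length - G.B)).length ≤ G.B ∧
      b.length ≤ G.B := by
    refine ⟨fun l hl => (Sum.inl_ne_inr hl).elim, ?_, hb⟩
    rw [List.length_drop]
    omega
  have hh : (u ++ [a]).drop ((u ++ [a]).length - G.B) <:+ u.drop (u.length - G.B) ++ [a] := by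
    rw [← List.drop_append_of_le_length (l₂ := [a]) (Nat.sub_le u.length G.B)]
    have h2 : (u ++ [a]).length - G.B = (u.length - G.B) +
        ((u ++ [a]).length - G.B - (u.length - G.B)) := by
      rw [List.length_append, List.length_singleton]
      omega
    rw [h2, ← List.drop_drop]
    exact List.drop_suffix _ _
  have htr : GTr G c.q.1 (fun i => c.tape i (c.head i))
      (Sum.inl 0, (u ++ [a]).drop ((u ++ [a]).length - G.B), b)
      (fun i => c.tape i (c.head i)) ![1, 0] := by
    rw [hq]
    exact GTr.mat _ _ a b _ hrd hh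
  refine b2_exist G (i := 0) (by rw [hq]) (b2_step htr hq') (h _ ?_)
  refine ⟨rfl, hw, ?_, ?_, ?_, ?_⟩
  · change c.head 0 + 1 = _
    rw [h0, List.length_append, List.length_singleton]
    push_cast
    rfl
  · change Function.update (c.tape 0) (c.head 0) (c.tape 0 (c.head 0)) = _
    rw [Function.update_eq_self, t0]
  · change c.head 1 + 0 = _
    rw [h1, add_zero]
  · change Function.update (c.tape 1) (c.head 1) (c.tape 1 (c.head 1)) = _
    rw [Function.update_eq_self, t1]

theorem acc_push {c : (GM G).Conf} {u : List T} {X : G.V ⊕ T} {b st : List (G.V ⊕ T)} {t : ℕ}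
    (hc : RepN G w c u (b ++ [X]) st)
    (h : ∀ c', RepN G w c' u b (X :: st) → (GM G).Acc t c') : (GM G).Acc (t + 1) c := by
  obtain ⟨hq, hu, h0, t0, h1, t1⟩ := hc
  have hbd := c.q.2.2
  rw [hq] at hbd
  have hb : b.length ≤ G.B := by
    have := hbd.2
    simp only [List.length_append, List.length_singleton] at this
    omega
  have htr : GTr G c.q.1 (fun i => c.tape i (c.head i))
      (Sum.inl 0, u.drop (u.length - G.B), b)
      ![c.tape 0 (c.head 0), some X] ![0, 1] := by
    rw [hq]
    exact GTr.push _ b X _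
  refine b2_exist G (i := 0) (by rw [hq])
    (b2_step htr ⟨fun l hl => (Sum.inl_ne_inr hl).elim, hbd.1, hb⟩) (h _ ?_)
  refine ⟨rfl, hu, ?_, ?_, ?_, ?_⟩
  · change c.head 0 + 0 = _
    rw [h0, add_zero]
  · change Function.update (c.tape 0) (c.head 0) (c.tape 0 (c.head 0)) = _
    rw [Function.update_eq_self, t0]
  · change c.head 1 + 1 = _
    rw [h1, List.length_cons]
    push_cast
    rfl
  · change Function.update (c.tape 1) (c.head 1) (some X) = _
    rw [h1, t1]
    exact b2_stk_push st X

/-- the configuration after `goPop` -/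
private theorem b2_goPop {c : (GM G).Conf} {u : List T} {b st : List (G.V ⊕ T)} {t : ℕ}
    (hc : RepN G w c u b st)
    (h : ∀ c', c'.q.1 = (Sum.inl 1, u.drop (u.length - G.B), b) → c'.head 0 = (u.length : ℤ) →
      c'.tape 0 = (GM G).inTape w → c'.head 1 = (st.length : ℤ) - 1 → c'.tape 1 = stk st →
      (GM G).Acc t c') : (GM G).Acc (t + 1) c := by
  obtain ⟨hq, hu, h0, t0, h1, t1⟩ := hc
  have hbd := c.q.2.2
  rw [hq] at hbd
  have htr : GTr G c.q.1 (fun i => c.tape i (c.head i))
      (Sum.inl 1, u.drop (u.length - G.B), b)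
      (fun i => c.tape i (c.head i)) ![0, -1] := by
    rw [hq]
    exact GTr.goPop _ b _
  refine b2_exist G (i := 0) (by rw [hq])
    (b2_step htr ⟨fun l hl => (Sum.inl_ne_inr hl).elim, hbd.1, hbd.2⟩)
    (h _ rfl ?_ ?_ ?_ ?_)
  · change c.head 0 + 0 = _
    rw [h0, add_zero]
  · change Function.update (c.tape 0) (c.head 0) (c.tape 0 (c.head 0)) = _
    rw [Function.update_eq_self, t0]
  · change c.head 1 + -1 = _
    rw [h1]
    rfl
  · change Function.update (c.tape 1) (c.head 1) (c.tape 1 (c.head 1)) = _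
    rw [Function.update_eq_self, t1]

theorem acc_pop {c : (GM G).Conf} {u : List T} {X : G.V ⊕ T} {b st : List (G.V ⊕ T)} {t : ℕ}
    (hc : RepN G w c u b (X :: st)) (hb : b.length < G.B)
    (h : ∀ c', RepN G w c' u (b ++ [X]) st → (GM G).Acc t c') : (GM G).Acc (t + 2) c := by
  refine b2_goPop G w hc fun c1 hq h0 t0 h1 t1 => ?_
  have hbd := c1.q.2.2
  rw [hq] at hbd
  have h1' : c1.head 1 = (st.length : ℤ) := by
    rw [h1, List.length_cons]
    push_cast
    ring
  have hrd : c1.tape 1 (c1.head 1) = some X := by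
    rw [h1', t1, b2_stk_top]
  have htr : GTr G c1.q.1 (fun i => c1.tape i (c1.head i))
      (Sum.inl 0, u.drop (u.length - G.B), b ++ [X])
      ![c1.tape 0 (c1.head 0), none] ![0, 0] := by
    rw [hq]
    exact GTr.pop _ b X _ hrd
  refine b2_exist G (i := 1) (by rw [hq])
    (b2_step htr ⟨fun l hl => (Sum.inl_ne_inr hl).elim, hbd.1, ?_⟩) (h _ ?_)
  · simp only [List.length_append, List.length_singleton]
    omega
  refine ⟨rfl, hc.2.1, ?_, ?_, ?_, ?_⟩
  · change c1.head 0 + 0 = _
    rw [h0, add_zero]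
  · change Function.update (c1.tape 0) (c1.head 0) (c1.tape 0 (c1.head 0)) = _
    rw [Function.update_eq_self, t0]
  · change c1.head 1 + 0 = _
    rw [h1', add_zero]
  · change Function.update (c1.tape 1) (c1.head 1) none = _
    rw [h1', t1]
    exact b2_stk_pop st X

theorem acc_end {c : (GM G).Conf} {t : ℕ} (hc : RepN G w c w [] []) : (GM G).Acc (t + 2) c := by
  refine b2_goPop G w hc fun c1 hq h0 t0 h1 t1 => ?_
  have hbd := c1.q.2.2
  rw [hq] at hbd
  have hrd0 : c1.tape 0 (c1.head 0) = none := by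
    rw [h0, t0, b2_inTape_at, List.getElem?_eq_none le_rfl]
    rfl
  have hrd1 : c1.tape 1 (c1.head 1) = none := by
    have h2 : stk ([] : List (G.V ⊕ T)) ((([] : List (G.V ⊕ T)).length : ℤ) - 1) = none := by
      simp [stk]
    rw [h1, t1]
    exact h2
  have htr : GTr G c1.q.1 (fun i => c1.tape i (c1.head i))
      (Sum.inl 2, w.drop (w.length - G.B), [])
      (fun i => c1.tape i (c1.head i)) ![0, 0] := by
    rw [hq]
    exact GTr.acc _ _ hrd0 hrd1
  refine b2_exist G (i := 1) (by rw [hq])
    (b2_step htr ⟨fun l hl => (Sum.inl_ne_inr hl).elim, hbd.1, hbd.2⟩) ?_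
  exact ATM.Acc_acc _ rfl

theorem acc_exi {c : (GM G).Conf} {u x : List T} {A : G.V} {α β b st : List (G.V ⊕ T)} {t : ℕ}
    (hc : RepN G w c u (Sum.inl A :: α ++ b) st) (hx : x <:+ u) (hA : A ∉ G.U)
    (hP : (x.map Sum.inr ++ Sum.inl A :: α, x.map Sum.inr ++ β) ∈ G.P) (hb : b.length ≤ G.K)
    (h : ∀ c', RepN G w c' u (β ++ b) st → (GM G).Acc t c') : (GM G).Acc (t + 1) c := by
  obtain ⟨hq, hu, h0, t0, h1, t1⟩ := hc
  have hbd := c.q.2.2
  rw [hq] at hbd
  have hK1 := G.K_left hP
  have hK2 := G.K_right hP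
  simp only [List.length_append, List.length_map, List.length_cons] at hK1 hK2
  have hxB : x.length ≤ G.B := by
    unfold Grammar.B
    omega
  have htr : GTr G c.q.1 (fun i => c.tape i (c.head i))
      (Sum.inl 0, u.drop (u.length - G.B), β ++ b)
      (fun i => c.tape i (c.head i)) ![0, 0] := by
    rw [hq]
    exact GTr.exi _ x A α β b _ hP hA (b2_suffix hx hxB)
  refine b2_exist G (i := 0) (by rw [hq])
    (b2_step htr ⟨fun l hl => (Sum.inl_ne_inr hl).elim, hbd.1, ?_⟩) (h _ ?_)
  · simp only [List.length_append]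
    unfold Grammar.B
    omega
  refine ⟨rfl, hu, ?_, ?_, ?_, ?_⟩
  · change c.head 0 + 0 = _
    rw [h0, add_zero]
  · change Function.update (c.tape 0) (c.head 0) (c.tape 0 (c.head 0)) = _
    rw [Function.update_eq_self, t0]
  · change c.head 1 + 0 = _
    rw [h1, add_zero]
  · change Function.update (c.tape 1) (c.head 1) (c.tape 1 (c.head 1)) = _
    rw [Function.update_eq_self, t1]

theorem acc_uni {c : (GM G).Conf} {u x : List T} {A : G.V} {α b st : List (G.V ⊕ T)} {t : ℕ}
    (hc : RepN G w c u (Sum.inl A :: α ++ b) st) (hx : x <:+ u) (hA : A ∈ G.U)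
    (hP : ∃ r, (x.map Sum.inr ++ Sum.inl A :: α, r) ∈ G.P) (hb : b.length ≤ G.K)
    (h : ∀ β, (x.map Sum.inr ++ Sum.inl A :: α, x.map Sum.inr ++ β) ∈ G.P →
      ∀ c', RepN G w c' u (β ++ b) st → (GM G).Acc t c') : (GM G).Acc (t + 2) c := by
  obtain ⟨hq, hu, h0, t0, h1, t1⟩ := hc
  have hbd := c.q.2.2
  rw [hq] at hbd
  obtain ⟨r0, hr0⟩ := hP
  have hK1 := G.K_left hr0
  have hK1' := hK1
  simp only [List.length_append, List.length_map, List.length_cons] at hK1'
  have hxB : x.length ≤ G.B := by
    unfold Grammar.B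
    omega
  have htr : GTr G c.q.1 (fun i => c.tape i (c.head i))
      (Sum.inr (x.map Sum.inr ++ Sum.inl A :: α), u.drop (u.length - G.B),
        Sum.inl A :: α ++ b) (fun i => c.tape i (c.head i)) ![0, 0] := by
    rw [hq]
    exact GTr.goUni _ x A α b _ ⟨r0, hr0⟩ hA (b2_suffix hx hxB) hb
  have hq1 : (∀ l, ((Sum.inr (x.map Sum.inr ++ Sum.inl A :: α), u.drop (u.length - G.B),
        Sum.inl A :: α ++ b) : Raw G).1 = Sum.inr l → l.length ≤ G.K) ∧
        (u.drop (u.length - G.B)).length ≤ G.B ∧ (Sum.inl A :: α ++ b).length ≤ G.B := by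
    refine ⟨fun l hl => ?_, hbd.1, hbd.2⟩
    have hl' : x.map Sum.inr ++ Sum.inl A :: α = l := Sum.inr.inj hl
    rw [← hl']
    exact hK1
  refine b2_exist G (i := 0) (by rw [hq]) (b2_step htr hq1) ?_
  set c1 := b2_next c _ hq1 (fun i => c.tape i (c.head i)) ![0, 0] with hc1
  have h0' : c1.head 0 = u.length := by
    change c.head 0 + 0 = _
    rw [h0, add_zero]
  have t0' : c1.tape 0 = (GM G).inTape w := by
    change Function.update (c.tape 0) (c.head 0) (c.tape 0 (c.head 0)) = _
    rw [Function.update_eq_self, t0]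
  have h1' : c1.head 1 = st.length := by
    change c.head 1 + 0 = _
    rw [h1, add_zero]
  have t1' : c1.tape 1 = stk st := by
    change Function.update (c.tape 1) (c.head 1) (c.tape 1 (c.head 1)) = _
    rw [Function.update_eq_self, t1]
  refine Or.inr (Or.inr ⟨⟨_, rfl⟩, ?_, ?_⟩)
  · obtain ⟨x', A', α', β', hl, hr⟩ := G.shape _ _ hr0
    obtain ⟨rfl, rfl, rfl⟩ := b2_decomp hl
    have hK2 := G.K_right hr0
    rw [hr] at hK2
    simp only [List.length_append, List.length_map] at hK2
    rw [hr] at hr0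
    have htr2 : GTr G c1.q.1 (fun i => c1.tape i (c1.head i))
        (Sum.inl 0, u.drop (u.length - G.B), β' ++ b)
        (fun i => c1.tape i (c1.head i)) ![0, 0] := GTr.uni _ x A α β' b _ hr0
    refine ⟨_, b2_step htr2 ⟨fun l hl => (Sum.inl_ne_inr hl).elim, hbd.1, ?_⟩⟩
    simp only [List.length_append]
    unfold Grammar.B
    omega
  · intro c' hc'
    obtain ⟨a', m, htr', htp, hhd⟩ := hc'
    obtain ⟨x', A', α', β', b', hl, hP', hbuf, hq', ha', hm⟩ := b2_uni_inv htr' _ rfl
    obtain ⟨rfl, rfl, rfl⟩ := b2_decomp hl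
    have hbb : b = b' := by
      have h2 : Sum.inl A :: α ++ b = Sum.inl A :: α ++ b' := hbuf
      exact List.append_cancel_left h2
    subst hbb
    subst ha' hm
    refine h β' hP' c' ⟨hq', hu, ?_, ?_, ?_, ?_⟩
    · rw [hhd 0]
      change c1.head 0 + 0 = _
      rw [h0', add_zero]
    · rw [htp 0, Function.update_eq_self, t0']
    · rw [hhd 1]
      change c1.head 1 + 0 = _
      rw [h1', add_zero]
    · rw [htp 1, Function.update_eq_self, t1']

end Pool.Agent.ACSG48
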