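import Pool.Agent.LibACSG48.B2

/-! ROW B3.  Normalisation of the buffer.
`acc_match`: induction on `v` generalizing `c u b st t`: if the buffer is empty pop first (2 steps, `0 < B`), then `acc_mat`; `3` steps per
letter.  `acc_fill`: first push while `|b| > K` (at most `B` steps, since a state has `|b| ≤ B`: from `c.q.2`), then pop while `|b| < K` and the
stack is nonempty (at most `K` pops, 2 steps each). -/

set_option autoImplicit false

namespace Pool.Agent.ACSG48

variable {T : Type}

variable [Finite T] (G : Grammar T) (w : List T)

theorem acc_match (v : List T) {c : (GM G).Conf} {u : List T} {b st g : List (G.V ⊕ T)} {t : ℕ}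
    (hc : RepN G w c u b st) (hv : b ++ st = v.map Sum.inr ++ g) (hw : u ++ v <+: w)
    (h : ∀ c' b' st', b' ++ st' = g → RepN G w c' (u ++ v) b' st' → (GM G).Acc t c') :
    (GM G).Acc (t + 3 * v.length) c := by
  induction v generalizing c u b st t with
  | nil => exact h c b st (by simpa using hv) (by simpa using hc)
  | cons a v ih =>
    have hpre : u ++ [a] <+: w := by
      refine List.IsPrefix.trans ?_ hw
      exact ⟨v, by simp⟩
    have hw' : (u ++ [a]) ++ v <+: w := by simpa using hw
    have h' : ∀ c' b' st', b' ++ st' = g → RepN G w c' ((u ++ [a]) ++ v) b' st' → (GM G).Acc t c' := by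
      intro c' b' st' hb' hr
      exact h c' b' st' hb' (by simpa using hr)
    have hlen : (a :: v).length = v.length + 1 := rfl
    cases b with
    | nil =>
      cases st with
      | nil => simp at hv
      | cons X st =>
        simp only [List.nil_append, List.map_cons, List.cons_append, List.cons.injEq] at hv
        obtain ⟨rfl, hv⟩ := hv
        have h1 : (GM G).Acc ((t + 3 * v.length + 1) + 2) c := by
          refine acc_pop G w hc (by simp [Grammar.B]) fun c' hc' => ?_
          refine acc_mat G w (a := a) (b := []) (st := st) (by simpa using hc') hpre fun c'' hc'' => ?_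
          exact ih hc'' (by simpa using hv) hw' h'
        exact (GM G).Acc_mono (by rw [hlen]; omega) h1
    | cons X b =>
      simp only [List.map_cons, List.cons_append, List.cons.injEq] at hv
      obtain ⟨rfl, hv⟩ := hv
      have h1 : (GM G).Acc ((t + 3 * v.length) + 1) c :=
        acc_mat G w hc hpre fun c'' hc'' => ih hc'' hv hw' h'
      exact (GM G).Acc_mono (by rw [hlen]; omega) h1

/-- pushing until the buffer is short -/
private theorem B3_push (n : ℕ) {c : (GM G).Conf} {u : List T} {b st : List (G.V ⊕ T)} {t : ℕ}
    (hn : b.length ≤ G.K + n) (hc : RepN G w c u b st)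
    (h : ∀ c' b' st', b' ++ st' = b ++ st → b'.length ≤ G.K → RepN G w c' u b' st' → (GM G).Acc t c') :
    (GM G).Acc (t + n) c := by
  induction n generalizing c b st with
  | zero => exact h c b st rfl (by simpa using hn) hc
  | succ n ih =>
    by_cases hb : b.length ≤ G.K
    · exact (GM G).Acc_mono (by omega) (h c b st rfl hb hc)
    · have hne : b ≠ [] := by
        rintro rfl
        simp at hb
      obtain ⟨b', X, rfl⟩ : ∃ b' X, b = b' ++ [X] := ⟨b.dropLast, b.getLast hne, (List.dropLast_append_getLast hne).symm⟩
      have h1 : (GM G).Acc ((t + n) + 1) c := by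
        refine acc_push G w hc fun c' hc' => ?_
        refine ih (by simp only [List.length_append, List.length_singleton] at hn; omega) hc' ?_
        intro c'' b'' st'' he
        exact h c'' b'' st'' (by rw [he]; simp)
      exact h1

/-- popping until the buffer is full or the stack is empty -/
private theorem B3_pop (n : ℕ) {c : (GM G).Conf} {u : List T} {b st : List (G.V ⊕ T)} {t : ℕ}
    (hn : b.length + n = G.K) (hc : RepN G w c u b st)
    (h : ∀ c' b' st', b' ++ st' = b ++ st → (b'.length = G.K ∨ (b'.length < G.K ∧ st' = [])) →
      RepN G w c' u b' st' → (GM G).Acc t c') :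
    (GM G).Acc (t + 2 * n) c := by
  induction n generalizing c b st with
  | zero => exact h c b st rfl (Or.inl (by simpa using hn)) hc
  | succ n ih =>
    cases st with
    | nil => exact (GM G).Acc_mono (by omega) (h c b [] rfl (Or.inr ⟨by omega, rfl⟩) hc)
    | cons X st =>
      have h1 : (GM G).Acc ((t + 2 * n) + 2) c := by
        refine acc_pop G w hc (by unfold Grammar.B; omega) fun c' hc' => ?_
        refine ih (by simp only [List.length_append, List.length_singleton]; omega) hc' ?_
        intro c'' b'' st'' he
        exact h c'' b'' st'' (by rw [he]; simp)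
      exact h1

theorem acc_fill {c : (GM G).Conf} {u : List T} {b st : List (G.V ⊕ T)} {t : ℕ}
    (hc : RepN G w c u b st)
    (h : ∀ c' b' st', b' ++ st' = b ++ st → (b'.length = G.K ∨ (b'.length < G.K ∧ st' = [])) →
      RepN G w c' u b' st' → (GM G).Acc t c') :
    (GM G).Acc (t + (G.B + 2 * G.K)) c := by
  have hb : b.length ≤ G.B := by
    have h1 := c.q.2.2.2
    rw [hc.1] at h1
    exact h1
  have h1 : (GM G).Acc ((t + 2 * G.K) + G.B) c := by
    refine B3_push G w G.B (by omega) hc fun c' b' st' he hl hr => ?_
    have h2 : (GM G).Acc (t + 2 * (G.K - b'.length)) c' := by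
      refine B3_pop G w (G.K - b'.length) (by omega) hr fun c'' b'' st'' he'' => ?_
      exact h c'' b'' st'' (he''.trans he)
    exact (GM G).Acc_mono (by omega) h2
  exact (GM G).Acc_mono (by omega) h1

end Pool.Agent.ACSG48
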