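import Pool.Agent.LibACSG48.A3
import Pool.Agent.LibACSG48.B1
import Pool.Agent.LibACSG48.B3

/-! ROW B4.  Completeness of `GM G` in linear time and the first half of the theorem.
`GM_complete`: induction on `DerH` (generalizing `c u b st`).  `leaf`: `f = w.map inr`, so `b ++ st = v.map inr` with `w = u ++ v`:
`acc_match` with `g = []`, then `acc_end`.  `exi` / `univ`: `l = x.map inr ++ inl A :: α` (`G.shape`), `f = (γ ++ x).map inr ++ inl A :: (α ++ δ)`;
`γ ++ x <+: w` by `derLM_prefix` (with `derLM_of_derH`), `|u| ≤ |γ ++ x|` because `u.map inr` is a terminal prefix of `f`; `acc_match` (letters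
`v`, `u ++ v = γ ++ x`), `acc_fill`, now `inl A :: α` is a prefix of the buffer because `|inl A :: α| ≤ K`; `acc_exi` or `acc_uni`
(`¬ Univ l` gives `A ∉ U`; `Univ l` and `decomp_unique` give `A ∈ U`), induction hypothesis, `Acc_mono` for the arithmetic.
`altLinTime_langLM`: machine `GM G`, constant `C' = (G.B + 2 * G.K + 2) * C + 5` (`height_bound`, `1 ≤ |w|`).
`nil_notMem_langLM`: `derLM_prefix`. -/

set_option autoImplicit false

namespace Pool.Agent.ACSG48

variable {T : Type}

variable [Finite T] (G : Grammar T)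

private theorem b4_split {V : Type} (y u : List T) (A : V) (g b : List (V ⊕ T))
    (h : y.map Sum.inr ++ Sum.inl A :: g = u.map Sum.inr ++ b) :
    ∃ v : List T, y = u ++ v ∧ b = v.map Sum.inr ++ Sum.inl A :: g := by
  have h1 : u.length ≤ y.length := by
    have h2 := tp_le_of_prefix u b
    rw [← h, tp_map_append] at h2
    exact h2
  have key : ∃ c' : List (V ⊕ T), y.map Sum.inr = u.map Sum.inr ++ c' ∧
      b = c' ++ Sum.inl A :: g := by
    rcases List.append_eq_append_iff.1 h with ⟨a', h2, h3⟩ | ⟨c', h2, h3⟩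
    · have h4 : a' = [] := by
        have h5 := congrArg List.length h2
        simp only [List.length_map, List.length_append] at h5
        exact List.eq_nil_of_length_eq_zero (by omega)
      subst h4
      refine ⟨[], ?_, ?_⟩
      · simpa using h2.symm
      · simpa using h3.symm
    · exact ⟨c', h2, h3⟩
  obtain ⟨c', h2, h3⟩ := key
  obtain ⟨l1, l2, h4, h5, h6⟩ := List.map_eq_append_iff.1 h2
  have h7 : l1 = u := (List.map_injective_iff.2 Sum.inr_injective) h5
  subst h7
  exact ⟨l2, h4, by rw [h3, ← h6]⟩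

private theorem b4_common (w : List T) {c : (GM G).Conf} {u : List T} {b st : List (G.V ⊕ T)}
    (hc : RepN G w c u b st) {y : List T} {A : G.V} {α δ : List (G.V ⊕ T)}
    (hK : (Sum.inl A :: α : List (G.V ⊕ T)).length ≤ G.K)
    (hfu : y.map Sum.inr ++ Sum.inl A :: (α ++ δ) = u.map Sum.inr ++ (b ++ st))
    (hpre : y <+: w) {t : ℕ}
    (h : ∀ c' b0 st', δ = b0 ++ st' → b0.length ≤ G.K →
      RepN G w c' y (Sum.inl A :: α ++ b0) st' → (GM G).Acc t c') :
    (GM G).Acc (t + (G.B + 2 * G.K) + 3 * (y.length - u.length)) c := by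
  obtain ⟨v, rfl, hv⟩ := b4_split y u A (α ++ δ) (b ++ st) hfu
  have h1 : (u ++ v).length - u.length = v.length := by
    rw [List.length_append]
    omega
  rw [h1]
  refine acc_match G w v hc hv hpre ?_
  intro c1 b1 st1 h2 h3
  refine acc_fill G w h3 ?_
  intro c2 b2 st2 h4 h5 h6
  rw [h2] at h4
  have h7 : b2 ++ st2 = (Sum.inl A :: α) ++ δ := by rw [h4]; rfl
  have hb2K : b2.length ≤ G.K := by
    rcases h5 with h8 | ⟨h8, _⟩ <;> omega
  have hlen : (Sum.inl A :: α : List (G.V ⊕ T)).length ≤ b2.length := by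
    rcases h5 with h8 | ⟨_, h8⟩
    · omega
    · subst h8
      have h9 := congrArg List.length h7
      rw [List.append_nil, List.length_append] at h9
      omega
  have key : ∃ b0, b2 = (Sum.inl A :: α) ++ b0 ∧ δ = b0 ++ st2 := by
    rcases List.append_eq_append_iff.1 h7 with ⟨a', h8, h9⟩ | ⟨c', h8, h9⟩
    · have h10 : a' = [] := by
        have h11 := congrArg List.length h8
        rw [List.length_append] at h11
        exact List.eq_nil_of_length_eq_zero (by omega)
      subst h10
      refine ⟨[], ?_, ?_⟩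
      · simpa using h8.symm
      · simpa using h9.symm
    · exact ⟨c', h8, h9⟩
  obtain ⟨b0, h8, h9⟩ := key
  rw [h8] at h6
  refine h c2 b0 st2 h9 ?_ h6
  have h10 := congrArg List.length h8
  rw [List.length_append] at h10
  omega

theorem GM_complete (w : List T) {h : ℕ} {f : List (G.V ⊕ T)} (hf : G.DerH w h f) {c : (GM G).Conf} {u : List T}
    {b st : List (G.V ⊕ T)} (hc : RepN G w c u b st) (hfu : f = u.map Sum.inr ++ (b ++ st)) :
    (GM G).Acc ((G.B + 2 * G.K + 2) * h + 3 * (w.length - u.length) + 2) c := by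
  induction hf generalizing c u b st with
  | leaf h =>
    obtain ⟨v, hv⟩ := hc.2.1
    subst hv
    rw [List.map_append] at hfu
    have h1 : v.map Sum.inr = b ++ st := List.append_cancel_left hfu
    have h2 := acc_match G (u ++ v) v (g := []) (t := 2) hc (by rw [List.append_nil, h1])
      (List.prefix_refl _) (by
        intro c' b' st' h3 h4
        obtain ⟨rfl, rfl⟩ := List.append_eq_nil_iff.1 h3
        exact acc_end G (u ++ v) (t := 0) h4)
    refine ATM.Acc_mono _ ?_ h2
    have h3 : (u ++ v).length - u.length = v.length := by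
      rw [List.length_append]
      omega
    rw [h3]
    omega
  | exi h γ l r δ hP hU hder ih =>
    obtain ⟨x, A, α, β, rfl, rfl⟩ := G.shape l r hP
    have hD := Grammar.DerLM.exi γ _ _ δ hP hU (derLM_of_derH G w hder)
    have he : γ.map Sum.inr ++ (x.map Sum.inr ++ Sum.inl A :: α) ++ δ
        = (γ ++ x).map Sum.inr ++ Sum.inl A :: (α ++ δ) := by simp
    have hpre : γ ++ x <+: w := (derLM_prefix G w hD).2 _ _ he
    have hA : A ∉ G.U := fun hA => hU ⟨x, A, α, rfl, hA⟩
    have hK : (Sum.inl A :: α : List (G.V ⊕ T)).length ≤ G.K := by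
      have h1 := G.K_left hP
      rw [List.length_append] at h1
      omega
    have h1 := b4_common G w hc hK (he.symm.trans hfu) hpre
      (t := (G.B + 2 * G.K + 2) * h + 3 * (w.length - (γ ++ x).length) + 2 + 1) (by
        intro c' b0 st' h2 h3 h4
        refine acc_exi G w h4 (List.suffix_append _ _) hA hP h3 ?_
        intro c2 h5
        refine ih h5 ?_
        rw [h2]
        simp)
    refine ATM.Acc_mono _ ?_ h1
    obtain ⟨v, hv, -⟩ := b4_split (γ ++ x) u A (α ++ δ) (b ++ st) (he.symm.trans hfu)
    have h2 := hpre.length_le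
    have h3 : u.length ≤ (γ ++ x).length := by
      rw [hv, List.length_append]
      omega
    have h4 : (G.B + 2 * G.K + 2) * (h + 1) = (G.B + 2 * G.K + 2) * h + (G.B + 2 * G.K + 2) := by
      ring
    rw [h4]
    omega
  | univ h γ l δ hU hex hder ih =>
    obtain ⟨r0, hr0⟩ := hex
    obtain ⟨x, A, α, β0, hl, -⟩ := G.shape l r0 hr0
    subst hl
    have hD := Grammar.DerLM.univ γ _ δ hU ⟨r0, hr0⟩
      (fun r hr => derLM_of_derH G w (hder r hr))
    have he : γ.map Sum.inr ++ (x.map Sum.inr ++ Sum.inl A :: α) ++ δ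
        = (γ ++ x).map Sum.inr ++ Sum.inl A :: (α ++ δ) := by simp
    have hpre : γ ++ x <+: w := (derLM_prefix G w hD).2 _ _ he
    have hA : A ∈ G.U := by
      obtain ⟨x', A', α', h1, h2⟩ := hU
      obtain ⟨-, rfl, -⟩ := decomp_unique h1
      exact h2
    have hK : (Sum.inl A :: α : List (G.V ⊕ T)).length ≤ G.K := by
      have h1 := G.K_left hr0
      rw [List.length_append] at h1
      omega
    have h1 := b4_common G w hc hK (he.symm.trans hfu) hpre
      (t := (G.B + 2 * G.K + 2) * h + 3 * (w.length - (γ ++ x).length) + 2 + 2) (by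
        intro c' b0 st' h2 h3 h4
        refine acc_uni G w h4 (List.suffix_append _ _) hA ⟨r0, hr0⟩ h3 ?_
        intro β hβ c2 h5
        refine ih _ hβ h5 ?_
        rw [h2]
        simp)
    refine ATM.Acc_mono _ ?_ h1
    obtain ⟨v, hv, -⟩ := b4_split (γ ++ x) u A (α ++ δ) (b ++ st) (he.symm.trans hfu)
    have h2 := hpre.length_le
    have h3 : u.length ≤ (γ ++ x).length := by
      rw [hv, List.length_append]
      omega
    have h4 : (G.B + 2 * G.K + 2) * (h + 1) = (G.B + 2 * G.K + 2) * h + (G.B + 2 * G.K + 2) := by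
      ring
    rw [h4]
    omega

theorem altLinTime_langLM : AltLinTime G.langLM := by
  obtain ⟨C, hC⟩ := height_bound G
  refine ⟨GM G, (G.B + 2 * G.K + 2) * C + 5, ?_⟩
  intro w hw
  have hlen : 1 ≤ w.length := List.length_pos_iff.2 hw
  constructor
  · intro h
    have h1 := GM_complete G w (hC w h) (repN_init G w) (by simp)
    refine ATM.Acc_mono _ ?_ h1
    have h2 : ((G.B + 2 * G.K + 2) * C + 5) * w.length
        = (G.B + 2 * G.K + 2) * (C * w.length) + 5 * w.length := by ring
    rw [h2, List.length_nil, Nat.sub_zero]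
    omega
  · intro t ht
    exact GM_sound G w t _ _ (rep_init G w) ht

theorem nil_notMem_langLM : ([] : List T) ∉ G.langLM := by
  intro h
  have h1 := (derLM_prefix G [] h).1
  simp at h1

end Pool.Agent.ACSG48
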