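import Pool.Agent.LibACSG48.Defs

/-!
# Block C: alternating pushdown automata that read a letter whenever they pop.  Definitions.
-/

set_option autoImplicit false

namespace Pool.Agent.ACSG48

variable {T : Type}

/-- an alternating pushdown automaton whose pops read a letter (state and stack types need not be finite here) -/
structure PD (T : Type) where
  Q : Type
  Z : Type
  /-- universal states -/
  univ : Set Q
  /-- universal branches; the top symbol stays -/
  un : Q → Z → Q → Prop
  /-- replace the top symbol -/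
  eps : Q → Z → Q → Z → Prop
  /-- push a new top symbol -/
  push : Q → Z → Q → Z → Prop
  /-- read a letter, keep the stack -/
  read : Q → Z → T → Q → Prop
  /-- read a letter and pop -/
  pop : Q → Z → T → Q → Prop
  /-- the last letter is read and the last symbol is popped -/
  fin : Q → Z → T → Prop
  start : Q
  bot : Z

/-- `D.Win q st w`: the existential player wins from state `q`, stack `st` (top first), unread input `w` -/
inductive PD.Win (D : PD T) : D.Q → List D.Z → List T → Prop
  | un (q : D.Q) (z : D.Z) (s : List D.Z) (w : List T) : q ∈ D.univ → (∃ q', D.un q z q') →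
      (∀ q', D.un q z q' → PD.Win D q' (z :: s) w) → PD.Win D q (z :: s) w
  | eps (q : D.Q) (z : D.Z) (q' : D.Q) (z' : D.Z) (s : List D.Z) (w : List T) : q ∉ D.univ → D.eps q z q' z' →
      PD.Win D q' (z' :: s) w → PD.Win D q (z :: s) w
  | push (q : D.Q) (z : D.Z) (q' : D.Q) (z' : D.Z) (s : List D.Z) (w : List T) : q ∉ D.univ → D.push q z q' z' →
      PD.Win D q' (z' :: z :: s) w → PD.Win D q (z :: s) w
  | read (q : D.Q) (z : D.Z) (a : T) (q' : D.Q) (s : List D.Z) (w : List T) : q ∉ D.univ → D.read q z a q' →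
      PD.Win D q' (z :: s) w → PD.Win D q (z :: s) (a :: w)
  | pop (q : D.Q) (z : D.Z) (a : T) (q' : D.Q) (s : List D.Z) (w : List T) : q ∉ D.univ → D.pop q z a q' → s ≠ [] →
      PD.Win D q' s w → PD.Win D q (z :: s) (a :: w)
  | fin (q : D.Q) (z : D.Z) (a : T) : q ∉ D.univ → D.fin q z a → PD.Win D q [z] [a]

/-- `S` is closed under the transitions -/
structure PD.Closed (D : PD T) (S : Set D.Q) : Prop where
  start : D.start ∈ S
  un : ∀ q z q', q ∈ S → D.un q z q' → q' ∈ S
  eps : ∀ q z q' z', q ∈ S → D.eps q z q' z' → q' ∈ S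
  push : ∀ q z q' z', q ∈ S → D.push q z q' z' → q' ∈ S
  read : ∀ q z a q', q ∈ S → D.read q z a q' → q' ∈ S
  pop : ∀ q z a q', q ∈ S → D.pop q z a q' → q' ∈ S

/-- conditions on (stack, unread input) which pushdown automata can check -/
inductive Check
  /-- `|w| = 3 |st| + c` -/
  | eqc (c : ℤ)
  /-- `|st| ≤ |w|` and `|w| ≠ 3 |st| + c` -/
  | nec (c : ℤ)
  /-- `|st| ≤ |w|` -/
  | flush
  /-- `|st| = 1`, `w ≠ []` -/
  | last
  /-- all symbols of the stack are blocks of letters, and `w` is their concatenation -/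
  | ver

def Check.Holds {Z : Type} (blk : Z → Option (List T)) (st : List Z) (w : List T) : Check → Prop
  | .eqc c => (w.length : ℤ) = 3 * st.length + c
  | .nec c => st.length ≤ w.length ∧ (w.length : ℤ) ≠ 3 * st.length + c
  | .flush => st.length ≤ w.length
  | .last => st.length = 1 ∧ w ≠ []
  | .ver => ∃ ls : List (List T), st.map blk = ls.map some ∧ w = ls.flatten

/-- pushdown automata with calls of checks and pops reading several letters -/
structure GPD (T : Type) where
  Q : Type
  Z : Type
  univ : Set Q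
  un : Q → Z → Q → Prop
  eps : Q → Z → Q → Z → Prop
  push : Q → Z → Q → Z → Prop
  /-- pop reading exactly `r` letters -/
  popr : Q → Z → ℕ → Q → Prop
  /-- call a check (it decides the play) -/
  call : Q → Check → Prop
  blk : Z → Option (List T)
  start : Q
  bot : Z

inductive GPD.GWin (D : GPD T) : D.Q → List D.Z → List T → Prop
  | un (q : D.Q) (z : D.Z) (s : List D.Z) (w : List T) : q ∈ D.univ → (∃ q', D.un q z q') →
      (∀ q', D.un q z q' → GPD.GWin D q' (z :: s) w) → GPD.GWin D q (z :: s) w
  | eps (q : D.Q) (z : D.Z) (q' : D.Q) (z' : D.Z) (s : List D.Z) (w : List T) : q ∉ D.univ → D.eps q z q' z' →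
      GPD.GWin D q' (z' :: s) w → GPD.GWin D q (z :: s) w
  | push (q : D.Q) (z : D.Z) (q' : D.Q) (z' : D.Z) (s : List D.Z) (w : List T) : q ∉ D.univ → D.push q z q' z' →
      GPD.GWin D q' (z' :: z :: s) w → GPD.GWin D q (z :: s) w
  | popr (q : D.Q) (z : D.Z) (r : ℕ) (q' : D.Q) (s : List D.Z) (v w : List T) : q ∉ D.univ → D.popr q z r q' →
      v.length = r → s ≠ [] → GPD.GWin D q' s w → GPD.GWin D q (z :: s) (v ++ w)
  | call (q : D.Q) (ck : Check) (st : List D.Z) (w : List T) : q ∉ D.univ → D.call q ck → st ≠ [] →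
      ck.Holds D.blk st w → GPD.GWin D q st w

/-- `S` is closed under the transitions, pops read between `1` and `R` letters, the constants of the checks are between
`0` and `R` -/
structure GPD.Closed (D : GPD T) (S : Set D.Q) (R : ℕ) : Prop where
  start : D.start ∈ S
  un : ∀ q z q', q ∈ S → D.un q z q' → q' ∈ S
  eps : ∀ q z q' z', q ∈ S → D.eps q z q' z' → q' ∈ S
  push : ∀ q z q' z', q ∈ S → D.push q z q' z' → q' ∈ S
  popr : ∀ q z r q', q ∈ S → D.popr q z r q' → q' ∈ S ∧ 1 ≤ r ∧ r ≤ R
  eqc : ∀ q c, q ∈ S → D.call q (.eqc c) → 0 ≤ c ∧ c ≤ R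
  nec : ∀ q c, q ∈ S → D.call q (.nec c) → 0 ≤ c ∧ c ≤ R
  blk : ∀ z l, D.blk z = some l → l ≠ [] ∧ l.length ≤ R

end Pool.Agent.ACSG48
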