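import Pool.Agent.LibACSG48.C0

/-! ROW C1.  Every pushdown automaton with finitely many states gives an alternating context-sensitive grammar, leftmost mode.
Variables: pairs `[q, z]` (state, top symbol) and stack symbols `z`; the sentential forms are `u [q,z] z₂ … z_m`. -/

set_option autoImplicit false

namespace Pool.Agent.ACSG48

variable {T : Type}

/-- the variable `[q, z]` -/
def c1_pv (D : PD T) (S : Set D.Q) (q : S) (z : D.Z) : ((S × D.Z) ⊕ D.Z) ⊕ T := Sum.inl (Sum.inl (q, z))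

/-- the variable `z` -/
def c1_sv (D : PD T) (S : Set D.Q) (z : D.Z) : ((S × D.Z) ⊕ D.Z) ⊕ T := Sum.inl (Sum.inr z)

/-- the productions -/
inductive C1P (D : PD T) (S : Set D.Q) : List (((S × D.Z) ⊕ D.Z) ⊕ T) → List (((S × D.Z) ⊕ D.Z) ⊕ T) → Prop
  | un (q : S) (z : D.Z) (q' : S) : q.1 ∈ D.univ → D.un q.1 z q'.1 →
      C1P D S [c1_pv D S q z] [c1_pv D S q' z]
  | eps (q : S) (z : D.Z) (q' : S) (z' : D.Z) : q.1 ∉ D.univ → D.eps q.1 z q'.1 z' →
      C1P D S [c1_pv D S q z] [c1_pv D S q' z']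
  | push (q : S) (z : D.Z) (q' : S) (z' : D.Z) : q.1 ∉ D.univ → D.push q.1 z q'.1 z' →
      C1P D S [c1_pv D S q z] [c1_pv D S q' z', c1_sv D S z]
  | read (q : S) (z : D.Z) (a : T) (q' : S) : q.1 ∉ D.univ → D.read q.1 z a q'.1 →
      C1P D S [c1_pv D S q z] [Sum.inr a, c1_pv D S q' z]
  | pop (q : S) (z : D.Z) (a : T) (q' : S) (z₂ : D.Z) : q.1 ∉ D.univ → D.pop q.1 z a q'.1 →
      C1P D S [c1_pv D S q z, c1_sv D S z₂] [Sum.inr a, c1_pv D S q' z₂]
  | fin (q : S) (z : D.Z) (a : T) : q.1 ∉ D.univ → D.fin q.1 z a →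
      C1P D S [c1_pv D S q z] [Sum.inr a]

theorem C1P.left {D : PD T} {S : Set D.Q} {l r : List (((S × D.Z) ⊕ D.Z) ⊕ T)} (h : C1P D S l r) :
    ∃ (q : S) (z : D.Z) (α : List (((S × D.Z) ⊕ D.Z) ⊕ T)), l = c1_pv D S q z :: α := by
  cases h with
  | un q z q' h1 h2 => exact ⟨q, z, [], rfl⟩
  | eps q z q' z' h1 h2 => exact ⟨q, z, [], rfl⟩
  | push q z q' z' h1 h2 => exact ⟨q, z, [], rfl⟩
  | read q z a q' h1 h2 => exact ⟨q, z, [], rfl⟩
  | pop q z a q' z₂ h1 h2 => exact ⟨q, z, [c1_sv D S z₂], rfl⟩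
  | fin q z a h1 h2 => exact ⟨q, z, [], rfl⟩

theorem C1P.len {D : PD T} {S : Set D.Q} {l r : List (((S × D.Z) ⊕ D.Z) ⊕ T)} (h : C1P D S l r) :
    l.length ≤ 2 ∧ r.length ≤ 2 ∧ l.length ≤ r.length := by
  cases h <;> simp

/-- the grammar -/
def c1_G [Finite T] (D : PD T) [Finite D.Z] (S : Set D.Q) (hS : S.Finite) (h0 : D.start ∈ S) :
    Grammar T where
  V := (S × D.Z) ⊕ D.Z
  finV := by
    have := hS.to_subtype
    infer_instance
  U := {v | ∃ (q : S) (z : D.Z), v = Sum.inl (q, z) ∧ q.1 ∈ D.univ}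
  S := Sum.inl (⟨D.start, h0⟩, D.bot)
  P := {p | C1P D S p.1 p.2}
  finP := by
    have := hS.to_subtype
    have h1 : ({l | l.length ≤ 2} : Set (List (((S × D.Z) ⊕ D.Z) ⊕ T))).Finite :=
      List.finite_length_le _ 2
    refine (h1.prod h1).subset ?_
    rintro ⟨l, r⟩ h
    exact ⟨(C1P.len h).1, (C1P.len h).2.1⟩
  shape := by
    intro l r h
    obtain ⟨q, z, α, hl⟩ := C1P.left h
    exact ⟨[], Sum.inl (q, z), α, r, hl, rfl⟩
  mono := by
    intro l r h
    exact (C1P.len h).2.2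

theorem c1_split {A B : Type} : ∀ (γ u : List B) (a b : A) (X Y : List (A ⊕ B)),
    γ.map Sum.inr ++ Sum.inl a :: X = u.map Sum.inr ++ Sum.inl b :: Y → γ = u ∧ a = b ∧ X = Y := by
  intro γ
  induction γ with
  | nil =>
    intro u a b X Y h
    cases u with
    | nil =>
      simp only [List.map_nil, List.nil_append, List.cons.injEq, Sum.inl.injEq] at h
      exact ⟨rfl, h.1, h.2⟩
    | cons c u =>
      simp at h
  | cons c γ ih =>
    intro u a b X Y h
    cases u with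
    | nil => simp at h
    | cons d u =>
      simp only [List.map_cons, List.cons_append, List.cons.injEq, Sum.inr.injEq] at h
      obtain ⟨h1, h2, h3⟩ := ih u a b X Y h.2
      exact ⟨by rw [h.1, h1], h2, h3⟩

section

variable (D : PD T) (S : Set D.Q)

/-- universal left-hand sides -/
def C1U (l : List (((S × D.Z) ⊕ D.Z) ⊕ T)) : Prop :=
  ∃ (x : List T) (A : (S × D.Z) ⊕ D.Z) (α : List (((S × D.Z) ⊕ D.Z) ⊕ T)),
    l = x.map Sum.inr ++ Sum.inl A :: α ∧ ∃ (q : S) (z : D.Z), A = Sum.inl (q, z) ∧ q.1 ∈ D.univ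

/-- leftmost derivations -/
inductive C1D (w : List T) : List (((S × D.Z) ⊕ D.Z) ⊕ T) → Prop
  | leaf : C1D w (w.map Sum.inr)
  | exi (γ : List T) (l r δ : List (((S × D.Z) ⊕ D.Z) ⊕ T)) : C1P D S l r → ¬ C1U D S l →
      C1D w (γ.map Sum.inr ++ r ++ δ) → C1D w (γ.map Sum.inr ++ l ++ δ)
  | univ (γ : List T) (l δ : List (((S × D.Z) ⊕ D.Z) ⊕ T)) : C1U D S l → (∃ r, C1P D S l r) →
      (∀ r, C1P D S l r → C1D w (γ.map Sum.inr ++ r ++ δ)) →
      C1D w (γ.map Sum.inr ++ l ++ δ)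

theorem c1_toD [Finite T] [Finite D.Z] (hS : S.Finite) (h0 : D.start ∈ S) {w : List T}
    {f : List ((c1_G D S hS h0).V ⊕ T)} (h : (c1_G D S hS h0).DerLM w f) : C1D D S w f := by
  induction h with
  | leaf => exact C1D.leaf
  | exi γ l r δ h1 h2 h3 ih => exact C1D.exi γ l r δ h1 h2 ih
  | univ γ l δ h1 h2 h3 ih => exact C1D.univ γ l δ h1 h2 ih

theorem c1_ofD [Finite T] [Finite D.Z] (hS : S.Finite) (h0 : D.start ∈ S) {w : List T}
    {f : List (((S × D.Z) ⊕ D.Z) ⊕ T)} (h : C1D D S w f) : (c1_G D S hS h0).DerLM w f := by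
  induction h with
  | leaf => exact Grammar.DerLM.leaf
  | exi γ l r δ h1 h2 h3 ih => exact Grammar.DerLM.exi (G := c1_G D S hS h0) γ l r δ h1 h2 ih
  | univ γ l δ h1 h2 h3 ih => exact Grammar.DerLM.univ (G := c1_G D S hS h0) γ l δ h1 h2 ih

end

section

variable (D : PD T) (S : Set D.Q) (hcl : D.Closed S)

/-- the sentential form -/
def c1_form (u : List T) (q : S) (z : D.Z) (s : List D.Z) : List (((S × D.Z) ⊕ D.Z) ⊕ T) :=
  u.map Sum.inr ++ c1_pv D S q z :: s.map (c1_sv D S)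

theorem c1_univ (l : List (((S × D.Z) ⊕ D.Z) ⊕ T)) (q : S) (z : D.Z)
    (α : List (((S × D.Z) ⊕ D.Z) ⊕ T)) (hl : l = c1_pv D S q z :: α) :
    C1U D S l ↔ q.1 ∈ D.univ := by
  subst hl
  constructor
  · rintro ⟨x, A, β, h1, q', z', h2, h3⟩
    have h4 := c1_split ([] : List T) x (Sum.inl (q, z) : (S × D.Z) ⊕ D.Z) A α β h1
    obtain ⟨-, h5, -⟩ := h4
    rw [h2] at h5
    injection h5 with h6
    injection h6 with h7 h8
    rw [h7]
    exact h3
  · intro h
    exact ⟨[], Sum.inl (q, z), α, rfl, q, z, rfl, h⟩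

include hcl in
theorem c1_complete {q : D.Q} {st : List D.Z} {w : List T} (h : D.Win q st w) (hq : q ∈ S) :
    ∀ (z : D.Z) (s : List D.Z), st = z :: s → ∀ u : List T,
      C1D D S (u ++ w) (c1_form D S u ⟨q, hq⟩ z s) := by
  induction h with
  | un q z s w h1 h2 h3 ih =>
    intro z' s' hs u
    obtain ⟨rfl, rfl⟩ := List.cons.inj hs
    have e : c1_form D S u ⟨q, hq⟩ z s =
        u.map Sum.inr ++ [c1_pv D S ⟨q, hq⟩ z] ++ s.map (c1_sv D S) := by
      simp [c1_form]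
    rw [e]
    refine C1D.univ u _ _
      ((c1_univ D S _ ⟨q, hq⟩ z [] rfl).2 h1) ?_ ?_
    · obtain ⟨q', hq'⟩ := h2
      exact ⟨[c1_pv D S ⟨q', hcl.un _ _ _ hq hq'⟩ z], C1P.un _ _ _ h1 hq'⟩
    · intro r hr
      have hr' : C1P D S [c1_pv D S ⟨q, hq⟩ z] r := hr
      generalize hl : [c1_pv D S ⟨q, hq⟩ z] = l at hr'
      cases hr' with
      | un q1 z1 q' g1 g2 =>
        have hl' := (List.cons.inj hl).1
        have e1 : (⟨q, hq⟩ : S) = q1 ∧ z = z1 := by
          have := Sum.inl.inj hl'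
          have := Sum.inl.inj this
          exact ⟨congrArg Prod.fst this, congrArg Prod.snd this⟩
        obtain ⟨e1, e2⟩ := e1
        subst e1
        subst e2
        have := ih q'.1 g2 q'.2 z s rfl u
        have e3 : c1_form D S u q' z s =
            u.map Sum.inr ++ [c1_pv D S q' z] ++ s.map (c1_sv D S) := by
          simp [c1_form]
        rw [← e3]
        exact this
      | eps q1 z1 q' z' g1 g2 =>
        have hl' := (List.cons.inj hl).1
        have := Sum.inl.inj (Sum.inl.inj hl')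
        have e1 : (⟨q, hq⟩ : S) = q1 := congrArg Prod.fst this
        exact absurd (by rw [← e1]; exact h1) g1
      | push q1 z1 q' z' g1 g2 =>
        have hl' := (List.cons.inj hl).1
        have := Sum.inl.inj (Sum.inl.inj hl')
        have e1 : (⟨q, hq⟩ : S) = q1 := congrArg Prod.fst this
        exact absurd (by rw [← e1]; exact h1) g1
      | read q1 z1 a q' g1 g2 =>
        have hl' := (List.cons.inj hl).1
        have := Sum.inl.inj (Sum.inl.inj hl')
        have e1 : (⟨q, hq⟩ : S) = q1 := congrArg Prod.fst this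
        exact absurd (by rw [← e1]; exact h1) g1
      | pop q1 z1 a q' z₂ g1 g2 =>
        have hl' := (List.cons.inj hl).1
        have := Sum.inl.inj (Sum.inl.inj hl')
        have e1 : (⟨q, hq⟩ : S) = q1 := congrArg Prod.fst this
        exact absurd (by rw [← e1]; exact h1) g1
      | fin q1 z1 a g1 g2 =>
        have hl' := (List.cons.inj hl).1
        have := Sum.inl.inj (Sum.inl.inj hl')
        have e1 : (⟨q, hq⟩ : S) = q1 := congrArg Prod.fst this
        exact absurd (by rw [← e1]; exact h1) g1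
  | eps q z q' z' s w h1 h2 h3 ih =>
    intro z1 s1 hs u
    obtain ⟨rfl, rfl⟩ := List.cons.inj hs
    have e : c1_form D S u ⟨q, hq⟩ z s =
        u.map Sum.inr ++ [c1_pv D S ⟨q, hq⟩ z] ++ s.map (c1_sv D S) := by
      simp [c1_form]
    rw [e]
    have hq' := hcl.eps _ _ _ _ hq h2
    refine C1D.exi u _ [c1_pv D S ⟨q', hq'⟩ z'] _
      (C1P.eps _ _ _ _ h1 h2) (fun hu => h1 ((c1_univ D S _ ⟨q, hq⟩ z [] rfl).1 hu)) ?_
    have := ih hq' z' s rfl u
    simpa [c1_form] using this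
  | push q z q' z' s w h1 h2 h3 ih =>
    intro z1 s1 hs u
    obtain ⟨rfl, rfl⟩ := List.cons.inj hs
    have e : c1_form D S u ⟨q, hq⟩ z s =
        u.map Sum.inr ++ [c1_pv D S ⟨q, hq⟩ z] ++ s.map (c1_sv D S) := by
      simp [c1_form]
    rw [e]
    have hq' := hcl.push _ _ _ _ hq h2
    refine C1D.exi u _
      [c1_pv D S ⟨q', hq'⟩ z', c1_sv D S z] _
      (C1P.push _ _ _ _ h1 h2) (fun hu => h1 ((c1_univ D S _ ⟨q, hq⟩ z [] rfl).1 hu)) ?_
    have := ih hq' z' (z :: s) rfl u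
    simpa [c1_form] using this
  | read q z a q' s w h1 h2 h3 ih =>
    intro z1 s1 hs u
    obtain ⟨rfl, rfl⟩ := List.cons.inj hs
    have e : c1_form D S u ⟨q, hq⟩ z s =
        u.map Sum.inr ++ [c1_pv D S ⟨q, hq⟩ z] ++ s.map (c1_sv D S) := by
      simp [c1_form]
    rw [e]
    have hq' := hcl.read _ _ _ _ hq h2
    refine C1D.exi u _
      [Sum.inr a, c1_pv D S ⟨q', hq'⟩ z] _
      (C1P.read _ _ _ _ h1 h2) (fun hu => h1 ((c1_univ D S _ ⟨q, hq⟩ z [] rfl).1 hu)) ?_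
    have := ih hq' z s rfl (u ++ [a])
    simpa [c1_form] using this
  | pop q z a q' s w h1 h2 h3 h4 ih =>
    intro z1 s1 hs u
    obtain ⟨rfl, rfl⟩ := List.cons.inj hs
    obtain ⟨z₂, s', rfl⟩ := List.exists_cons_of_ne_nil h3
    have e : c1_form D S u ⟨q, hq⟩ z (z₂ :: s') =
        u.map Sum.inr ++ [c1_pv D S ⟨q, hq⟩ z, c1_sv D S z₂] ++ s'.map (c1_sv D S) := by
      simp [c1_form]
    rw [e]
    have hq' := hcl.pop _ _ _ _ hq h2
    refine C1D.exi u _
      [Sum.inr a, c1_pv D S ⟨q', hq'⟩ z₂] _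
      (C1P.pop _ _ _ _ _ h1 h2)
      (fun hu => h1 ((c1_univ D S _ ⟨q, hq⟩ z [c1_sv D S z₂] rfl).1 hu)) ?_
    have := ih hq' z₂ s' rfl (u ++ [a])
    simpa [c1_form] using this
  | fin q z a h1 h2 =>
    intro z1 s1 hs u
    obtain ⟨rfl, rfl⟩ := List.cons.inj hs
    have e : c1_form D S u ⟨q, hq⟩ z [] =
        u.map Sum.inr ++ [c1_pv D S ⟨q, hq⟩ z] ++ [] := by
      simp [c1_form]
    rw [e]
    refine C1D.exi u _
      [Sum.inr a] _
      (C1P.fin _ _ _ h1 h2) (fun hu => h1 ((c1_univ D S _ ⟨q, hq⟩ z [] rfl).1 hu)) ?_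
    have := C1D.leaf (D := D) (S := S) (w := u ++ [a])
    simpa using this

theorem c1_nopair {w : List T} {f : List (((S × D.Z) ⊕ D.Z) ⊕ T)}
    (h : C1D D S w f) (hf : ∀ (q : S) (z : D.Z), c1_pv D S q z ∉ f) :
    f = w.map Sum.inr := by
  cases h with
  | leaf => rfl
  | exi γ l r δ h1 h2 h3 =>
    obtain ⟨q, z, α, hl⟩ := C1P.left h1
    refine absurd ?_ (hf q z)
    rw [hl]
    simp
  | univ γ l δ h1 h2 h3 =>
    obtain ⟨r, hr⟩ := h2
    obtain ⟨q, z, α, hl⟩ := C1P.left hr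
    refine absurd ?_ (hf q z)
    rw [hl]
    simp

theorem c1_end (u : List T) (a : T) (s : List D.Z) (w : List T)
    (h : (u.map Sum.inr ++ [Sum.inr a] ++ s.map (c1_sv D S) : List (((S × D.Z) ⊕ D.Z) ⊕ T)) =
      w.map Sum.inr) : s = [] ∧ w = u ++ [a] := by
  cases s with
  | nil =>
    refine ⟨rfl, ?_⟩
    have h1 : (u ++ [a]).map (Sum.inr : T → ((S × D.Z) ⊕ D.Z) ⊕ T) = w.map Sum.inr := by
      simpa using h
    exact (List.map_injective_iff.2 Sum.inr_injective h1).symm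
  | cons z s =>
    exfalso
    have h1 : c1_sv D S z ∈ w.map (Sum.inr : T → ((S × D.Z) ⊕ D.Z) ⊕ T) := by
      rw [← h]
      simp
    obtain ⟨b, _, hb⟩ := List.mem_map.1 h1
    exact absurd hb (by simp [c1_sv])

include hcl in
theorem c1_sound {w : List T} {f : List (((S × D.Z) ⊕ D.Z) ⊕ T)}
    (h : C1D D S w f) :
    ∀ (u : List T) (q : S) (z : D.Z) (s : List D.Z), f = c1_form D S u q z s →
      ∃ w', w = u ++ w' ∧ D.Win q.1 (z :: s) w' := by
  induction h with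
  | leaf =>
    intro u q z s hf
    exfalso
    have h1 : c1_pv D S q z ∈ w.map (Sum.inr : T → ((S × D.Z) ⊕ D.Z) ⊕ T) := by
      have h2 : (w.map Sum.inr : List (((S × D.Z) ⊕ D.Z) ⊕ T)) = c1_form D S u q z s := hf
      rw [h2]
      simp [c1_form]
    obtain ⟨b, _, hb⟩ := List.mem_map.1 h1
    exact absurd hb (by simp [c1_pv])
  | exi γ l r δ h1 h2 h3 ih =>
    intro u q z s hf
    have hP : C1P D S l r := h1
    clear h1
    cases hP with
    | un q1 z1 q' g1 g2 =>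
      exact absurd ((c1_univ D S _ q1 z1 [] rfl).2 g1) h2
    | eps q1 z1 q' z' g1 g2 =>
      have hf' : γ.map Sum.inr ++ Sum.inl (Sum.inl (q1, z1)) :: δ =
          u.map Sum.inr ++ Sum.inl (Sum.inl (q, z)) :: s.map (c1_sv D S) := by
        simpa [c1_form, c1_pv] using hf
      obtain ⟨e1, e2, e3⟩ := c1_split _ _ _ _ _ _ hf'
      have e4 := Sum.inl.inj e2
      obtain ⟨rfl, rfl⟩ := Prod.mk.inj e4
      subst e1
      subst e3
      obtain ⟨w', hw, hwin⟩ := ih γ q' z' s (by simp [c1_form])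
      exact ⟨w', hw, PD.Win.eps _ _ _ _ _ _ g1 g2 hwin⟩
    | push q1 z1 q' z' g1 g2 =>
      have hf' : γ.map Sum.inr ++ Sum.inl (Sum.inl (q1, z1)) :: δ =
          u.map Sum.inr ++ Sum.inl (Sum.inl (q, z)) :: s.map (c1_sv D S) := by
        simpa [c1_form, c1_pv] using hf
      obtain ⟨e1, e2, e3⟩ := c1_split _ _ _ _ _ _ hf'
      have e4 := Sum.inl.inj e2
      obtain ⟨rfl, rfl⟩ := Prod.mk.inj e4
      subst e1
      subst e3
      obtain ⟨w', hw, hwin⟩ := ih γ q' z' (z1 :: s) (by simp [c1_form])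
      exact ⟨w', hw, PD.Win.push _ _ _ _ _ _ g1 g2 hwin⟩
    | read q1 z1 a q' g1 g2 =>
      have hf' : γ.map Sum.inr ++ Sum.inl (Sum.inl (q1, z1)) :: δ =
          u.map Sum.inr ++ Sum.inl (Sum.inl (q, z)) :: s.map (c1_sv D S) := by
        simpa [c1_form, c1_pv] using hf
      obtain ⟨e1, e2, e3⟩ := c1_split _ _ _ _ _ _ hf'
      have e4 := Sum.inl.inj e2
      obtain ⟨rfl, rfl⟩ := Prod.mk.inj e4
      subst e1
      subst e3
      obtain ⟨w', hw, hwin⟩ := ih (γ ++ [a]) q' z1 s (by simp [c1_form])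
      refine ⟨a :: w', ?_, PD.Win.read _ _ _ _ _ _ g1 g2 hwin⟩
      rw [hw]
      simp
    | pop q1 z1 a q' z₂ g1 g2 =>
      have hf' : γ.map Sum.inr ++ Sum.inl (Sum.inl (q1, z1)) :: (c1_sv D S z₂ :: δ) =
          u.map Sum.inr ++ Sum.inl (Sum.inl (q, z)) :: s.map (c1_sv D S) := by
        simpa [c1_form, c1_pv] using hf
      obtain ⟨e1, e2, e3⟩ := c1_split _ _ _ _ _ _ hf'
      have e4 := Sum.inl.inj e2
      obtain ⟨rfl, rfl⟩ := Prod.mk.inj e4
      subst e1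
      cases s with
      | nil => simp at e3
      | cons z3 s' =>
        simp only [List.map_cons, List.cons.injEq] at e3
        obtain ⟨e5, e6⟩ := e3
        have e7 : z₂ = z3 := Sum.inr.inj (Sum.inl.inj e5)
        subst e7
        subst e6
        obtain ⟨w', hw, hwin⟩ := ih (γ ++ [a]) q' z₂ s' (by simp [c1_form])
        refine ⟨a :: w', ?_, PD.Win.pop _ _ _ _ _ _ g1 g2 (by simp) hwin⟩
        rw [hw]
        simp
    | fin q1 z1 a g1 g2 =>
      have hf' : γ.map Sum.inr ++ Sum.inl (Sum.inl (q1, z1)) :: δ =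
          u.map Sum.inr ++ Sum.inl (Sum.inl (q, z)) :: s.map (c1_sv D S) := by
        simpa [c1_form, c1_pv] using hf
      obtain ⟨e1, e2, e3⟩ := c1_split _ _ _ _ _ _ hf'
      have e4 := Sum.inl.inj e2
      obtain ⟨rfl, rfl⟩ := Prod.mk.inj e4
      subst e1
      subst e3
      have h5 := c1_nopair D S h3 (by
        intro q2 z2 hmem
        rcases List.mem_append.1 hmem with h6 | h6
        · rcases List.mem_append.1 h6 with h7 | h7
          · obtain ⟨b, _, hb⟩ := List.mem_map.1 h7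
            exact absurd hb (by simp [c1_pv])
          · rw [List.mem_singleton] at h7
            exact absurd h7 (by simp [c1_pv])
        · obtain ⟨b, _, hb⟩ := List.mem_map.1 h6
          exact absurd hb (by simp [c1_pv, c1_sv]))
      obtain ⟨rfl, hw⟩ := c1_end D S γ a s w h5
      exact ⟨[a], hw, PD.Win.fin _ _ _ g1 g2⟩
  | univ γ l δ h1 h2 h3 ih =>
    intro u q z s hf
    obtain ⟨r0, hr0⟩ := h2
    have hP : C1P D S l r0 := hr0
    have key : ∃ (q1 : S) (z1 : D.Z) (q' : S), l = [c1_pv D S q1 z1] ∧ q1.1 ∈ D.univ ∧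
        D.un q1.1 z1 q'.1 := by
      clear hr0 ih h3 hf
      cases hP with
      | un q1 z1 q' g1 g2 => exact ⟨q1, z1, q', rfl, g1, g2⟩
      | eps q1 z1 q' z' g1 g2 => exact absurd ((c1_univ D S _ q1 z1 [] rfl).1 h1) g1
      | push q1 z1 q' z' g1 g2 => exact absurd ((c1_univ D S _ q1 z1 [] rfl).1 h1) g1
      | read q1 z1 a q' g1 g2 => exact absurd ((c1_univ D S _ q1 z1 [] rfl).1 h1) g1
      | pop q1 z1 a q' z₂ g1 g2 =>
        exact absurd ((c1_univ D S _ q1 z1 [c1_sv D S z₂] rfl).1 h1) g1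
      | fin q1 z1 a g1 g2 => exact absurd ((c1_univ D S _ q1 z1 [] rfl).1 h1) g1
    obtain ⟨q1, z1, q', rfl, g1, g2⟩ := key
    have hf' : γ.map Sum.inr ++ Sum.inl (Sum.inl (q1, z1)) :: δ =
        u.map Sum.inr ++ Sum.inl (Sum.inl (q, z)) :: s.map (c1_sv D S) := by
      simpa [c1_form, c1_pv] using hf
    obtain ⟨e1, e2, e3⟩ := c1_split _ _ _ _ _ _ hf'
    have e4 := Sum.inl.inj e2
    obtain ⟨rfl, rfl⟩ := Prod.mk.inj e4
    subst e1
    subst e3
    have hall : ∀ q2 : S, D.un q1.1 z1 q2.1 → ∃ w', w = γ ++ w' ∧ D.Win q2.1 (z1 :: s) w' := by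
      intro q2 hq2
      exact ih [c1_pv D S q2 z1] (C1P.un _ _ _ g1 hq2) γ q2 z1 s (by simp [c1_form])
    obtain ⟨w', hw, hwin⟩ := hall q' g2
    refine ⟨w', hw, PD.Win.un _ _ _ _ g1 ⟨q'.1, g2⟩ ?_⟩
    intro q2 hq2
    obtain ⟨w'', hw', hwin'⟩ := hall ⟨q2, hcl.un _ _ _ q1.2 hq2⟩ hq2
    have e5 : w' = w'' := List.append_cancel_left (hw.symm.trans hw')
    rw [e5]
    exact hwin'

end

theorem exists_grammar_of_PD [Finite T] (D : PD T) [Finite D.Z] (S : Set D.Q) (hS : S.Finite) (hcl : D.Closed S) :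
    ∃ G : Grammar T, ∀ w, w ∈ G.langLM ↔ D.Win D.start [D.bot] w := by
  refine ⟨c1_G D S hS hcl.start, fun w => ⟨fun h => ?_, fun h => ?_⟩⟩
  · have h1 := c1_toD D S hS hcl.start h
    obtain ⟨w', hw, hwin⟩ := c1_sound D S hcl h1 [] ⟨D.start, hcl.start⟩ D.bot [] rfl
    rw [hw]
    exact hwin
  · exact c1_ofD D S hS hcl.start (c1_complete D S hcl h hcl.start D.bot [] rfl [])

end Pool.Agent.ACSG48
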