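import Pool.Agent.LibACSG48.C0

/-!
# From pushdown automata with checks to pushdown automata: definitions for the rows C3, C4, C5

Gadget states: `pr r q'` (`r` more letters, the last of them pops, then `q'`); `eqa c j` (the check `|w| = 3|st| + c`, `j < 3` letters of the
current symbol are read), `eql i` (the current symbol is the last one, exactly `i ≥ 1` more letters); `gta c j`, `gtl i` (the same for
`|w| > 3|st| + c`: at least `i` more letters, `i ≥ 1`); `lta c j b` (for `|st| ≤ |w| < 3|st| + c`; every symbol but the last takes `1`, `2` or `3`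
letters, `b = true` once some symbol took fewer than `3`), `ltl i` (last symbol, at least one and at most `i` more letters); `fl`, `la`,
`gv0`, `gv l` (the letters `l` of the current block are still to be read).
-/

set_option autoImplicit false

namespace Pool.Agent.ACSG48

variable {T : Type}

inductive GS (Q T : Type)
  | main (q : Q)
  | pr (r : ℕ) (q' : Q)
  | eqa (c j : ℕ)
  | eql (i : ℕ)
  | gta (c j : ℕ)
  | gtl (i : ℕ)
  | lta (c j : ℕ) (b : Bool)
  | ltl (i : ℕ)
  | fl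
  | la
  | gv0
  | gv (l : List T)

open GS

inductive CUn (D : GPD T) : GS D.Q T → D.Z → GS D.Q T → Prop
  | main (q : D.Q) (z : D.Z) (q' : D.Q) : D.un q z q' → CUn D (main q) z (main q')

/-- `eps` moves -/
inductive CEps (D : GPD T) : GS D.Q T → D.Z → GS D.Q T → D.Z → Prop
  | main (q : D.Q) (z : D.Z) (q' : D.Q) (z' : D.Z) : D.eps q z q' z' → CEps D (main q) z (main q') z'
  | popr (q : D.Q) (z : D.Z) (r : ℕ) (q' : D.Q) : D.popr q z r q' → CEps D (main q) z (pr r q') z
  | eqc (q : D.Q) (z : D.Z) (c : ℕ) : D.call q (.eqc c) → CEps D (main q) z (eqa c 0) z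
  | eqlast (c : ℕ) (z : D.Z) : CEps D (eqa c 0) z (eql (3 + c)) z
  | gtc (q : D.Q) (z : D.Z) (c : ℕ) : D.call q (.nec c) → CEps D (main q) z (gta c 0) z
  | gtlast (c : ℕ) (z : D.Z) : CEps D (gta c 0) z (gtl (3 + c + 1)) z
  | ltc (q : D.Q) (z : D.Z) (c : ℕ) : D.call q (.nec c) → CEps D (main q) z (lta c 0 false) z
  | ltlast (c : ℕ) (b : Bool) (z : D.Z) : CEps D (lta c 0 b) z (ltl (if b then 3 + c else 2 + c)) z
  | flush (q : D.Q) (z : D.Z) : D.call q .flush → CEps D (main q) z fl z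
  | last (q : D.Q) (z : D.Z) : D.call q .last → CEps D (main q) z la z
  | ver (q : D.Q) (z : D.Z) : D.call q .ver → CEps D (main q) z gv0 z
  | gv (z : D.Z) (l : List T) : D.blk z = some l → CEps D gv0 z (gv l) z

inductive CPush (D : GPD T) : GS D.Q T → D.Z → GS D.Q T → D.Z → Prop
  | main (q : D.Q) (z : D.Z) (q' : D.Q) (z' : D.Z) : D.push q z q' z' → CPush D (main q) z (main q') z'

/-- read a letter, keep the stack -/
inductive CRead (D : GPD T) : GS D.Q T → D.Z → T → GS D.Q T → Prop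
  | pr (r : ℕ) (q' : D.Q) (z : D.Z) (a : T) : 1 ≤ r → CRead D (pr (r + 1) q') z a (pr r q')
  | eqa (c j : ℕ) (z : D.Z) (a : T) : j < 2 → CRead D (eqa c j) z a (eqa c (j + 1))
  | eql (i : ℕ) (z : D.Z) (a : T) : 1 ≤ i → CRead D (eql (i + 1)) z a (eql i)
  | gta (c j : ℕ) (z : D.Z) (a : T) : j < 2 → CRead D (gta c j) z a (gta c (j + 1))
  | gtl (i : ℕ) (z : D.Z) (a : T) : 1 ≤ i → CRead D (gtl (i + 1)) z a (gtl i)
  | gtl1 (z : D.Z) (a : T) : CRead D (gtl 1) z a (gtl 1)
  | lta (c j : ℕ) (b : Bool) (z : D.Z) (a : T) : j < 2 → CRead D (lta c j b) z a (lta c (j + 1) b)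
  | ltl (i : ℕ) (z : D.Z) (a : T) : 1 ≤ i → CRead D (ltl (i + 1)) z a (ltl i)
  | fl (z : D.Z) (a : T) : CRead D fl z a fl
  | la (z : D.Z) (a : T) : CRead D la z a la
  | gv (z : D.Z) (a : T) (l : List T) : l ≠ [] → CRead D (gv (a :: l)) z a (gv l)

/-- read a letter and pop -/
inductive CPop (D : GPD T) : GS D.Q T → D.Z → T → GS D.Q T → Prop
  | pr (q' : D.Q) (z : D.Z) (a : T) : CPop D (pr 1 q') z a (main q')
  | eqa (c : ℕ) (z : D.Z) (a : T) : CPop D (eqa c 2) z a (eqa c 0)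
  | gta (c : ℕ) (z : D.Z) (a : T) : CPop D (gta c 2) z a (gta c 0)
  | lta3 (c : ℕ) (b : Bool) (z : D.Z) (a : T) : CPop D (lta c 2 b) z a (lta c 0 b)
  | lta (c j : ℕ) (b : Bool) (z : D.Z) (a : T) : j < 2 → CPop D (lta c j b) z a (lta c 0 true)
  | fl (z : D.Z) (a : T) : CPop D fl z a fl
  | gv (z : D.Z) (a : T) : CPop D (gv [a]) z a gv0

/-- last letter, last symbol -/
inductive CFin (D : GPD T) : GS D.Q T → D.Z → T → Prop
  | eql (z : D.Z) (a : T) : CFin D (eql 1) z a
  | gtl (z : D.Z) (a : T) : CFin D (gtl 1) z a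
  | ltl (i : ℕ) (z : D.Z) (a : T) : 1 ≤ i → CFin D (ltl i) z a
  | fl (z : D.Z) (a : T) : CFin D fl z a
  | la (z : D.Z) (a : T) : CFin D la z a
  | gv (z : D.Z) (a : T) : CFin D (gv [a]) z a

/-- the pushdown automaton -/
def GPD.toPD (D : GPD T) : PD T where
  Q := GS D.Q T
  Z := D.Z
  univ := {s | ∃ q ∈ D.univ, s = main q}
  un := CUn D
  eps := CEps D
  push := CPush D
  read := CRead D
  pop := CPop D
  fin := CFin D
  start := main D.start
  bot := D.bot

/-- what the gadget states mean -/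
def GMean (D : GPD T) : GS D.Q T → List D.Z → List T → Prop
  | main q, st, w => D.GWin q st w
  | pr r q', st, w => ∃ (z : D.Z) (s : List D.Z) (v w' : List T), st = z :: s ∧ s ≠ [] ∧ w = v ++ w' ∧ v.length = r ∧ 1 ≤ r ∧
      D.GWin q' s w'
  | eqa c j, st, w => st ≠ [] ∧ w.length + j = 3 * st.length + c
  | eql i, st, w => st.length = 1 ∧ 1 ≤ i ∧ w.length = i
  | gta c j, st, w => st ≠ [] ∧ 3 * st.length + c < w.length + j
  | gtl i, st, w => st.length = 1 ∧ 1 ≤ i ∧ i ≤ w.length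
  | lta c j b, st, w => st ≠ [] ∧ j ≤ 2 ∧ st.length ≤ w.length ∧
      w.length + j < 3 * st.length + c + (if b then 1 else 0)
  | ltl i, st, w => st.length = 1 ∧ 1 ≤ w.length ∧ w.length ≤ i
  | fl, st, w => st ≠ [] ∧ st.length ≤ w.length
  | la, st, w => st.length = 1 ∧ w ≠ []
  | gv0, st, w => st ≠ [] ∧ ∃ ls : List (List T), st.map D.blk = ls.map some ∧ w = ls.flatten
  | gv l, st, w => l ≠ [] ∧ ∃ (z : D.Z) (s : List D.Z) (ls : List (List T)), st = z :: s ∧ s.map D.blk = ls.map some ∧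
      w = l ++ ls.flatten

end Pool.Agent.ACSG48
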