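import Pool.Agent.LibACSG48.C2

/-! ROW C3.  Soundness of the gadgets: induction on `Win` (first prove: if `s ∈ D.toPD.univ` then `s = main q`, `q ∈ D.univ`), cases on the
transition; every case is arithmetic (`omega`, `List.length_cons`).  `main`: `un`, `eps`, `push` give `GWin.un` (all branches of `D.un` are
branches of `CUn`), `.eps`, `.push`; the entries `popr`, `eqc`, `gtc`, `ltc`, `flush`, `last`, `ver` give `GWin.popr` / `GWin.call` from the meaning
of the gadget state.  Remember that a universal state `main q` has only the moves of `D.un` in `Win` (the other rules need `q ∉ univ`). -/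

set_option autoImplicit false

namespace Pool.Agent.ACSG48

variable {T : Type}

open GS

private theorem c3_univ {D : GPD T} {s : GS D.Q T} (h : s ∈ D.toPD.univ) :
    ∃ q ∈ D.univ, s = main q := h

private theorem c3_not {D : GPD T} {q : D.Q} (h : (main q : GS D.Q T) ∉ D.toPD.univ) :
    q ∉ D.univ := fun h1 => h ⟨q, h1, rfl⟩

private theorem c3_eps {D : GPD T} {q q' : GS D.Q T} {z z' : D.Z} {s : List D.Z} {w : List T}
    (hq : q ∉ D.toPD.univ) (h : CEps D q z q' z') (ih : GMean D q' (z' :: s) w) :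
    GMean D q (z :: s) w := by
  cases h with
  | main q _ q' _ h => exact GPD.GWin.eps _ _ _ _ _ _ (c3_not hq) h ih
  | popr q _ r q' h =>
    obtain ⟨z1, s1, v, w', e, hs1, hw, hv, hr, hG⟩ := ih
    obtain ⟨rfl, rfl⟩ := List.cons.inj e
    subst hw
    exact GPD.GWin.popr _ _ _ _ _ _ _ (c3_not hq) h hv hs1 hG
  | eqc q _ c h =>
    obtain ⟨h1, h2⟩ := ih
    refine GPD.GWin.call _ _ _ _ (c3_not hq) h h1 ?_
    change (w.length : ℤ) = 3 * ((z :: s).length : ℤ) + c
    exact_mod_cast h2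
  | eqlast c _ =>
    obtain ⟨h1, h2, h3⟩ := ih
    refine ⟨List.cons_ne_nil _ _, ?_⟩
    omega
  | gtc q _ c h =>
    obtain ⟨h1, h2⟩ := ih
    refine GPD.GWin.call _ _ _ _ (c3_not hq) h h1 ?_
    refine ⟨?_, ?_⟩
    · omega
    · omega
  | gtlast c _ =>
    obtain ⟨h1, h2, h3⟩ := ih
    refine ⟨List.cons_ne_nil _ _, ?_⟩
    omega
  | ltc q _ c h =>
    obtain ⟨h1, h2, h3, h4⟩ := ih
    refine GPD.GWin.call _ _ _ _ (c3_not hq) h h1 ?_
    simp only [Bool.false_eq_true, if_false] at h4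
    refine ⟨h3, ?_⟩
    omega
  | ltlast c b _ =>
    obtain ⟨h1, h2, h3⟩ := ih
    refine ⟨List.cons_ne_nil _ _, by omega, by omega, ?_⟩
    cases b
    · simp only [Bool.false_eq_true, if_false] at h3 ⊢
      omega
    · simp only [if_true] at h3 ⊢
      omega
  | flush q _ h =>
    obtain ⟨h1, h2⟩ := ih
    exact GPD.GWin.call _ _ _ _ (c3_not hq) h h1 h2
  | last q _ h => exact GPD.GWin.call _ _ _ _ (c3_not hq) h (List.cons_ne_nil _ _) ih
  | ver q _ h =>
    obtain ⟨h1, h2⟩ := ih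
    exact GPD.GWin.call _ _ _ _ (c3_not hq) h h1 h2
  | gv _ l h =>
    obtain ⟨h1, z1, s1, ls, e, h2, h3⟩ := ih
    obtain ⟨rfl, rfl⟩ := List.cons.inj e
    refine ⟨List.cons_ne_nil _ _, l :: ls, ?_, ?_⟩
    · rw [List.map_cons, List.map_cons, h, h2]
    · rw [List.flatten_cons, h3]

private theorem c3_read {D : GPD T} {q q' : GS D.Q T} {z : D.Z} {a : T} {s : List D.Z}
    {w : List T} (h : CRead D q z a q') (ih : GMean D q' (z :: s) w) :
    GMean D q (z :: s) (a :: w) := by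
  cases h with
  | pr r q' _ _ h =>
    obtain ⟨z1, s1, v, w', e, hs1, hw, hv, hr, hG⟩ := ih
    refine ⟨z1, s1, a :: v, w', e, hs1, ?_, ?_, by omega, hG⟩
    · rw [hw, List.cons_append]
    · rw [List.length_cons, hv]
  | eqa c j _ _ h =>
    obtain ⟨h1, h2⟩ := ih
    refine ⟨h1, ?_⟩
    rw [List.length_cons (a := a)]
    omega
  | eql i _ _ h =>
    obtain ⟨h1, h2, h3⟩ := ih
    refine ⟨h1, by omega, ?_⟩
    rw [List.length_cons]
    omega
  | gta c j _ _ h =>
    obtain ⟨h1, h2⟩ := ih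
    refine ⟨h1, ?_⟩
    rw [List.length_cons (a := a)]
    omega
  | gtl i _ _ h =>
    obtain ⟨h1, h2, h3⟩ := ih
    refine ⟨h1, by omega, ?_⟩
    rw [List.length_cons]
    omega
  | gtl1 _ _ =>
    obtain ⟨h1, h2, h3⟩ := ih
    refine ⟨h1, le_rfl, ?_⟩
    rw [List.length_cons]
    omega
  | lta c j b _ _ h =>
    obtain ⟨h1, h2, h3, h4⟩ := ih
    refine ⟨h1, by omega, ?_, ?_⟩
    · rw [List.length_cons (a := a)]
      omega
    · rw [List.length_cons (a := a)]
      omega
  | ltl i _ _ h =>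
    obtain ⟨h1, h2, h3⟩ := ih
    refine ⟨h1, ?_, ?_⟩
    · rw [List.length_cons]
      omega
    · rw [List.length_cons]
      omega
  | fl _ _ =>
    obtain ⟨h1, h2⟩ := ih
    refine ⟨h1, ?_⟩
    rw [List.length_cons (a := a)]
    omega
  | la _ _ =>
    obtain ⟨h1, h2⟩ := ih
    exact ⟨h1, List.cons_ne_nil _ _⟩
  | gv _ _ l h =>
    obtain ⟨h1, z1, s1, ls, e, h2, h3⟩ := ih
    refine ⟨List.cons_ne_nil _ _, z1, s1, ls, e, h2, ?_⟩
    rw [h3, List.cons_append]

private theorem c3_pop {D : GPD T} {q q' : GS D.Q T} {z : D.Z} {a : T} {s : List D.Z}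
    {w : List T} (h : CPop D q z a q') (hs : s ≠ []) (ih : GMean D q' s w) :
    GMean D q (z :: s) (a :: w) := by
  have e1 : (z :: s).length = s.length + 1 := List.length_cons
  have e2 : (a :: w).length = w.length + 1 := List.length_cons
  cases h with
  | pr q' _ _ => exact ⟨z, s, [a], w, rfl, hs, rfl, rfl, le_rfl, ih⟩
  | eqa c _ _ =>
    obtain ⟨h1, h2⟩ := ih
    refine ⟨List.cons_ne_nil _ _, ?_⟩
    rw [e1, e2]
    omega
  | gta c _ _ =>
    obtain ⟨h1, h2⟩ := ih
    refine ⟨List.cons_ne_nil _ _, ?_⟩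
    rw [e1, e2]
    omega
  | lta3 c b _ _ =>
    obtain ⟨h1, h2, h3, h4⟩ := ih
    refine ⟨List.cons_ne_nil _ _, le_rfl, ?_, ?_⟩
    · rw [e1, e2]
      omega
    · rw [e1, e2]
      omega
  | lta c j b _ _ h =>
    obtain ⟨h1, h2, h3, h4⟩ := ih
    simp only [if_true] at h4
    refine ⟨List.cons_ne_nil _ _, by omega, ?_, ?_⟩
    · rw [e1, e2]
      omega
    · rw [e1, e2]
      omega
  | fl _ _ =>
    obtain ⟨h1, h2⟩ := ih
    refine ⟨List.cons_ne_nil _ _, ?_⟩
    rw [e1, e2]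
    omega
  | gv _ _ =>
    obtain ⟨h1, ls, h2, h3⟩ := ih
    refine ⟨List.cons_ne_nil _ _, z, s, ls, rfl, h2, ?_⟩
    rw [h3]
    rfl

private theorem c3_fin {D : GPD T} {q : GS D.Q T} {z : D.Z} {a : T} (h : CFin D q z a) :
    GMean D q [z] [a] := by
  cases h with
  | eql _ _ => exact ⟨rfl, le_rfl, rfl⟩
  | gtl _ _ => exact ⟨rfl, le_rfl, le_rfl⟩
  | ltl i _ _ h => exact ⟨rfl, le_rfl, h⟩
  | fl _ _ => exact ⟨List.cons_ne_nil _ _, le_rfl⟩
  | la _ _ => exact ⟨rfl, List.cons_ne_nil _ _⟩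
  | gv _ _ => exact ⟨List.cons_ne_nil _ _, z, [], [], rfl, rfl, rfl⟩

theorem toPD_sound (D : GPD T) {s : GS D.Q T} {st : List D.Z} {w : List T} (h : D.toPD.Win s st w) :
    GMean D s st w := by
  have key : ∀ (s : D.toPD.Q) (st : List D.toPD.Z) (w : List T), D.toPD.Win s st w →
      GMean D s st w := by
    intro s st w h
    induction h with
    | un q z s w hq hex hall ih =>
      obtain ⟨q0, hq0, rfl⟩ := c3_univ hq
      refine GPD.GWin.un _ _ _ _ hq0 ?_ ?_
      · obtain ⟨q', hq'⟩ := hex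
        have h1 : CUn D (main q0) z q' := hq'
        cases h1 with
        | main _ _ q1 h2 => exact ⟨q1, h2⟩
      · intro q' hq'
        exact ih (main q') (CUn.main _ _ _ hq')
    | eps q z q' z' s w hq h _ ih => exact c3_eps hq h ih
    | push q z q' z' s w hq h _ ih =>
      have h1 : CPush D q z q' z' := h
      cases h1 with
      | main q1 _ q2 _ h2 => exact GPD.GWin.push _ _ _ _ _ _ (c3_not hq) h2 ih
    | read q z a q' s w hq h _ ih => exact c3_read h ih
    | pop q z a q' s w hq h hs _ ih => exact c3_pop h hs ih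
    | fin q z a hq h => exact c3_fin h
  exact key s st w h

end Pool.Agent.ACSG48
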