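import Pool.Agent.LibACSG48.C2

/-! ROW C4.  Completeness of the gadgets: induction on `GWin`.  First the gadget lemmas, each by induction on `st` (or on `r`, `i`, `l`):
`pr_win`: reading `r ≥ 1` letters and popping;  `eqa_win`: `|w| = 3|st| + c`, `st ≠ []` → `Win (eqa c 0) st w` (last symbol: `eqlast`, read `3 + c`
letters; otherwise read three letters, the third pops);  `gta_win` likewise (`gtl 1` may read any number of letters);
`lta_win`: `st ≠ []`, `|st| ≤ |w|`, `|w| < 3|st| + c + (if b then 1 else 0)` → `Win (lta c 0 b) st w`: last symbol: `ltlast`; otherwise, if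
`|w| ≥ |st| + 2` spend three letters on the top symbol, else one letter (then `b = true`);  `fl_win`, `la_win`, `gv_win` (blocks are nonempty:
`hcl.blk`).  Universal states: `main q ∈ toPD.univ ↔ q ∈ D.univ`; the gadget states are not universal. -/

set_option autoImplicit false

namespace Pool.Agent.ACSG48

variable {T : Type}

open GS

theorem C4_nu (D : GPD T) {s : GS D.Q T} (h : ∀ q, s ≠ main q) : s ∉ D.toPD.univ := by
  rintro ⟨q, _, hq⟩
  exact h q hq

theorem C4_pr (D : GPD T) (q' : D.Q) (z : D.Z) (s : List D.Z) (w' : List T) (hs : s ≠ [])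
    (h : D.toPD.Win (main q') s w') (v : List T) (hv : v ≠ []) :
    D.toPD.Win (pr v.length q') (z :: s) (v ++ w') := by
  induction v with
  | nil => exact absurd rfl hv
  | cons a v ih =>
    by_cases hv' : v = []
    · subst hv'
      exact PD.Win.pop (D := D.toPD) (pr 1 q') z a (main q') s w'
        (C4_nu D (fun q h => by cases h)) (CPop.pr q' z a) hs h
    · have h1 : 1 ≤ v.length := List.length_pos_iff.2 hv'
      exact PD.Win.read (D := D.toPD) (pr (v.length + 1) q') z a (pr v.length q') s (v ++ w')
        (C4_nu D (fun q h => by cases h)) (CRead.pr v.length q' z a h1) (ih hv')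

theorem C4_eql (D : GPD T) (z : D.Z) (w : List T) (hw : w ≠ []) :
    D.toPD.Win (eql w.length) [z] w := by
  induction w with
  | nil => exact absurd rfl hw
  | cons a w ih =>
    by_cases hw' : w = []
    · subst hw'
      exact PD.Win.fin (D := D.toPD) (eql 1) z a (C4_nu D (fun q h => by cases h)) (CFin.eql z a)
    · have h1 : 1 ≤ w.length := List.length_pos_iff.2 hw'
      exact PD.Win.read (D := D.toPD) (eql (w.length + 1)) z a (eql w.length) [] w
        (C4_nu D (fun q h => by cases h)) (CRead.eql w.length z a h1) (ih hw')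

theorem C4_three {w : List T} {n : ℕ} (h : n + 3 ≤ w.length) :
    ∃ (a b c : T) (w' : List T), w = a :: b :: c :: w' ∧ w'.length + 3 = w.length := by
  match w, h with
  | [], h =>
    rw [List.length_nil] at h
    omega
  | [_], h =>
    simp only [List.length_cons, List.length_nil] at h
    omega
  | [_, _], h =>
    simp only [List.length_cons, List.length_nil] at h
    omega
  | a :: b :: c :: w', _ => exact ⟨a, b, c, w', rfl, by simp⟩

theorem C4_eqa (D : GPD T) (c : ℕ) (st : List D.Z) (w : List T) (hst : st ≠ [])
    (h : w.length = 3 * st.length + c) : D.toPD.Win (eqa c 0) st w := by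
  induction st generalizing w with
  | nil => exact absurd rfl hst
  | cons z s ih =>
    by_cases hs : s = []
    · subst hs
      have h1 : w.length = 3 + c := by
        rw [h]
        simp
      have hw : w ≠ [] := by
        rintro rfl
        simp at h1
        omega
      have h2 := C4_eql D z w hw
      rw [h1] at h2
      exact PD.Win.eps (D := D.toPD) (eqa c 0) z (eql (3 + c)) z [] w
        (C4_nu D (fun q h => by cases h)) (CEps.eqlast c z) h2
    · rw [List.length_cons] at h
      obtain ⟨a1, a2, a3, w', rfl, hl⟩ := C4_three (w := w) (n := 0) (by omega)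
      have h1 : w'.length = 3 * s.length + c := by omega
      refine PD.Win.read (D := D.toPD) (eqa c 0) z a1 (eqa c 1) s (a2 :: a3 :: w')
        (C4_nu D (fun q h => by cases h)) (CRead.eqa c 0 z a1 (by omega)) ?_
      refine PD.Win.read (D := D.toPD) (eqa c 1) z a2 (eqa c 2) s (a3 :: w')
        (C4_nu D (fun q h => by cases h)) (CRead.eqa c 1 z a2 (by omega)) ?_
      exact PD.Win.pop (D := D.toPD) (eqa c 2) z a3 (eqa c 0) s w'
        (C4_nu D (fun q h => by cases h)) (CPop.eqa c z a3) hs (ih w' hs h1)

theorem C4_gtl (D : GPD T) (z : D.Z) (w : List T) (i : ℕ) (hi : 1 ≤ i) (h : i ≤ w.length) :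
    D.toPD.Win (gtl i) [z] w := by
  induction w generalizing i with
  | nil =>
    simp at h
    omega
  | cons a w ih =>
    rw [List.length_cons] at h
    rcases Nat.lt_or_ge 1 i with hi1 | hi1
    · obtain ⟨j, rfl⟩ : ∃ j, i = j + 1 := ⟨i - 1, by omega⟩
      exact PD.Win.read (D := D.toPD) (gtl (j + 1)) z a (gtl j) [] w
        (C4_nu D (fun q h => by cases h)) (CRead.gtl j z a (by omega)) (ih j (by omega) (by omega))
    · obtain rfl : i = 1 := by omega
      by_cases hw : w = []
      · subst hw
        exact PD.Win.fin (D := D.toPD) (gtl 1) z a (C4_nu D (fun q h => by cases h)) (CFin.gtl z a)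
      · have h1 : 1 ≤ w.length := List.length_pos_iff.2 hw
        exact PD.Win.read (D := D.toPD) (gtl 1) z a (gtl 1) [] w
          (C4_nu D (fun q h => by cases h)) (CRead.gtl1 z a) (ih 1 le_rfl h1)

theorem C4_gta (D : GPD T) (c : ℕ) (st : List D.Z) (w : List T) (hst : st ≠ [])
    (h : 3 * st.length + c < w.length) : D.toPD.Win (gta c 0) st w := by
  induction st generalizing w with
  | nil => exact absurd rfl hst
  | cons z s ih =>
    rw [List.length_cons] at h
    by_cases hs : s = []
    · subst hs
      rw [List.length_nil] at h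
      exact PD.Win.eps (D := D.toPD) (gta c 0) z (gtl (3 + c + 1)) z [] w
        (C4_nu D (fun q h => by cases h)) (CEps.gtlast c z)
        (C4_gtl D z w (3 + c + 1) (by omega) (by omega))
    · obtain ⟨a1, a2, a3, w', rfl, hl⟩ := C4_three (w := w) (n := 0) (by omega)
      refine PD.Win.read (D := D.toPD) (gta c 0) z a1 (gta c 1) s (a2 :: a3 :: w')
        (C4_nu D (fun q h => by cases h)) (CRead.gta c 0 z a1 (by omega)) ?_
      refine PD.Win.read (D := D.toPD) (gta c 1) z a2 (gta c 2) s (a3 :: w')
        (C4_nu D (fun q h => by cases h)) (CRead.gta c 1 z a2 (by omega)) ?_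
      exact PD.Win.pop (D := D.toPD) (gta c 2) z a3 (gta c 0) s w'
        (C4_nu D (fun q h => by cases h)) (CPop.gta c z a3) hs (ih w' hs (by omega))

theorem C4_ltl (D : GPD T) (z : D.Z) (w : List T) (i : ℕ) (hw : w ≠ []) (h : w.length ≤ i) :
    D.toPD.Win (ltl i) [z] w := by
  induction w generalizing i with
  | nil => exact absurd rfl hw
  | cons a w ih =>
    rw [List.length_cons] at h
    by_cases hw' : w = []
    · subst hw'
      rw [List.length_nil] at h
      exact PD.Win.fin (D := D.toPD) (ltl i) z a (C4_nu D (fun q h => by cases h))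
        (CFin.ltl i z a (by omega))
    · have h1 : 1 ≤ w.length := List.length_pos_iff.2 hw'
      obtain ⟨j, rfl⟩ : ∃ j, i = j + 1 := ⟨i - 1, by omega⟩
      exact PD.Win.read (D := D.toPD) (ltl (j + 1)) z a (ltl j) [] w
        (C4_nu D (fun q h => by cases h)) (CRead.ltl j z a (by omega)) (ih j hw' (by omega))

theorem C4_lta (D : GPD T) (c : ℕ) (b : Bool) (st : List D.Z) (w : List T) (hst : st ≠ [])
    (h1 : st.length ≤ w.length)
    (h2 : w.length < 3 * st.length + c + (if b then 1 else 0)) :
    D.toPD.Win (lta c 0 b) st w := by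
  induction st generalizing w b with
  | nil => exact absurd rfl hst
  | cons z s ih =>
    rw [List.length_cons] at h1 h2
    by_cases hs : s = []
    · subst hs
      rw [List.length_nil] at h1 h2
      have hw : w ≠ [] := by
        rintro rfl
        simp at h1
      refine PD.Win.eps (D := D.toPD) (lta c 0 b) z (ltl (if b then 3 + c else 2 + c)) z [] w
        (C4_nu D (fun q h => by cases h)) (CEps.ltlast c b z) (C4_ltl D z w _ hw ?_)
      cases b
      · simp only [Bool.false_eq_true, if_false] at h2 ⊢
        omega
      · simp only [if_true] at h2 ⊢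
        omega
    · have hs1 : 1 ≤ s.length := List.length_pos_iff.2 hs
      rcases Nat.lt_or_ge w.length (s.length + 3) with h3 | h3
      · match w, h1 with
        | [], h1 => simp at h1
        | a :: w', h1 =>
          rw [List.length_cons] at h1 h2 h3
          refine PD.Win.pop (D := D.toPD) (lta c 0 b) z a (lta c 0 true) s w'
            (C4_nu D (fun q h => by cases h)) (CPop.lta c 0 b z a (by omega)) hs
            (ih true w' hs (by omega) ?_)
          simp only [if_true]
          omega
      · obtain ⟨a1, a2, a3, w', rfl, hl⟩ := C4_three (w := w) (n := s.length) h3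
        refine PD.Win.read (D := D.toPD) (lta c 0 b) z a1 (lta c 1 b) s (a2 :: a3 :: w')
          (C4_nu D (fun q h => by cases h)) (CRead.lta c 0 b z a1 (by omega)) ?_
        refine PD.Win.read (D := D.toPD) (lta c 1 b) z a2 (lta c 2 b) s (a3 :: w')
          (C4_nu D (fun q h => by cases h)) (CRead.lta c 1 b z a2 (by omega)) ?_
        exact PD.Win.pop (D := D.toPD) (lta c 2 b) z a3 (lta c 0 b) s w'
          (C4_nu D (fun q h => by cases h)) (CPop.lta3 c b z a3) hs
          (ih b w' hs (by omega) (by omega))

theorem C4_fl1 (D : GPD T) (z : D.Z) (w : List T) (hw : w ≠ []) : D.toPD.Win fl [z] w := by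
  induction w with
  | nil => exact absurd rfl hw
  | cons a w ih =>
    by_cases hw' : w = []
    · subst hw'
      exact PD.Win.fin (D := D.toPD) fl z a (C4_nu D (fun q h => by cases h)) (CFin.fl z a)
    · exact PD.Win.read (D := D.toPD) fl z a fl [] w
        (C4_nu D (fun q h => by cases h)) (CRead.fl z a) (ih hw')

theorem C4_fl (D : GPD T) (st : List D.Z) (w : List T) (hst : st ≠ [])
    (h : st.length ≤ w.length) : D.toPD.Win fl st w := by
  induction st generalizing w with
  | nil => exact absurd rfl hst
  | cons z s ih =>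
    rw [List.length_cons] at h
    match w, h with
    | [], h => simp at h
    | a :: w', h =>
      rw [List.length_cons] at h
      by_cases hs : s = []
      · subst hs
        exact C4_fl1 D z (a :: w') (by simp)
      · exact PD.Win.pop (D := D.toPD) fl z a fl s w'
          (C4_nu D (fun q h => by cases h)) (CPop.fl z a) hs (ih w' hs (by omega))

theorem C4_la (D : GPD T) (z : D.Z) (w : List T) (hw : w ≠ []) : D.toPD.Win la [z] w := by
  induction w with
  | nil => exact absurd rfl hw
  | cons a w ih =>
    by_cases hw' : w = []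
    · subst hw'
      exact PD.Win.fin (D := D.toPD) la z a (C4_nu D (fun q h => by cases h)) (CFin.la z a)
    · exact PD.Win.read (D := D.toPD) la z a la [] w
        (C4_nu D (fun q h => by cases h)) (CRead.la z a) (ih hw')

theorem C4_gv (D : GPD T) (z : D.Z) (s : List D.Z) (l w' : List T) (hl : l ≠ [])
    (h : (s = [] ∧ w' = []) ∨ (s ≠ [] ∧ D.toPD.Win gv0 s w')) :
    D.toPD.Win (gv l) (z :: s) (l ++ w') := by
  induction l with
  | nil => exact absurd rfl hl
  | cons a l ih =>
    by_cases hl' : l = []
    · subst hl'
      rcases h with ⟨rfl, rfl⟩ | ⟨hs, h⟩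
      · exact PD.Win.fin (D := D.toPD) (gv [a]) z a (C4_nu D (fun q h => by cases h)) (CFin.gv z a)
      · exact PD.Win.pop (D := D.toPD) (gv [a]) z a gv0 s w'
          (C4_nu D (fun q h => by cases h)) (CPop.gv z a) hs h
    · exact PD.Win.read (D := D.toPD) (gv (a :: l)) z a (gv l) s (l ++ w')
        (C4_nu D (fun q h => by cases h)) (CRead.gv z a l hl') (ih hl')

theorem C4_gv0 (D : GPD T) (hblk : ∀ z l, D.blk z = some l → l ≠ []) (st : List D.Z)
    (ls : List (List T)) (hst : st ≠ []) (h : st.map D.blk = ls.map some) :
    D.toPD.Win gv0 st ls.flatten := by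
  induction st generalizing ls with
  | nil => exact absurd rfl hst
  | cons z s ih =>
    match ls, h with
    | [], h => simp at h
    | l :: ls', h =>
      rw [List.map_cons, List.map_cons, List.cons.injEq] at h
      rw [List.flatten_cons]
      refine PD.Win.eps (D := D.toPD) gv0 z (gv l) z s (l ++ ls'.flatten)
        (C4_nu D (fun q h => by cases h)) (CEps.gv z l h.1) ?_
      refine C4_gv D z s l _ (hblk z l h.1) ?_
      by_cases hs : s = []
      · left
        refine ⟨hs, ?_⟩
        have h2 := h.2
        rw [hs, List.map_nil] at h2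
        have h3 : ls' = [] := List.map_eq_nil_iff.1 h2.symm
        rw [h3, List.flatten_nil]
      · exact Or.inr ⟨hs, ih ls' hs h.2⟩

theorem toPD_complete (D : GPD T) {S : Set D.Q} {R : ℕ} (hcl : D.Closed S R) {q : D.Q} {st : List D.Z} {w : List T}
    (hq : q ∈ S) (h : D.GWin q st w) : D.toPD.Win (main q) st w := by
  have hnu : ∀ q : D.Q, q ∉ D.univ → (main q : GS D.Q T) ∉ D.toPD.univ := by
    rintro q hq ⟨q', hq', h⟩
    cases h
    exact hq hq'
  induction h with
  | un q z s w hu hex _ ih =>
    refine PD.Win.un (D := D.toPD) (main q) z s w ⟨q, hu, rfl⟩ ?_ ?_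
    · obtain ⟨q', hq'⟩ := hex
      exact ⟨main q', CUn.main q z q' hq'⟩
    · intro q' hq'
      cases hq' with
      | main _ _ q' h1 => exact ih q' h1 (hcl.un q z q' hq h1)
  | eps q z q' z' s w hu he _ ih =>
    exact PD.Win.eps (D := D.toPD) (main q) z (main q') z' s w (hnu q hu)
      (CEps.main q z q' z' he) (ih (hcl.eps q z q' z' hq he))
  | push q z q' z' s w hu he _ ih =>
    exact PD.Win.push (D := D.toPD) (main q) z (main q') z' s w (hnu q hu)
      (CPush.main q z q' z' he) (ih (hcl.push q z q' z' hq he))
  | popr q z r q' s v w hu he hv hs _ ih =>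
    obtain ⟨h1, h2, _⟩ := hcl.popr q z r q' hq he
    subst hv
    refine PD.Win.eps (D := D.toPD) (main q) z (pr v.length q') z s (v ++ w) (hnu q hu)
      (CEps.popr q z v.length q' he) ?_
    exact C4_pr D q' z s w hs (ih h1) v (List.length_pos_iff.1 h2)
  | call q ck st w hu hc hst hh =>
    match st, hst, hh with
    | z :: s, hst, hh =>
      cases ck with
      | eqc c =>
        obtain ⟨h1, _⟩ := hcl.eqc q c hq hc
        obtain ⟨c', rfl⟩ := Int.eq_ofNat_of_zero_le h1
        have h2 : (w.length : ℤ) = 3 * (z :: s).length + c' := hh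
        exact PD.Win.eps (D := D.toPD) (main q) z (eqa c' 0) z s w (hnu q hu)
          (CEps.eqc q z c' hc) (C4_eqa D c' (z :: s) w hst (by exact_mod_cast h2))
      | nec c =>
        obtain ⟨h1, _⟩ := hcl.nec q c hq hc
        obtain ⟨c', rfl⟩ := Int.eq_ofNat_of_zero_le h1
        have h2 : (z :: s).length ≤ w.length ∧ (w.length : ℤ) ≠ 3 * (z :: s).length + c' := hh
        obtain ⟨h3, h4⟩ := h2
        have h5 : w.length ≠ 3 * (z :: s).length + c' := fun h => h4 (by exact_mod_cast h)
        rcases Nat.lt_or_gt_of_ne h5 with h6 | h6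
        · exact PD.Win.eps (D := D.toPD) (main q) z (lta c' 0 false) z s w (hnu q hu)
            (CEps.ltc q z c' hc) (C4_lta D c' false (z :: s) w hst h3 (by simpa using h6))
        · exact PD.Win.eps (D := D.toPD) (main q) z (gta c' 0) z s w (hnu q hu)
            (CEps.gtc q z c' hc) (C4_gta D c' (z :: s) w hst h6)
      | flush =>
        exact PD.Win.eps (D := D.toPD) (main q) z fl z s w (hnu q hu)
          (CEps.flush q z hc) (C4_fl D (z :: s) w hst hh)
      | last =>
        have h2 : (z :: s).length = 1 ∧ w ≠ [] := hh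
        have h3 : s = [] := by
          have h4 := h2.1
          rw [List.length_cons] at h4
          exact List.length_eq_zero_iff.1 (by omega)
        subst h3
        exact PD.Win.eps (D := D.toPD) (main q) z la z [] w (hnu q hu)
          (CEps.last q z hc) (C4_la D z w h2.2)
      | ver =>
        obtain ⟨ls, h2, rfl⟩ : ∃ ls : List (List T), (z :: s).map D.blk = ls.map some ∧
          w = ls.flatten := hh
        exact PD.Win.eps (D := D.toPD) (main q) z gv0 z s ls.flatten (hnu q hu)
          (CEps.ver q z hc) (C4_gv0 D (fun z l h => (hcl.blk z l h).1) (z :: s) ls hst h2)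

end Pool.Agent.ACSG48
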