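import Pool.Agent.LibACSG48.C1
import Pool.Agent.LibACSG48.C3
import Pool.Agent.LibACSG48.C4

/-! ROW C5.  The finite closed set of states and the conclusion. -/

set_option autoImplicit false

namespace Pool.Agent.ACSG48

variable {T : Type}

open GS

/-- the closed set of states of `toPD` -/
def inS {Q : Type} (S : Set Q) (R : ℕ) : GS Q T → Prop
  | main q => q ∈ S
  | pr r q' => r ≤ R ∧ q' ∈ S
  | eqa c j => c ≤ R ∧ j ≤ 2
  | eql i => i ≤ R + 3
  | gta c j => c ≤ R ∧ j ≤ 2
  | gtl i => i ≤ R + 4
  | lta c j _ => c ≤ R ∧ j ≤ 2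
  | ltl i => i ≤ R + 3
  | fl => True
  | la => True
  | gv0 => True
  | gv l => l.length ≤ R

theorem inS_finite [Finite T] {Q : Type} (S : Set Q) (hS : S.Finite) (R : ℕ) :
    {s : GS Q T | inS S R s}.Finite := by
  have h1 : (Set.Iic R : Set ℕ).Finite := Set.finite_Iic R
  have h2 : (Set.Iic 2 : Set ℕ).Finite := Set.finite_Iic 2
  have h3 : (Set.Iic (R + 4) : Set ℕ).Finite := Set.finite_Iic _
  have hl : {l : List T | l.length ≤ R}.Finite := List.finite_length_le T R
  refine Set.Finite.subset
    ((hS.image main).union <| ((h1.prod hS).image fun p : ℕ × Q => pr p.1 p.2).union <|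
      ((h1.prod h2).image fun p : ℕ × ℕ => eqa p.1 p.2).union <| (h3.image eql).union <|
      ((h1.prod h2).image fun p : ℕ × ℕ => gta p.1 p.2).union <| (h3.image gtl).union <|
      (((h1.prod h2).image fun p : ℕ × ℕ => lta p.1 p.2 true).union
        ((h1.prod h2).image fun p : ℕ × ℕ => lta p.1 p.2 false)).union <| (h3.image ltl).union <|
      (Set.toFinite ({fl, la, gv0} : Set (GS Q T))).union (hl.image gv)) ?_
  rintro s hs
  simp only [Set.mem_union, Set.mem_image, Set.mem_prod, Set.mem_Iic, Prod.exists, Set.mem_insert_iff,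
    Set.mem_singleton_iff, Set.mem_ofPred_eq]
  cases s with
  | main q => exact Or.inl ⟨q, hs, rfl⟩
  | pr r q' => exact Or.inr (Or.inl ⟨r, q', hs, rfl⟩)
  | eqa c j => exact Or.inr (Or.inr (Or.inl ⟨c, j, hs, rfl⟩))
  | eql i => exact Or.inr (Or.inr (Or.inr (Or.inl ⟨i, by have : i ≤ R + 3 := hs; omega, rfl⟩)))
  | gta c j => exact Or.inr (Or.inr (Or.inr (Or.inr (Or.inl ⟨c, j, hs, rfl⟩))))
  | gtl i => exact Or.inr (Or.inr (Or.inr (Or.inr (Or.inr (Or.inl ⟨i, hs, rfl⟩)))))
  | lta c j b =>
    cases b with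
    | true => exact Or.inr (Or.inr (Or.inr (Or.inr (Or.inr (Or.inr (Or.inl (Or.inl ⟨c, j, hs, rfl⟩)))))))
    | false => exact Or.inr (Or.inr (Or.inr (Or.inr (Or.inr (Or.inr (Or.inl (Or.inr ⟨c, j, hs, rfl⟩)))))))
  | ltl i =>
    exact Or.inr (Or.inr (Or.inr (Or.inr (Or.inr (Or.inr (Or.inr (Or.inl
      ⟨i, by have : i ≤ R + 3 := hs; omega, rfl⟩)))))))
  | fl => exact Or.inr (Or.inr (Or.inr (Or.inr (Or.inr (Or.inr (Or.inr (Or.inr (Or.inl (Or.inl rfl)))))))))
  | la =>
    exact Or.inr (Or.inr (Or.inr (Or.inr (Or.inr (Or.inr (Or.inr (Or.inr (Or.inl (Or.inr (Or.inl rfl))))))))))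
  | gv0 =>
    exact Or.inr (Or.inr (Or.inr (Or.inr (Or.inr (Or.inr (Or.inr (Or.inr (Or.inl (Or.inr (Or.inr rfl))))))))))
  | gv l => exact Or.inr (Or.inr (Or.inr (Or.inr (Or.inr (Or.inr (Or.inr (Or.inr (Or.inr ⟨l, hs, rfl⟩))))))))

theorem inS_closed (D : GPD T) {S : Set D.Q} {R : ℕ} (hcl : D.Closed S R) :
    D.toPD.Closed {s : GS D.Q T | inS S R s} where
  start := hcl.start
  un := by
    rintro q z q' hq h
    change CUn D q z q' at h
    cases h with
    | main q z q' h => exact hcl.un q z q' hq h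
  eps := by
    rintro q z q' z' hq h
    change CEps D q z q' z' at h
    cases h with
    | main q z q' z' h => exact hcl.eps q z q' z' hq h
    | popr q z r q' h => exact ⟨(hcl.popr q z r q' hq h).2.2, (hcl.popr q z r q' hq h).1⟩
    | eqc q z c h =>
      have := (hcl.eqc q c hq h).2
      exact ⟨by exact_mod_cast this, by omega⟩
    | eqlast c z =>
      have : c ≤ R := hq.1
      change 3 + c ≤ R + 3
      omega
    | gtc q z c h =>
      have := (hcl.nec q c hq h).2
      exact ⟨by exact_mod_cast this, by omega⟩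
    | gtlast c z =>
      have : c ≤ R := hq.1
      change 3 + c + 1 ≤ R + 4
      omega
    | ltc q z c h =>
      have := (hcl.nec q c hq h).2
      exact ⟨by exact_mod_cast this, by omega⟩
    | ltlast c b z =>
      have : c ≤ R := hq.1
      change (if b then 3 + c else 2 + c) ≤ R + 3
      split <;> omega
    | flush q z h => trivial
    | last q z h => trivial
    | ver q z h => trivial
    | gv z l h => exact (hcl.blk z l h).2
  push := by
    rintro q z q' z' hq h
    change CPush D q z q' z' at h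
    cases h with
    | main q z q' z' h => exact hcl.push q z q' z' hq h
  read := by
    rintro q z a q' hq h
    change CRead D q z a q' at h
    cases h with
    | pr r q' z a h =>
      have : r + 1 ≤ R := hq.1
      exact ⟨by omega, hq.2⟩
    | eqa c j z a h => exact ⟨hq.1, by omega⟩
    | eql i z a h =>
      have : i + 1 ≤ R + 3 := hq
      change i ≤ R + 3
      omega
    | gta c j z a h => exact ⟨hq.1, by omega⟩
    | gtl i z a h =>
      have : i + 1 ≤ R + 4 := hq
      change i ≤ R + 4
      omega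
    | gtl1 z a => exact hq
    | lta c j b z a h => exact ⟨hq.1, by omega⟩
    | ltl i z a h =>
      have : i + 1 ≤ R + 3 := hq
      change i ≤ R + 3
      omega
    | fl z a => trivial
    | la z a => trivial
    | gv z a l h =>
      have : (a :: l).length ≤ R := hq
      rw [List.length_cons] at this
      change l.length ≤ R
      omega
  pop := by
    rintro q z a q' hq h
    change CPop D q z a q' at h
    cases h with
    | pr q' z a => exact hq.2
    | eqa c z a => exact ⟨hq.1, by omega⟩
    | gta c z a => exact ⟨hq.1, by omega⟩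
    | lta3 c b z a => exact ⟨hq.1, by omega⟩
    | lta c j b z a h => exact ⟨hq.1, by omega⟩
    | fl z a => trivial
    | gv z a => trivial

theorem exists_closed [Finite T] (D : GPD T) {S : Set D.Q} (hS : S.Finite) {R : ℕ} (hcl : D.Closed S R) :
    ∃ S' : Set D.toPD.Q, S'.Finite ∧ D.toPD.Closed S' :=
  ⟨{s : GS D.Q T | inS S R s}, inS_finite S hS R, inS_closed D hcl⟩

theorem exists_grammar_of_GPD [Finite T] (D : GPD T) [Finite D.Z] (S : Set D.Q) (hS : S.Finite) (R : ℕ)
    (hcl : D.Closed S R) : ∃ G : Grammar T, ∀ w, w ∈ G.langLM ↔ D.GWin D.start [D.bot] w := by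
  obtain ⟨S', hS', hcl'⟩ := exists_closed D hS hcl
  have : Finite D.toPD.Z := inferInstanceAs (Finite D.Z)
  obtain ⟨G, hG⟩ := exists_grammar_of_PD D.toPD S' hS' hcl'
  refine ⟨G, fun w => (hG w).trans ⟨fun h => ?_, fun h => ?_⟩⟩
  · exact toPD_sound D h
  · exact toPD_complete D hcl hcl.start h

end Pool.Agent.ACSG48
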