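import Pool.Agent.LibACSG48.Defs

/-! ROW C6.  Adding finitely many nonempty words to the language of a grammar (leftmost mode). -/

set_option autoImplicit false

namespace Pool.Agent.ACSG48

variable {T : Type}

namespace C6

/-- the embedding of the symbols -/
def io (G : Grammar T) : G.V ⊕ T → Option G.V ⊕ T := Sum.map some id

theorem io_inj (G : Grammar T) : Function.Injective (io G) :=
  Sum.map_injective.2 ⟨Option.some_injective _, Function.injective_id⟩

theorem io_inr (G : Grammar T) (x : List T) :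
    (x.map Sum.inr : List (G.V ⊕ T)).map (io G) = x.map Sum.inr := by
  simp [io, List.map_map, Function.comp_def]

theorem none_not_mem (G : Grammar T) (f : List (G.V ⊕ T)) : Sum.inl none ∉ f.map (io G) := by
  intro h
  obtain ⟨s, _, hs⟩ := List.mem_map.1 h
  rcases s with s | s <;> simp [io] at hs

/-- the new productions -/
def P' (G : Grammar T) (F : Set (List T)) : Set (List (Option G.V ⊕ T) × List (Option G.V ⊕ T)) :=
  insert ([Sum.inl none], [Sum.inl (some G.S)])
    ((fun w : List T => ([Sum.inl none], w.map Sum.inr)) '' F ∪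
      (fun p : List (G.V ⊕ T) × List (G.V ⊕ T) => (p.1.map (io G), p.2.map (io G))) '' G.P)

theorem mem_P' (G : Grammar T) (F : Set (List T)) (l r : List (Option G.V ⊕ T)) (h : (l, r) ∈ P' G F) :
    (l = [Sum.inl none] ∧ (r = [Sum.inl (some G.S)] ∨ ∃ w ∈ F, r = w.map Sum.inr)) ∨
      ∃ l0 r0, (l0, r0) ∈ G.P ∧ l = l0.map (io G) ∧ r = r0.map (io G) := by
  rcases h with h | ⟨w, hw, h⟩ | ⟨⟨l0, r0⟩, hp, h⟩
  · simp only [Prod.mk.injEq] at h
    exact Or.inl ⟨h.1, Or.inl h.2⟩
  · simp only [Prod.mk.injEq] at h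
    exact Or.inl ⟨h.1.symm, Or.inr ⟨w, hw, h.2.symm⟩⟩
  · simp only [Prod.mk.injEq] at h
    exact Or.inr ⟨l0, r0, hp, h.1.symm, h.2.symm⟩

/-- the new grammar -/
abbrev G' (G : Grammar T) (F : Set (List T)) (hF : F.Finite) (hne : ([] : List T) ∉ F) : Grammar T where
  V := Option G.V
  finV := by
    have := G.finV
    infer_instance
  U := some '' G.U
  S := none
  P := P' G F
  finP := ((hF.image _).union (G.finP.image _)).insert _
  shape := by
    intro l r h
    rcases mem_P' G F l r h with ⟨h1, h2⟩ | ⟨l0, r0, hp, rfl, rfl⟩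
    · exact ⟨[], none, [], r, by simp [h1], by simp⟩
    · obtain ⟨x, A, α, β, h1, h2⟩ := G.shape l0 r0 hp
      refine ⟨x, some A, α.map (io G), β.map (io G), ?_, ?_⟩
      · rw [h1, List.map_append, io_inr, List.map_cons]
        rfl
      · rw [h2, List.map_append, io_inr]
  mono := by
    intro l r h
    rcases mem_P' G F l r h with ⟨h1, h2⟩ | ⟨l0, r0, hp, rfl, rfl⟩
    · rcases h2 with h2 | ⟨w, hw, h2⟩
      · simp [h1, h2]
      · rcases w with _ | ⟨a, w⟩
        · exact absurd hw hne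
        · simp [h1, h2]
    · simpa using G.mono l0 r0 hp

variable (G : Grammar T) (F : Set (List T)) (hF : F.Finite) (hne : ([] : List T) ∉ F)

theorem univ_iff (l0 : List (G.V ⊕ T)) : (G' G F hF hne).Univ (l0.map (io G)) ↔ G.Univ l0 := by
  constructor
  · rintro ⟨x, A, α, h, hA⟩
    obtain ⟨B, hB, rfl⟩ := hA
    obtain ⟨f1, f2, h1, h2, h3⟩ := List.map_eq_append_iff.1 h
    obtain ⟨s, f3, h4, h5, h6⟩ := List.map_eq_cons_iff.1 h3
    refine ⟨x, B, f3, ?_, hB⟩
    have e1 : f1 = x.map Sum.inr := by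
      apply (List.map_injective_iff.2 (io_inj G))
      rw [h2, io_inr]
    have e2 : s = Sum.inl B := by
      apply io_inj G
      rw [h5]
      rfl
    rw [h1, e1, h4, e2]
  · rintro ⟨x, A, α, h, hA⟩
    refine ⟨x, some A, α.map (io G), ?_, A, hA, rfl⟩
    rw [h, List.map_append, io_inr, List.map_cons]
    rfl

theorem der_up (w : List T) (f : List (G.V ⊕ T)) (h : G.DerLM w f) :
    (G' G F hF hne).DerLM w (f.map (io G)) := by
  induction h with
  | leaf =>
    rw [io_inr]
    exact Grammar.DerLM.leaf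
  | exi γ l r δ hp hu _ ih =>
    rw [List.map_append, List.map_append, io_inr] at ih ⊢
    refine Grammar.DerLM.exi (G := G' G F hF hne) γ (l.map (io G)) (r.map (io G)) _ ?_ ?_ ih
    · exact Or.inr (Or.inr ⟨(l, r), hp, rfl⟩)
    · rw [univ_iff]
      exact hu
  | univ γ l δ hu he _ ih =>
    rw [List.map_append, List.map_append, io_inr]
    refine Grammar.DerLM.univ (G := G' G F hF hne) γ (l.map (io G)) _ ?_ ?_ ?_
    · rw [univ_iff]
      exact hu
    · obtain ⟨r, hr⟩ := he
      exact ⟨r.map (io G), Or.inr (Or.inr ⟨(l, r), hr, rfl⟩)⟩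
    · intro r' hr'
      rcases mem_P' G F _ _ hr' with ⟨h1, _⟩ | ⟨l0, r0, hp, h1, rfl⟩
      · exact absurd (h1 ▸ List.mem_singleton_self _ : Sum.inl none ∈ l.map (io G)) (none_not_mem G l)
      · have : l = l0 := List.map_injective_iff.2 (io_inj G) h1
        subst this
        have := ih r0 hp
        rwa [List.map_append, List.map_append, io_inr] at this

theorem split_eq (f : List (G.V ⊕ T)) (γ : List T) (l0 : List (G.V ⊕ T)) (δ : List (Option G.V ⊕ T))
    (h : γ.map Sum.inr ++ l0.map (io G) ++ δ = f.map (io G)) :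
    ∃ δ0, δ = δ0.map (io G) ∧ f = γ.map Sum.inr ++ l0 ++ δ0 := by
  obtain ⟨f1, f2, h1, h2, h3⟩ := List.map_eq_append_iff.1 h.symm
  refine ⟨f2, h3.symm, ?_⟩
  have : f1 = γ.map Sum.inr ++ l0 := by
    apply (List.map_injective_iff.2 (io_inj G))
    rw [h2, List.map_append, io_inr]
  rw [h1, this]

theorem sub_of_eq (f : List (G.V ⊕ T)) (γ : List T) (l δ : List (Option G.V ⊕ T))
    (h : γ.map Sum.inr ++ l ++ δ = f.map (io G)) : l ≠ [Sum.inl none] := by
  rintro rfl
  apply none_not_mem G f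
  rw [← h]
  simp

theorem der_down (w : List T) (g : List ((G' G F hF hne).V ⊕ T)) (h : (G' G F hF hne).DerLM w g) :
    ∀ f : List (G.V ⊕ T), g = f.map (io G) → G.DerLM w f := by
  induction h with
  | leaf =>
    intro f hf
    have : f = w.map Sum.inr := by
      apply (List.map_injective_iff.2 (io_inj G))
      rw [← hf, io_inr]
    rw [this]
    exact Grammar.DerLM.leaf
  | exi γ l r δ hp hu _ ih =>
    intro f hf
    rcases mem_P' G F _ _ hp with ⟨h1, _⟩ | ⟨l0, r0, hp0, rfl, rfl⟩
    · exact absurd h1 (sub_of_eq G f γ l δ hf)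
    · obtain ⟨δ0, rfl, rfl⟩ := split_eq G f γ l0 δ hf
      rw [univ_iff] at hu
      refine Grammar.DerLM.exi γ l0 r0 δ0 hp0 hu (ih _ ?_)
      rw [List.map_append, List.map_append, io_inr]
  | univ γ l δ hu he _ ih =>
    intro f hf
    obtain ⟨r', hr'⟩ := he
    rcases mem_P' G F _ _ hr' with ⟨h1, _⟩ | ⟨l0, r0, hp0, rfl, rfl⟩
    · exact absurd h1 (sub_of_eq G f γ l δ hf)
    · obtain ⟨δ0, rfl, rfl⟩ := split_eq G f γ l0 δ hf
      rw [univ_iff] at hu
      refine Grammar.DerLM.univ γ l0 δ0 hu ⟨r0, hp0⟩ fun r hr => ?_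
      refine ih (r.map (io G)) (Or.inr (Or.inr ⟨(l0, r), hr, rfl⟩)) _ ?_
      rw [List.map_append, List.map_append, io_inr]

/-- a terminal form derives only itself -/
theorem der_term (K : Grammar T) (w v : List T) (g : List (K.V ⊕ T)) (h : K.DerLM w g)
    (hg : g = v.map Sum.inr) : w = v := by
  have key : ∀ (γ : List T) (l r δ : List (K.V ⊕ T)), (l, r) ∈ K.P →
      γ.map Sum.inr ++ l ++ δ ≠ v.map Sum.inr := by
    intro γ l r δ hp he
    obtain ⟨x, A, α, β, h1, _⟩ := K.shape l r hp
    have : Sum.inl A ∈ (v.map Sum.inr : List (K.V ⊕ T)) := by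
      rw [← he, h1]
      simp
    obtain ⟨t, _, ht⟩ := List.mem_map.1 this
    simp at ht
  cases h with
  | leaf => exact List.map_injective_iff.2 Sum.inr_injective hg
  | exi γ l r δ hp hu _ => exact absurd hg (key γ l r δ hp)
  | univ γ l δ hu he _ =>
    obtain ⟨r, hr⟩ := he
    exact absurd hg (key γ l r δ hr)

theorem root (w : List T) (g : List ((G' G F hF hne).V ⊕ T)) (h : (G' G F hF hne).DerLM w g)
    (hg : g = [Sum.inl none]) : w ∈ G.langLM ∪ F := by
  have key : ∀ (γ : List T) (l r δ : List (Option G.V ⊕ T)), (l, r) ∈ P' G F →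
      γ.map Sum.inr ++ l ++ δ = [Sum.inl none] → γ = [] ∧ l = [Sum.inl none] ∧ δ = [] := by
    intro γ l r δ hp he
    obtain ⟨x, A, α, β, h1, _⟩ := (G' G F hF hne).shape l r hp
    have hl : l ≠ [] := by
      rw [h1]
      simp
    have h2 : γ.length + l.length + δ.length = 1 := by
      have := congrArg List.length he
      simpa [add_assoc] using this
    have h3 : 0 < l.length := List.length_pos_of_ne_nil hl
    have h4 : γ = [] := List.length_eq_zero_iff.1 (by omega)
    have h5 : δ = [] := List.length_eq_zero_iff.1 (by omega)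
    subst h4 h5
    simpa using he
  cases h with
  | leaf =>
    exfalso
    rcases w with _ | ⟨a, w⟩ <;> simp at hg
  | exi γ l r δ hp hu hd =>
    obtain ⟨rfl, rfl, rfl⟩ := key γ l r δ hp hg
    rcases mem_P' G F _ _ hp with ⟨_, h1 | ⟨v, hv, h1⟩⟩ | ⟨l0, r0, _, h1, _⟩
    · left
      subst h1
      exact der_down G F hF hne w _ hd [Sum.inl G.S] rfl
    · right
      subst h1
      have := der_term (G' G F hF hne) w v _ hd (by simp)
      rw [this]
      exact hv
    · exact absurd (h1 ▸ List.mem_singleton_self _ : Sum.inl none ∈ l0.map (io G)) (none_not_mem G l0)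
  | univ γ l δ hu he _ =>
    exfalso
    obtain ⟨r, hr⟩ := he
    obtain ⟨rfl, rfl, rfl⟩ := key γ l r δ hr hg
    obtain ⟨x, A, α, h1, B, hB, rfl⟩ := hu
    have : Sum.inl (some B) ∈ ([Sum.inl none] : List (Option G.V ⊕ T)) := by
      rw [h1]
      simp
    simp at this

end C6

theorem union_finite (G : Grammar T) (F : Set (List T)) (hF : F.Finite) (hne : ([] : List T) ∉ F) :
    ∃ G' : Grammar T, G'.langLM = G.langLM ∪ F := by
  refine ⟨C6.G' G F hF hne, Set.Subset.antisymm (fun w hw => C6.root G F hF hne w _ hw rfl) ?_⟩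
  have hnu : ¬ (C6.G' G F hF hne).Univ [Sum.inl none] := by
    rintro ⟨x, A, α, h1, B, hB, rfl⟩
    have : Sum.inl (some B) ∈ ([Sum.inl none] : List (Option G.V ⊕ T)) := by
      rw [h1]
      simp
    simp at this
  rintro w (hw | hw)
  · refine Grammar.DerLM.exi (G := C6.G' G F hF hne) [] [Sum.inl none] [Sum.inl (some G.S)] []
      (Or.inl rfl) hnu ?_
    exact C6.der_up G F hF hne w _ hw
  · refine Grammar.DerLM.exi (G := C6.G' G F hF hne) [] [Sum.inl none] (w.map Sum.inr) []
      (Or.inr (Or.inl ⟨w, hw, rfl⟩)) hnu ?_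
    have := Grammar.DerLM.leaf (G := C6.G' G F hF hne) (w := w)
    simpa using this

end Pool.Agent.ACSG48
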