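import Pool.Agent.LibACSG48.C5
import Pool.Agent.LibACSG48.C6

/-! Block C7.  Grammars with one active variable: leftmost and unrestricted derivations agree. -/

set_option autoImplicit false

namespace Pool.Agent.ACSG48

variable {T : Type}

/-- all left-hand sides begin with an active variable; in a right-hand side at most one symbol is an active variable, and only terminals stand
before it -/
def Grammar.OneActive (G : Grammar T) (A : Set G.V) : Prop :=
  ∀ l r, (l, r) ∈ G.P → ∃ (a : G.V) (α : List (G.V ⊕ T)) (x : List T) (g : List (G.V ⊕ T)),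
    a ∈ A ∧ l = Sum.inl a :: α ∧ r = x.map Sum.inr ++ g ∧ ∀ b ∈ A, Sum.inl b ∉ g.tail

theorem c7_split {A B : Type} {P : Set A} : ∀ (γ : List (A ⊕ B)) (u : List B) (a : A) (X g : List (A ⊕ B)),
    a ∈ P → (∀ b ∈ P, Sum.inl b ∉ g.tail) → γ ++ Sum.inl a :: X = u.map Sum.inr ++ g →
    γ = u.map Sum.inr ∧ g = Sum.inl a :: X := by
  intro γ
  induction γ with
  | nil =>
    intro u a X g ha hg h
    cases u with
    | nil => exact ⟨rfl, by simpa using h.symm⟩
    | cons c u => simp at h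
  | cons s γ ih =>
    intro u a X g ha hg h
    cases u with
    | nil =>
      exfalso
      rw [List.map_nil, List.nil_append] at h
      apply hg a ha
      rw [← h]
      simp
    | cons c u =>
      rw [List.map_cons, List.cons_append, List.cons_append] at h
      injection h with h1 h2
      obtain ⟨h3, h4⟩ := ih u a X g ha hg h2
      exact ⟨by rw [h1, h3, List.map_cons], h4⟩

theorem c7_der {G : Grammar T} {A : Set G.V} (hG : G.OneActive A) {w : List T} {f : List (G.V ⊕ T)} (h : G.Der w f) :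
    ∀ (u : List T) (g : List (G.V ⊕ T)), f = u.map Sum.inr ++ g → (∀ b ∈ A, Sum.inl b ∉ g.tail) → G.DerLM w f := by
  have key : ∀ (γ l r δ : List (G.V ⊕ T)) (u : List T) (g : List (G.V ⊕ T)), (l, r) ∈ G.P →
      γ ++ l ++ δ = u.map Sum.inr ++ g → (∀ b ∈ A, Sum.inl b ∉ g.tail) → γ = u.map Sum.inr ∧
        ∀ r', (l, r') ∈ G.P → ∃ (u' : List T) (g' : List (G.V ⊕ T)), γ ++ r' ++ δ = u'.map Sum.inr ++ g' ∧
          ∀ b ∈ A, Sum.inl b ∉ g'.tail := by
    intro γ l r δ u g hp hf hg
    obtain ⟨a, α, x, g1, ha, rfl, rfl, hg1⟩ := hG l r hp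
    obtain ⟨h1, h2⟩ := c7_split γ u a (α ++ δ) g ha hg (by rw [← hf]; simp)
    refine ⟨h1, ?_⟩
    intro r' hr'
    obtain ⟨a', α', x', g', ha', h3, rfl, hg'⟩ := hG _ _ hr'
    refine ⟨u ++ x', g' ++ δ, ?_, ?_⟩
    · rw [h1]; simp
    · intro b hb hmem
      have h4 : Sum.inl b ∉ δ := by
        intro h5
        apply hg b hb
        rw [h2]
        simp [h5]
      cases g' with
      | nil =>
        exact h4 (List.mem_of_mem_tail (by simpa using hmem))
      | cons s g'' =>
        have h6 := hg' b hb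
        simp only [List.tail_cons, List.cons_append, List.mem_append] at h6 hmem
        rcases hmem with h7 | h7
        · exact h6 h7
        · exact h4 h7
  induction h with
  | leaf => intro u g _ _; exact Grammar.DerLM.leaf
  | exi γ l r δ hp hu _ ih =>
    intro u g hf hg
    obtain ⟨h1, h2⟩ := key γ l r δ u g hp hf hg
    obtain ⟨u', g', h3, h4⟩ := h2 r hp
    subst h1
    exact Grammar.DerLM.exi u l r δ hp hu (ih u' g' h3 h4)
  | univ γ l δ hu he _ ih =>
    intro u g hf hg
    obtain ⟨r0, hr0⟩ := he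
    obtain ⟨h1, h2⟩ := key γ l r0 δ u g hr0 hf hg
    subst h1
    refine Grammar.DerLM.univ u l δ hu ⟨r0, hr0⟩ fun r hr => ?_
    obtain ⟨u', g', h3, h4⟩ := h2 r hr
    exact ih r hr u' g' h3 h4

theorem c7_lm {G : Grammar T} {w : List T} {f : List (G.V ⊕ T)} (h : G.DerLM w f) : G.Der w f := by
  induction h with
  | leaf => exact Grammar.Der.leaf
  | exi γ l r δ hp hu _ ih => exact Grammar.Der.exi _ l r δ hp hu ih
  | univ γ l δ hu he _ ih => exact Grammar.Der.univ _ l δ hu he fun r hr => ih r hr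

theorem lang_eq_langLM {G : Grammar T} {A : Set G.V} (hG : G.OneActive A) : G.lang = G.langLM := by
  ext w
  constructor
  · intro h
    exact c7_der hG h [] [Sum.inl G.S] (by simp) (by simp)
  · intro h
    exact c7_lm h

theorem nil_notMem_lang {G : Grammar T} : ([] : List T) ∉ G.lang := by
  intro h
  have key : ∀ (w : List T) (f : List (G.V ⊕ T)), G.Der w f → f.length ≤ w.length := by
    intro w f hf
    induction hf with
    | leaf => simp
    | exi γ l r δ hp hu _ ih =>
      have := G.mono l r hp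
      simp only [List.length_append] at ih ⊢
      omega
    | univ γ l δ hu he _ ih =>
      obtain ⟨r, hr⟩ := he
      have := G.mono l r hr
      have := ih r hr
      simp only [List.length_append] at this ⊢
      omega
  have := key _ _ h
  simp at this

theorem c7_oneActive [Finite T] (D : PD T) [Finite D.Z] (S : Set D.Q) (hS : S.Finite) (h0 : D.start ∈ S) :
    (c1_G D S hS h0).OneActive {v | ∃ (q : S) (z : D.Z), v = Sum.inl (q, z)} := by
  intro l r h
  have h' : C1P D S l r := h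
  have hnil : ∀ (b : (c1_G D S hS h0).V) (s : (c1_G D S hS h0).V ⊕ T), Sum.inl b ∉ [s].tail :=
    fun b s hb => absurd hb List.not_mem_nil
  cases h' with
  | un q z q' h1 h2 =>
    exact ⟨Sum.inl (q, z), [], [], [c1_pv D S q' z], ⟨q, z, rfl⟩, rfl, rfl, fun b _ => hnil b _⟩
  | eps q z q' z' h1 h2 =>
    exact ⟨Sum.inl (q, z), [], [], [c1_pv D S q' z'], ⟨q, z, rfl⟩, rfl, rfl, fun b _ => hnil b _⟩
  | push q z q' z' h1 h2 =>
    refine ⟨Sum.inl (q, z), [], [], [c1_pv D S q' z', c1_sv D S z], ⟨q, z, rfl⟩, rfl, rfl, ?_⟩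
    rintro b ⟨q1, z1, rfl⟩ hb
    have hb' : (Sum.inl (Sum.inl (q1, z1)) : ((S × D.Z) ⊕ D.Z) ⊕ T) ∈ [c1_sv D S z] := hb
    simp [c1_sv] at hb'
  | read q z a q' h1 h2 =>
    exact ⟨Sum.inl (q, z), [], [a], [c1_pv D S q' z], ⟨q, z, rfl⟩, rfl, rfl, fun b _ => hnil b _⟩
  | pop q z a q' z₂ h1 h2 =>
    exact ⟨Sum.inl (q, z), [c1_sv D S z₂], [a], [c1_pv D S q' z₂], ⟨q, z, rfl⟩, rfl, rfl, fun b _ => hnil b _⟩
  | fin q z a h1 h2 =>
    exact ⟨Sum.inl (q, z), [], [a], [], ⟨q, z, rfl⟩, rfl, rfl, fun b _ hb => absurd hb List.not_mem_nil⟩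

theorem c7_union (G : Grammar T) (F : Set (List T)) (hF : F.Finite) (hne : ([] : List T) ∉ F) {A : Set G.V}
    (hG : G.OneActive A) : (C6.G' G F hF hne).OneActive (insert none (some '' A)) := by
  intro l r h
  rcases C6.mem_P' G F l r h with ⟨rfl, rfl | ⟨w, hw, rfl⟩⟩ | ⟨l0, r0, hp, rfl, rfl⟩
  · exact ⟨none, [], [], [Sum.inl (some G.S)], Or.inl rfl, rfl, rfl, by simp⟩
  · exact ⟨none, [], w, [], Or.inl rfl, rfl, by simp, by simp⟩
  · obtain ⟨a, α, x, g, ha, rfl, rfl, hg⟩ := hG l0 r0 hp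
    refine ⟨some a, α.map (C6.io G), x, g.map (C6.io G), Or.inr ⟨a, ha, rfl⟩, rfl, ?_, ?_⟩
    · rw [List.map_append, C6.io_inr]
    · rintro b (rfl | ⟨b', hb', rfl⟩) hmem
      · rw [← List.map_tail] at hmem
        exact C6.none_not_mem G _ hmem
      · rw [← List.map_tail] at hmem
        obtain ⟨s, hs, hs'⟩ := List.mem_map.1 hmem
        have : s = Sum.inl b' := C6.io_inj G (by rw [hs']; rfl)
        subst this
        exact hg b' hb' hs

theorem union_finite' (G : Grammar T) (F : Set (List T)) (hF : F.Finite) (hne : ([] : List T) ∉ F) {A : Set G.V}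
    (hG : G.OneActive A) : ∃ G' : Grammar T, G'.langLM = G.langLM ∪ F ∧ G'.lang = G.langLM ∪ F := by
  have h : (C6.G' G F hF hne).langLM = G.langLM ∪ F := by
    refine Set.Subset.antisymm (fun w hw => C6.root G F hF hne w _ hw rfl) ?_
    have hnu : ¬ (C6.G' G F hF hne).Univ [Sum.inl none] := by
      rintro ⟨x, A, α, h1, B, hB, rfl⟩
      have : Sum.inl (some B) ∈ ([Sum.inl none] : List (Option G.V ⊕ T)) := by
        rw [h1]
        simp
      simp at this
    rintro w (hw | hw)
    · refine Grammar.DerLM.exi (G := C6.G' G F hF hne) [] [Sum.inl none] [Sum.inl (some G.S)] []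
        (Or.inl rfl) hnu ?_
      exact C6.der_up G F hF hne w _ hw
    · refine Grammar.DerLM.exi (G := C6.G' G F hF hne) [] [Sum.inl none] (w.map Sum.inr) []
        (Or.inr (Or.inl ⟨w, hw, rfl⟩)) hnu ?_
      have := Grammar.DerLM.leaf (G := C6.G' G F hF hne) (w := w)
      simpa using this
  exact ⟨C6.G' G F hF hne, h, (lang_eq_langLM (c7_union G F hF hne hG)).trans h⟩

theorem exists_grammar_of_GPD' [Finite T] (D : GPD T) [Finite D.Z] (S : Set D.Q) (hS : S.Finite) (R : ℕ)
    (hcl : D.Closed S R) :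
    ∃ (G : Grammar T) (A : Set G.V), G.OneActive A ∧ ∀ w, w ∈ G.langLM ↔ D.GWin D.start [D.bot] w := by
  obtain ⟨S', hS', hcl'⟩ := exists_closed D hS hcl
  have : Finite D.toPD.Z := inferInstanceAs (Finite D.Z)
  refine ⟨c1_G D.toPD S' hS' hcl'.start, _, c7_oneActive D.toPD S' hS' hcl'.start, ?_⟩
  intro w
  have hG : w ∈ (c1_G D.toPD S' hS' hcl'.start).langLM ↔ D.toPD.Win D.toPD.start [D.toPD.bot] w := by
    refine ⟨fun h => ?_, fun h => ?_⟩
    · have h1 := c1_toD D.toPD S' hS' hcl'.start h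
      obtain ⟨w', hw, hwin⟩ := c1_sound D.toPD S' hcl' h1 [] ⟨D.toPD.start, hcl'.start⟩ D.toPD.bot [] rfl
      rw [hw]
      exact hwin
    · exact c1_ofD D.toPD S' hS' hcl'.start (c1_complete D.toPD S' hcl' h hcl'.start D.toPD.bot [] rfl [])
  refine hG.trans ⟨fun h => ?_, fun h => ?_⟩
  · exact toPD_sound D h
  · exact toPD_complete D hcl hcl.start h

end Pool.Agent.ACSG48
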