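import Mathlib

/-!
# Alternating context-sensitive grammars and alternating linear time: definitions (MP_408050_lc)
-/

set_option autoImplicit false

namespace Pool.Agent.ACSG48

/-! ## Alternating context-sensitive grammars -/

/-- An alternating context-sensitive grammar with terminal alphabet `T`.  Symbols are `Sum.inl A` (variables) and
`Sum.inr a` (terminals). -/
structure Grammar (T : Type) where
  /-- variables -/
  V : Type
  finV : Finite V
  /-- universal variables -/
  U : Set V
  /-- start variable -/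
  S : V
  /-- productions `l → r` -/
  P : Set (List (V ⊕ T) × List (V ⊕ T))
  finP : P.Finite
  /-- every production has the shape `xAα → xβ` with `x` terminal -/
  shape : ∀ l r, (l, r) ∈ P → ∃ (x : List T) (A : V) (α β : List (V ⊕ T)),
    l = x.map Sum.inr ++ Sum.inl A :: α ∧ r = x.map Sum.inr ++ β
  /-- `|l| ≤ |r|` -/
  mono : ∀ l r, (l, r) ∈ P → l.length ≤ r.length

variable {T : Type}

/-- a left-hand side is universal when its leftmost variable is universal -/
def Grammar.Univ (G : Grammar T) (l : List (G.V ⊕ T)) : Prop :=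
  ∃ (x : List T) (A : G.V) (α : List (G.V ⊕ T)), l = x.map Sum.inr ++ Sum.inl A :: α ∧ A ∈ G.U

/-- `G.Der w f`: there is a derivation tree with root `f` all of whose leaves are labelled `w` (unrestricted mode) -/
inductive Grammar.Der (G : Grammar T) (w : List T) : List (G.V ⊕ T) → Prop
  | leaf : Grammar.Der G w (w.map Sum.inr)
  | exi (γ l r δ : List (G.V ⊕ T)) : (l, r) ∈ G.P → ¬ G.Univ l → Grammar.Der G w (γ ++ r ++ δ) →
      Grammar.Der G w (γ ++ l ++ δ)
  | univ (γ l δ : List (G.V ⊕ T)) : G.Univ l → (∃ r, (l, r) ∈ G.P) →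
      (∀ r, (l, r) ∈ G.P → Grammar.Der G w (γ ++ r ++ δ)) → Grammar.Der G w (γ ++ l ++ δ)

/-- the same with leftmost steps only: the part `γ` before the rewritten left-hand side is terminal -/
inductive Grammar.DerLM (G : Grammar T) (w : List T) : List (G.V ⊕ T) → Prop
  | leaf : Grammar.DerLM G w (w.map Sum.inr)
  | exi (γ : List T) (l r δ : List (G.V ⊕ T)) : (l, r) ∈ G.P → ¬ G.Univ l →
      Grammar.DerLM G w (γ.map Sum.inr ++ r ++ δ) → Grammar.DerLM G w (γ.map Sum.inr ++ l ++ δ)
  | univ (γ : List T) (l δ : List (G.V ⊕ T)) : G.Univ l → (∃ r, (l, r) ∈ G.P) →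
      (∀ r, (l, r) ∈ G.P → Grammar.DerLM G w (γ.map Sum.inr ++ r ++ δ)) →
      Grammar.DerLM G w (γ.map Sum.inr ++ l ++ δ)

/-- `L(G)` -/
def Grammar.lang (G : Grammar T) : Set (List T) := {w | G.Der w [Sum.inl G.S]}

/-- `L_lm(G)` -/
def Grammar.langLM (G : Grammar T) : Set (List T) := {w | G.DerLM w [Sum.inl G.S]}

/-! ## Alternating Turing machines -/

/-- An alternating Turing machine with `k+1` two-way infinite tapes; tape `0` carries the input. -/
structure ATM (T : Type) where
  k : ℕ
  /-- states -/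
  Q : Type
  finQ : Finite Q
  /-- tape alphabet -/
  Γ : Type
  finΓ : Finite Γ
  blank : Γ
  /-- the input letters as tape symbols -/
  inp : T → Γ
  inp_inj : Function.Injective inp
  inp_ne : ∀ a, inp a ≠ blank
  start : Q
  /-- accepting states -/
  acc : Set Q
  /-- universal states -/
  univ : Set Q
  /-- `tr q a q' a' m`: in state `q`, reading `a i` on tape `i`, the machine may enter state `q'`, write `a' i` and move
  the head of tape `i` by `m i` -/
  tr : Q → (Fin (k + 1) → Γ) → Q → (Fin (k + 1) → Γ) → (Fin (k + 1) → ℤ) → Prop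
  tr_move : ∀ q a q' a' m, tr q a q' a' m → ∀ i, |m i| ≤ 1

/-- configurations -/
structure ATM.Conf (M : ATM T) where
  q : M.Q
  tape : Fin (M.k + 1) → ℤ → M.Γ
  head : Fin (M.k + 1) → ℤ

/-- one step -/
def ATM.Step (M : ATM T) (c c' : M.Conf) : Prop :=
  ∃ (a' : Fin (M.k + 1) → M.Γ) (m : Fin (M.k + 1) → ℤ),
    M.tr c.q (fun i => c.tape i (c.head i)) c'.q a' m ∧
    (∀ i, c'.tape i = Function.update (c.tape i) (c.head i) (a' i)) ∧
    ∀ i, c'.head i = c.head i + m i

/-- `M.Acc t c`: the configuration `c` has an accepting computation tree of depth at most `t` -/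
def ATM.Acc (M : ATM T) : ℕ → M.Conf → Prop
  | 0, c => c.q ∈ M.acc
  | t + 1, c => c.q ∈ M.acc ∨
      (c.q ∉ M.univ ∧ ∃ c', M.Step c c' ∧ ATM.Acc M t c') ∨
      (c.q ∈ M.univ ∧ (∃ c', M.Step c c') ∧ ∀ c', M.Step c c' → ATM.Acc M t c')

/-- the input tape: the word at the cells `0, 1, …, |w|-1` -/
def ATM.inTape (M : ATM T) (w : List T) (j : ℤ) : M.Γ :=
  if 0 ≤ j then (w[j.toNat]?).elim M.blank M.inp else M.blank

/-- the initial configuration -/
def ATM.init (M : ATM T) (w : List T) : M.Conf where
  q := M.start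
  tape := fun i j => if i = 0 then M.inTape w j else M.blank
  head := fun _ => 0

/-- `L ∈ ATIME(O(n))`: some alternating Turing machine accepts the words of `L` (and no others) by computation trees of
depth at most `c·|w|`; the empty word is ignored. -/
def AltLinTime (L : Set (List T)) : Prop :=
  ∃ (M : ATM T) (c : ℕ), ∀ w : List T, w ≠ [] →
    (w ∈ L → M.Acc (c * w.length) (M.init w)) ∧ (∀ t, M.Acc t (M.init w) → w ∈ L)

theorem ATM.Acc_mono (M : ATM T) {s t : ℕ} (h : s ≤ t) {c : M.Conf} (hc : M.Acc s c) : M.Acc t c := by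
  induction t generalizing s c with
  | zero =>
    obtain rfl : s = 0 := by omega
    exact hc
  | succ t ih =>
    cases s with
    | zero => exact Or.inl hc
    | succ s =>
      rcases hc with h1 | ⟨h1, c', h2, h3⟩ | ⟨h1, h2, h3⟩
      · exact Or.inl h1
      · exact Or.inr (Or.inl ⟨h1, c', h2, ih (by omega) h3⟩)
      · exact Or.inr (Or.inr ⟨h1, h2, fun c' hc' => ih (by omega) (h3 c' hc')⟩)

theorem ATM.Acc_acc (M : ATM T) {t : ℕ} {c : M.Conf} (h : c.q ∈ M.acc) : M.Acc t c := by
  cases t with
  | zero => exact h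
  | succ t => exact Or.inl h

end Pool.Agent.ACSG48
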