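import Pool.Agent.LibACSG48.C0

/-!
# Block E: the pushdown automaton which simulates an alternating Turing machine.  Definitions.

`κ` consecutive cells form a block, `κ` steps of `M` are simulated between two pushes.  Stack symbols: input blocks (the input is pushed
backwards, last block first) and records (for every tape: what was written into the three blocks around the head, and the
move of the block head, coded `0, 1, 2` for `-1, 0, 1`).  `cont τ st d` is the block at displacement `d` from the present block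
head of tape `τ`, read off the stack.
-/

set_option autoImplicit false

namespace Pool.Agent.ACSG48

variable {T : Type} (M : ATM T) (κ : ℕ)

abbrev Ix := Fin (M.k + 1)
abbrev Blk := Fin κ → M.Γ

/-- input blocks -/
abbrev IB (T : Type) (κ : ℕ) := {l : List T // l ≠ [] ∧ l.length ≤ κ}

/-- stack symbols -/
abbrev ZZ := IB T κ ⊕ (Ix M → (Fin 3 → Option (Blk M κ)) × Fin 3)

variable {M κ}

/-- a list of letters as a block, padded by blanks -/
def blkOf (l : List T) : Blk M κ := fun i => (l[(i : ℕ)]?).elim M.blank M.inp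

def blankBlk : Blk M κ := fun _ => M.blank

/-- what the symbol `z` writes on tape `τ` at block displacement `e` from the head before its step -/
def wr (z : ZZ M κ) (τ : Ix M) (e : ℤ) : Option (Blk M κ) :=
  match z with
  | Sum.inl l => if τ = 0 ∧ e = 0 then some (blkOf l.1) else none
  | Sum.inr r => if e = -1 then (r τ).1 0 else if e = 0 then (r τ).1 1 else if e = 1 then (r τ).1 2 else none

/-- the move of the block head -/
def mv (z : ZZ M κ) (τ : Ix M) : ℤ :=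
  match z with
  | Sum.inl _ => if τ = 0 then -1 else 0
  | Sum.inr r => ((r τ).2 : ℕ) - 1

/-- the block at displacement `d` from the present head -/
def cont (τ : Ix M) : List (ZZ M κ) → ℤ → Blk M κ
  | [], _ => blankBlk
  | z :: s, d =>
    match wr z τ (d + mv z τ) with
    | some b => b
    | none => cont τ s (d + mv z τ)

/-- the record which does nothing -/
def nul : ZZ M κ := Sum.inr fun _ => (fun _ => none, 1)

/-- the record which moves the head of tape `0` by one block to the right -/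
def R1 : ZZ M κ := Sum.inr fun τ => (fun _ => none, if τ = 0 then 2 else 1)

open Classical in
/-- the symbol at position `p ∈ [0, 3κ)` of a window of three blocks -/
noncomputable def getW (W : Fin 3 → Blk M κ) (p : ℤ) : M.Γ :=
  if h : ∃ ij : Fin 3 × Fin κ, ((ij.1 : ℕ) : ℤ) * κ + ((ij.2 : ℕ) : ℤ) = p then W h.choose.1 h.choose.2 else M.blank

/-- write `x` at position `p` -/
def setW (W : Fin 3 → Blk M κ) (p : ℤ) (x : M.Γ) : Fin 3 → Blk M κ := fun i j =>
  if ((i : ℕ) : ℤ) * κ + ((j : ℕ) : ℤ) = p then x else W i j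

/-- one step of `M` inside the windows -/
def MStep (q : M.Q) (W : Ix M → Fin 3 → Blk M κ) (p : Ix M → ℤ) (q' : M.Q) (W' : Ix M → Fin 3 → Blk M κ)
    (p' : Ix M → ℤ) : Prop :=
  ∃ (a' : Ix M → M.Γ) (m : Ix M → ℤ), M.tr q (fun τ => getW (W τ) (p τ)) q' a' m ∧
    (∀ τ, W' τ = setW (W τ) (p τ) (a' τ)) ∧ ∀ τ, p' τ = p τ + m τ

/-- the record pushed after a macro step -/
def recOf (W : Ix M → Fin 3 → Blk M κ) (p : Ix M → ℤ) : ZZ M κ :=
  Sum.inr fun τ => (fun i => some (W τ i), Fin.ofNat 3 (p τ / κ).toNat)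

variable (M κ)

/-- states -/
inductive MS
  | start | gpush | gchk | fpush0 | fpush
  | main (q : M.Q) (o : Ix M → Fin κ)
  | cl (q : M.Q) (o : Ix M → Fin κ) (W : Ix M → Fin 3 → Blk M κ)
  | run (q : M.Q) (W : Ix M → Fin 3 → Blk M κ) (p : Ix M → ℤ) (j : ℕ)
  | chk (ck : Check)
  | ch (τ : Ix M) (e : ℤ) (a : Blk M κ)
  | ch1 (τ : Ix M) (e : ℤ) (a : Blk M κ) (ρ σ : ℤ)
  | ver (τ : Ix M) (σ : ℤ) (a : Blk M κ) (k : ℤ)
  | verp (τ : Ix M) (σ : ℤ) (a : Blk M κ) (k : ℤ)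
  | cnt (τ : Ix M) (σ : ℤ) (a : Blk M κ) (k : ℤ)

variable {M κ}

open MS

/-- universal branches -/
inductive DUn [NeZero κ] : MS M κ → ZZ M κ → MS M κ → Prop
  | gchk1 (z : ZZ M κ) : DUn gchk z (chk .ver)
  | gchk2 (z : ZZ M κ) : DUn gchk z fpush0
  | cl1 (q : M.Q) (o : Ix M → Fin κ) (W : Ix M → Fin 3 → Blk M κ) (z : ZZ M κ) :
      DUn (cl q o W) z (run q W (fun τ => κ + ((o τ : ℕ) : ℤ)) κ)
  | cl2 (q : M.Q) (o : Ix M → Fin κ) (W : Ix M → Fin 3 → Blk M κ) (z : ZZ M κ) (τ : Ix M) (i : Fin 3) :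
      DUn (cl q o W) z (ch τ (((i : ℕ) : ℤ) - 1) (W τ i))
  | run (q q' : M.Q) (W W' : Ix M → Fin 3 → Blk M κ) (p p' : Ix M → ℤ) (j : ℕ) (z : ZZ M κ) :
      MStep q W p q' W' p' → DUn (run q W p (j + 1)) z (run q' W' p' j)
  | ch1a (τ : Ix M) (e : ℤ) (a : Blk M κ) (ρ σ : ℤ) (z : ZZ M κ) : DUn (ch1 τ e a ρ σ) z (chk (.eqc (4 + ρ)))
  | ch1b (τ : Ix M) (e : ℤ) (a : Blk M κ) (ρ σ : ℤ) (z : ZZ M κ) : DUn (ch1 τ e a ρ σ) z (ver τ σ a (4 + ρ - σ * e))
  | verp1 (τ : Ix M) (σ : ℤ) (a : Blk M κ) (k : ℤ) (z : ZZ M κ) : DUn (verp τ σ a k) z (cnt τ σ a k)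
  | verp2 (τ : Ix M) (σ : ℤ) (a : Blk M κ) (k : ℤ) (z : ZZ M κ) (ε : ℤ) (b : Blk M κ) : wr z τ ε = some b → b ≠ a →
      DUn (verp τ σ a k) z (chk (.nec (k + σ * (ε - mv z τ))))

/-- moves replacing the top symbol (here only `start` really replaces it) -/
inductive DEps [NeZero κ] : MS M κ → ZZ M κ → MS M κ → ZZ M κ → Prop
  | start (l : IB T κ) : DEps start nul gpush (Sum.inl l)
  | gpush (z : ZZ M κ) : DEps gpush z gchk z
  | fpush (z : ZZ M κ) : DEps fpush z (main M.start (fun _ => 0)) z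
  | main (q : M.Q) (o : Ix M → Fin κ) (W : Ix M → Fin 3 → Blk M κ) (z : ZZ M κ) : DEps (main q o) z (cl q o W) z
  | acc (q : M.Q) (W : Ix M → Fin 3 → Blk M κ) (p : Ix M → ℤ) (j : ℕ) (z : ZZ M κ) : q ∈ M.acc →
      DEps (run q W p j) z (chk .flush) z
  | run (q q' : M.Q) (W W' : Ix M → Fin 3 → Blk M κ) (p p' : Ix M → ℤ) (j : ℕ) (z : ZZ M κ) :
      q ∉ M.acc → MStep q W p q' W' p' → DEps (run q W p (j + 1)) z (run q' W' p' j) z
  | ch (τ : Ix M) (e : ℤ) (a : Blk M κ) (ρ σ : ℤ) (z : ZZ M κ) : 0 ≤ ρ → ρ ≤ 2 → (σ = 1 ∨ σ = -1) →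
      DEps (ch τ e a) z (ch1 τ e a ρ σ) z
  | stop (τ : Ix M) (σ : ℤ) (a : Blk M κ) (k : ℤ) (z : ZZ M κ) (ε : ℤ) : wr z τ ε = some a →
      DEps (ver τ σ a k) z (chk (.eqc (k + σ * (ε - mv z τ)))) z
  | pass (τ : Ix M) (σ : ℤ) (a : Blk M κ) (k : ℤ) (z : ZZ M κ) : DEps (ver τ σ a k) z (verp τ σ a k) z
  | last (τ : Ix M) (σ : ℤ) (k : ℤ) (z : ZZ M κ) : DEps (cnt τ σ blankBlk k) z (chk .last) z

inductive DPush [NeZero κ] : MS M κ → ZZ M κ → MS M κ → ZZ M κ → Prop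
  | gpush (l : IB T κ) (z : ZZ M κ) : l.1.length = κ → DPush gpush z gpush (Sum.inl l)
  | fpush0 (z : ZZ M κ) : DPush fpush0 z fpush R1
  | fpush (z : ZZ M κ) : DPush fpush z fpush nul
  | run (q : M.Q) (W : Ix M → Fin 3 → Blk M κ) (p : Ix M → ℤ) (z : ZZ M κ) : q ∉ M.acc →
      DPush (run q W p 0) z (main q (fun τ => Fin.ofNat κ (p τ % κ).toNat)) (recOf W p)
  | ch (τ : Ix M) (e : ℤ) (a : Blk M κ) (z : ZZ M κ) : DPush (ch τ e a) z (ch τ e a) nul

inductive DPopr [NeZero κ] : MS M κ → ZZ M κ → ℕ → MS M κ → Prop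
  | cnt (τ : Ix M) (σ : ℤ) (a : Blk M κ) (k : ℤ) (z : ZZ M κ) (r : ℕ) : (r : ℤ) = 3 - σ * mv z τ →
      DPopr (cnt τ σ a k) z r (ver τ σ a k)

inductive DCall : MS M κ → Check → Prop
  | chk (ck : Check) : DCall (chk ck) ck

/-- universal states -/
def DU : Set (MS M κ) := {s | s = gchk ∨ (∃ q o W, s = cl q o W) ∨
  (∃ q W p j, s = run q W p (j + 1) ∧ q ∉ M.acc ∧ q ∈ M.univ) ∨ (∃ τ e a ρ σ, s = ch1 τ e a ρ σ) ∨
  (∃ τ σ a k, s = verp τ σ a k)}

/-- the automaton -/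
def DM (M : ATM T) (κ : ℕ) [NeZero κ] : GPD T where
  Q := MS M κ
  Z := ZZ M κ
  univ := DU
  un := DUn
  eps := DEps
  push := DPush
  popr := DPopr
  call := DCall
  blk := fun z => match z with
    | Sum.inl l => some l.1
    | Sum.inr _ => none
  start := start
  bot := nul

/-- the configuration `c` at the beginning of a macro step -/
def Mat0 (c : M.Conf) (q : M.Q) (o : Ix M → Fin κ) (st : List (ZZ M κ)) : Prop :=
  c.q = q ∧ ∃ b : Ix M → ℤ, ∀ τ, c.head τ = κ * b τ + ((o τ : ℕ) : ℤ) ∧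
    ∀ (d : ℤ) (i : Fin κ), c.tape τ (κ * (b τ + d) + ((i : ℕ) : ℤ)) = cont τ st d i

/-- the configuration `c` inside a macro step -/
def Mat (c : M.Conf) (q : M.Q) (W : Ix M → Fin 3 → Blk M κ) (p : Ix M → ℤ) (st : List (ZZ M κ)) : Prop :=
  c.q = q ∧ ∃ b : Ix M → ℤ, ∀ τ, c.head τ = κ * (b τ - 1) + p τ ∧
    ∀ (d : ℤ) (i : Fin κ), c.tape τ (κ * (b τ + d) + ((i : ℕ) : ℤ)) =
      if d = -1 then W τ 0 i else if d = 0 then W τ 1 i else if d = 1 then W τ 2 i else cont τ st d i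

/-- input blocks: all but the bottom one are full -/
def GOK : List (ZZ M κ) → Prop
  | [] => False
  | [Sum.inl _] => True
  | Sum.inl l :: z :: s => l.1.length = κ ∧ GOK (z :: s)
  | Sum.inr _ :: _ => False

end Pool.Agent.ACSG48
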