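import Pool.Agent.LibACSG48.E0

/-! ROW E1.  The content function on fillers and on the input blocks.
`cont_gs`: induction on `gs` generalizing `d ls`: for `gs = [inl l]`: at `d + 1` the block is at displacement `d`: `d = 0` gives `blkOf l`, which is
the padded word; `d ≠ 0` gives blanks, and `κ * d + i` is negative or `≥ κ ≥ |l|`.  For `inl l :: s`, `|l| = κ`: `d = 0`: `i < κ = |l|`;
`d ≠ 0`: `cont 0 s d = cont 0 s ((d - 1) + 1)` and `inTape (l ++ w') (κ * d + i) = inTape w' (κ * (d - 1) + i)` (for `d ≥ 1` shift by `|l| = κ`,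
for `d < 0` both are blank).
`mat0_init`: `b = 0`; tape `0`: `cont_R1` and `cont_gs`; other tapes: blank. -/

set_option autoImplicit false

namespace Pool.Agent.ACSG48

variable {T : Type} {M : ATM T} {κ : ℕ}

private theorem e1_cont_cons_none (τ : Ix M) (z : ZZ M κ) (s : List (ZZ M κ)) (d : ℤ)
    (h : wr z τ (d + mv z τ) = none) : cont τ (z :: s) d = cont τ s (d + mv z τ) := by
  rw [cont, h]

private theorem e1_cont_cons_some (τ : Ix M) (z : ZZ M κ) (s : List (ZZ M κ)) (d : ℤ) (b : Blk M κ)
    (h : wr z τ (d + mv z τ) = some b) : cont τ (z :: s) d = b := by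
  rw [cont, h]

theorem cont_nul (τ : Ix M) (s : List (ZZ M κ)) (d : ℤ) : cont τ (nul :: s) d = cont τ s d := by
  have hm : mv (nul : ZZ M κ) τ = 0 := by
    simp [mv, nul]
  rw [e1_cont_cons_none]
  · rw [hm, add_zero]
  · simp [wr, nul]

theorem cont_replicate (τ : Ix M) (x : ℕ) (s : List (ZZ M κ)) (d : ℤ) :
    cont τ (List.replicate x nul ++ s) d = cont τ s d := by
  induction x with
  | zero => simp
  | succ x ih =>
    rw [List.replicate_succ, List.cons_append, cont_nul, ih]

theorem cont_R1 (τ : Ix M) (s : List (ZZ M κ)) (d : ℤ) :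
    cont τ (R1 :: s) d = cont τ s (d + if τ = 0 then 1 else 0) := by
  have hm : mv (R1 : ZZ M κ) τ = if τ = 0 then 1 else 0 := by
    by_cases h : τ = 0
    · simp [mv, R1, h]
    · simp [mv, R1, h]
  rw [e1_cont_cons_none]
  · rw [hm]
  · simp [wr, R1]

theorem wr_some {z : ZZ M κ} {τ : Ix M} {e : ℤ} {b : Blk M κ} (h : wr z τ e = some b) : |e| ≤ 1 := by
  cases z with
  | inl l =>
    simp only [wr] at h
    split_ifs at h with h1
    rw [h1.2]
    norm_num
  | inr r =>
    simp only [wr] at h
    split_ifs at h with h1 h2 h3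
    · rw [h1]; norm_num
    · rw [h2]; norm_num
    · rw [h3]; norm_num

theorem abs_mv (z : ZZ M κ) (τ : Ix M) : |mv z τ| ≤ 1 := by
  cases z with
  | inl l =>
    simp only [mv]
    split_ifs <;> norm_num
  | inr r =>
    simp only [mv]
    have h := (r τ).2.isLt
    rw [abs_le]
    constructor <;> omega

theorem mat0_nul {c : M.Conf} {q : M.Q} {o : Ix M → Fin κ} {st : List (ZZ M κ)} :
    Mat0 c q o (nul :: st) ↔ Mat0 c q o st := by
  simp only [Mat0, cont_nul]

private theorem e1_inTape_neg (w : List T) {j : ℤ} (h : j < 0) : M.inTape w j = M.blank := by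
  unfold ATM.inTape
  rw [if_neg (by omega)]

private theorem e1_inTape_nat (w : List T) (n : ℕ) : M.inTape w (n : ℤ) = (w[n]?).elim M.blank M.inp := by
  unfold ATM.inTape
  rw [if_pos (by omega)]
  rfl

private theorem e1_inTape_ge (w : List T) {j : ℤ} (h : (w.length : ℤ) ≤ j) : M.inTape w j = M.blank := by
  obtain ⟨n, rfl⟩ := Int.eq_ofNat_of_zero_le (show 0 ≤ j by omega)
  rw [e1_inTape_nat, List.getElem?_eq_none (by omega)]
  rfl

private theorem e1_inTape_append (l w : List T) (j : ℤ) (h : 0 ≤ j) :
    M.inTape (l ++ w) (l.length + j) = M.inTape w j := by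
  obtain ⟨n, rfl⟩ := Int.eq_ofNat_of_zero_le h
  rw [show (l.length : ℤ) + (n : ℤ) = ((l.length + n : ℕ) : ℤ) by push_cast; ring]
  rw [e1_inTape_nat, e1_inTape_nat, List.getElem?_append_right (by omega), Nat.add_sub_cancel_left]

private theorem e1_neg_idx (d : ℤ) (i : Fin κ) (hd : d < 0) : (κ : ℤ) * d + ((i : ℕ) : ℤ) < 0 := by
  have hi : ((i : ℕ) : ℤ) < κ := by exact_mod_cast i.isLt
  nlinarith

private theorem e1_pos_idx (d : ℤ) (i : Fin κ) (hd : 0 < d) : (κ : ℤ) ≤ (κ : ℤ) * d + ((i : ℕ) : ℤ) := by
  have hi : (0 : ℤ) ≤ ((i : ℕ) : ℤ) := by omega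
  have hk : (0 : ℤ) ≤ κ := by omega
  nlinarith

private theorem e1_cont_inl_zero (l : IB T κ) (s : List (ZZ M κ)) (d : ℤ) :
    cont (0 : Ix M) (Sum.inl l :: s) (d + 1) = if d = 0 then blkOf l.1 else cont 0 s d := by
  have hm : mv (Sum.inl l : ZZ M κ) (0 : Ix M) = -1 := by simp [mv]
  have e : d + 1 + mv (Sum.inl l : ZZ M κ) (0 : Ix M) = d := by rw [hm]; ring
  by_cases hd : d = 0
  · rw [if_pos hd]
    apply e1_cont_cons_some
    rw [e]
    simp [wr, hd]
  · rw [if_neg hd, e1_cont_cons_none, e]
    rw [e]
    simp [wr, hd]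

private theorem e1_cont_inl_ne (l : IB T κ) (s : List (ZZ M κ)) (d : ℤ) {τ : Ix M} (hτ : τ ≠ 0) :
    cont τ (Sum.inl l :: s) d = cont τ s d := by
  have hm : mv (Sum.inl l : ZZ M κ) τ = 0 := by simp [mv, hτ]
  rw [e1_cont_cons_none, hm, add_zero]
  simp [wr, hτ]

variable [NeZero κ]

theorem cont_gs {gs : List (ZZ M κ)} {ls : List (List T)} (h : GOK gs) (hls : gs.map (DM M κ).blk = ls.map some)
    (d : ℤ) (i : Fin κ) : cont 0 gs (d + 1) i = M.inTape ls.flatten (κ * d + ((i : ℕ) : ℤ)) := by
  induction gs generalizing d ls with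
  | nil => exact absurd h (by simp [GOK])
  | cons x gs ih =>
    cases x with
    | inr r =>
      cases gs <;> exact absurd h (by simp [GOK])
    | inl l =>
      cases ls with
      | nil => simp at hls
      | cons l' ls =>
        have hl : l' = l.1 := by
          have h1 := (List.cons.inj hls).1
          have h2 : (some l.1 : Option (List T)) = some l' := h1
          exact (Option.some.inj h2).symm
        have hls' : gs.map (DM M κ).blk = ls.map some := (List.cons.inj hls).2
        rw [e1_cont_inl_zero, List.flatten_cons, hl]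
        cases gs with
        | nil =>
          have hn : ls = [] := by
            cases ls with
            | nil => rfl
            | cons a b =>
              have h6 : ([] : List (Option (List T))) = some a :: b.map some := hls'
              simp at h6
          rw [hn, List.flatten_nil, List.append_nil]
          rcases lt_trichotomy d 0 with hd | hd | hd
          · rw [if_neg (by omega), e1_inTape_neg _ (e1_neg_idx d i hd)]
            rfl
          · rw [if_pos hd, hd, mul_zero, zero_add, e1_inTape_nat]
            rfl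
          · rw [if_neg (by omega), e1_inTape_ge]
            · rfl
            · have := e1_pos_idx d i hd
              have h3 := l.2.2
              omega
        | cons z s =>
          have h' : l.1.length = κ ∧ GOK (z :: s) := h
          rcases lt_trichotomy d 0 with hd | hd | hd
          · rw [if_neg (by omega), e1_inTape_neg _ (e1_neg_idx d i hd)]
            have h4 := ih (ls := ls) h'.2 hls' (d - 1)
            rw [sub_add_cancel] at h4
            rw [h4, e1_inTape_neg _ (e1_neg_idx (d - 1) i (by omega))]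
          · rw [if_pos hd, hd, mul_zero, zero_add, e1_inTape_nat]
            rw [List.getElem?_append_left (by rw [h'.1]; exact i.isLt)]
            rfl
          · rw [if_neg (by omega)]
            have h4 := ih (ls := ls) h'.2 hls' (d - 1)
            rw [sub_add_cancel] at h4
            rw [h4]
            have h5 : (κ : ℤ) * d + ((i : ℕ) : ℤ) = (l.1.length : ℤ) + ((κ : ℤ) * (d - 1) + ((i : ℕ) : ℤ)) := by
              rw [h'.1]; ring
            rw [h5, e1_inTape_append]
            have hk : (0 : ℤ) ≤ κ := by omega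
            have hd' : (0 : ℤ) ≤ d - 1 := by omega
            have := mul_nonneg hk hd'
            omega

theorem cont_gs' {gs : List (ZZ M κ)} (h : GOK gs) {τ : Ix M} (hτ : τ ≠ 0) (d : ℤ) : cont τ gs d = blankBlk := by
  induction gs with
  | nil => rfl
  | cons x gs ih =>
    cases x with
    | inr r =>
      cases gs <;> exact absurd h (by simp [GOK])
    | inl l =>
      rw [e1_cont_inl_ne l gs d hτ]
      cases gs with
      | nil => rfl
      | cons z s =>
        have h' : l.1.length = κ ∧ GOK (z :: s) := h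
        exact ih h'.2

theorem mat0_init {gs : List (ZZ M κ)} {ls : List (List T)} (h : GOK gs) (hls : gs.map (DM M κ).blk = ls.map some) :
    Mat0 (M.init ls.flatten) M.start (fun _ => (0 : Fin κ)) (R1 :: gs) := by
  refine ⟨rfl, fun _ => 0, fun τ => ⟨?_, fun d i => ?_⟩⟩
  · simp [ATM.init]
  · rw [cont_R1]
    by_cases hτ : τ = 0
    · subst hτ
      rw [if_pos rfl, cont_gs h hls, zero_add]
      simp [ATM.init]
    · rw [if_neg hτ, cont_gs' h hτ]
      simp [ATM.init, hτ, blankBlk]

end Pool.Agent.ACSG48
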