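import Pool.Agent.LibACSG48.E0

/-! ROW E2.  Windows.  `κ > 0` throughout (`NeZero κ`).
`getW_eq`: the representation `p = i κ + j` with `j < κ` is unique.
`mat_of_mat0`: same `b`; `head = κ b + o = κ (b - 1) + (κ + o)`.
`mat0_of_mat`: new block heads `b' τ = b τ + mv (recOf W p) τ`, `mv (recOf W p) τ = p τ / κ - 1` (as `0 ≤ p τ / κ ≤ 2`);
`head = κ (b - 1) + p = κ b' + p % κ`; the block at displacement `d` from `b'` is at `e = d + mv` from `b`: `wr (recOf W p) τ e = some (W τ (e + 1))`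
for `e = -1, 0, 1` and `none` otherwise.
`step_of_MStep` / `MStep_of_step`: the symbol under the head of tape `τ` is `getW (W τ) (p τ)`: `p = i κ + j`, cell
`κ (b - 1) + p = κ (b + (i - 1)) + j`; writing there is `setW` (the other cells of the three blocks and all other blocks are unchanged:
`κ (b + d) + i' = κ (b - 1) + p` iff `d = i - 1`, `i' = j`).
`finite_succ`: `c'` is determined by `c`, `c'.q`, `a'`, `m`; finitely many `q'` (`M.finQ`), `a'` (`M.finΓ`), and `m` with `|m i| ≤ 1` (`M.tr_move`). -/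

set_option autoImplicit false

namespace Pool.Agent.ACSG48

variable {T : Type} {M : ATM T} {κ : ℕ}

/-- the heads stay inside the windows for `j` more steps -/
def InR (κ : ℕ) (p : Ix M → ℤ) (j : ℕ) : Prop := ∀ τ, (j : ℤ) ≤ p τ ∧ p τ + j < 3 * κ

theorem inR_zero {p : Ix M → ℤ} {j : ℕ} (h : InR κ p j) : InR κ p 0 := fun τ => by
  have := h τ; constructor <;> push_cast <;> omega

theorem finite_succ (M : ATM T) (c : M.Conf) : {c' | M.Step c c'}.Finite := by
  classical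
  have hQ := M.finQ
  have hΓ := M.finΓ
  have hm : {m : Fin (M.k + 1) → ℤ | ∀ i, |m i| ≤ 1}.Finite := by
    refine (Set.Finite.pi (fun _ : Fin (M.k + 1) => Set.finite_Icc (-1 : ℤ) 1)).subset ?_
    intro m hm i _
    exact abs_le.1 (hm i)
  let Φ : M.Q × (Fin (M.k + 1) → M.Γ) × (Fin (M.k + 1) → ℤ) → M.Conf := fun x =>
    { q := x.1
      tape := fun i => Function.update (c.tape i) (c.head i) (x.2.1 i)
      head := fun i => c.head i + x.2.2 i }
  have hS : ((Set.univ : Set M.Q) ×ˢ ((Set.univ : Set (Fin (M.k + 1) → M.Γ)) ×ˢ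
      {m : Fin (M.k + 1) → ℤ | ∀ i, |m i| ≤ 1})).Finite :=
    Set.Finite.prod Set.finite_univ (Set.Finite.prod Set.finite_univ hm)
  refine (hS.image Φ).subset ?_
  rintro ⟨q', t', h'⟩ ⟨a', m, h1, h2, h3⟩
  refine ⟨(q', a', m), ⟨trivial, trivial, M.tr_move _ _ _ _ _ h1⟩, ?_⟩
  have h4 : (fun i => Function.update (c.tape i) (c.head i) (a' i)) = t' :=
    funext fun i => (h2 i).symm
  have h5 : (fun i => c.head i + m i) = h' := funext fun i => (h3 i).symm
  subst h4 h5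
  rfl

variable [NeZero κ]

omit [NeZero κ] in
theorem e2_uniq (x y : ℤ) (j l : Fin κ) (h : x * κ + ((j : ℕ) : ℤ) = y * κ + ((l : ℕ) : ℤ)) :
    x = y ∧ j = l := by
  have hj : ((j : ℕ) : ℤ) < κ := by exact_mod_cast j.2
  have hl : ((l : ℕ) : ℤ) < κ := by exact_mod_cast l.2
  have h0j : (0 : ℤ) ≤ ((j : ℕ) : ℤ) := Int.natCast_nonneg _
  have h0l : (0 : ℤ) ≤ ((l : ℕ) : ℤ) := Int.natCast_nonneg _
  have h1 : (κ : ℤ) ∣ ((j : ℕ) : ℤ) - ((l : ℕ) : ℤ) := ⟨y - x, by linear_combination h⟩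
  have h2 : ((j : ℕ) : ℤ) - ((l : ℕ) : ℤ) = 0 :=
    Int.eq_zero_of_abs_lt_dvd h1 (abs_lt.2 ⟨by linarith, by linarith⟩)
  have h3 : j = l := by
    apply Fin.ext
    have h4 : ((j : ℕ) : ℤ) = ((l : ℕ) : ℤ) := by linarith
    exact_mod_cast h4
  refine ⟨?_, h3⟩
  subst h3
  have h4 : (x - y) * (κ : ℤ) = 0 := by linear_combination h
  rcases mul_eq_zero.1 h4 with h5 | h5
  · linarith
  · linarith

theorem getW_eq (W : Fin 3 → Blk M κ) (i : Fin 3) (j : Fin κ) :
    getW W (((i : ℕ) : ℤ) * κ + ((j : ℕ) : ℤ)) = W i j := by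
  have h : ∃ ij : Fin 3 × Fin κ, ((ij.1 : ℕ) : ℤ) * κ + ((ij.2 : ℕ) : ℤ) =
      ((i : ℕ) : ℤ) * κ + ((j : ℕ) : ℤ) := ⟨(i, j), rfl⟩
  unfold getW
  rw [dif_pos h]
  obtain ⟨h1, h2⟩ := e2_uniq _ _ _ _ h.choose_spec
  have h3 : h.choose.1 = i := by
    apply Fin.ext
    exact_mod_cast h1
  rw [h3, h2]

/-- decomposition of a position in a window -/
theorem e2_dec {x : ℤ} (h0 : 0 ≤ x) (h1 : x < 3 * κ) :
    ∃ (i : Fin 3) (j : Fin κ), x = ((i : ℕ) : ℤ) * κ + ((j : ℕ) : ℤ) := by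
  have hκ : (0 : ℤ) < κ := by exact_mod_cast Nat.pos_of_ne_zero (NeZero.ne κ)
  have h2 : 0 ≤ x / κ := Int.ediv_nonneg h0 hκ.le
  have h3 : x / κ < 3 := Int.ediv_lt_of_lt_mul hκ h1
  have h4 : 0 ≤ x % κ := Int.emod_nonneg _ hκ.ne'
  have h5 : x % κ < κ := Int.emod_lt_of_pos _ hκ
  refine ⟨⟨(x / κ).toNat, by omega⟩, ⟨(x % κ).toNat, by omega⟩, ?_⟩
  change x = ((x / κ).toNat : ℤ) * κ + ((x % κ).toNat : ℤ)
  rw [Int.toNat_of_nonneg h2, Int.toNat_of_nonneg h4]
  linarith [Int.ediv_mul_add_emod x κ]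

theorem mat_of_mat0 {c : M.Conf} {q : M.Q} {o : Ix M → Fin κ} {st : List (ZZ M κ)} {W : Ix M → Fin 3 → Blk M κ}
    (h : Mat0 c q o st) (hW : ∀ τ (i : Fin 3), W τ i = cont τ st (((i : ℕ) : ℤ) - 1)) :
    Mat c q W (fun τ => κ + ((o τ : ℕ) : ℤ)) st := by
  obtain ⟨hq, b, hb⟩ := h
  refine ⟨hq, b, fun τ => ⟨?_, ?_⟩⟩
  · rw [(hb τ).1]
    ring
  · intro d i
    rw [(hb τ).2 d i]
    split_ifs with h1 h2 h3
    · rw [hW τ 0, h1]
      rfl
    · rw [hW τ 1, h2]
      rfl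
    · rw [hW τ 2, h3]
      rfl
    · rfl

theorem inR_start (o : Ix M → Fin κ) : InR κ (fun τ => κ + ((o τ : ℕ) : ℤ)) κ := by
  intro τ
  have h1 := (o τ).2
  constructor
  · change (κ : ℤ) ≤ κ + ((o τ : ℕ) : ℤ)
    omega
  · change (κ : ℤ) + ((o τ : ℕ) : ℤ) + κ < 3 * κ
    omega

/-- the coded move -/
theorem e2_mv (W : Ix M → Fin 3 → Blk M κ) (p : Ix M → ℤ) (τ : Ix M) (h0 : 0 ≤ p τ)
    (h1 : p τ < 3 * κ) : mv (recOf W p) τ = p τ / κ - 1 := by
  have hκ : (0 : ℤ) < κ := by exact_mod_cast Nat.pos_of_ne_zero (NeZero.ne κ)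
  have h2 : 0 ≤ p τ / κ := Int.ediv_nonneg h0 hκ.le
  have h3 : p τ / κ < 3 := Int.ediv_lt_of_lt_mul hκ h1
  change ((((Fin.ofNat 3 (p τ / κ).toNat : Fin 3) : ℕ) : ℤ)) - 1 = p τ / κ - 1
  have h4 : ((Fin.ofNat 3 (p τ / κ).toNat : Fin 3) : ℕ) = (p τ / κ).toNat := by
    change (p τ / κ).toNat % 3 = (p τ / κ).toNat
    exact Nat.mod_eq_of_lt (by omega)
  rw [h4, Int.toNat_of_nonneg h2]

theorem mat0_of_mat {c : M.Conf} {q : M.Q} {W : Ix M → Fin 3 → Blk M κ} {p : Ix M → ℤ} {st : List (ZZ M κ)}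
    (h : Mat c q W p st) (hp : InR κ p 0) : Mat0 c q (fun τ => Fin.ofNat κ (p τ % κ).toNat) (recOf W p :: st) := by
  have hκ : (0 : ℤ) < κ := by exact_mod_cast Nat.pos_of_ne_zero (NeZero.ne κ)
  obtain ⟨hq, b, hb⟩ := h
  refine ⟨hq, fun τ => b τ + mv (recOf W p) τ, fun τ => ?_⟩
  obtain ⟨hp1, hp2⟩ := hp τ
  have h0 : 0 ≤ p τ := by simpa using hp1
  have h1 : p τ < 3 * κ := by simpa using hp2
  have hmv := e2_mv W p τ h0 h1
  constructor
  · have h4 : 0 ≤ p τ % κ := Int.emod_nonneg _ hκ.ne'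
    have h5 : p τ % κ < κ := Int.emod_lt_of_pos _ hκ
    have h6 : ((Fin.ofNat κ (p τ % κ).toNat : Fin κ) : ℕ) = (p τ % κ).toNat := by
      change (p τ % κ).toNat % κ = (p τ % κ).toNat
      exact Nat.mod_eq_of_lt (by omega)
    rw [h6, Int.toNat_of_nonneg h4, (hb τ).1]
    change κ * (b τ - 1) + p τ = κ * (b τ + mv (recOf W p) τ) + p τ % κ
    rw [hmv]
    linear_combination -(Int.ediv_mul_add_emod (p τ) κ)
  · intro d i
    have h2 := (hb τ).2 (d + mv (recOf W p) τ) i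
    have h3 : (κ : ℤ) * (b τ + mv (recOf W p) τ + d) + ((i : ℕ) : ℤ) =
        κ * (b τ + (d + mv (recOf W p) τ)) + ((i : ℕ) : ℤ) := by ring
    rw [h3, h2]
    change _ = (match wr (recOf W p) τ (d + mv (recOf W p) τ) with
      | some b => b
      | none => cont τ st (d + mv (recOf W p) τ)) i
    have h4 : wr (recOf W p) τ (d + mv (recOf W p) τ) =
        if d + mv (recOf W p) τ = -1 then some (W τ 0) else
        if d + mv (recOf W p) τ = 0 then some (W τ 1) else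
        if d + mv (recOf W p) τ = 1 then some (W τ 2) else none := rfl
    rw [h4]
    generalize d + mv (recOf W p) τ = e
    by_cases e1 : e = -1
    · rw [if_pos e1, if_pos e1]
    rw [if_neg e1, if_neg e1]
    by_cases e2 : e = 0
    · rw [if_pos e2, if_pos e2]
    rw [if_neg e2, if_neg e2]
    by_cases e3 : e = 1
    · rw [if_pos e3, if_pos e3]
    rw [if_neg e3, if_neg e3]

/-- the symbol under the head -/
theorem e2_tape {c : M.Conf} {W : Ix M → Fin 3 → Blk M κ} {p : Ix M → ℤ} {st : List (ZZ M κ)}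
    {b : Ix M → ℤ} (hb : ∀ τ, c.head τ = κ * (b τ - 1) + p τ ∧
      ∀ (d : ℤ) (i : Fin κ), c.tape τ (κ * (b τ + d) + ((i : ℕ) : ℤ)) =
      if d = -1 then W τ 0 i else if d = 0 then W τ 1 i else if d = 1 then W τ 2 i else cont τ st d i)
    (hp : InR κ p 0) (τ : Ix M) : c.tape τ (c.head τ) = getW (W τ) (p τ) := by
  obtain ⟨hp1, hp2⟩ := hp τ
  obtain ⟨i, j, hij⟩ := e2_dec (κ := κ) (x := p τ) (by simpa using hp1) (by simpa using hp2)
  rw [hij, getW_eq, (hb τ).1, hij]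
  have h3 : (κ : ℤ) * (b τ - 1) + (((i : ℕ) : ℤ) * κ + ((j : ℕ) : ℤ)) =
      κ * (b τ + (((i : ℕ) : ℤ) - 1)) + ((j : ℕ) : ℤ) := by ring
  rw [h3, (hb τ).2]
  fin_cases i
  · rfl
  · rfl
  · rfl

/-- the core: one step inside the windows -/
theorem e2_core {c c' : M.Conf} {q : M.Q} {W : Ix M → Fin 3 → Blk M κ} {p : Ix M → ℤ}
    {st : List (ZZ M κ)} {a' : Ix M → M.Γ} {m : Ix M → ℤ} (h : Mat c q W p st)
    (hp : InR κ p 0) (h1 : ∀ i, c'.tape i = Function.update (c.tape i) (c.head i) (a' i))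
    (h2 : ∀ i, c'.head i = c.head i + m i) :
    Mat c' c'.q (fun τ => setW (W τ) (p τ) (a' τ)) (fun τ => p τ + m τ) st := by
  obtain ⟨_, b, hb⟩ := h
  refine ⟨rfl, b, fun τ => ⟨?_, ?_⟩⟩
  · rw [h2, (hb τ).1]
    ring
  · intro d i
    obtain ⟨hp1, hp2⟩ := hp τ
    obtain ⟨i0, j0, hij⟩ := e2_dec (κ := κ) (x := p τ) (by simpa using hp1) (by simpa using hp2)
    rw [h1, Function.update_apply, (hb τ).1, (hb τ).2 d i]
    change _ = if d = -1 then setW (W τ) (p τ) (a' τ) 0 i else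
      if d = 0 then setW (W τ) (p τ) (a' τ) 1 i else
      if d = 1 then setW (W τ) (p τ) (a' τ) 2 i else cont τ st d i
    have hset : ∀ (i1 : Fin 3), setW (W τ) (p τ) (a' τ) i1 i =
        if ((i1 : ℕ) : ℤ) * κ + ((i : ℕ) : ℤ) = p τ then a' τ else W τ i1 i := fun _ => rfl
    have hiff : ∀ (x : ℤ), (κ * (b τ + (x - 1)) + ((i : ℕ) : ℤ) = κ * (b τ - 1) + p τ) ↔
        x * κ + ((i : ℕ) : ℤ) = p τ := by
      intro x
      constructor
      · intro h
        linear_combination h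
      · intro h
        linear_combination h
    by_cases e1 : d = -1
    · subst e1
      rw [if_pos rfl, if_pos rfl, hset 0]
      have h3 := hiff 0
      simp only [zero_sub] at h3
      by_cases h4 : (0 : ℤ) * κ + ((i : ℕ) : ℤ) = p τ
      · rw [if_pos (h3.2 h4), if_pos (by simpa using h4)]
      · rw [if_neg (fun h => h4 (h3.1 h)), if_neg (by simpa using h4)]
    by_cases e2 : d = 0
    · subst e2
      rw [if_neg e1, if_neg e1, if_pos rfl, if_pos rfl, hset 1]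
      have h3 := hiff 1
      simp only [sub_self] at h3
      by_cases h4 : (1 : ℤ) * κ + ((i : ℕ) : ℤ) = p τ
      · rw [if_pos (h3.2 h4), if_pos (by simpa using h4)]
      · rw [if_neg (fun h => h4 (h3.1 h)), if_neg (by simpa using h4)]
    by_cases e3 : d = 1
    · subst e3
      rw [if_neg e1, if_neg e1, if_neg e2, if_neg e2, if_pos rfl, if_pos rfl, hset 2]
      have h3 := hiff 2
      have h5 : (2 : ℤ) - 1 = 1 := by norm_num
      rw [h5] at h3
      by_cases h4 : (2 : ℤ) * κ + ((i : ℕ) : ℤ) = p τ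
      · rw [if_pos (h3.2 h4), if_pos (by simpa using h4)]
      · rw [if_neg (fun h => h4 (h3.1 h)), if_neg (by simpa using h4)]
    · rw [if_neg e1, if_neg e1, if_neg e2, if_neg e2, if_neg e3, if_neg e3, if_neg]
      intro h
      have h3 := (hiff (d + 1)).1 (by rw [← h]; ring)
      rw [hij] at h3
      obtain ⟨h4, _⟩ := e2_uniq _ _ _ _ h3
      have h5 := i0.2
      omega

theorem step_of_MStep {c : M.Conf} {q q' : M.Q} {W W' : Ix M → Fin 3 → Blk M κ} {p p' : Ix M → ℤ} {st : List (ZZ M κ)}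
    (h : Mat c q W p st) (hp : InR κ p 0) (hs : MStep q W p q' W' p') : ∃ c', M.Step c c' ∧ Mat c' q' W' p' st := by
  obtain ⟨a', m, h1, h2, h3⟩ := hs
  have hW : W' = fun τ => setW (W τ) (p τ) (a' τ) := funext h2
  have hp' : p' = fun τ => p τ + m τ := funext h3
  subst hW hp'
  refine ⟨{ q := q'
            tape := fun i => Function.update (c.tape i) (c.head i) (a' i)
            head := fun i => c.head i + m i }, ⟨a', m, ?_, fun _ => rfl, fun _ => rfl⟩, ?_⟩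
  · have h4 : (fun i => c.tape i (c.head i)) = fun τ => getW (W τ) (p τ) := by
      obtain ⟨_, b, hb⟩ := h
      exact funext fun τ => e2_tape hb hp τ
    rw [h4, h.1]
    exact h1
  · exact e2_core (c' := { q := q'
                           tape := fun i => Function.update (c.tape i) (c.head i) (a' i)
                           head := fun i => c.head i + m i }) h hp (fun _ => rfl) (fun _ => rfl)

theorem MStep_of_step {c c' : M.Conf} {q : M.Q} {W : Ix M → Fin 3 → Blk M κ} {p : Ix M → ℤ} {st : List (ZZ M κ)}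
    (h : Mat c q W p st) (hp : InR κ p 0) (hs : M.Step c c') : ∃ q' W' p', MStep q W p q' W' p' ∧ Mat c' q' W' p' st := by
  obtain ⟨a', m, h1, h2, h3⟩ := hs
  refine ⟨c'.q, fun τ => setW (W τ) (p τ) (a' τ), fun τ => p τ + m τ,
    ⟨a', m, ?_, fun _ => rfl, fun _ => rfl⟩, e2_core h hp h2 h3⟩
  have h4 : (fun i => c.tape i (c.head i)) = fun τ => getW (W τ) (p τ) := by
    obtain ⟨_, b, hb⟩ := h
    exact funext fun τ => e2_tape hb hp τ
  rw [h4, h.1] at h1
  exact h1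

theorem inR_step {q q' : M.Q} {W W' : Ix M → Fin 3 → Blk M κ} {p p' : Ix M → ℤ} {j : ℕ} (h : InR κ p (j + 1))
    (hs : MStep q W p q' W' p') : InR κ p' j := by
  obtain ⟨a', m, h1, _, h3⟩ := hs
  intro τ
  have h4 := abs_le.1 (M.tr_move _ _ _ _ _ h1 τ)
  obtain ⟨h5, h6⟩ := h τ
  rw [h3 τ]
  push_cast at h5 h6
  constructor
  · linarith [h4.1]
  · linarith [h4.2]

end Pool.Agent.ACSG48
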