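import Pool.Agent.LibACSG48.E1
import Pool.Agent.LibACSG48.E2

/-! ROW E3.  Soundness: a winning existential player proves that `M` accepts.  Induction on `GWin` for `DMean` below.
* `start`: `gpush` with the stack `[inl l]`, `GOK`.  `gpush`: `GOK (inl l :: st)` if `|l| = κ` and `GOK st`; or `gchk`.
* `gchk` (universal): the branch `chk ver` gives `st.map blk = ls.map some`, `w = ls.flatten`; the branch `fpush0` and `mat0_init`.
* `fpush0`: `fpush` on `R1 :: st`; `fpush`: `mat0_nul`, or `main` with offsets `0`.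
* `main`: `cl`.  `cl q o W` (universal): all branches `cl2` give `W τ i = cont τ st (i - 1)`, the branch `cl1` and `mat_of_mat0`, `inR_start`.
* `run`: accepting `q`: `Acc 0`.  `j = 0`: push, `main`, `mat0_of_mat`.  existential step (`DEps.run`; then `q ∉ M.univ`, because otherwise the
  state is universal and `GWin.eps` does not apply): `step_of_MStep`, `inR_step`, `Acc (t + 1)`.  universal: `q ∈ M.univ`, `q ∉ M.acc`; every
  successor `c'` of `c` comes from an `MStep` (`MStep_of_step`), so it is accepted in some time; finitely many successors (`finite_succ`),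
  take the maximum (`Acc_mono`); at least one exists.
* `ch`: `nul` pushed: `cont_nul`; or `ch1`: branches `eqc (4 + ρ)`: `|w| = 3|st| + 4 + ρ`, and `ver τ σ a (4 + ρ - σ e)`:
  the displacement `σ (|w| - 3|st| - (4 + ρ - σ e)) = σ σ e = e`.
* `ver`: `stop`: `|w| = 3|st| + k + σ (ε - mv)`, so the displacement is `d = ε - mv`, `d + mv = ε`, `wr z τ ε = some a`; `pass`: `verp`.
* `verp` (universal): let `d = σ (|w| - 3|st| - k)`, `e = d + mv z τ`.  If `wr z τ e = some b` with `b ≠ a`, the branch `nec (k + σ (e - mv))` says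
  `|w| ≠ 3|st| + k + σ d`, contradiction.  If `wr z τ e = some a`, done.  If `none`: the branch `cnt`.
* `cnt`: popping `r = 3 - σ mv` letters: the new displacement is `σ (|w| - r - 3|s| - k) = d + mv`; `last`: `|st| = 1`, `cont τ [] _ = blankBlk`. -/

set_option autoImplicit false

namespace Pool.Agent.ACSG48

variable {T : Type} {M : ATM T} {κ : ℕ} [NeZero κ]

open MS

/-- the meaning of the states -/
def DMean (M : ATM T) (κ : ℕ) [NeZero κ] : MS M κ → List (ZZ M κ) → List T → Prop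
  | start, st, w => st = [nul] → ∃ t, M.Acc t (M.init w)
  | gpush, st, w => GOK st → ∃ t, M.Acc t (M.init w)
  | gchk, st, w => GOK st → ∃ t, M.Acc t (M.init w)
  | fpush0, st, _ => ∀ c, Mat0 c M.start (fun _ => (0 : Fin κ)) (R1 :: st) → ∃ t, M.Acc t c
  | fpush, st, _ => ∀ c, Mat0 c M.start (fun _ => (0 : Fin κ)) st → ∃ t, M.Acc t c
  | main q o, st, _ => ∀ c, Mat0 c q o st → ∃ t, M.Acc t c
  | cl q o _, st, _ => ∀ c, Mat0 c q o st → ∃ t, M.Acc t c
  | run q W p j, st, _ => InR κ p j → ∀ c, Mat c q W p st → ∃ t, M.Acc t c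
  | chk ck, st, w => ck.Holds (DM M κ).blk st w
  | ch τ e a, st, _ => cont τ st e = a
  | ch1 τ e a _ σ, st, _ => (σ = 1 ∨ σ = -1) → cont τ st e = a
  | ver τ σ a k, st, w => (σ = 1 ∨ σ = -1) → cont τ st (σ * ((w.length : ℤ) - 3 * st.length - k)) = a
  | verp τ σ a k, st, w => (σ = 1 ∨ σ = -1) → cont τ st (σ * ((w.length : ℤ) - 3 * st.length - k)) = a
  | cnt τ σ a k, st, w => (σ = 1 ∨ σ = -1) → ∃ z s, st = z :: s ∧
      cont τ s (σ * ((w.length : ℤ) - 3 * st.length - k) + mv z τ) = a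

private theorem e3_sig {σ x : ℤ} (h : σ = 1 ∨ σ = -1) : σ * (σ * x) = x := by
  rcases h with rfl | rfl <;> ring

private theorem e3_cont_some (τ : Ix M) (z : ZZ M κ) (s : List (ZZ M κ)) (d : ℤ) (b : Blk M κ)
    (h : wr z τ (d + mv z τ) = some b) : cont τ (z :: s) d = b := by
  rw [cont, h]

private theorem e3_cont_none (τ : Ix M) (z : ZZ M κ) (s : List (ZZ M κ)) (d : ℤ)
    (h : wr z τ (d + mv z τ) = none) : cont τ (z :: s) d = cont τ s (d + mv z τ) := by
  rw [cont, h]

private theorem e3_un (q : MS M κ) (z : ZZ M κ) (s : List (ZZ M κ)) (w : List T) (hU : q ∈ (DU : Set (MS M κ)))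
    (hne : ∃ q', DUn q z q') (ih : ∀ q', DUn q z q' → DMean M κ q' (z :: s) w) : DMean M κ q (z :: s) w := by
  rcases hU with rfl | ⟨q, o, W, rfl⟩ | ⟨q, W, p, j, rfl, h1, h2⟩ | ⟨τ, e, a, ρ, σ, rfl⟩ | ⟨τ, σ, a, k, rfl⟩
  · have h1 : ∃ ls : List (List T), (z :: s).map (DM M κ).blk = ls.map some ∧ w = ls.flatten :=
      ih _ (DUn.gchk1 z)
    have h2 : ∀ c, Mat0 c M.start (fun _ => (0 : Fin κ)) (R1 :: z :: s) → ∃ t, M.Acc t c :=
      ih _ (DUn.gchk2 z)
    intro hG
    obtain ⟨ls, h3, rfl⟩ := h1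
    exact h2 _ (mat0_init hG h3)
  · have h1 : InR κ (fun τ => κ + ((o τ : ℕ) : ℤ)) κ →
        ∀ c, Mat c q W (fun τ => κ + ((o τ : ℕ) : ℤ)) (z :: s) → ∃ t, M.Acc t c :=
      ih _ (DUn.cl1 q o W z)
    have h2 : ∀ (τ : Ix M) (i : Fin 3), cont τ (z :: s) (((i : ℕ) : ℤ) - 1) = W τ i := fun τ i =>
      ih _ (DUn.cl2 q o W z τ i)
    intro c hc
    exact h1 (inR_start o) c (mat_of_mat0 hc fun τ i => (h2 τ i).symm)
  · intro hR c hc
    have hR0 : InR κ p 0 := inR_zero hR
    have hcq : c.q = q := hc.1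
    have h3 : ∀ c', M.Step c c' → ∃ t, M.Acc t c' := by
      intro c' hs
      obtain ⟨q', W', p', h4, h5⟩ := MStep_of_step hc hR0 hs
      have h6 : InR κ p' j → ∀ c, Mat c q' W' p' (z :: s) → ∃ t, M.Acc t c :=
        ih _ (DUn.run q q' W W' p p' j z h4)
      exact h6 (inR_step hR h4) c' h5
    have h4 : ∃ t, ∀ c', M.Step c c' → M.Acc t c' := by
      choose! f hf using h3
      obtain ⟨t, ht⟩ := ((finite_succ M c).image f).bddAbove
      refine ⟨t, fun c' hs => M.Acc_mono (ht ⟨c', hs, rfl⟩) (hf c' hs)⟩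
    obtain ⟨t, ht⟩ := h4
    obtain ⟨q', hq'⟩ := hne
    have h5 : ∃ c', M.Step c c' := by
      cases hq' with
      | run q q' W W' p p' j z h6 =>
        obtain ⟨c', h7, _⟩ := step_of_MStep hc hR0 h6
        exact ⟨c', h7⟩
    exact ⟨t + 1, Or.inr (Or.inr ⟨by rw [hcq]; exact h2, h5, ht⟩)⟩
  · intro hσ
    have h1 : (w.length : ℤ) = 3 * (z :: s).length + (4 + ρ) := ih _ (DUn.ch1a τ e a ρ σ z)
    have h2 : (σ = 1 ∨ σ = -1) →
        cont τ (z :: s) (σ * ((w.length : ℤ) - 3 * (z :: s).length - (4 + ρ - σ * e))) = a :=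
      ih _ (DUn.ch1b τ e a ρ σ z)
    have h3 := h2 hσ
    have h4 : σ * ((w.length : ℤ) - 3 * (z :: s).length - (4 + ρ - σ * e)) = e := by
      rw [h1, show 3 * ((z :: s).length : ℤ) + (4 + ρ) - 3 * (z :: s).length - (4 + ρ - σ * e) = σ * e by ring]
      exact e3_sig hσ
    rw [h4] at h3
    exact h3
  · intro hσ
    have h1 : (σ = 1 ∨ σ = -1) → ∃ z' s', z :: s = z' :: s' ∧
        cont τ s' (σ * ((w.length : ℤ) - 3 * (z :: s).length - k) + mv z' τ) = a :=
      ih _ (DUn.verp1 τ σ a k z)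
    set d : ℤ := σ * ((w.length : ℤ) - 3 * (z :: s).length - k) with hd
    cases hw : wr z τ (d + mv z τ) with
    | none =>
      rw [e3_cont_none τ z s d hw]
      obtain ⟨z', s', h2, h3⟩ := h1 hσ
      obtain ⟨rfl, rfl⟩ := List.cons.inj h2
      exact h3
    | some b =>
      rw [e3_cont_some τ z s d b hw]
      by_contra hb
      have h2 : (z :: s).length ≤ w.length ∧
          (w.length : ℤ) ≠ 3 * (z :: s).length + (k + σ * ((d + mv z τ) - mv z τ)) :=
        ih _ (DUn.verp2 τ σ a k z (d + mv z τ) b hw hb)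
      apply h2.2
      rw [show d + mv z τ - mv z τ = d by ring, hd, e3_sig hσ]
      ring

private theorem e3_eps (q : MS M κ) (z : ZZ M κ) (q' : MS M κ) (z' : ZZ M κ) (s : List (ZZ M κ)) (w : List T)
    (hU : q ∉ (DU : Set (MS M κ))) (h : DEps q z q' z') (ih : DMean M κ q' (z' :: s) w) :
    DMean M κ q (z :: s) w := by
  cases h with
  | start l =>
    intro hs
    have hs' : s = [] := by
      simpa using hs
    subst hs'
    have ih' : GOK [(Sum.inl l : ZZ M κ)] → ∃ t, M.Acc t (M.init w) := ih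
    exact ih' trivial
  | gpush z => exact ih
  | fpush z => exact ih
  | main q o W z => exact ih
  | acc q W p j z h1 =>
    intro _ c hc
    refine ⟨0, ?_⟩
    change c.q ∈ M.acc
    rw [hc.1]; exact h1
  | run q q' W W' p p' j z h1 h2 =>
    intro hR c hc
    have hnu : q ∉ M.univ := fun h3 => hU (Or.inr (Or.inr (Or.inl ⟨q, W, p, j, rfl, h1, h3⟩)))
    obtain ⟨c', h3, h4⟩ := step_of_MStep hc (inR_zero hR) h2
    have ih' : InR κ p' j → ∀ c, Mat c q' W' p' (z :: s) → ∃ t, M.Acc t c := ih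
    obtain ⟨t, ht⟩ := ih' (inR_step hR h2) c' h4
    exact ⟨t + 1, Or.inr (Or.inl ⟨by rw [hc.1]; exact hnu, c', h3, ht⟩)⟩
  | ch τ e a ρ σ z h1 h2 h3 =>
    have ih' : (σ = 1 ∨ σ = -1) → cont τ (z :: s) e = a := ih
    exact ih' h3
  | stop τ σ a k z ε h1 =>
    intro hσ
    have h2 : (w.length : ℤ) = 3 * (z :: s).length + (k + σ * (ε - mv z τ)) := ih
    have h3 : σ * ((w.length : ℤ) - 3 * (z :: s).length - k) = ε - mv z τ := by
      rw [h2, show 3 * ((z :: s).length : ℤ) + (k + σ * (ε - mv z τ)) - 3 * (z :: s).length - k =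
        σ * (ε - mv z τ) by ring]
      exact e3_sig hσ
    rw [h3]
    apply e3_cont_some
    rw [show ε - mv z τ + mv z τ = ε by ring]
    exact h1
  | pass τ σ a k z => exact ih
  | last τ σ k z =>
    intro hσ
    have h1 : (z :: s).length = 1 ∧ w ≠ [] := ih
    have h2 : s = [] := by
      have := h1.1
      simpa using this
    subst h2
    exact ⟨z, [], rfl, rfl⟩

private theorem e3_push (q : MS M κ) (z : ZZ M κ) (q' : MS M κ) (z' : ZZ M κ) (s : List (ZZ M κ)) (w : List T)
    (h : DPush q z q' z') (ih : DMean M κ q' (z' :: z :: s) w) : DMean M κ q (z :: s) w := by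
  cases h with
  | gpush l z h1 =>
    have ih' : GOK (Sum.inl l :: z :: s) → ∃ t, M.Acc t (M.init w) := ih
    intro hG
    exact ih' ⟨h1, hG⟩
  | fpush0 z => exact ih
  | fpush z =>
    have ih' : ∀ c, Mat0 c M.start (fun _ => (0 : Fin κ)) (nul :: z :: s) → ∃ t, M.Acc t c := ih
    intro c hc
    exact ih' c (mat0_nul.2 hc)
  | run q W p z h1 =>
    have ih' : ∀ c, Mat0 c q (fun τ => Fin.ofNat κ (p τ % κ).toNat) (recOf W p :: z :: s) → ∃ t, M.Acc t c := ih
    intro hR c hc
    exact ih' c (mat0_of_mat hc hR)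
  | ch τ e a z =>
    have ih' : cont τ (nul :: z :: s) e = a := ih
    rw [cont_nul] at ih'
    exact ih'

private theorem e3_popr (q : MS M κ) (z : ZZ M κ) (r : ℕ) (q' : MS M κ) (s : List (ZZ M κ)) (v w : List T)
    (h : DPopr q z r q') (hv : v.length = r) (ih : DMean M κ q' s w) : DMean M κ q (z :: s) (v ++ w) := by
  cases h with
  | cnt τ σ a k z r h1 =>
    have ih' : (σ = 1 ∨ σ = -1) → cont τ s (σ * ((w.length : ℤ) - 3 * s.length - k)) = a := ih
    intro hσ
    refine ⟨z, s, rfl, ?_⟩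
    rw [← ih' hσ]
    congr 1
    have h2 : ((v ++ w).length : ℤ) = r + w.length := by
      rw [List.length_append, hv]; push_cast; ring
    have h3 : ((z :: s).length : ℤ) = s.length + 1 := by
      simp
    rw [h2, h3, h1]
    have h4 := e3_sig (x := mv z τ) hσ
    linear_combination -h4

theorem DM_sound_aux' (s : (DM M κ).Q) (st : List (DM M κ).Z) (w : List T) (h : (DM M κ).GWin s st w) :
    DMean M κ s st w := by
  induction h with
  | un q z s w hU hne hall ih => exact e3_un q z s w hU hne ih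
  | eps q z q' z' s w hU h1 h2 ih => exact e3_eps q z q' z' s w hU h1 ih
  | push q z q' z' s w hU h1 h2 ih => exact e3_push q z q' z' s w h1 ih
  | popr q z r q' s v w hU h1 hv hs h2 ih => exact e3_popr q z r q' s v w h1 hv ih
  | call q ck st w hU h1 h2 h3 =>
    have h1' : DCall q ck := h1
    cases h1' with
    | chk ck => exact h3

theorem DM_sound_aux {s : MS M κ} {st : List (ZZ M κ)} {w : List T} (h : (DM M κ).GWin s st w) : DMean M κ s st w :=
  DM_sound_aux' s st w h

theorem DM_sound {w : List T} (h : (DM M κ).GWin (DM M κ).start [(DM M κ).bot] w) : ∃ t, M.Acc t (M.init w) := by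
  have h1 : ([nul] : List (ZZ M κ)) = [nul] → ∃ t, M.Acc t (M.init w) := DM_sound_aux' _ _ _ h
  exact h1 rfl

end Pool.Agent.ACSG48
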