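import Pool.Agent.LibACSG48.E1
import Pool.Agent.LibACSG48.E2

/-! ROW E4.  A finite closed set of states. -/

set_option autoImplicit false

namespace Pool.Agent.ACSG48

variable {T : Type}

open MS

/-- the closed set of states -/
def e4_S (M : ATM T) (κ : ℕ) : MS M κ → Prop
  | start => True
  | gpush => True
  | gchk => True
  | fpush0 => True
  | fpush => True
  | main _ _ => True
  | cl _ _ _ => True
  | run _ _ p j => j ≤ κ ∧ InR κ p j
  | chk ck => match ck with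
    | .eqc c => 0 ≤ c ∧ c ≤ 9
    | .nec c => 0 ≤ c ∧ c ≤ 9
    | _ => True
  | ch _ e _ => |e| ≤ 1
  | ch1 _ e _ ρ σ => |e| ≤ 1 ∧ 0 ≤ ρ ∧ ρ ≤ 2 ∧ (σ = 1 ∨ σ = -1)
  | ver _ σ _ k => (σ = 1 ∨ σ = -1) ∧ 3 ≤ k ∧ k ≤ 7
  | verp _ σ _ k => (σ = 1 ∨ σ = -1) ∧ 3 ≤ k ∧ k ≤ 7
  | cnt _ σ _ k => (σ = 1 ∨ σ = -1) ∧ 3 ≤ k ∧ k ≤ 7

private theorem e4_fin (M : ATM T) (κ : ℕ) : {s | e4_S M κ s}.Finite := by
  have hQ := M.finQ
  have hΓ := M.finΓ
  have hσ : ({σ : ℤ | σ = 1 ∨ σ = -1}).Finite := by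
    have : ({σ : ℤ | σ = 1 ∨ σ = -1}) = {1, -1} := by ext; simp
    rw [this]; exact Set.toFinite _
  have hp : {p : Ix M → ℤ | ∀ i, 0 ≤ p i ∧ p i ≤ 3 * κ}.Finite := by
    refine (Set.Finite.pi (fun _ : Ix M => Set.finite_Icc (0 : ℤ) (3 * κ))).subset ?_
    intro m hm i _
    exact hm i
  have h1 : ({start, gpush, gchk, fpush0, fpush} : Set (MS M κ)).Finite := Set.toFinite _
  have h2 : (Set.range fun x : M.Q × (Ix M → Fin κ) => (main x.1 x.2 : MS M κ)).Finite := Set.finite_range _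
  have h3 : (Set.range fun x : M.Q × (Ix M → Fin κ) × (Ix M → Fin 3 → Blk M κ) =>
      (cl x.1 x.2.1 x.2.2 : MS M κ)).Finite := Set.finite_range _
  have h4 : ((fun x : M.Q × (Ix M → Fin 3 → Blk M κ) × (Ix M → ℤ) × ℕ =>
      (run x.1 x.2.1 x.2.2.1 x.2.2.2 : MS M κ)) '' ((Set.univ : Set M.Q) ×ˢ
        ((Set.univ : Set (Ix M → Fin 3 → Blk M κ)) ×ˢ
        ({p : Ix M → ℤ | ∀ i, 0 ≤ p i ∧ p i ≤ 3 * κ} ×ˢ Set.Iic κ)))).Finite :=
    (Set.Finite.prod Set.finite_univ (Set.Finite.prod Set.finite_univ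
      (Set.Finite.prod hp (Set.finite_Iic κ)))).image _
  have h5 : ((fun ck => (chk ck : MS M κ)) '' (({Check.flush, Check.last, Check.ver} : Set Check) ∪
      (Check.eqc '' Set.Icc 0 9) ∪ (Check.nec '' Set.Icc 0 9))).Finite :=
    (((Set.toFinite _).union ((Set.finite_Icc _ _).image _)).union ((Set.finite_Icc _ _).image _)).image _
  have h6 : ((fun x : Ix M × ℤ × Blk M κ => (ch x.1 x.2.1 x.2.2 : MS M κ)) ''
      ((Set.univ : Set (Ix M)) ×ˢ (Set.Icc (-1 : ℤ) 1 ×ˢ (Set.univ : Set (Blk M κ))))).Finite :=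
    (Set.Finite.prod Set.finite_univ (Set.Finite.prod (Set.finite_Icc _ _) Set.finite_univ)).image _
  have h7 : ((fun x : Ix M × ℤ × Blk M κ × ℤ × ℤ => (ch1 x.1 x.2.1 x.2.2.1 x.2.2.2.1 x.2.2.2.2 : MS M κ)) ''
      ((Set.univ : Set (Ix M)) ×ˢ (Set.Icc (-1 : ℤ) 1 ×ˢ ((Set.univ : Set (Blk M κ)) ×ˢ
        (Set.Icc (0 : ℤ) 2 ×ˢ {σ : ℤ | σ = 1 ∨ σ = -1}))))).Finite :=
    (Set.Finite.prod Set.finite_univ (Set.Finite.prod (Set.finite_Icc _ _) (Set.Finite.prod Set.finite_univ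
      (Set.Finite.prod (Set.finite_Icc _ _) hσ)))).image _
  have h8 : ((Set.univ : Set (Ix M)) ×ˢ ({σ : ℤ | σ = 1 ∨ σ = -1} ×ˢ ((Set.univ : Set (Blk M κ)) ×ˢ
        Set.Icc (3 : ℤ) 7))).Finite :=
    Set.Finite.prod Set.finite_univ (Set.Finite.prod hσ (Set.Finite.prod Set.finite_univ (Set.finite_Icc _ _)))
  have h9 := h8.image (fun x : Ix M × ℤ × Blk M κ × ℤ => (ver x.1 x.2.1 x.2.2.1 x.2.2.2 : MS M κ))
  have h10 := h8.image (fun x : Ix M × ℤ × Blk M κ × ℤ => (verp x.1 x.2.1 x.2.2.1 x.2.2.2 : MS M κ))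
  have h11 := h8.image (fun x : Ix M × ℤ × Blk M κ × ℤ => (cnt x.1 x.2.1 x.2.2.1 x.2.2.2 : MS M κ))
  refine ((((((((((h1.union h2).union h3).union h4).union h5).union h6).union h7).union h9).union h10).union
    h11)).subset ?_
  intro s hs
  cases s with
  | start => simp
  | gpush => simp
  | gchk => simp
  | fpush0 => simp
  | fpush => simp
  | main q o =>
    iterate 8 apply Or.inl
    exact Or.inr ⟨(q, o), rfl⟩
  | cl q o W =>
    iterate 7 apply Or.inl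
    exact Or.inr ⟨(q, o, W), rfl⟩
  | run q W p j =>
    have hs' : j ≤ κ ∧ InR κ p j := hs
    iterate 6 apply Or.inl
    refine Or.inr ⟨(q, W, p, j), ⟨trivial, trivial, fun i => ?_, hs'.1⟩, rfl⟩
    have := hs'.2 i
    constructor <;> dsimp only <;> omega
  | chk ck =>
    iterate 5 apply Or.inl
    refine Or.inr ⟨ck, ?_, rfl⟩
    cases ck with
    | eqc c => exact Or.inl (Or.inr ⟨c, hs, rfl⟩)
    | nec c => exact Or.inr ⟨c, hs, rfl⟩
    | flush => exact Or.inl (Or.inl (by simp))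
    | last => exact Or.inl (Or.inl (by simp))
    | ver => exact Or.inl (Or.inl (by simp))
  | ch τ e a =>
    have hs' : |e| ≤ 1 := hs
    iterate 4 apply Or.inl
    exact Or.inr ⟨(τ, e, a), ⟨trivial, abs_le.1 hs', trivial⟩, rfl⟩
  | ch1 τ e a ρ σ =>
    have hs' : |e| ≤ 1 ∧ 0 ≤ ρ ∧ ρ ≤ 2 ∧ (σ = 1 ∨ σ = -1) := hs
    iterate 3 apply Or.inl
    exact Or.inr ⟨(τ, e, a, ρ, σ), ⟨trivial, abs_le.1 hs'.1, trivial, ⟨hs'.2.1, hs'.2.2.1⟩, hs'.2.2.2⟩, rfl⟩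
  | ver τ σ a k =>
    have hs' : (σ = 1 ∨ σ = -1) ∧ 3 ≤ k ∧ k ≤ 7 := hs
    iterate 2 apply Or.inl
    exact Or.inr ⟨(τ, σ, a, k), ⟨trivial, hs'.1, trivial, hs'.2⟩, rfl⟩
  | verp τ σ a k =>
    have hs' : (σ = 1 ∨ σ = -1) ∧ 3 ≤ k ∧ k ≤ 7 := hs
    exact Or.inl (Or.inr ⟨(τ, σ, a, k), ⟨trivial, hs'.1, trivial, hs'.2⟩, rfl⟩)
  | cnt τ σ a k =>
    have hs' : (σ = 1 ∨ σ = -1) ∧ 3 ≤ k ∧ k ≤ 7 := hs
    exact Or.inr ⟨(τ, σ, a, k), ⟨trivial, hs'.1, trivial, hs'.2⟩, rfl⟩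

private theorem e4_bd {k σ ε m : ℤ} (hσ : σ = 1 ∨ σ = -1) (hk : 3 ≤ k ∧ k ≤ 7) (hε : |ε| ≤ 1) (hm : |m| ≤ 1) :
    0 ≤ k + σ * (ε - m) ∧ k + σ * (ε - m) ≤ 9 := by
  rw [abs_le] at hε hm
  rcases hσ with rfl | rfl <;> constructor <;> linarith [hε.1, hε.2, hm.1, hm.2, hk.1, hk.2]

theorem DM_closed (M : ATM T) (κ : ℕ) [NeZero κ] :
    ∃ S : Set (MS M κ), S.Finite ∧ (DM M κ).Closed S (κ + 9) := by
  refine ⟨{s | e4_S M κ s}, e4_fin M κ, ?_⟩
  constructor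
  · trivial
  · intro q z q' hq h
    have hq' : e4_S M κ q := hq
    have h' : DUn q z q' := h
    cases h' with
    | gchk1 z => trivial
    | gchk2 z => trivial
    | cl1 q o W z => exact ⟨le_refl _, inR_start o⟩
    | cl2 q o W z τ i =>
      change |((i : ℕ) : ℤ) - 1| ≤ 1
      have := i.2
      rw [abs_le]; constructor <;> omega
    | run q q' W W' p p' j z h1 =>
      have hq'' : j + 1 ≤ κ ∧ InR κ p (j + 1) := hq'
      exact ⟨by omega, inR_step hq''.2 h1⟩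
    | ch1a τ e a ρ σ z =>
      have hq'' : |e| ≤ 1 ∧ 0 ≤ ρ ∧ ρ ≤ 2 ∧ (σ = 1 ∨ σ = -1) := hq'
      change 0 ≤ 4 + ρ ∧ 4 + ρ ≤ 9
      omega
    | ch1b τ e a ρ σ z =>
      have hq'' : |e| ≤ 1 ∧ 0 ≤ ρ ∧ ρ ≤ 2 ∧ (σ = 1 ∨ σ = -1) := hq'
      obtain ⟨h1, h2, h3, h4⟩ := hq''
      rw [abs_le] at h1
      change (σ = 1 ∨ σ = -1) ∧ 3 ≤ 4 + ρ - σ * e ∧ 4 + ρ - σ * e ≤ 7
      refine ⟨h4, ?_⟩
      rcases h4 with rfl | rfl <;> constructor <;> linarith [h1.1, h1.2]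
    | verp1 τ σ a k z => exact hq'
    | verp2 τ σ a k z ε b h1 h2 =>
      have hq'' : (σ = 1 ∨ σ = -1) ∧ 3 ≤ k ∧ k ≤ 7 := hq'
      exact e4_bd hq''.1 hq''.2 (wr_some h1) (abs_mv z τ)
  · intro q z q' z' hq h
    have hq' : e4_S M κ q := hq
    have h' : DEps q z q' z' := h
    cases h' with
    | start l => trivial
    | gpush z => trivial
    | fpush z => trivial
    | main q o W z => trivial
    | acc q W p j z h1 => trivial
    | run q q' W W' p p' j z h1 h2 =>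
      have hq'' : j + 1 ≤ κ ∧ InR κ p (j + 1) := hq'
      exact ⟨by omega, inR_step hq''.2 h2⟩
    | ch τ e a ρ σ z h1 h2 h3 => exact ⟨hq', h1, h2, h3⟩
    | stop τ σ a k z ε h1 =>
      have hq'' : (σ = 1 ∨ σ = -1) ∧ 3 ≤ k ∧ k ≤ 7 := hq'
      exact e4_bd hq''.1 hq''.2 (wr_some h1) (abs_mv z τ)
    | pass τ σ a k z => exact hq'
    | last τ σ k z => trivial
  · intro q z q' z' hq h
    have hq' : e4_S M κ q := hq
    have h' : DPush q z q' z' := h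
    cases h' with
    | gpush l z h1 => trivial
    | fpush0 z => trivial
    | fpush z => trivial
    | run q W p z h1 => trivial
    | ch τ e a z => exact hq'
  · intro q z r q' hq h
    have hq' : e4_S M κ q := hq
    have h' : DPopr q z r q' := h
    cases h' with
    | cnt τ σ a k z r h1 =>
      have hq'' : (σ = 1 ∨ σ = -1) ∧ 3 ≤ k ∧ k ≤ 7 := hq'
      refine ⟨hq', ?_⟩
      have hm := abs_le.1 (abs_mv z τ)
      rcases hq''.1 with rfl | rfl <;> omega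
  · intro q c hq h
    have hq' : e4_S M κ q := hq
    have h' : DCall q (Check.eqc c) := h
    cases h' with
    | chk ck =>
      have hq'' : 0 ≤ c ∧ c ≤ 9 := hq'
      constructor
      · exact hq''.1
      · push_cast; linarith [hq''.2, Int.natCast_nonneg κ]
  · intro q c hq h
    have hq' : e4_S M κ q := hq
    have h' : DCall q (Check.nec c) := h
    cases h' with
    | chk ck =>
      have hq'' : 0 ≤ c ∧ c ≤ 9 := hq'
      constructor
      · exact hq''.1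
      · push_cast; linarith [hq''.2, Int.natCast_nonneg κ]
  · intro z l h
    cases z with
    | inl x =>
      have h' : (some x.1 : Option (List T)) = some l := h
      obtain rfl := Option.some.inj h'
      exact ⟨x.2.1, by have := x.2.2; omega⟩
    | inr r =>
      have h' : (none : Option (List T)) = some l := h
      cases h'

theorem finite_ZZ [Finite T] (M : ATM T) (κ : ℕ) : Finite (ZZ M κ) := by
  have hΓ := M.finΓ
  have h1 : Finite (IB T κ) := by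
    have : ({l : List T | l ≠ [] ∧ l.length ≤ κ}).Finite :=
      (List.finite_length_le T κ).subset fun l hl => hl.2
    exact this.to_subtype
  infer_instance

end Pool.Agent.ACSG48
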