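import Pool.Agent.LibACSG48.E1

/-! ROW F1.  Verification of a true claim, when there are enough letters.  Induction on `st` generalizing `d w`.
From the inequality in `OKv` and `hw`: `|w| ≥ |st| + 4`.
* `wr z τ (d + mv) = some a`: `DEps.stop` with `ε = d + mv`, the check `|w| = 3|st| + (k + σ (ε - mv))` holds.
* otherwise `pass`; `verp` is universal: `verp2`: `ε ≠ d + mv` (the latter writes nothing), so `|w| ≠ 3|st| + k + σ (ε - mv)`, and
  `|st| ≤ |w|`; `verp1`: `cnt`: if `s = []`, `a = blankBlk`: `last`, the check `last` holds; otherwise `s ≠ []` and `popr` with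
  `r = (3 - σ mv).toNat`, `v = w.take r`, `w.drop r` has length `3|s| + k + σ (d + mv)`. -/

set_option autoImplicit false

namespace Pool.Agent.ACSG48

variable {T : Type} {M : ATM T} {κ : ℕ}

open MS

/-- the existential player can walk down the stack `st` (displacement `d`) and always has enough letters -/
def OKv (τ : Ix M) (σ : ℤ) (a : Blk M κ) (k : ℤ) : List (ZZ M κ) → ℤ → Prop
  | [], _ => False
  | z :: s, d => 0 ≤ 2 * ((s.length : ℤ) + 1) + k - 4 + σ * d ∧
      (wr z τ (d + mv z τ) = some a ∨
        (wr z τ (d + mv z τ) = none ∧ ((s = [] ∧ a = blankBlk) ∨ OKv τ σ a k s (d + mv z τ))))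

theorem ver_complete [NeZero κ] {τ : Ix M} {σ : ℤ} {a : Blk M κ} {k : ℤ} {st : List (ZZ M κ)} {d : ℤ} {w : List T}
    (hσ : σ = 1 ∨ σ = -1) (h : OKv τ σ a k st d) (hw : (w.length : ℤ) = 3 * st.length + k + σ * d) :
    (DM M κ).GWin (ver τ σ a k) st w := by
  have hU1 : ver τ σ a k ∉ (DM M κ).univ := by
    change ver τ σ a k ∉ DU
    simp [DU]
  have hU2 : verp τ σ a k ∈ (DM M κ).univ := by
    change verp τ σ a k ∈ DU
    exact Or.inr (Or.inr (Or.inr (Or.inr ⟨τ, σ, a, k, rfl⟩)))
  have hU3 : cnt τ σ a k ∉ (DM M κ).univ := by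
    change cnt τ σ a k ∉ DU
    simp [DU]
  have hU4 : ∀ ck : Check, chk ck ∉ (DM M κ).univ := by
    intro ck
    change chk ck ∉ DU
    simp [DU]
  induction st generalizing d w with
  | nil => exact h.elim
  | cons z s ih =>
    obtain ⟨hineq, hcase⟩ := h
    have hlen : (w.length : ℤ) = 3 * ((s.length : ℤ) + 1) + k + σ * d := by
      rw [hw, List.length_cons]
      push_cast
      ring
    rcases hcase with h1 | ⟨h1, h2⟩
    · refine GPD.GWin.eps (D := DM M κ) (ver τ σ a k) z _ z s w hU1 (DEps.stop τ σ a k z (d + mv z τ) h1) ?_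
      refine GPD.GWin.call (D := DM M κ) _ _ (z :: s) w (hU4 _) (DCall.chk _) (List.cons_ne_nil _ _) ?_
      change (w.length : ℤ) = 3 * (((z :: s).length : ℕ) : ℤ) + (k + σ * (d + mv z τ - mv z τ))
      rw [hw]
      ring
    · refine GPD.GWin.eps (D := DM M κ) (ver τ σ a k) z _ z s w hU1 (DEps.pass τ σ a k z) ?_
      refine GPD.GWin.un (D := DM M κ) (verp τ σ a k) z s w hU2 ⟨_, DUn.verp1 τ σ a k z⟩ ?_
      intro q' hq'
      cases hq' with
      | verp1 =>
        rcases h2 with ⟨hs, ha⟩ | h3
        · subst hs
          subst ha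
          refine GPD.GWin.eps (D := DM M κ) (cnt τ σ blankBlk k) z _ z [] w hU3 (DEps.last τ σ k z) ?_
          refine GPD.GWin.call (D := DM M κ) _ _ [z] w (hU4 _) (DCall.chk _) (List.cons_ne_nil _ _) ?_
          refine ⟨rfl, ?_⟩
          intro hw0
          rw [hw0] at hlen
          simp only [List.length_nil, Nat.cast_zero, zero_add] at hlen hineq
          omega
        · have hs : s ≠ [] := by
            intro hs
            rw [hs] at h3
            exact h3
          have hmv := abs_mv z τ
          rw [abs_le] at hmv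
          have hr0 : 2 ≤ 3 - σ * mv z τ ∧ 3 - σ * mv z τ ≤ 4 := by
            rcases hσ with h | h
            · rw [h]; constructor <;> linarith
            · rw [h]; constructor <;> linarith
          obtain ⟨r, hr⟩ : ∃ r : ℕ, (r : ℤ) = 3 - σ * mv z τ := ⟨(3 - σ * mv z τ).toNat, by
            rw [Int.toNat_of_nonneg (by linarith)]⟩
          have hrw : r ≤ w.length := by
            have : (r : ℤ) ≤ (w.length : ℤ) := by
              rw [hlen, hr]
              have : (0 : ℤ) ≤ (s.length : ℤ) := Int.natCast_nonneg _
              linarith [hr0.2]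
            exact_mod_cast this
          have hsplit : w = w.take r ++ w.drop r := (List.take_append_drop r w).symm
          rw [hsplit]
          refine GPD.GWin.popr (D := DM M κ) (cnt τ σ a k) z r (ver τ σ a k) s (w.take r) (w.drop r) hU3
            (DPopr.cnt τ σ a k z r hr) ?_ hs ?_
          · rw [List.length_take, min_eq_left hrw]
          · apply ih h3
            rw [List.length_drop, Nat.cast_sub hrw, hlen, hr]
            ring
      | verp2 _ _ _ _ _ ε b hb1 hb2 =>
        refine GPD.GWin.call (D := DM M κ) _ _ (z :: s) w (hU4 _) (DCall.chk _) (List.cons_ne_nil _ _) ?_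
        refine ⟨?_, ?_⟩
        · have : (((z :: s).length : ℕ) : ℤ) ≤ (w.length : ℤ) := by
            rw [hlen, List.length_cons]
            push_cast
            linarith
          exact_mod_cast this
        · intro he
          rw [hw] at he
          have hne : ε ≠ d + mv z τ := by
            intro h
            rw [h, h1] at hb1
            exact absurd hb1 (by simp)
          apply hne
          have he1 : 3 * (((z :: s : List (ZZ M κ)).length : ℕ) : ℤ) + k + σ * d =
              3 * (((z :: s : List (ZZ M κ)).length : ℕ) : ℤ) + (k + σ * (ε - mv z τ)) := he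
          have he2 : σ * d = σ * (ε - mv z τ) := by linear_combination he1
          rcases hσ with h | h
          · rw [h] at he2; linarith
          · rw [h] at he2; linarith

end Pool.Agent.ACSG48
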