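import Pool.Agent.LibACSG48.F1

/-! ROW F2.  Honest stacks satisfy `OKv`.
`st = recs ++ (nul^f ++ R1 :: gs)`.  Let `D₀ = e + ∑_{recs} mv` (the displacement below `recs`), `σ = 1` if `D₀ ≥ 0`, else `-1`.
General remark: if `a = cont τ (z :: s) d` then either `wr z τ (d + mv) = some a`, or it is `none` and `a = cont τ s (d + mv)`; for `s = []`
this is `blankBlk`.  So only the inequalities have to be checked:
(1) inside `recs` (induction on `recs`, bound `|d| ≤ f - 1` from `|e| ≤ 1` and the sum of the moves): `|z :: s| ≥ f + 2`.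
(2) `nul^f` and `R1`: the displacement is `D₀`, `σ D₀ ≥ 0`, `|z :: s| ≥ 2`.
(3) `gs`, tape `τ ≠ 0`: displacement constant `D₀`.
(4) `gs`, `τ = 0`: before popping the `j`-th block (`j = 0, 1, …`) the displacement is `D₀ + 1 - j`.  `σ = -1` (`D₀ < 0`): `σ d ≥ 0`.
`σ = 1`: the walk stops at the latest at `j = D₀` (there `d + mv = 0` and the block is written), so `d ≥ 1` as long as it goes on. -/

set_option autoImplicit false

namespace Pool.Agent.ACSG48

variable {T : Type} {M : ATM T} {κ : ℕ}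

/-- records, then `f` fillers, then the input -/
def Honest (f : ℕ) (st : List (ZZ M κ)) : Prop :=
  ∃ recs gs : List (ZZ M κ), st = recs ++ (List.replicate f nul ++ R1 :: gs) ∧ (∀ z ∈ recs, ∃ r, z = Sum.inr r) ∧
    GOK gs ∧ ∀ τ, (recs.map (fun z => |mv z τ|)).sum + 2 ≤ f

/-- one step of the walk -/
private theorem f2_step {τ : Ix M} {σ k : ℤ} {z : ZZ M κ} {s : List (ZZ M κ)} {d : ℤ}
    (h : 0 ≤ 2 * ((s.length : ℤ) + 1) + k - 4 + σ * d)
    (hs : wr z τ (d + mv z τ) = none → s ≠ [] → OKv τ σ (cont τ s (d + mv z τ)) k s (d + mv z τ)) :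
    OKv τ σ (cont τ (z :: s) d) k (z :: s) d := by
  refine ⟨h, ?_⟩
  cases hw : wr z τ (d + mv z τ) with
  | some b =>
    left
    unfold cont
    rw [hw]
  | none =>
    right
    have h1 : cont τ (z :: s) d = cont τ s (d + mv z τ) := by
      conv_lhs => unfold cont
      rw [hw]
    refine ⟨rfl, ?_⟩
    rw [h1]
    by_cases h0 : s = []
    · left
      refine ⟨h0, ?_⟩
      rw [h0]
      rfl
    · right
      exact hs hw h0

/-- the input blocks, tapes without input -/
private theorem f2_gs_ne {τ : Ix M} (hτ : τ ≠ 0) {σ k : ℤ} (hk : 3 ≤ k) {d : ℤ} (hd : 0 ≤ σ * d) :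
    ∀ gs : List (ZZ M κ), GOK gs → OKv τ σ (cont τ gs d) k gs d
  | [], h => h.elim
  | [Sum.inl l], _ => f2_step (by simp only [List.length_nil]; push_cast; linarith) (fun _ h => absurd rfl h)
  | Sum.inl l :: z :: s, h => by
    refine f2_step (by push_cast; have : (0 : ℤ) ≤ ((z :: s).length : ℤ) := Nat.cast_nonneg _; linarith) fun _ _ => ?_
    have h1 : mv (Sum.inl l : ZZ M κ) τ = 0 := by
      unfold mv
      simp only [hτ, if_false]
    rw [h1, add_zero]
    exact f2_gs_ne hτ hk hd (z :: s) h.2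
  | Sum.inr _ :: _, h => by
    unfold GOK at h
    exact h.elim

/-- the input blocks, positive displacement -/
private theorem f2_gs_pos {k : ℤ} (hk : 3 ≤ k) :
    ∀ (gs : List (ZZ M κ)) (d : ℤ), 1 ≤ d → GOK gs → OKv 0 1 (cont 0 gs d) k gs d
  | [], _, _, h => h.elim
  | [Sum.inl l], d, hd, _ =>
    f2_step (by simp only [List.length_nil]; push_cast; linarith) (fun _ h => absurd rfl h)
  | Sum.inl l :: z :: s, d, hd, h => by
    refine f2_step (by push_cast; have : (0 : ℤ) ≤ ((z :: s).length : ℤ) := Nat.cast_nonneg _; linarith)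
      fun hw _ => ?_
    have h1 : mv (Sum.inl l : ZZ M κ) 0 = -1 := by
      unfold mv
      simp only [if_true]
    rw [h1] at hw ⊢
    have h2 : d + -1 ≠ 0 := by
      intro h3
      unfold wr at hw
      simp only [h3, and_self, if_true] at hw
      exact absurd hw (by simp)
    exact f2_gs_pos hk (z :: s) (d + -1) (by omega) h.2
  | Sum.inr _ :: _, _, _, h => by
    unfold GOK at h
    exact h.elim

/-- the input blocks, displacement `≤ 0` -/
private theorem f2_gs_neg {k : ℤ} (hk : 3 ≤ k) :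
    ∀ (gs : List (ZZ M κ)) (d : ℤ), d ≤ 0 → GOK gs → OKv 0 (-1) (cont 0 gs d) k gs d
  | [], _, _, h => h.elim
  | [Sum.inl l], d, hd, _ =>
    f2_step (by simp only [List.length_nil]; push_cast; linarith) (fun _ h => absurd rfl h)
  | Sum.inl l :: z :: s, d, hd, h => by
    refine f2_step (by push_cast; have : (0 : ℤ) ≤ ((z :: s).length : ℤ) := Nat.cast_nonneg _; linarith)
      fun hw _ => ?_
    have h1 : mv (Sum.inl l : ZZ M κ) 0 = -1 := by
      unfold mv
      simp only [if_true]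
    rw [h1]
    exact f2_gs_neg hk (z :: s) (d + -1) (by omega) h.2
  | Sum.inr _ :: _, _, _, h => by
    unfold GOK at h
    exact h.elim

/-- the sign of the displacement -/
private def f2_sg (σ D : ℤ) : Prop := (σ = 1 ∧ 0 ≤ D) ∨ (σ = -1 ∧ D < 0)

private theorem f2_sg_nonneg {σ D : ℤ} (h : f2_sg σ D) : 0 ≤ σ * D := by
  rcases h with ⟨h1, h2⟩ | ⟨h1, h2⟩ <;> rw [h1] <;> linarith

private theorem f2_abs {σ D : ℤ} (h : f2_sg σ D) (d : ℤ) : -|d| ≤ σ * d := by
  rcases h with ⟨h1, _⟩ | ⟨h1, _⟩ <;> rw [h1]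
  · have := neg_abs_le d
    linarith
  · have := le_abs_self d
    linarith

private theorem f2_R1 {τ : Ix M} {σ k : ℤ} (hk : 3 ≤ k) {gs : List (ZZ M κ)} (hg : GOK gs) {D : ℤ}
    (h : f2_sg σ D) : OKv τ σ (cont τ (R1 :: gs) D) k (R1 :: gs) D := by
  have h0 := f2_sg_nonneg h
  refine f2_step (by have : (0 : ℤ) ≤ (gs.length : ℤ) := Nat.cast_nonneg _; linarith) fun _ _ => ?_
  by_cases hτ : τ = 0
  · have h1 : mv (R1 : ZZ M κ) τ = 1 := by
      unfold mv R1
      simp [hτ]
    rw [h1, hτ]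
    rcases h with ⟨h2, h3⟩ | ⟨h2, h3⟩
    · rw [h2]
      exact f2_gs_pos hk gs (D + 1) (by omega) hg
    · rw [h2]
      exact f2_gs_neg hk gs (D + 1) (by omega) hg
  · have h1 : mv (R1 : ZZ M κ) τ = 0 := by
      unfold mv R1
      simp [hτ]
    rw [h1, add_zero]
    exact f2_gs_ne hτ hk h0 gs hg

private theorem f2_nul {τ : Ix M} {σ k : ℤ} (hk : 3 ≤ k) {gs : List (ZZ M κ)} (hg : GOK gs) {D : ℤ}
    (h : f2_sg σ D) (f : ℕ) :
    OKv τ σ (cont τ (List.replicate f nul ++ R1 :: gs) D) k (List.replicate f nul ++ R1 :: gs) D := by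
  induction f with
  | zero => exact f2_R1 hk hg h
  | succ f ih =>
    have h0 := f2_sg_nonneg h
    rw [List.replicate_succ, List.cons_append]
    refine f2_step (by
      have : (0 : ℤ) ≤ ((List.replicate f (nul : ZZ M κ) ++ R1 :: gs).length : ℤ) := Nat.cast_nonneg _
      linarith) fun _ _ => ?_
    have h1 : mv (nul : ZZ M κ) τ = 0 := by
      unfold mv nul
      simp
    rw [h1, add_zero]
    exact ih

private theorem f2_recs {τ : Ix M} {σ k : ℤ} (hk : 3 ≤ k) {gs : List (ZZ M κ)} (hg : GOK gs) (f : ℕ) :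
    ∀ (recs : List (ZZ M κ)) (d : ℤ), f2_sg σ (d + (recs.map fun z => mv z τ).sum) →
      |d| + (recs.map fun z => |mv z τ|).sum ≤ f →
      OKv τ σ (cont τ (recs ++ (List.replicate f nul ++ R1 :: gs)) d) k
        (recs ++ (List.replicate f nul ++ R1 :: gs)) d
  | [], d, h, _ => by
    have h1 : f2_sg σ d := by simpa using h
    exact f2_nul hk hg h1 f
  | z :: recs, d, h, hb => by
    rw [List.map_cons, List.sum_cons] at h hb
    rw [List.cons_append]
    have h1 := f2_abs h d
    have hnn : 0 ≤ (recs.map fun z => |mv z τ|).sum := by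
      apply List.sum_nonneg
      intro x hx
      obtain ⟨y, _, rfl⟩ := List.mem_map.1 hx
      exact abs_nonneg _
    have h2 := abs_nonneg (mv z τ)
    refine f2_step ?_ fun _ _ => ?_
    · have h3 : ((recs ++ (List.replicate f (nul : ZZ M κ) ++ R1 :: gs)).length : ℤ) =
          recs.length + (f + (gs.length + 1)) := by
        simp only [List.length_append, List.length_replicate, List.length_cons]
        push_cast
        ring
      rw [h3]
      have h4 : (0 : ℤ) ≤ (recs.length : ℤ) := Nat.cast_nonneg _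
      have h5 : (0 : ℤ) ≤ (gs.length : ℤ) := Nat.cast_nonneg _
      linarith
    · refine f2_recs hk hg f recs (d + mv z τ) ?_ ?_
      · rwa [add_assoc]
      · have h3 := abs_add_le d (mv z τ)
        linarith

theorem okv_of_honest {f : ℕ} {st : List (ZZ M κ)} (h : Honest f st) (τ : Ix M) {e : ℤ} (he : |e| ≤ 1) :
    ∃ σ : ℤ, (σ = 1 ∨ σ = -1) ∧ ∀ k : ℤ, 3 ≤ k → OKv τ σ (cont τ st e) k st e := by
  obtain ⟨recs, gs, rfl, _, hg, hf⟩ := h
  have hf' := hf τ
  rcases le_or_gt 0 (e + (recs.map fun z => mv z τ).sum) with h1 | h1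
  · exact ⟨1, Or.inl rfl, fun k hk => f2_recs hk hg f recs e (Or.inl ⟨rfl, h1⟩) (by linarith)⟩
  · exact ⟨-1, Or.inr rfl, fun k hk => f2_recs hk hg f recs e (Or.inr ⟨rfl, h1⟩) (by linarith)⟩

end Pool.Agent.ACSG48
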