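import Pool.Agent.LibACSG48.F2

/-! ROW F3.  Answer to a challenge.  `n = |w|`, `ρ = (n - 4) % 3`, `x = (n - 4 - ρ) / 3 - |st| ≥ 0`: push `nul` `x` times (`DPush.ch`; induction on
`x`), then `DEps.ch` with `ρ` and the `σ` of `okv_of_honest` for the stack `st' = nul^x ++ st` (`Honest f st'`: the moves of `nul` are `0`; same
content: `cont_replicate`).  `ch1` is universal: `eqc (4 + ρ)`: `n = 3|st'| + 4 + ρ`; `ver` with `k = 4 + ρ - σ e ≥ 3`: `ver_complete` with
`d = e`: `n = 3|st'| + k + σ e`. -/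

set_option autoImplicit false

namespace Pool.Agent.ACSG48

variable {T : Type} {M : ATM T} {κ : ℕ} [NeZero κ]

open MS

private theorem f3_mem_DU_ch1 (τ : Ix M) (e : ℤ) (a : Blk M κ) (ρ σ : ℤ) :
    (ch1 τ e a ρ σ : MS M κ) ∈ (DM M κ).univ := by
  change (ch1 τ e a ρ σ : MS M κ) ∈ DU
  simp [DU]

private theorem f3_notMem_DU_ch (τ : Ix M) (e : ℤ) (a : Blk M κ) :
    (ch τ e a : MS M κ) ∉ (DM M κ).univ := by
  change (ch τ e a : MS M κ) ∉ DU
  simp [DU]

private theorem f3_notMem_DU_chk (ck : Check) :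
    (chk ck : MS M κ) ∉ (DM M κ).univ := by
  change (chk ck : MS M κ) ∉ DU
  simp [DU]

private theorem f3_push (τ : Ix M) (e : ℤ) (a : Blk M κ) (w : List T) (st : List (ZZ M κ)) (hst : st ≠ []) (x : ℕ)
    (st' : List (ZZ M κ)) (hst' : st' = List.replicate x nul ++ st)
    (h : (DM M κ).GWin (ch τ e a) st' w) : (DM M κ).GWin (ch τ e a) st w := by
  induction x generalizing st' with
  | zero =>
    have : st' = st := by simpa using hst'
    subst this
    exact h
  | succ x ih =>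
    have hne : List.replicate x (nul : ZZ M κ) ++ st ≠ [] := by simp [hst]
    obtain ⟨z, s, hzs⟩ := List.exists_cons_of_ne_nil hne
    have h2 : st' = nul :: z :: s := by
      rw [hst', ← hzs]
      rfl
    subst h2
    exact ih (z :: s) hzs.symm
      (GPD.GWin.push (D := DM M κ) _ z _ nul s w (f3_notMem_DU_ch τ e a) (DPush.ch τ e a z) h)

omit [NeZero κ] in
private theorem f3_mv_nul (τ : Ix M) : mv (nul : ZZ M κ) τ = 0 := by
  simp [mv, nul]

omit [NeZero κ] in
private theorem f3_honest {f : ℕ} {st : List (ZZ M κ)} (h : Honest f st) (x : ℕ) :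
    Honest f (List.replicate x nul ++ st) := by
  obtain ⟨recs, gs, hst, hr, hg, hs⟩ := h
  refine ⟨List.replicate x nul ++ recs, gs, by rw [hst, List.append_assoc], ?_, hg, ?_⟩
  · intro z hz
    rcases List.mem_append.1 hz with hz | hz
    · exact ⟨_, (List.mem_replicate.1 hz).2⟩
    · exact hr z hz
  · intro τ
    rw [List.map_append, List.sum_append, List.map_replicate, f3_mv_nul]
    simpa using hs τ

theorem ch_complete {f : ℕ} {st : List (ZZ M κ)} (h : Honest f st) (τ : Ix M) {e : ℤ} (he : |e| ≤ 1) {w : List T}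
    (hw : 3 * st.length + 6 ≤ w.length) : (DM M κ).GWin (ch τ e (cont τ st e)) st w := by
  have hst : st ≠ [] := by
    obtain ⟨recs, gs, hst, _⟩ := h
    rw [hst]
    simp
  obtain ⟨ρ, hρ0, hρ2, x, hx⟩ : ∃ ρ : ℕ, 0 ≤ ρ ∧ ρ ≤ 2 ∧ ∃ x : ℕ, w.length = 3 * (x + st.length) + 4 + ρ := by
    refine ⟨(w.length - 4) % 3, Nat.zero_le _, by omega, (w.length - 4) / 3 - st.length, ?_⟩
    omega
  have hcont : cont τ (List.replicate x nul ++ st) e = cont τ st e := cont_replicate τ x st e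
  have hlen : (List.replicate x (nul : ZZ M κ) ++ st).length = x + st.length := by simp
  obtain ⟨σ, hσ, hok⟩ := okv_of_honest (f3_honest h x) τ he
  rw [hcont] at hok
  have hne : List.replicate x (nul : ZZ M κ) ++ st ≠ [] := by simp [hst]
  obtain ⟨z, s, hzs⟩ := List.exists_cons_of_ne_nil hne
  rw [hzs] at hok hlen
  apply f3_push τ e _ w st hst x (z :: s) hzs.symm
  have hρ : (0 : ℤ) ≤ (ρ : ℤ) := by positivity
  have hρ' : (ρ : ℤ) ≤ 2 := by exact_mod_cast hρ2
  refine GPD.GWin.eps (D := DM M κ) _ z _ z s w (f3_notMem_DU_ch τ e _) (DEps.ch τ e _ (ρ : ℤ) σ z hρ hρ' hσ) ?_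
  refine GPD.GWin.un (D := DM M κ) _ z s w (f3_mem_DU_ch1 τ e _ _ σ) ⟨_, DUn.ch1a τ e _ _ σ z⟩ ?_
  have hwl : (w.length : ℤ) = 3 * ((z :: s).length : ℤ) + (4 + (ρ : ℤ)) := by
    rw [hlen, hx]
    push_cast
    ring
  have he' := abs_le.1 he
  intro q' hq'
  cases hq' with
  | ch1a =>
    exact GPD.GWin.call (D := DM M κ) _ _ _ w (f3_notMem_DU_chk _) (DCall.chk _) (by simp) hwl
  | ch1b =>
    apply ver_complete hσ
    · apply hok
      rcases hσ with rfl | rfl <;> linarith [he'.1, he'.2]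
    · have e1 : (w.length : ℤ) = 3 * ((z :: s).length : ℤ) + (4 + (ρ : ℤ) - σ * e) + σ * e := by
        rw [hwl]
        ring
      exact e1

end Pool.Agent.ACSG48
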