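import Pool.Agent.LibACSG48.E2
import Pool.Agent.LibACSG48.F3

/-! ROW F4.  The main phase.
Put `base = nul^f ++ R1 :: gs`.  `cl_complete`: if `GWin (run q W (κ + o) κ) st w` for the true windows `W τ i = cont τ st (i - 1)`, then
`GWin (main q o) st w`: `DEps.main` with these windows, `cl` is universal, `cl2` is `ch_complete` (`Honest`: the records have `|mv| ≤ 1`
(`abs_mv`), their number is `≤ H`, `H + 2 ≤ f`).
`run_complete`: strong induction on `t`, for `j = 0` and `j > 0` together (the case `j = 0`, `q ∉ acc` is reduced to `j = κ ≥ 1` with the same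
`t`: prove the case `j ≥ 1` first, from the induction hypothesis for `t - 1`).
`q ∈ acc`: `DEps.acc`, the check `flush` (`|st| ≤ H + f + 1 + |gs| ≤ |w|`).
`j = 0`, `q ∉ acc`: then `t ≥ 1`, so `H - |recs| - 1 ≥ 1`; push `recOf W p` (`mat0_of_mat`), `cl_complete`, `inR_start`, `mat_of_mat0`.
`j ≥ 1`, `q ∉ acc`, `t = t' + 1`: existential `q`: `c'` with `Acc t' c'`, `MStep_of_step`, `DEps.run`; universal `q`: the state is in `DU`;
every `MStep` is a step (`step_of_MStep`), at least one exists.  `inR_step`.  (The state `run q W p (j+1)` with `q ∈ M.univ`, `q ∉ M.acc` is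
universal, otherwise it is not.) -/

set_option autoImplicit false

namespace Pool.Agent.ACSG48

variable {T : Type} {M : ATM T} {κ : ℕ} [NeZero κ]

open MS

private theorem f4_eps {q q' : MS M κ} {st : List (ZZ M κ)} {w : List T} (hst : st ≠ []) (hq : q ∉ DU)
    (h : ∀ z, DEps q z q' z) (hw : (DM M κ).GWin q' st w) : (DM M κ).GWin q st w := by
  cases st with
  | nil => exact absurd rfl hst
  | cons z s => exact GPD.GWin.eps (D := DM M κ) q z q' z s w hq (h z) hw

private theorem f4_un {q : MS M κ} {st : List (ZZ M κ)} {w : List T} (hst : st ≠ []) (hq : q ∈ DU)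
    (hex : ∀ z, ∃ q', DUn q z q') (h : ∀ z q', DUn q z q' → (DM M κ).GWin q' st w) : (DM M κ).GWin q st w := by
  cases st with
  | nil => exact absurd rfl hst
  | cons z s => exact GPD.GWin.un (D := DM M κ) q z s w hq (hex z) (fun q' hq' => h z q' hq')

private theorem f4_push {q q' : MS M κ} {z' : ZZ M κ} {st : List (ZZ M κ)} {w : List T} (hst : st ≠ []) (hq : q ∉ DU)
    (h : ∀ z, DPush q z q' z') (hw : (DM M κ).GWin q' (z' :: st) w) : (DM M κ).GWin q st w := by
  cases st with
  | nil => exact absurd rfl hst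
  | cons z s => exact GPD.GWin.push (D := DM M κ) q z q' z' s w hq (h z) hw

private theorem f4_flush {st : List (ZZ M κ)} {w : List T} (hst : st ≠ []) (h : st.length ≤ w.length) :
    (DM M κ).GWin (chk .flush) st w := by
  refine GPD.GWin.call (D := DM M κ) _ _ _ w ?_ (DCall.chk _) hst h
  change (chk Check.flush : MS M κ) ∉ DU
  simp [DU]

omit [NeZero κ] in
private theorem f4_sum_le (τ : Ix M) (recs : List (ZZ M κ)) : (recs.map (fun z => |mv z τ|)).sum ≤ recs.length := by
  induction recs with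
  | nil => simp
  | cons z s ih =>
    have h1 := abs_mv z τ
    simp only [List.map_cons, List.sum_cons, List.length_cons]
    push_cast
    linarith

omit [NeZero κ] in
private theorem f4_honest {H f : ℕ} {gs : List (ZZ M κ)} (hgs : GOK gs) (hf : H + 2 ≤ f) {recs : List (ZZ M κ)}
    (hrecs : ∀ z ∈ recs, ∃ r, z = Sum.inr r) (hlr : recs.length ≤ H) :
    Honest f (recs ++ (List.replicate f nul ++ R1 :: gs)) := by
  refine ⟨recs, gs, rfl, hrecs, hgs, fun τ => ?_⟩
  have h1 := f4_sum_le τ recs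
  have h2 : ((recs.length : ℕ) : ℤ) ≤ H := by exact_mod_cast hlr
  have h3 : (H : ℤ) + 2 ≤ f := by exact_mod_cast hf
  linarith

private theorem f4_cl {f : ℕ} {st : List (ZZ M κ)} {w : List T} (hst : st ≠ []) (hh : Honest f st)
    (hw : 3 * st.length + 6 ≤ w.length) (q : M.Q) (o : Ix M → Fin κ) (W : Ix M → Fin 3 → Blk M κ)
    (hW : ∀ τ (i : Fin 3), W τ i = cont τ st (((i : ℕ) : ℤ) - 1))
    (h : (DM M κ).GWin (run q W (fun τ => κ + ((o τ : ℕ) : ℤ)) κ) st w) : (DM M κ).GWin (main q o) st w := by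
  refine f4_eps (q' := cl q o W) hst (by simp [DU]) (fun z => DEps.main q o W z) ?_
  refine f4_un hst (by simp [DU]) (fun z => ⟨_, DUn.cl1 q o W z⟩) ?_
  intro z q' hq'
  cases hq' with
  | cl1 => exact h
  | cl2 _ _ _ _ τ i =>
    have e1 : |((i : ℕ) : ℤ) - 1| ≤ 1 := by
      have := i.2
      rw [abs_le]
      constructor <;> omega
    have h2 := ch_complete hh τ e1 hw
    rw [← hW τ i] at h2
    exact h2

/-- the statement proved by induction on `t` -/
private def F4P (M : ATM T) (κ : ℕ) [NeZero κ] (H f : ℕ) (gs : List (ZZ M κ)) (w : List T) (t : ℕ) : Prop :=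
  ∀ (c : M.Conf) (q : M.Q) (W : Ix M → Fin 3 → Blk M κ)
    (p : Ix M → ℤ) (j : ℕ) (recs : List (ZZ M κ)) (_ : M.Acc t c)
    (_ : Mat c q W p (recs ++ (List.replicate f nul ++ R1 :: gs))) (_ : InR κ p j) (_ : j ≤ κ)
    (_ : ∀ z ∈ recs, ∃ r, z = Sum.inr r) (_ : recs.length + 1 ≤ H)
    (_ : t ≤ κ * (H - recs.length - 1) + j),
    (DM M κ).GWin (run q W p j) (recs ++ (List.replicate f nul ++ R1 :: gs)) w

private theorem f4_acc {st : List (ZZ M κ)} {w : List T} (hst : st ≠ []) (hlen : st.length ≤ w.length)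
    (q : M.Q) (W : Ix M → Fin 3 → Blk M κ) (p : Ix M → ℤ) (j : ℕ) (hq : q ∈ M.acc) :
    (DM M κ).GWin (run q W p j) st w := by
  refine f4_eps (q' := chk .flush) hst ?_ (fun z => DEps.acc q W p j z hq) (f4_flush hst hlen)
  simp only [DU, Set.mem_ofPred_eq]
  rintro (h | ⟨_, _, _, h⟩ | ⟨q', W', p', j', h, h2, h3⟩ | ⟨_, _, _, _, _, h⟩ | ⟨_, _, _, _, h⟩)
  · cases h
  · cases h
  · cases h
    exact h2 hq
  · cases h
  · cases h

omit [NeZero κ] in
private theorem f4_notMem_run {q : M.Q} {W : Ix M → Fin 3 → Blk M κ} {p : Ix M → ℤ} {j : ℕ}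
    (hq : q ∉ M.univ) : (run q W p j : MS M κ) ∉ DU := by
  simp only [DU, Set.mem_ofPred_eq]
  rintro (h | ⟨_, _, _, h⟩ | ⟨q', W', p', j', h, h2, h3⟩ | ⟨_, _, _, _, _, h⟩ | ⟨_, _, _, _, h⟩)
  · cases h
  · cases h
  · cases h
    exact hq h3
  · cases h
  · cases h

omit [NeZero κ] in
private theorem f4_notMem_run0 {q : M.Q} {W : Ix M → Fin 3 → Blk M κ} {p : Ix M → ℤ} :
    (run q W p 0 : MS M κ) ∉ DU := by
  simp only [DU, Set.mem_ofPred_eq]
  rintro (h | ⟨_, _, _, h⟩ | ⟨q', W', p', j', h, h2, h3⟩ | ⟨_, _, _, _, _, h⟩ | ⟨_, _, _, _, h⟩) <;> cases h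

private theorem f4_step {H f : ℕ} {gs : List (ZZ M κ)} {w : List T}
    (hlen : 3 * (H + f + 1 + gs.length) + 6 ≤ w.length) (t : ℕ) (IH : F4P M κ H f gs w t)
    (c : M.Conf) (q : M.Q) (W : Ix M → Fin 3 → Blk M κ)
    (p : Ix M → ℤ) (j : ℕ) (recs : List (ZZ M κ)) (hacc : M.Acc (t + 1) c)
    (hm : Mat c q W p (recs ++ (List.replicate f nul ++ R1 :: gs))) (hp : InR κ p (j + 1)) (hj : j + 1 ≤ κ)
    (hrecs : ∀ z ∈ recs, ∃ r, z = Sum.inr r) (hlr : recs.length + 1 ≤ H)
    (ht : t + 1 ≤ κ * (H - recs.length - 1) + (j + 1)) :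
    (DM M κ).GWin (run q W p (j + 1)) (recs ++ (List.replicate f nul ++ R1 :: gs)) w := by
  have hne : recs ++ (List.replicate f nul ++ R1 :: gs) ≠ [] := by simp
  have hl : (recs ++ (List.replicate f nul ++ R1 :: gs)).length = recs.length + (f + (gs.length + 1)) := by simp
  have hcq : c.q = q := hm.1
  by_cases hq : q ∈ M.acc
  · exact f4_acc hne (by omega) q W p (j + 1) hq
  rcases hacc with h1 | ⟨h1, c', h2, h3⟩ | ⟨h1, h2, h3⟩
  · exact absurd (hcq ▸ h1) hq
  · rw [hcq] at h1
    obtain ⟨q', W', p', hM, hm'⟩ := MStep_of_step hm (inR_zero hp) h2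
    refine f4_eps hne (f4_notMem_run h1) (fun z => DEps.run q q' W W' p p' j z hq hM) ?_
    exact IH c' q' W' p' j recs h3 hm' (inR_step hp hM) (by omega) hrecs hlr (by omega)
  · rw [hcq] at h1
    have hmem : (run q W p (j + 1) : MS M κ) ∈ DU := Or.inr (Or.inr (Or.inl ⟨q, W, p, j, rfl, hq, h1⟩))
    refine f4_un hne hmem ?_ ?_
    · intro z
      obtain ⟨c', hc'⟩ := h2
      obtain ⟨q', W', p', hM, hm'⟩ := MStep_of_step hm (inR_zero hp) hc'
      exact ⟨_, DUn.run q q' W W' p p' j z hM⟩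
    · intro z q'' hq''
      cases hq'' with
      | run _ q' _ W' _ p' _ _ hM =>
        obtain ⟨c', hc', hm'⟩ := step_of_MStep hm (inR_zero hp) hM
        exact IH c' q' W' p' j recs (h3 c' hc') hm' (inR_step hp hM) (by omega) hrecs hlr (by omega)

private theorem f4_P {H f : ℕ} {gs : List (ZZ M κ)} (hgs : GOK gs) {w : List T} (hf : H + 2 ≤ f)
    (hlen : 3 * (H + f + 1 + gs.length) + 6 ≤ w.length) (t : ℕ) : F4P M κ H f gs w t := by
  induction t with
  | zero =>
    intro c q W p j recs hacc hm hp hj hrecs hlr ht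
    have hl : (recs ++ (List.replicate f nul ++ R1 :: gs)).length = recs.length + (f + (gs.length + 1)) := by simp
    have hne : recs ++ (List.replicate f nul ++ R1 :: gs) ≠ [] := by simp
    have hq : q ∈ M.acc := hm.1 ▸ hacc
    exact f4_acc hne (by omega) q W p j hq
  | succ t IH =>
    intro c q W p j recs hacc hm hp hj hrecs hlr ht
    have hne : recs ++ (List.replicate f nul ++ R1 :: gs) ≠ [] := by simp
    have hl : (recs ++ (List.replicate f nul ++ R1 :: gs)).length = recs.length + (f + (gs.length + 1)) := by simp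
    cases j with
    | succ j => exact f4_step hlen t IH c q W p j recs hacc hm hp hj hrecs hlr ht
    | zero =>
      by_cases hq : q ∈ M.acc
      · exact f4_acc hne (by omega) q W p 0 hq
      have hH : 1 ≤ H - recs.length - 1 := by
        by_contra hcon
        have h0 : H - recs.length - 1 = 0 := by omega
        rw [h0] at ht
        omega
      have hκ : 1 ≤ κ := Nat.one_le_iff_ne_zero.2 (NeZero.ne κ)
      refine f4_push hne f4_notMem_run0 (fun z => DPush.run q W p z hq) ?_
      have hm0 := mat0_of_mat hm hp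
      have hrecs' : ∀ z ∈ recOf W p :: recs, ∃ r, z = Sum.inr r := by
        intro z hz
        rcases List.mem_cons.1 hz with rfl | hz
        · exact ⟨_, rfl⟩
        · exact hrecs z hz
      have hh : Honest f ((recOf W p :: recs) ++ (List.replicate f nul ++ R1 :: gs)) :=
        f4_honest hgs hf hrecs' (by simp only [List.length_cons]; omega)
      have hl2 : ((recOf W p :: recs) ++ (List.replicate f nul ++ R1 :: gs)).length =
          recs.length + (f + (gs.length + 1)) + 1 := by simp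
      have hne2 : (recOf W p :: recs) ++ (List.replicate f nul ++ R1 :: gs) ≠ [] := by simp
      refine f4_cl (f := f) hne2 hh (by rw [hl2]; omega) q _
        (fun τ i => cont τ (recOf W p :: (recs ++ (List.replicate f nul ++ R1 :: gs))) (((i : ℕ) : ℤ) - 1))
        (fun τ i => rfl) ?_
      obtain ⟨κ', hκ'⟩ : ∃ κ', κ = κ' + 1 := ⟨κ - 1, by omega⟩
      have hm1 := mat_of_mat0 (W := fun τ i =>
        cont τ (recOf W p :: (recs ++ (List.replicate f nul ++ R1 :: gs))) (((i : ℕ) : ℤ) - 1)) hm0 (fun τ i => rfl)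
      have hin := inR_start (M := M) (κ := κ) (fun τ => Fin.ofNat κ (p τ % κ).toNat)
      have key : ∀ k : ℕ, k = κ → InR κ (fun τ => (κ : ℤ) + (((Fin.ofNat κ (p τ % κ).toNat : Fin κ) : ℕ) : ℤ)) k →
          t + 1 ≤ κ * (H - (recOf W p :: recs).length - 1) + k → 1 ≤ k →
          (DM M κ).GWin (run q (fun τ i => cont τ (recOf W p :: (recs ++ (List.replicate f nul ++ R1 :: gs)))
            (((i : ℕ) : ℤ) - 1)) (fun τ => (κ : ℤ) + (((Fin.ofNat κ (p τ % κ).toNat : Fin κ) : ℕ) : ℤ)) k)
            (recOf W p :: (recs ++ (List.replicate f nul ++ R1 :: gs))) w := by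
        intro k hk hin' htk hk1
        cases k with
        | zero => omega
        | succ k =>
          exact f4_step hlen t IH c q _ _ k (recOf W p :: recs) hacc hm1 hin' (by omega) hrecs'
            (by simp only [List.length_cons]; omega) htk
      refine key κ rfl hin ?_ hκ
      simp only [List.length_cons]
      obtain ⟨m, hm'⟩ : ∃ m, H - recs.length - 1 = m + 1 := ⟨H - recs.length - 1 - 1, by omega⟩
      have e1 : H - (recs.length + 1) - 1 = m := by omega
      rw [e1]
      rw [hm'] at ht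
      calc t + 1 ≤ κ * (m + 1) + 0 := ht
        _ = κ * m + κ := by ring

theorem run_complete {H f : ℕ} {gs : List (ZZ M κ)} (hgs : GOK gs) {w : List T} (hf : H + 2 ≤ f)
    (hlen : 3 * (H + f + 1 + gs.length) + 6 ≤ w.length) (t : ℕ) (c : M.Conf) (q : M.Q) (W : Ix M → Fin 3 → Blk M κ)
    (p : Ix M → ℤ) (j : ℕ) (recs : List (ZZ M κ)) (hacc : M.Acc t c)
    (hm : Mat c q W p (recs ++ (List.replicate f nul ++ R1 :: gs))) (hp : InR κ p j) (hj : j ≤ κ)
    (hrecs : ∀ z ∈ recs, ∃ r, z = Sum.inr r) (hlr : recs.length + 1 ≤ H)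
    (ht : t ≤ κ * (H - recs.length - 1) + j) :
    (DM M κ).GWin (run q W p j) (recs ++ (List.replicate f nul ++ R1 :: gs)) w :=
  f4_P hgs hf hlen t c q W p j recs hacc hm hp hj hrecs hlr ht

theorem main_complete {H f : ℕ} {gs : List (ZZ M κ)} (hgs : GOK gs) {w : List T} (hf : H + 2 ≤ f)
    (hlen : 3 * (H + f + 1 + gs.length) + 6 ≤ w.length) (t : ℕ) (c : M.Conf) (q : M.Q) (o : Ix M → Fin κ)
    (hacc : M.Acc t c) (hm : Mat0 c q o (List.replicate f nul ++ R1 :: gs)) (hH : 1 ≤ H) (ht : t ≤ κ * (H - 1) + κ) :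
    (DM M κ).GWin (main q o) (List.replicate f nul ++ R1 :: gs) w := by
  have hh : Honest f (([] : List (ZZ M κ)) ++ (List.replicate f nul ++ R1 :: gs)) :=
    f4_honest hgs hf (by simp) (by simp)
  rw [List.nil_append] at hh
  have hl : (List.replicate f nul ++ R1 :: gs).length = f + (gs.length + 1) := by simp
  have hne : (List.replicate f nul ++ R1 :: gs : List (ZZ M κ)) ≠ [] := by simp
  refine f4_cl (f := f) hne hh (by rw [hl]; omega) q o
    (fun τ i => cont τ (List.replicate f nul ++ R1 :: gs) (((i : ℕ) : ℤ) - 1)) (fun τ i => rfl) ?_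
  have hm1 := mat_of_mat0 (W := fun τ i => cont τ (List.replicate f nul ++ R1 :: gs) (((i : ℕ) : ℤ) - 1)) hm
    (fun τ i => rfl)
  exact run_complete hgs hf hlen t c q _ _ κ [] hacc hm1 (inR_start o) le_rfl (by simp) (by simpa using hH)
    (by simpa using ht)

end Pool.Agent.ACSG48
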