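import Pool.Agent.LibACSG48.E1

/-! ROW F5.  The input phase.
`blocks_exist`: strong induction on `|w|`: if `|w| ≤ κ` one block; otherwise `w = w.take κ ++ w.drop κ`.
`start_complete`: let `gs = pre ++ [inl l]`; by induction on `pre` from the bottom (`List.reverseRecOn` or: for all `pre s`, `s ≠ []`,
`GOK (pre ++ s)` and `GWin gpush (pre ++ s) w` give `GWin gpush s w`, induction on `pre` via `List.reverseRec`), all pushed blocks are full.  Then
`DEps.start`.
`phase_complete`: `gpush`, `gchk` universal: `chk ver` holds; `fpush0`: push `R1`, push `nul` `f` times, `DEps.fpush`. -/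

set_option autoImplicit false

namespace Pool.Agent.ACSG48

variable {T : Type} {M : ATM T} {κ : ℕ} [NeZero κ]

open MS

theorem blocks_exist (M : ATM T) (κ : ℕ) [NeZero κ] (w : List T) (hw : w ≠ []) :
    ∃ (gs : List (ZZ M κ)) (ls : List (List T)), GOK gs ∧ gs.map (DM M κ).blk = ls.map some ∧ ls.flatten = w ∧
      κ * gs.length < w.length + κ := by
  obtain ⟨n, hn⟩ : ∃ n, w.length = n := ⟨_, rfl⟩
  induction n using Nat.strong_induction_on generalizing w with
  | _ n ih =>
    have hκ : 0 < κ := Nat.pos_of_ne_zero (NeZero.ne κ)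
    by_cases hle : w.length ≤ κ
    · refine ⟨[Sum.inl ⟨w, hw, hle⟩], [w], trivial, rfl, by simp, ?_⟩
      have : 0 < w.length := List.length_pos_of_ne_nil hw
      simp only [List.length_cons, List.length_nil]
      omega
    · have hle' : κ < w.length := not_le.1 hle
      have hd : w.drop κ ≠ [] := by
        intro h
        have := List.drop_eq_nil_iff.1 h
        omega
      have hdl : (w.drop κ).length = w.length - κ := List.length_drop
      obtain ⟨gs, ls, h1, h2, h3, h4⟩ := ih (w.drop κ).length (by rw [hdl, ← hn]; omega) (w.drop κ) hd rfl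
      have htl : (w.take κ).length = κ := by rw [List.length_take]; omega
      have htn : w.take κ ≠ [] := by
        intro h
        rw [h, List.length_nil] at htl
        omega
      refine ⟨Sum.inl ⟨w.take κ, htn, htl.le⟩ :: gs, w.take κ :: ls, ?_, ?_, ?_, ?_⟩
      · cases gs with
        | nil => exact absurd h1 (by simp [GOK])
        | cons z s => exact ⟨htl, h1⟩
      · exact congrArg (List.cons (some (w.take κ))) h2
      · rw [List.flatten_cons, h3, List.take_append_drop]
      · rw [List.length_cons, Nat.mul_succ]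
        rw [hdl] at h4
        omega

omit [NeZero κ] in
private theorem gok_tail {z : ZZ M κ} {s : List (ZZ M κ)} (hs : s ≠ []) (h : GOK (z :: s)) :
    GOK s ∧ ∃ l : IB T κ, z = Sum.inl l ∧ l.1.length = κ := by
  obtain ⟨y, t, rfl⟩ := List.exists_cons_of_ne_nil hs
  cases z with
  | inl l => exact ⟨h.2, l, rfl, h.1⟩
  | inr r => exact absurd h (by simp [GOK])

omit [NeZero κ] in
private theorem gok_append {pre s : List (ZZ M κ)} (hs : s ≠ []) (h : GOK (pre ++ s)) : GOK s := by
  induction pre with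
  | nil => exact h
  | cons z pre ih => exact ih (gok_tail (by simp [hs]) h).1

private def GW (M : ATM T) (κ : ℕ) [NeZero κ] (q : MS M κ) (st : List (ZZ M κ)) (w : List T) : Prop :=
  (DM M κ).GWin q st w

private theorem gw_push {q q' : MS M κ} {z' : ZZ M κ} {st : List (ZZ M κ)} {w : List T} (hs : st ≠ [])
    (hq : q ∉ DU) (hp : ∀ z, DPush q z q' z') (h : GW M κ q' (z' :: st) w) : GW M κ q st w := by
  obtain ⟨y, t, rfl⟩ := List.exists_cons_of_ne_nil hs
  exact GPD.GWin.push (D := DM M κ) q y q' z' t w hq (hp y) h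

private theorem gw_eps {q q' : MS M κ} {st : List (ZZ M κ)} {w : List T} (hs : st ≠ [])
    (hq : q ∉ DU) (hp : ∀ z, DEps q z q' z) (h : GW M κ q' st w) : GW M κ q st w := by
  obtain ⟨y, t, rfl⟩ := List.exists_cons_of_ne_nil hs
  exact GPD.GWin.eps (D := DM M κ) q y q' y t w hq (hp y) h

private theorem gpush_back {w : List T} {pre s : List (ZZ M κ)} (hs : s ≠ []) (h : GOK (pre ++ s))
    (hw : GW M κ gpush (pre ++ s) w) : GW M κ gpush s w := by
  induction pre with
  | nil => exact hw
  | cons z pre ih =>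
    have hne : pre ++ s ≠ [] := by simp [hs]
    obtain ⟨h', l, rfl, hl⟩ := gok_tail hne h
    exact ih h' (gw_push hne (by rintro (h | ⟨_, _, _, h⟩ | ⟨_, _, _, _, h, _⟩ | ⟨_, _, _, _, _, h⟩ | ⟨_, _, _, _, h⟩) <;> cases h) (fun y => DPush.gpush l y hl) hw)

private theorem fpush_back {w : List T} (f : ℕ) {st : List (ZZ M κ)} (hs : st ≠ [])
    (hw : GW M κ fpush (List.replicate f nul ++ st) w) : GW M κ fpush st w := by
  induction f with
  | zero => exact hw
  | succ f ih =>
    have hne : List.replicate f (nul : ZZ M κ) ++ st ≠ [] := by simp [hs]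
    exact ih (gw_push hne (by rintro (h | ⟨_, _, _, h⟩ | ⟨_, _, _, _, h, _⟩ | ⟨_, _, _, _, _, h⟩ | ⟨_, _, _, _, h⟩) <;> cases h) (fun y => DPush.fpush y) hw)

private theorem start_back {w : List T} {y : ZZ M κ} (h : GOK [y]) (hw : GW M κ gpush [y] w) :
    GW M κ start [nul] w := by
  cases y with
  | inr r => exact absurd h (by simp [GOK])
  | inl l => exact GPD.GWin.eps (D := DM M κ) start nul gpush (Sum.inl l) [] w (by rintro (h | ⟨_, _, _, h⟩ | ⟨_, _, _, _, h, _⟩ | ⟨_, _, _, _, _, h⟩ | ⟨_, _, _, _, h⟩) <;> cases h) (DEps.start l) hw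

private theorem phase_aux {gs : List (ZZ M κ)} {w : List T} (h : GOK gs)
    (hv : Check.Holds (DM M κ).blk gs w .ver) (f : ℕ)
    (hm : GW M κ (main M.start (fun _ => (0 : Fin κ))) (List.replicate f nul ++ R1 :: gs) w) :
    GW M κ start [nul] w := by
  have hne : gs ≠ [] := by
    rintro rfl
    exact absurd h (by simp [GOK])
  -- the fillers
  have h1 : GW M κ fpush (R1 :: gs) w :=
    fpush_back f (by simp) (gw_eps (by simp) (by rintro (h | ⟨_, _, _, h⟩ | ⟨_, _, _, _, h, _⟩ | ⟨_, _, _, _, _, h⟩ | ⟨_, _, _, _, h⟩) <;> cases h) (fun y => DEps.fpush y) hm)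
  have h2 : GW M κ fpush0 gs w := gw_push hne (by rintro (h | ⟨_, _, _, h⟩ | ⟨_, _, _, _, h, _⟩ | ⟨_, _, _, _, _, h⟩ | ⟨_, _, _, _, h⟩) <;> cases h) (fun y => DPush.fpush0 y) h1
  have h3 : GW M κ (chk .ver) gs w :=
    GPD.GWin.call (D := DM M κ) (chk .ver) .ver gs w (by rintro (h | ⟨_, _, _, h⟩ | ⟨_, _, _, _, h, _⟩ | ⟨_, _, _, _, _, h⟩ | ⟨_, _, _, _, h⟩) <;> cases h) (DCall.chk .ver) hne hv
  have h4 : GW M κ gchk gs w := by
    obtain ⟨z, s, rfl⟩ := List.exists_cons_of_ne_nil hne
    refine GPD.GWin.un (D := DM M κ) gchk z s w (Or.inl rfl) ⟨_, DUn.gchk1 z⟩ ?_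
    intro q' hq'
    cases hq' with
    | gchk1 => exact h3
    | gchk2 => exact h2
  have h5 : GW M κ gpush gs w := gw_eps hne (by rintro (h | ⟨_, _, _, h⟩ | ⟨_, _, _, _, h, _⟩ | ⟨_, _, _, _, _, h⟩ | ⟨_, _, _, _, h⟩) <;> cases h) (fun y => DEps.gpush y) h4
  have hdl : gs.dropLast ++ [gs.getLast hne] = gs := List.dropLast_append_getLast hne
  have h6 : GW M κ gpush [gs.getLast hne] w :=
    gpush_back (pre := gs.dropLast) (by simp) (by rw [hdl]; exact h) (by rw [hdl]; exact h5)
  have h7 : GOK [gs.getLast hne] := gok_append (pre := gs.dropLast) (by simp) (by rw [hdl]; exact h)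
  exact start_back h7 h6

theorem phase_complete {gs : List (ZZ M κ)} {ls : List (List T)} (h : GOK gs)
    (hls : gs.map (DM M κ).blk = ls.map some) (f : ℕ)
    (hm : (DM M κ).GWin (main M.start (fun _ => (0 : Fin κ))) (List.replicate f nul ++ R1 :: gs) ls.flatten) :
    (DM M κ).GWin (DM M κ).start [(DM M κ).bot] ls.flatten :=
  phase_aux h ⟨ls, hls, rfl⟩ f hm

end Pool.Agent.ACSG48
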