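import Pool.Agent.LibACSG48.C5
import Pool.Agent.LibACSG48.C6
import Pool.Agent.LibACSG48.B4
import Pool.Agent.LibACSG48.E3
import Pool.Agent.LibACSG48.E4
import Pool.Agent.LibACSG48.F4
import Pool.Agent.LibACSG48.F5

/-! ROW F6.  Constants and the theorem.
`DM_complete`: `κ = 100 (c + 1)`, `n₀ = 1000`, `n = |w| ≥ n₀`: `blocks_exist`: `|gs| ≤ n / κ + 1`; `H = c n / κ + 2` (so `c n ≤ κ (H - 1) + κ`), `f = H + 2`;
`3 (H + f + 1 + |gs|) + 6 ≤ n`: `H ≤ n / 100 + 2`, `|gs| ≤ n / 100 + 1`, so the left side is `≤ 3 (2 (n / 100 + 2) + 2 + 1 + n / 100 + 1) + 6 ≤ n`.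
`mat0_init`, `mat0_nul` (`f` times), `main_complete`, `phase_complete`.
`langLM_of_altLinTime`: `L` accepted by `M` in time `c n`; `G₀` from `exists_grammar_of_GPD (DM M κ)` (`DM_closed`, `finite_ZZ`);
`w ∈ G₀.langLM → w ≠ []` (`nil_notMem_langLM`) `→ w ∈ L` (`DM_sound`); words of `L` of length `≥ n₀` are in `G₀.langLM` (`DM_complete`);
`union_finite` with `F = {w ∈ L | |w| < n₀}` (finite). -/

set_option autoImplicit false

namespace Pool.Agent.ACSG48

variable {T : Type}

theorem DM_complete (M : ATM T) (c : ℕ) : ∃ (κ : ℕ) (_ : NeZero κ) (n₀ : ℕ), ∀ w : List T, n₀ ≤ w.length →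
    M.Acc (c * w.length) (M.init w) → (DM M κ).GWin (DM M κ).start [(DM M κ).bot] w := by
  have hκ : NeZero (100 * (c + 1)) := ⟨by positivity⟩
  refine ⟨100 * (c + 1), hκ, 1000, fun w hw hacc => ?_⟩
  have hne : w ≠ [] := by
    rintro rfl
    simp at hw
  obtain ⟨gs, ls, hgs, hls, hfl, hlen⟩ := blocks_exist M (100 * (c + 1)) w hne
  have hg : gs.length ≤ w.length / 100 + 1 := by
    have h1 : 100 * gs.length ≤ w.length + 100 := by
      by_contra hcon
      have h2 : w.length + 101 ≤ 100 * gs.length := by omega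
      have h3 : (c + 1) * (w.length + 101) ≤ (c + 1) * (100 * gs.length) := Nat.mul_le_mul_left _ h2
      have h4 : 100 * (c + 1) * gs.length = (c + 1) * (100 * gs.length) := by ring
      have h5 : (c + 1) * (w.length + 101) = c * w.length + w.length + 101 * c + 101 := by ring
      rw [h4] at hlen
      have h6 : 0 ≤ c * w.length := Nat.zero_le _
      omega
    omega
  have hH1 : c * w.length / (100 * (c + 1)) ≤ w.length / 100 := by
    have h1 : w.length / 100 = ((c + 1) * w.length) / ((c + 1) * 100) := by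
      rw [Nat.mul_div_mul_left _ _ (Nat.succ_pos c)]
    rw [h1, Nat.mul_comm 100 (c + 1)]
    exact Nat.div_le_div_right (Nat.mul_le_mul_right _ (Nat.le_succ c))
  have h1 := Nat.div_add_mod (c * w.length) (100 * (c + 1))
  have h2 := Nat.mod_lt (c * w.length) (show 0 < 100 * (c + 1) by positivity)
  obtain ⟨D, hD⟩ : ∃ D : ℕ, c * w.length / (100 * (c + 1)) = D := ⟨_, rfl⟩
  rw [hD] at hH1 h1
  obtain ⟨H, hH⟩ : ∃ H : ℕ, H = D + 2 := ⟨_, rfl⟩
  have ht : c * w.length ≤ 100 * (c + 1) * (H - 1) + 100 * (c + 1) := by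
    have h3 : H - 1 = D + 1 := by omega
    rw [h3, Nat.mul_add, Nat.mul_one]
    omega
  have hmat : ∀ f : ℕ, Mat0 (M.init ls.flatten) M.start (fun _ => (0 : Fin (100 * (c + 1))))
      (List.replicate f nul ++ R1 :: gs) := by
    intro f
    induction f with
    | zero => exact mat0_init hgs hls
    | succ f ih =>
      rw [List.replicate_succ, List.cons_append]
      exact mat0_nul.2 ih
  have hm := main_complete (H := H) (f := H + 2) hgs (w := ls.flatten) le_rfl (by rw [hfl]; omega)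
    (c * w.length) (M.init ls.flatten) M.start (fun _ => (0 : Fin (100 * (c + 1))))
    (by rw [hfl]; exact hacc) (hmat (H + 2)) (by omega) ht
  have h2 := phase_complete hgs hls (H + 2) hm
  rw [hfl] at h2
  exact h2

theorem langLM_of_altLinTime [Finite T] (L : Set (List T)) (h0 : ([] : List T) ∉ L) (h : AltLinTime L) :
    ∃ G : Grammar T, G.langLM = L := by
  obtain ⟨M, c, hM⟩ := h
  obtain ⟨κ, hκ, n₀, hcomp⟩ := DM_complete M c
  obtain ⟨S, hS, hcl⟩ := DM_closed M κ
  have hfin : Finite (DM M κ).Z := finite_ZZ M κ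
  obtain ⟨G₀, hG₀⟩ := exists_grammar_of_GPD (DM M κ) S hS (κ + 9) hcl
  have hF : {w : List T | w ∈ L ∧ w.length < n₀}.Finite :=
    (List.finite_length_lt T n₀).subset fun w hw => hw.2
  obtain ⟨G, hG⟩ := union_finite G₀ {w : List T | w ∈ L ∧ w.length < n₀} hF (fun h => h0 h.1)
  refine ⟨G, ?_⟩
  rw [hG]
  ext w
  constructor
  · rintro (hw | hw)
    · have hne : w ≠ [] := by
        rintro rfl
        exact nil_notMem_langLM (G := G₀) hw
      obtain ⟨t, ht⟩ := DM_sound ((hG₀ w).1 hw)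
      exact (hM w hne).2 t ht
    · exact hw.1
  · intro hw
    have hne : w ≠ [] := by
      rintro rfl
      exact h0 hw
    by_cases hl : w.length < n₀
    · exact Or.inr ⟨hw, hl⟩
    · exact Or.inl ((hG₀ w).2 (hcomp w (not_lt.1 hl) ((hM w hne).1 hw)))

theorem langLM_iff [Finite T] (L : Set (List T)) :
    (∃ G : Grammar T, G.langLM = L) ↔ (([] : List T) ∉ L ∧ AltLinTime L) := by
  constructor
  · rintro ⟨G, rfl⟩
    exact ⟨nil_notMem_langLM (G := G), altLinTime_langLM (G := G)⟩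
  · rintro ⟨h0, h⟩
    exact langLM_of_altLinTime L h0 h

end Pool.Agent.ACSG48
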