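import Pool.Agent.LibACSG48.F6
import Pool.Agent.LibACSG48.C7

/-! Block F7.  The theorem, with the unrestricted mode. -/

set_option autoImplicit false

namespace Pool.Agent.ACSG48

variable {T : Type}

theorem both_of_altLinTime [Finite T] (L : Set (List T)) (h0 : ([] : List T) ∉ L) (h : AltLinTime L) :
    ∃ G : Grammar T, G.langLM = L ∧ G.lang = L := by
  obtain ⟨M, c, hM⟩ := h
  obtain ⟨κ, hκ, n₀, hcomp⟩ := DM_complete M c
  obtain ⟨S, hS, hcl⟩ := DM_closed M κ
  have hfin : Finite (DM M κ).Z := finite_ZZ M κ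
  obtain ⟨G₀, A, hA, hG₀⟩ := exists_grammar_of_GPD' (DM M κ) S hS (κ + 9) hcl
  have hF : {w : List T | w ∈ L ∧ w.length < n₀}.Finite :=
    (List.finite_length_lt T n₀).subset fun w hw => hw.2
  obtain ⟨G, hG, hG'⟩ := union_finite' G₀ {w : List T | w ∈ L ∧ w.length < n₀} hF (fun h => h0 h.1) hA
  have hL : G₀.langLM ∪ {w : List T | w ∈ L ∧ w.length < n₀} = L := by
    ext w
    constructor
    · rintro (hw | hw)
      · have hne : w ≠ [] := by
          rintro rfl
          exact nil_notMem_langLM (G := G₀) hw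
        obtain ⟨t, ht⟩ := DM_sound ((hG₀ w).1 hw)
        exact (hM w hne).2 t ht
      · exact hw.1
    · intro hw
      have hne : w ≠ [] := by
        rintro rfl
        exact h0 hw
      by_cases hl : w.length < n₀
      · exact Or.inr ⟨hw, hl⟩
      · exact Or.inl ((hG₀ w).2 (hcomp w (not_lt.1 hl) ((hM w hne).1 hw)))
  exact ⟨G, hG.trans hL, hG'.trans hL⟩

theorem classes_eq_iff [Finite T] :
    {L : Set (List T) | ∃ G : Grammar T, G.langLM = L} = {L : Set (List T) | ∃ G : Grammar T, G.lang = L} ↔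
      ∀ G : Grammar T, AltLinTime G.lang := by
  constructor
  · intro h G
    have h1 : G.lang ∈ {L : Set (List T) | ∃ G : Grammar T, G.langLM = L} := by
      rw [h]
      exact ⟨G, rfl⟩
    exact ((langLM_iff _).1 h1).2
  · intro h
    ext L
    constructor
    · rintro ⟨G, rfl⟩
      obtain ⟨G', -, h2⟩ := both_of_altLinTime G.langLM (nil_notMem_langLM (G := G)) (altLinTime_langLM (G := G))
      exact ⟨G', h2⟩
    · rintro ⟨G, rfl⟩
      exact langLM_of_altLinTime _ nil_notMem_lang (h G)

end Pool.Agent.ACSG48
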