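import Pool.Agent.LibACSG48.Defs

/-!
# Block G: alternating linear bounded automata, and the grammar of such an automaton.  Definitions.
-/

set_option autoImplicit false

namespace Pool.Agent.ACSG48

variable {T : Type}

/-- head moves -/
inductive Mv
  | stay | left | right

/-- An alternating linear bounded automaton: one head on a tape which has exactly the `|w|` cells of the input; the machine senses the two
ends of the tape. -/
structure ALBA (T : Type) where
  /-- states -/
  Q : Type
  finQ : Finite Q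
  /-- tape alphabet -/
  Γ : Type
  finΓ : Finite Γ
  /-- the input letters as tape symbols -/
  inp : T → Γ
  start : Q
  /-- accepting states -/
  acc : Set Q
  /-- universal states -/
  univ : Set Q
  /-- `tr q a l r q' b m`: in state `q`, reading `a` (`l`, `r`: the cell is the first, the last one), the machine may enter state `q'`, write `b`
  and move by `m` -/
  tr : Q → Γ → Bool → Bool → Q → Γ → Mv → Prop

/-- configurations: `u` is the part of the tape to the left of the head (reversed), `a` the symbol under the head, `v` the part to the right -/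
structure ALBA.Conf (M : ALBA T) where
  q : M.Q
  u : List M.Γ
  a : M.Γ
  v : List M.Γ

/-- one step -/
inductive ALBA.Step (M : ALBA T) : M.Conf → M.Conf → Prop
  | stay (q : M.Q) (u : List M.Γ) (a : M.Γ) (v : List M.Γ) (q' : M.Q) (b : M.Γ) :
      M.tr q a u.isEmpty v.isEmpty q' b .stay → ALBA.Step M ⟨q, u, a, v⟩ ⟨q', u, b, v⟩
  | left (q : M.Q) (x : M.Γ) (u : List M.Γ) (a : M.Γ) (v : List M.Γ) (q' : M.Q) (b : M.Γ) :
      M.tr q a false v.isEmpty q' b .left → ALBA.Step M ⟨q, x :: u, a, v⟩ ⟨q', u, x, b :: v⟩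
  | right (q : M.Q) (u : List M.Γ) (a x : M.Γ) (v : List M.Γ) (q' : M.Q) (b : M.Γ) :
      M.tr q a u.isEmpty false q' b .right → ALBA.Step M ⟨q, u, a, x :: v⟩ ⟨q', b :: u, x, v⟩

/-- the configuration has an accepting computation tree -/
inductive ALBA.Acc (M : ALBA T) : M.Conf → Prop
  | acc (c : M.Conf) : c.q ∈ M.acc → ALBA.Acc M c
  | exi (c c' : M.Conf) : c.q ∉ M.univ → M.Step c c' → ALBA.Acc M c' → ALBA.Acc M c
  | uni (c : M.Conf) : c.q ∈ M.univ → (∃ c', M.Step c c') → (∀ c', M.Step c c' → ALBA.Acc M c') → ALBA.Acc M c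

/-- the (nonempty) words accepted by `M` -/
def ALBA.lang (M : ALBA T) : Set (List T) :=
  {w | ∃ (a : T) (v : List T), w = a :: v ∧ M.Acc ⟨M.start, [], M.inp a, v.map M.inp⟩}

/-! ## The grammar -/

/-- status of a cell: no head; head walking to the left before the start; state `q`; head about to move; the accepting head walks to the left;
conversion to terminals -/
inductive HS (Q : Type)
  | no | sl
  | st (q : Q)
  | ml (q : Q)
  | mr (q : Q)
  | al | cv

/-- variables -/
inductive XV (M : ALBA T)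
  | S | gen
  | cell (a : T) (g : M.Γ) (l r : Bool) (h : HS M.Q)

/-- a cell as a symbol of the grammar -/
abbrev cl {M : ALBA T} (a : T) (g : M.Γ) (l r : Bool) (h : HS M.Q) : XV M ⊕ T := Sum.inl (XV.cell a g l r h)

open HS

/-- productions -/
inductive GP (M : ALBA T) : List (XV M ⊕ T) → List (XV M ⊕ T) → Prop
  | s1 (a : T) : GP M [Sum.inl XV.S] [cl a (M.inp a) true true sl]
  | s2 (a : T) : GP M [Sum.inl XV.S] [cl a (M.inp a) true false no, Sum.inl XV.gen]
  | g1 (a : T) : GP M [Sum.inl XV.gen] [cl a (M.inp a) false true sl]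
  | g2 (a : T) : GP M [Sum.inl XV.gen] [cl a (M.inp a) false false no, Sum.inl XV.gen]
  | sl1 (a : T) (g : M.Γ) (l r : Bool) (b : T) (g' : M.Γ) (l' r' : Bool) :
      GP M [cl a g l r no, cl b g' l' r' sl] [cl a g l r sl, cl b g' l' r' no]
  | sl2 (a : T) (g : M.Γ) (r : Bool) : GP M [cl a g true r sl] [cl a g true r (st M.start)]
  | stay (a : T) (g : M.Γ) (l r : Bool) (q q' : M.Q) (b : M.Γ) : q ∉ M.acc → M.tr q g l r q' b .stay →
      GP M [cl a g l r (st q)] [cl a b l r (st q')]
  | left (a : T) (g : M.Γ) (r : Bool) (q q' : M.Q) (b : M.Γ) : q ∉ M.acc → M.tr q g false r q' b .left →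
      GP M [cl a g false r (st q)] [cl a b false r (ml q')]
  | right (a : T) (g : M.Γ) (l : Bool) (q q' : M.Q) (b : M.Γ) : q ∉ M.acc → M.tr q g l false q' b .right →
      GP M [cl a g l false (st q)] [cl a b l false (mr q')]
  | ml (a : T) (g : M.Γ) (l r : Bool) (b : T) (g' : M.Γ) (l' r' : Bool) (q : M.Q) :
      GP M [cl a g l r no, cl b g' l' r' (ml q)] [cl a g l r (st q), cl b g' l' r' no]
  | mr (a : T) (g : M.Γ) (l r : Bool) (b : T) (g' : M.Γ) (l' r' : Bool) (q : M.Q) :
      GP M [cl a g l r (mr q), cl b g' l' r' no] [cl a g l r no, cl b g' l' r' (st q)]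
  | acc (a : T) (g : M.Γ) (l r : Bool) (q : M.Q) : q ∈ M.acc → GP M [cl a g l r (st q)] [cl a g l r al]
  | al1 (a : T) (g : M.Γ) (l r : Bool) (b : T) (g' : M.Γ) (l' r' : Bool) :
      GP M [cl a g l r no, cl b g' l' r' al] [cl a g l r al, cl b g' l' r' no]
  | al2 (a : T) (g : M.Γ) (r : Bool) : GP M [cl a g true r al] [cl a g true r cv]
  | cv1 (a : T) (g : M.Γ) (l : Bool) (b : T) (g' : M.Γ) (l' r' : Bool) :
      GP M [cl a g l false cv, cl b g' l' r' no] [Sum.inr a, cl b g' l' r' cv]
  | cv2 (a : T) (g : M.Γ) (l : Bool) : GP M [cl a g l true cv] [Sum.inr a]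

/-- the cells to the left of the head -/
def lc {M : ALBA T} : List (T × M.Γ) → List (XV M ⊕ T)
  | [] => []
  | (a, g) :: u => lc u ++ [cl a g u.isEmpty false no]

/-- the cells to the right of the head -/
def rc {M : ALBA T} : List (T × M.Γ) → List (XV M ⊕ T)
  | [] => []
  | (a, g) :: v => cl a g false v.isEmpty no :: rc v

/-- sentential forms -/
inductive FD (M : ALBA T)
  | S
  | gen (x : List T)
  | hd (h : HS M.Q) (u : List (T × M.Γ)) (a : T) (g : M.Γ) (v : List (T × M.Γ))
  | cvx (x : List T) (a : T) (g : M.Γ) (l : Bool) (v : List (T × M.Γ))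
  | tm (x : List T)

/-- the sentential form (`x` is reversed in `gen x`) -/
def FD.form {M : ALBA T} : FD M → List (XV M ⊕ T)
  | .S => [Sum.inl XV.S]
  | .gen x => lc (x.map fun a => (a, M.inp a)) ++ [Sum.inl XV.gen]
  | .hd h u a g v => lc u ++ cl a g u.isEmpty v.isEmpty h :: rc v
  | .cvx x a g l v => x.map Sum.inr ++ cl a g l v.isEmpty cv :: rc v
  | .tm x => x.map Sum.inr

/-- the word written in the cells -/
def wd {M : ALBA T} (u : List (T × M.Γ)) (a : T) (v : List (T × M.Γ)) : List T :=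
  (u.map Prod.fst).reverse ++ a :: v.map Prod.fst

/-- what a form means -/
def FD.Sem {M : ALBA T} (w : List T) : FD M → Prop
  | .S => w ∈ M.lang
  | .gen x => x ≠ [] → w ∈ M.lang ∧ ∃ y, w = x.reverse ++ y ∧ y ≠ []
  | .hd no _ _ _ _ => True
  | .hd sl u a g v => w = wd u a v ∧ ((∀ p ∈ u ++ (a, g) :: v, p.2 = M.inp p.1) → w ∈ M.lang)
  | .hd (st q) u a g v => w = wd u a v ∧ M.Acc ⟨q, u.map Prod.snd, g, v.map Prod.snd⟩
  | .hd (ml q) u a g v => w = wd u a v ∧ ∀ p u', u = p :: u' → M.Acc ⟨q, u'.map Prod.snd, p.2, g :: v.map Prod.snd⟩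
  | .hd (mr q) u a g v => w = wd u a v ∧ ∀ p v', v = p :: v' → M.Acc ⟨q, g :: u.map Prod.snd, p.2, v'.map Prod.snd⟩
  | .hd al u a _ v => w = wd u a v
  | .hd cv u a _ v => u = [] → w = wd u a v
  | .cvx x a _ _ v => w = x ++ a :: v.map Prod.fst
  | .tm x => w = x

end Pool.Agent.ACSG48
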