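import Pool.Agent.LibACSG48.G0

/-! ROW G1.  The grammar `XG M` of an alternating linear bounded automaton is an alternating context-sensitive grammar.
`finite_XV`: `HS M.Q` and `XV M` are finite: inject into sums and products (`Finite.of_injective` or `Finite.of_surjective`; `M.finQ`, `M.finΓ`). -/

set_option autoImplicit false

namespace Pool.Agent.ACSG48

variable {T : Type}

open HS

theorem finite_HS {Q : Type} (h : Finite Q) : Finite (HS Q) := by
  let f : (Q ⊕ Q ⊕ Q) ⊕ Fin 4 → HS Q := fun x => match x with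
    | Sum.inl (Sum.inl q) => HS.st q
    | Sum.inl (Sum.inr (Sum.inl q)) => HS.ml q
    | Sum.inl (Sum.inr (Sum.inr q)) => HS.mr q
    | Sum.inr 0 => HS.no
    | Sum.inr 1 => HS.sl
    | Sum.inr 2 => HS.al
    | Sum.inr 3 => HS.cv
  refine Finite.of_surjective f ?_
  intro y
  cases y with
  | no => exact ⟨Sum.inr 0, rfl⟩
  | sl => exact ⟨Sum.inr 1, rfl⟩
  | st q => exact ⟨Sum.inl (Sum.inl q), rfl⟩
  | ml q => exact ⟨Sum.inl (Sum.inr (Sum.inl q)), rfl⟩
  | mr q => exact ⟨Sum.inl (Sum.inr (Sum.inr q)), rfl⟩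
  | al => exact ⟨Sum.inr 2, rfl⟩
  | cv => exact ⟨Sum.inr 3, rfl⟩

theorem finite_XV [Finite T] (M : ALBA T) : Finite (XV M) := by
  have h1 : Finite (HS M.Q) := finite_HS M.finQ
  have h2 : Finite M.Γ := M.finΓ
  let f : Bool ⊕ (T × M.Γ × Bool × Bool × HS M.Q) → XV M := fun x => match x with
    | Sum.inl false => XV.S
    | Sum.inl true => XV.gen
    | Sum.inr (a, g, l, r, h) => XV.cell a g l r h
  refine Finite.of_surjective f ?_
  intro y
  cases y with
  | S => exact ⟨Sum.inl false, rfl⟩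
  | gen => exact ⟨Sum.inl true, rfl⟩
  | cell a g l r h => exact ⟨Sum.inr (a, g, l, r, h), rfl⟩

theorem GP.lens {M : ALBA T} {l r : List (XV M ⊕ T)} (h : GP M l r) :
    l.length ≤ 2 ∧ r.length ≤ 2 ∧ l.length ≤ r.length := by
  cases h <;> simp

theorem GP.left' {M : ALBA T} {l r : List (XV M ⊕ T)} (h : GP M l r) :
    ∃ (A : XV M) (α : List (XV M ⊕ T)), l = Sum.inl A :: α := by
  cases h <;> exact ⟨_, _, rfl⟩

/-- the grammar -/
def XG [Finite T] (M : ALBA T) : Grammar T where
  V := XV M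
  finV := finite_XV M
  U := {v | ∃ (a : T) (g : M.Γ) (l r : Bool) (q : M.Q), v = XV.cell a g l r (st q) ∧ q ∈ M.univ ∧ q ∉ M.acc}
  S := XV.S
  P := {p | GP M p.1 p.2}
  finP := by
    have := finite_XV M
    have h1 : ({l | l.length ≤ 2} : Set (List (XV M ⊕ T))).Finite := List.finite_length_le _ 2
    refine (h1.prod h1).subset ?_
    rintro ⟨l, r⟩ h
    exact ⟨(GP.lens h).1, (GP.lens h).2.1⟩
  shape := by
    intro l r h
    obtain ⟨A, α, hl⟩ := GP.left' h
    exact ⟨[], A, α, r, hl, rfl⟩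
  mono := by
    intro l r h
    exact (GP.lens h).2.2

end Pool.Agent.ACSG48
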