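import Pool.Agent.LibACSG48.G1

/-! ROW G2.  Soundness.  Call a symbol active if it is `S`, `gen` or a cell with head status `≠ no`.  Every left-hand side contains exactly one
active symbol (the first or the second one), every form `t.form` at most one (`lc`, `rc` contain none; `tm` none).  Splitting lemma: if
`A ++ s :: B = A' ++ s' :: B'`, `s'` active and no active symbol in `A`, `B`, then `A = A'`, `s = s'`, `B = B'` (induction on `A`).
Induction on `Der`, for all descriptions `t` with `f = t.form`; in every case the form after the step is again a `t'.form`: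
`s1`: `hd sl [] a (inp a) []`, `s2`: `gen [a]`, `g1`: `hd sl (x.map ..) a (inp a) []`, `g2`: `gen (a :: x)`, `sl1`: `hd sl ((a, g) :: u) b g' v` to
`hd sl u a g ((b, g') :: v)`; `sl2`: to `hd (st start) [] a g v`, where all `g` are input letters, so the configuration is the initial one;
`stay`, `left`, `right`: to `hd (st q')`, `hd (ml q')`, `hd (mr q')`: `Acc.exi` for `q ∉ univ`; for `q ∈ univ` all steps come from productions and
`Acc.uni`; `acc`: `Acc.acc`; `hd cv [] a g v` has the form of `cvx [] a g true v`; `cv1`: `cvx x a g l ((b, g') :: v)` to `cvx (x ++ [a]) b g' l' v`;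
`cv2`: `tm (x ++ [a])`.  A left-hand side is universal iff it is `[cl a g l r (st q)]` with `q ∈ univ`, `q ∉ acc`. -/

set_option autoImplicit false

namespace Pool.Agent.ACSG48

variable {T : Type}

open HS

/-- active symbols -/
private def G2Act {M : ALBA T} (s : XV M ⊕ T) : Prop :=
  s = Sum.inl XV.S ∨ s = Sum.inl XV.gen ∨ ∃ (a : T) (g : M.Γ) (l r : Bool) (h : HS M.Q), h ≠ no ∧ s = cl a g l r h

private theorem G2_act_cl {M : ALBA T} {a : T} {g : M.Γ} {l r : Bool} {h : HS M.Q} (hh : h ≠ no) :
    G2Act (cl a g l r h) := Or.inr (Or.inr ⟨a, g, l, r, h, hh, rfl⟩)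

private theorem G2_nact_no {M : ALBA T} {a : T} {g : M.Γ} {l r : Bool} : ¬ G2Act (cl (M := M) a g l r no) := by
  rintro (h | h | ⟨a', g', l', r', h, hh, he⟩)
  · simp at h
  · simp at h
  · simp only [Sum.inl.injEq, XV.cell.injEq] at he
    exact hh he.2.2.2.2.symm

private theorem G2_nact_inr {M : ALBA T} {a : T} : ¬ G2Act (M := M) (Sum.inr a) := by
  rintro (h | h | ⟨a', g', l', r', h, hh, he⟩)
  · simp at h
  · simp at h
  · simp at he

private theorem G2_lc {M : ALBA T} (u : List (T × M.Γ)) : ∀ s ∈ lc (M := M) u, ¬ G2Act s := by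
  induction u with
  | nil => simp [lc]
  | cons p u ih =>
    obtain ⟨a, g⟩ := p
    intro s hs
    rw [lc, List.mem_append, List.mem_singleton] at hs
    rcases hs with hs | rfl
    · exact ih s hs
    · exact G2_nact_no

private theorem G2_rc {M : ALBA T} (v : List (T × M.Γ)) : ∀ s ∈ rc (M := M) v, ¬ G2Act s := by
  induction v with
  | nil => simp [rc]
  | cons p v ih =>
    obtain ⟨a, g⟩ := p
    intro s hs
    rw [rc, List.mem_cons] at hs
    rcases hs with rfl | hs
    · exact G2_nact_no
    · exact ih s hs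

private theorem G2_tm {M : ALBA T} (x : List T) : ∀ s ∈ (x.map Sum.inr : List (XV M ⊕ T)), ¬ G2Act s := by
  intro s hs
  rw [List.mem_map] at hs
  obtain ⟨a, _, rfl⟩ := hs
  exact G2_nact_inr

private theorem G2_split {M : ALBA T} {s s' : XV M ⊕ T} (hs : G2Act s) :
    ∀ (A A' B B' : List (XV M ⊕ T)), A ++ s :: B = A' ++ s' :: B' → (∀ x ∈ A', ¬ G2Act x) →
      (∀ x ∈ B', ¬ G2Act x) → A = A' ∧ s = s' ∧ B = B' := by
  intro A
  induction A with
  | nil =>
    intro A' B B' he hA hB
    cases A' with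
    | nil =>
      simp only [List.nil_append, List.cons.injEq] at he
      exact ⟨rfl, he.1, he.2⟩
    | cons x A' =>
      simp only [List.nil_append, List.cons_append, List.cons.injEq] at he
      rw [he.1] at hs
      exact absurd hs (hA x (List.mem_cons_self ..))
  | cons y A ih =>
    intro A' B B' he hA hB
    cases A' with
    | nil =>
      simp only [List.nil_append, List.cons_append, List.cons.injEq] at he
      exact absurd hs (hB s (by rw [← he.2]; simp))
    | cons x A' =>
      simp only [List.cons_append, List.cons.injEq] at he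
      obtain ⟨h1, h2, h3⟩ := ih A' B B' he.2 (fun x hx => hA x (List.mem_cons_of_mem _ hx)) hB
      exact ⟨by rw [he.1, h1], h2, h3⟩

/-- an active cell in a form -/
private theorem G2_cell {M : ALBA T} {t : FD M} {A B : List (XV M ⊕ T)} {a : T} {g : M.Γ} {l r : Bool} {h : HS M.Q}
    (hh : h ≠ no) (he : A ++ cl a g l r h :: B = t.form) :
    (∃ u v, t = FD.hd h u a g v ∧ A = lc u ∧ B = rc v ∧ l = u.isEmpty ∧ r = v.isEmpty) ∨
    (h = cv ∧ ∃ x v, t = FD.cvx x a g l v ∧ A = x.map Sum.inr ∧ B = rc v ∧ r = v.isEmpty) := by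
  have hact : G2Act (cl (M := M) a g l r h) := G2_act_cl hh
  have hmem : cl a g l r h ∈ t.form := by rw [← he]; simp
  cases t with
  | S =>
    simp only [FD.form, List.mem_singleton] at hmem
    exact absurd hmem (by simp)
  | gen x =>
    rw [FD.form, List.mem_append, List.mem_singleton] at hmem
    rcases hmem with hmem | hmem
    · exact absurd hact (G2_lc _ _ hmem)
    · exact absurd hmem (by simp)
  | hd h' u a' g' v =>
    obtain ⟨h1, h2, h3⟩ := G2_split hact _ _ _ _ he (G2_lc _) (G2_rc _)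
    simp only [Sum.inl.injEq, XV.cell.injEq] at h2
    obtain ⟨rfl, rfl, h4, h5, rfl⟩ := h2
    exact Or.inl ⟨u, v, rfl, h1, h3, h4, h5⟩
  | cvx x a' g' l' v =>
    obtain ⟨h1, h2, h3⟩ := G2_split hact _ _ _ _ he (G2_tm _) (G2_rc _)
    simp only [Sum.inl.injEq, XV.cell.injEq] at h2
    obtain ⟨rfl, rfl, rfl, h5, rfl⟩ := h2
    exact Or.inr ⟨rfl, x, v, rfl, h1, h3, h5⟩
  | tm x => exact absurd hact (G2_tm _ _ hmem)

private theorem G2_S {M : ALBA T} {t : FD M} {A B : List (XV M ⊕ T)}
    (he : A ++ Sum.inl XV.S :: B = t.form) : t = FD.S ∧ A = [] ∧ B = [] := by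
  have hact : G2Act (M := M) (Sum.inl XV.S) := Or.inl rfl
  have hmem : Sum.inl XV.S ∈ t.form := by rw [← he]; simp
  cases t with
  | S =>
    obtain ⟨h1, _, h3⟩ := G2_split hact A [] B [] he (by simp) (by simp)
    exact ⟨rfl, h1, h3⟩
  | gen x =>
    rw [FD.form, List.mem_append, List.mem_singleton] at hmem
    rcases hmem with hmem | hmem
    · exact absurd hact (G2_lc _ _ hmem)
    · exact absurd hmem (by simp)
  | hd h' u a' g' v =>
    rw [FD.form, List.mem_append, List.mem_cons] at hmem
    rcases hmem with hmem | hmem | hmem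
    · exact absurd hact (G2_lc _ _ hmem)
    · exact absurd hmem (by simp)
    · exact absurd hact (G2_rc _ _ hmem)
  | cvx x a' g' l' v =>
    rw [FD.form, List.mem_append, List.mem_cons] at hmem
    rcases hmem with hmem | hmem | hmem
    · exact absurd hact (G2_tm _ _ hmem)
    · exact absurd hmem (by simp)
    · exact absurd hact (G2_rc _ _ hmem)
  | tm x => exact absurd hact (G2_tm _ _ hmem)

private theorem G2_gen {M : ALBA T} {t : FD M} {A B : List (XV M ⊕ T)}
    (he : A ++ Sum.inl XV.gen :: B = t.form) :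
    ∃ x : List T, t = FD.gen x ∧ A = lc (x.map fun a => (a, M.inp a)) ∧ B = [] := by
  have hact : G2Act (M := M) (Sum.inl XV.gen) := Or.inr (Or.inl rfl)
  have hmem : Sum.inl XV.gen ∈ t.form := by rw [← he]; simp
  cases t with
  | S =>
    simp only [FD.form, List.mem_singleton] at hmem
    exact absurd hmem (by simp)
  | gen x =>
    obtain ⟨h1, _, h3⟩ := G2_split hact A _ B [] he (G2_lc _) (by simp)
    exact ⟨x, rfl, h1, h3⟩
  | hd h' u a' g' v =>
    rw [FD.form, List.mem_append, List.mem_cons] at hmem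
    rcases hmem with hmem | hmem | hmem
    · exact absurd hact (G2_lc _ _ hmem)
    · exact absurd hmem (by simp)
    · exact absurd hact (G2_rc _ _ hmem)
  | cvx x a' g' l' v =>
    rw [FD.form, List.mem_append, List.mem_cons] at hmem
    rcases hmem with hmem | hmem | hmem
    · exact absurd hact (G2_tm _ _ hmem)
    · exact absurd hmem (by simp)
    · exact absurd hact (G2_rc _ _ hmem)
  | tm x => exact absurd hact (G2_tm _ _ hmem)

private theorem G2_lc_inv {M : ALBA T} {γ : List (XV M ⊕ T)} {a : T} {g : M.Γ} {l r : Bool} {h : HS M.Q}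
    {u : List (T × M.Γ)} (he : γ ++ [cl a g l r h] = lc u) :
    ∃ u1, u = (a, g) :: u1 ∧ γ = lc u1 ∧ l = u1.isEmpty ∧ r = false ∧ h = no := by
  cases u with
  | nil => simp [lc] at he
  | cons p u =>
    obtain ⟨b, g'⟩ := p
    rw [lc] at he
    obtain ⟨h1, h2⟩ := List.append_inj' he rfl
    simp only [List.cons.injEq, Sum.inl.injEq, XV.cell.injEq, and_true] at h2
    obtain ⟨rfl, rfl, h3, h4, h5⟩ := h2
    exact ⟨u, rfl, h1, h3, h4, h5⟩

private theorem G2_rc_inv {M : ALBA T} {δ : List (XV M ⊕ T)} {a : T} {g : M.Γ} {l r : Bool} {h : HS M.Q}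
    {v : List (T × M.Γ)} (he : cl a g l r h :: δ = rc v) :
    ∃ v1, v = (a, g) :: v1 ∧ δ = rc v1 ∧ l = false ∧ r = v1.isEmpty ∧ h = no := by
  cases v with
  | nil => simp [rc] at he
  | cons p v =>
    obtain ⟨b, g'⟩ := p
    rw [rc] at he
    simp only [List.cons.injEq, Sum.inl.injEq, XV.cell.injEq] at he
    obtain ⟨⟨rfl, rfl, h3, h4, h5⟩, h6⟩ := he
    exact ⟨v, rfl, h6, h3, h4, h5⟩

/-- the existential step -/
private theorem G2_exi [Finite T] {M : ALBA T} {w : List T} {γ l r δ : List (XV M ⊕ T)} (hP : GP M l r)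
    (hU : ¬ (XG M).Univ l) (ih : ∀ t : FD M, γ ++ r ++ δ = t.form → t.Sem w) (t : FD M)
    (ht : γ ++ l ++ δ = t.form) : t.Sem w := by
  cases hP with
  | s1 a =>
    obtain ⟨rfl, rfl, rfl⟩ := G2_S (A := γ) (B := δ) (by simpa using ht)
    have h := ih (FD.hd sl [] a (M.inp a) []) (by simp [FD.form, lc, rc])
    exact h.2 (by simp)
  | s2 a =>
    obtain ⟨rfl, rfl, rfl⟩ := G2_S (A := γ) (B := δ) (by simpa using ht)
    have h := ih (FD.gen [a]) (by simp [FD.form, lc])
    exact (h (by simp)).1
  | g1 a =>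
    obtain ⟨x, rfl, rfl, rfl⟩ := G2_gen (A := γ) (B := δ) (by simpa using ht)
    intro hx
    have hxe : x.isEmpty = false := by simpa using hx
    have h := ih (FD.hd sl (x.map fun a => (a, M.inp a)) a (M.inp a) []) (by simp [FD.form, rc, hxe])
    refine ⟨h.2 ?_, [a], ?_, by simp⟩
    · intro p hp
      rw [List.mem_append, List.mem_singleton, List.mem_map] at hp
      rcases hp with ⟨b, _, rfl⟩ | rfl
      · rfl
      · rfl
    · have h1 := h.1
      simpa [wd, Function.comp_def] using h1
  | g2 a =>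
    obtain ⟨x, rfl, rfl, rfl⟩ := G2_gen (A := γ) (B := δ) (by simpa using ht)
    intro hx
    have hxe : x.isEmpty = false := by simpa using hx
    have h := ih (FD.gen (a :: x)) (by simp [FD.form, lc, hxe])
    obtain ⟨h1, y, h2, h3⟩ := h (by simp)
    refine ⟨h1, a :: y, by rw [h2]; simp, by simp⟩
  | sl1 a g l r b g' l' r' =>
    rcases G2_cell (A := γ ++ [cl a g l r no]) (B := δ) (h := sl) (by simp) (by simpa using ht) with
      ⟨u, v, rfl, h1, rfl, h3, h4⟩ | ⟨h0, _⟩
    · obtain ⟨u1, rfl, rfl, h6, h7, _⟩ := G2_lc_inv h1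
      have h := ih (FD.hd sl u1 a g ((b, g') :: v)) (by simp [FD.form, rc, h3, h4, h6, h7])
      refine ⟨?_, fun hall => h.2 fun p hp => hall p ?_⟩
      · rw [h.1]
        simp [wd]
      · simp only [List.mem_append, List.mem_cons] at hp ⊢
        tauto
    · simp at h0
  | sl2 a g r =>
    rcases G2_cell (A := γ) (B := δ) (h := sl) (by simp) (by simpa using ht) with
      ⟨u, v, rfl, rfl, rfl, h3, h4⟩ | ⟨h0, _⟩
    · have hu : u = [] := by simpa using h3.symm
      subst hu
      have h := ih (FD.hd (st M.start) [] a g v) (by simp [FD.form, lc, h4])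
      refine ⟨h.1, fun hall => ?_⟩
      have h1 := h.1
      have h2 := h.2
      refine ⟨a, v.map Prod.fst, ?_, ?_⟩
      · rw [h1]
        simp [wd]
      · have h5 : g = M.inp a := hall (a, g) (by simp)
        have h6 : (v.map Prod.fst).map M.inp = v.map Prod.snd := by
          rw [List.map_map]
          refine List.map_congr_left fun p hp => ?_
          exact (hall p (by simp [hp])).symm
        rw [h6, ← h5]
        exact h2
    · simp at h0
  | stay a g l r q q' b hq htr =>
    have hnu : q ∉ M.univ := fun hu => hU ⟨[], XV.cell a g l r (st q), [], rfl, a, g, l, r, q, rfl, hu, hq⟩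
    rcases G2_cell (A := γ) (B := δ) (h := st q) (by simp) (by simpa using ht) with
      ⟨u, v, rfl, rfl, rfl, h3, h4⟩ | ⟨h0, _⟩
    · have h := ih (FD.hd (st q') u a b v) (by simp [FD.form, h3, h4])
      refine ⟨h.1, ALBA.Acc.exi _ _ hnu (ALBA.Step.stay q _ g _ q' b ?_) h.2⟩
      simpa [h3, h4] using htr
    · simp at h0
  | left a g r q q' b hq htr =>
    have hnu : q ∉ M.univ := fun hu => hU ⟨[], XV.cell a g false r (st q), [], rfl, a, g, _, r, q, rfl, hu, hq⟩
    rcases G2_cell (A := γ) (B := δ) (h := st q) (by simp) (by simpa using ht) with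
      ⟨u, v, rfl, rfl, rfl, h3, h4⟩ | ⟨h0, _⟩
    · have h := ih (FD.hd (ml q') u a b v) (by simp [FD.form, ← h3, h4])
      cases u with
      | nil => simp at h3
      | cons p u =>
        refine ⟨h.1, ALBA.Acc.exi _ _ hnu (ALBA.Step.left q p.2 _ g _ q' b ?_) (h.2 p u rfl)⟩
        simpa [h4] using htr
    · simp at h0
  | right a g l q q' b hq htr =>
    have hnu : q ∉ M.univ := fun hu => hU ⟨[], XV.cell a g l false (st q), [], rfl, a, g, l, _, q, rfl, hu, hq⟩
    rcases G2_cell (A := γ) (B := δ) (h := st q) (by simp) (by simpa using ht) with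
      ⟨u, v, rfl, rfl, rfl, h3, h4⟩ | ⟨h0, _⟩
    · have h := ih (FD.hd (mr q') u a b v) (by simp [FD.form, h3, ← h4])
      cases v with
      | nil => simp at h4
      | cons p v =>
        refine ⟨h.1, ALBA.Acc.exi _ _ hnu (ALBA.Step.right q _ g p.2 _ q' b ?_) (h.2 p v rfl)⟩
        simpa [h3] using htr
    · simp at h0
  | ml a g l r b g' l' r' q =>
    rcases G2_cell (A := γ ++ [cl a g l r no]) (B := δ) (h := ml q) (by simp) (by simpa using ht) with
      ⟨u, v, rfl, h1, rfl, h3, h4⟩ | ⟨h0, _⟩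
    · obtain ⟨u1, rfl, rfl, h6, h7, _⟩ := G2_lc_inv h1
      have h := ih (FD.hd (st q) u1 a g ((b, g') :: v)) (by simp [FD.form, rc, h3, h4, h6, h7])
      refine ⟨by rw [h.1]; simp [wd], fun p u' hp => ?_⟩
      simp only [List.cons.injEq] at hp
      obtain ⟨rfl, rfl⟩ := hp
      exact h.2
    · simp at h0
  | mr a g l r b g' l' r' q =>
    rcases G2_cell (A := γ) (B := cl b g' l' r' no :: δ) (h := mr q) (by simp) (by simpa using ht) with
      ⟨u, v, rfl, rfl, h2, h3, h4⟩ | ⟨h0, _⟩
    · obtain ⟨v1, rfl, rfl, h6, h7, _⟩ := G2_rc_inv h2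
      have h := ih (FD.hd (st q) ((a, g) :: u) b g' v1) (by simp [FD.form, lc, h3, h4, h6, h7])
      refine ⟨by rw [h.1]; simp [wd], fun p v' hp => ?_⟩
      simp only [List.cons.injEq] at hp
      obtain ⟨rfl, rfl⟩ := hp
      exact h.2
    · simp at h0
  | acc a g l r q hq =>
    rcases G2_cell (A := γ) (B := δ) (h := st q) (by simp) (by simpa using ht) with
      ⟨u, v, rfl, rfl, rfl, h3, h4⟩ | ⟨h0, _⟩
    · have h := ih (FD.hd al u a g v) (by simp [FD.form, h3, h4])
      exact ⟨h, ALBA.Acc.acc _ hq⟩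
    · simp at h0
  | al1 a g l r b g' l' r' =>
    rcases G2_cell (A := γ ++ [cl a g l r no]) (B := δ) (h := al) (by simp) (by simpa using ht) with
      ⟨u, v, rfl, h1, rfl, h3, h4⟩ | ⟨h0, _⟩
    · obtain ⟨u1, rfl, rfl, h6, h7, _⟩ := G2_lc_inv h1
      have h := ih (FD.hd al u1 a g ((b, g') :: v)) (by simp [FD.form, rc, h3, h4, h6, h7])
      have h' : w = wd u1 a ((b, g') :: v) := h
      change w = wd ((a, g) :: u1) b v
      rw [h']
      simp [wd]
    · simp at h0
  | al2 a g r =>
    rcases G2_cell (A := γ) (B := δ) (h := al) (by simp) (by simpa using ht) with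
      ⟨u, v, rfl, rfl, rfl, h3, h4⟩ | ⟨h0, _⟩
    · have hu : u = [] := by simpa using h3.symm
      subst hu
      have h := ih (FD.hd cv [] a g v) (by simp [FD.form, lc, h4])
      exact h rfl
    · simp at h0
  | cv1 a g l b g' l' r' =>
    rcases G2_cell (A := γ) (B := cl b g' l' r' no :: δ) (h := cv) (by simp) (by simpa using ht) with
      ⟨u, v, rfl, rfl, h2, h3, h4⟩ | ⟨_, x, v, rfl, rfl, h2, h4⟩
    · intro hu
      subst hu
      obtain ⟨v1, rfl, rfl, h6, h7, _⟩ := G2_rc_inv h2
      have h := ih (FD.cvx [a] b g' false v1) (by simp [FD.form, lc, h6, h7])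
      have h' : w = [a] ++ b :: v1.map Prod.fst := h
      rw [h']
      simp [wd]
    · obtain ⟨v1, rfl, rfl, h6, h7, _⟩ := G2_rc_inv h2
      have h := ih (FD.cvx (x ++ [a]) b g' false v1) (by simp [FD.form, h6, h7])
      have h' : w = (x ++ [a]) ++ b :: v1.map Prod.fst := h
      change w = x ++ a :: (((b, g') :: v1).map Prod.fst)
      rw [h']
      simp
  | cv2 a g l =>
    rcases G2_cell (A := γ) (B := δ) (h := cv) (by simp) (by simpa using ht) with
      ⟨u, v, rfl, rfl, rfl, h3, h4⟩ | ⟨_, x, v, rfl, rfl, rfl, h4⟩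
    · intro hu
      subst hu
      have hv : v = [] := by simpa using h4.symm
      subst hv
      have h := ih (FD.tm [a]) (by simp [FD.form, lc, rc])
      have h' : w = [a] := h
      rw [h']
      simp [wd]
    · have hv : v = [] := by simpa using h4.symm
      subst hv
      have h := ih (FD.tm (x ++ [a])) (by simp [FD.form, rc])
      have h' : w = x ++ [a] := h
      change w = x ++ a :: (([] : List (T × M.Γ)).map Prod.fst)
      rw [h']
      simp

private theorem G2_leaf {M : ALBA T} (w : List T) (t : FD M) (ht : w.map Sum.inr = t.form) : t.Sem w := by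
  have key : ∀ s ∈ t.form, ∃ a, s = Sum.inr a := by
    intro s hs
    rw [← ht, List.mem_map] at hs
    obtain ⟨a, _, rfl⟩ := hs
    exact ⟨a, rfl⟩
  cases t with
  | S =>
    obtain ⟨a, ha⟩ := key (Sum.inl XV.S) (by simp [FD.form])
    exact absurd ha (by simp)
  | gen x =>
    obtain ⟨a, ha⟩ := key (Sum.inl XV.gen) (by simp [FD.form])
    exact absurd ha (by simp)
  | hd h' u a' g' v =>
    obtain ⟨a, ha⟩ := key (cl a' g' u.isEmpty v.isEmpty h') (by simp [FD.form])
    exact absurd ha (by simp)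
  | cvx x a' g' l' v =>
    obtain ⟨a, ha⟩ := key (cl a' g' l' v.isEmpty cv) (by simp [FD.form])
    exact absurd ha (by simp)
  | tm x =>
    have h1 : w.map (Sum.inr : T → XV M ⊕ T) = x.map Sum.inr := ht
    exact (List.map_injective_iff.2 Sum.inr_injective) h1

private theorem G2_inv {M : ALBA T} {a : T} {g : M.Γ} {l r : Bool} {q : M.Q} {α R : List (XV M ⊕ T)}
    (h : GP M (cl a g l r (st q) :: α) R) :
    α = [] ∧
    ((∃ q' b, q ∉ M.acc ∧ M.tr q g l r q' b .stay ∧ R = [cl a b l r (st q')]) ∨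
    (∃ q' b, l = false ∧ q ∉ M.acc ∧ M.tr q g false r q' b .left ∧ R = [cl a b false r (ml q')]) ∨
    (∃ q' b, r = false ∧ q ∉ M.acc ∧ M.tr q g l false q' b .right ∧ R = [cl a b l false (mr q')]) ∨
    (q ∈ M.acc ∧ R = [cl a g l r al])) := by
  cases h with
  | stay _ _ _ _ _ q' b h1 h2 => exact ⟨rfl, Or.inl ⟨q', b, h1, h2, rfl⟩⟩
  | left _ _ _ _ q' b h1 h2 => exact ⟨rfl, Or.inr (Or.inl ⟨q', b, rfl, h1, h2, rfl⟩)⟩
  | right _ _ _ _ q' b h1 h2 => exact ⟨rfl, Or.inr (Or.inr (Or.inl ⟨q', b, rfl, h1, h2, rfl⟩))⟩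
  | acc _ _ _ _ _ h1 => exact ⟨rfl, Or.inr (Or.inr (Or.inr ⟨h1, rfl⟩))⟩

private theorem G2_uni [Finite T] {M : ALBA T} {w : List T} {γ l δ : List (XV M ⊕ T)}
    (hU : (XG M).Univ l) (hex : ∃ r, GP M l r)
    (ih : ∀ r, GP M l r → ∀ t : FD M, γ ++ r ++ δ = t.form → t.Sem w) (t : FD M)
    (ht : γ ++ l ++ δ = t.form) : t.Sem w := by
  obtain ⟨x, A, α, hl, a, g, fl, fr, q, hA, hqu, hqa⟩ := hU
  obtain ⟨R0, hR0⟩ := hex
  have hx : x = [] := by
    cases x with
    | nil => rfl
    | cons y x =>
      obtain ⟨A', α', hA'⟩ := GP.left' hR0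
      rw [hA'] at hl
      exact (Sum.inl_ne_inr (List.cons.inj hl).1).elim
  subst hx
  rw [hA] at hl
  have hl' : l = cl a g fl fr (st q) :: α := hl
  have hα : α = [] := (G2_inv (hl' ▸ hR0)).1
  have hl2 : l = [cl a g fl fr (st q)] := by rw [hl', hα]; rfl
  clear hl hl' hα
  subst hl2
  rcases G2_cell (A := γ) (B := δ) (h := st q) (by simp) (by simpa using ht) with
    ⟨u, v, rfl, rfl, rfl, h3, h4⟩ | ⟨h0, _⟩
  · -- every production gives the word
    have hwd : w = wd u a v := by
      rcases (G2_inv hR0).2 with ⟨q', b, h1, h2, rfl⟩ | ⟨q', b, hl, h1, h2, rfl⟩ | ⟨q', b, hr, h1, h2, rfl⟩ | ⟨h1, _⟩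
      · exact (ih _ hR0 (FD.hd (st q') u a b v) (by simp [FD.form, h3, h4])).1
      · exact (ih _ hR0 (FD.hd (ml q') u a b v) (by simp [FD.form, ← h3, h4, hl])).1
      · exact (ih _ hR0 (FD.hd (mr q') u a b v) (by simp [FD.form, h3, ← h4, hr])).1
      · exact absurd h1 hqa
    refine ⟨hwd, ALBA.Acc.uni _ hqu ?_ ?_⟩
    · rcases (G2_inv hR0).2 with ⟨q', b, h1, h2, rfl⟩ | ⟨q', b, hl, h1, h2, rfl⟩ | ⟨q', b, hr, h1, h2, rfl⟩ | ⟨h1, _⟩
      · exact ⟨_, ALBA.Step.stay q _ g _ q' b (by simpa [h3, h4] using h2)⟩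
      · cases u with
        | nil => simp [hl] at h3
        | cons p u => exact ⟨_, ALBA.Step.left q p.2 _ g _ q' b (by simpa [h4] using h2)⟩
      · cases v with
        | nil => simp [hr] at h4
        | cons p v => exact ⟨_, ALBA.Step.right q _ g p.2 _ q' b (by simpa [h3] using h2)⟩
      · exact absurd h1 hqa
    · intro c' hs
      generalize hU : u.map Prod.snd = U at hs
      generalize hV : v.map Prod.snd = V at hs
      cases hs with
      | stay _ _ _ _ q' b htr =>
        subst hU hV
        have htr' : M.tr q g fl fr q' b .stay := by simpa [h3, h4] using htr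
        exact (ih _ (GP.stay a g fl fr q q' b hqa htr') (FD.hd (st q') u a b v) (by simp [FD.form, h3, h4])).2
      | left _ X U' _ _ q' b htr =>
        subst hV
        cases u with
        | nil => simp at hU
        | cons p u =>
          simp only [List.map_cons, List.cons.injEq] at hU
          obtain ⟨rfl, rfl⟩ := hU
          have hfl : fl = false := by simpa using h3
          subst hfl
          have htr' : M.tr q g false fr q' b .left := by simpa [h4] using htr
          exact (ih _ (GP.left a g fr q q' b hqa htr') (FD.hd (ml q') (p :: u) a b v)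
            (by simp [FD.form, h4])).2 p u rfl
      | right _ _ _ X V' q' b htr =>
        subst hU
        cases v with
        | nil => simp at hV
        | cons p v =>
          simp only [List.map_cons, List.cons.injEq] at hV
          obtain ⟨rfl, rfl⟩ := hV
          have hfr : fr = false := by simpa using h4
          subst hfr
          have htr' : M.tr q g fl false q' b .right := by simpa [h3] using htr
          exact (ih _ (GP.right a g fl q q' b hqa htr') (FD.hd (mr q') u a b (p :: v))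
            (by simp [FD.form, h3])).2 p v rfl
  · simp at h0

theorem XG_sound [Finite T] {M : ALBA T} {w : List T} {f : List (XV M ⊕ T)} (h : (XG M).Der w f) :
    ∀ t : FD M, f = t.form → t.Sem w := by
  have key : ∀ f : List ((XG M).V ⊕ T), (XG M).Der w f → ∀ t : FD M, f = t.form → t.Sem w := by
    intro f h
    induction h with
    | leaf => exact fun t ht => G2_leaf w t ht
    | exi γ l r δ hP hU _ ih => exact fun t ht => G2_exi hP hU ih t ht
    | univ γ l δ hU hex _ ih => exact fun t ht => G2_uni hU hex ih t ht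
  exact key f h

end Pool.Agent.ACSG48
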