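import Pool.Agent.LibACSG48.G1

/-! ROW G3.  Completeness.  In order: `Der (x ++ a :: v.map fst) (FD.cvx x a g l v).form` (induction on `v`; `cv1`, `cv2`);
`Der (wd u a v) (FD.hd al u a g v).form` (induction on `u`; `al1`, `al2`, `hd cv [] .. = cvx []`);
`M.Acc ⟨q, u.map snd, g, v.map snd⟩ → Der (wd u a v) (FD.hd (st q) u a g v).form`: induction on `Acc` (generalise the configuration:
`∀ u a g v, c = ⟨q, ..⟩ → ..`): `q ∈ acc`: `acc`; `q ∉ acc`, `q ∉ univ`: `stay`, or `left` then `ml`, or `right` then `mr`; `q ∈ univ`: `Der.univ`, all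
productions with this left-hand side are `stay`, `left`, `right` (at least one exists because a step exists).
`hd sl`: walk to the left end, `sl2`.  `gen x` with the rest `y ≠ []` of the word: `g2`, `g1`.  `S`: `s1`, `s2`. -/

set_option autoImplicit false

namespace Pool.Agent.ACSG48

variable {T : Type}

open HS

private theorem G3_not_univ [Finite T] {M : ALBA T} {A : XV M} {α : List (XV M ⊕ T)} (h : A ∉ (XG M).U) :
    ¬ (XG M).Univ (Sum.inl A :: α) := by
  rintro ⟨x, A', α', he, hU⟩
  cases x with
  | nil =>
    simp only [List.map_nil, List.nil_append, List.cons.injEq, Sum.inl.injEq] at he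
    rw [he.1] at h
    exact h hU
  | cons y x =>
    simp only [List.map_cons, List.cons_append, List.cons.injEq] at he
    exact absurd he.1 (by simp)

private theorem G3_notU [Finite T] {M : ALBA T} {v : XV M}
    (h : ∀ (a : T) (g : M.Γ) (l r : Bool) (q : M.Q), v = XV.cell a g l r (st q) → q ∈ M.univ → q ∈ M.acc) :
    v ∉ (XG M).U := by
  rintro ⟨a, g, l, r, q, hv, hq, hq'⟩
  exact hq' (h a g l r q hv hq)

private theorem G3_step [Finite T] {M : ALBA T} {w : List T} (γ δ : List (XV M ⊕ T)) {A : XV M}
    {α r : List (XV M ⊕ T)} (hP : GP M (Sum.inl A :: α) r) (hA : A ∉ (XG M).U)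
    (h : (XG M).Der w (γ ++ r ++ δ)) : (XG M).Der w (γ ++ Sum.inl A :: α ++ δ) :=
  Grammar.Der.exi (G := XG M) γ _ r δ hP (G3_not_univ hA) h

private theorem G3_cvx [Finite T] {M : ALBA T} (v : List (T × M.Γ)) :
    ∀ (x : List T) (a : T) (g : M.Γ) (l : Bool),
      (XG M).Der (x ++ a :: v.map Prod.fst) (FD.cvx x a g l v : FD M).form := by
  induction v with
  | nil =>
    intro x a g l
    have h := G3_step (M := M) (w := x ++ [a]) (x.map Sum.inr) [] (GP.cv2 a g l)
      (G3_notU (by simp)) (by
        have h0 : (x.map Sum.inr ++ [Sum.inr a] ++ [] : List (XV M ⊕ T)) = (x ++ [a]).map Sum.inr := by simp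
        rw [h0]
        exact Grammar.Der.leaf (G := XG M))
    simpa [FD.form, rc] using h
  | cons p v ih =>
    obtain ⟨b, g'⟩ := p
    intro x a g l
    have h1 := ih (x ++ [a]) b g' false
    have h := G3_step (M := M) (w := x ++ a :: b :: v.map Prod.fst) (x.map Sum.inr) (rc v)
      (GP.cv1 a g l b g' false v.isEmpty) (G3_notU (by simp)) (by simpa [FD.form] using h1)
    simpa [FD.form, rc] using h

private theorem G3_al [Finite T] {M : ALBA T} (u : List (T × M.Γ)) :
    ∀ (a : T) (g : M.Γ) (v : List (T × M.Γ)), (XG M).Der (wd u a v) (FD.hd al u a g v : FD M).form := by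
  induction u with
  | nil =>
    intro a g v
    have h1 := G3_cvx (M := M) v [] a g true
    have h := G3_step (M := M) (w := a :: v.map Prod.fst) [] (rc v)
      (GP.al2 a g v.isEmpty) (G3_notU (by simp)) (by simpa [FD.form] using h1)
    simpa [FD.form, lc, wd] using h
  | cons p u ih =>
    obtain ⟨b, g'⟩ := p
    intro a g v
    have h1 := ih b g' ((a, g) :: v)
    have h := G3_step (M := M) (w := wd u b ((a, g) :: v)) (lc u) (rc v)
      (GP.al1 b g' u.isEmpty false a g false v.isEmpty) (G3_notU (by simp))
      (by simpa [FD.form, rc] using h1)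
    simpa [FD.form, lc, wd] using h

private theorem G3_inv {M : ALBA T} {a : T} {g : M.Γ} {l r : Bool} {q : M.Q} {R : List (XV M ⊕ T)}
    (h : GP M [cl a g l r (st q)] R) :
    (∃ q' b, q ∉ M.acc ∧ M.tr q g l r q' b .stay ∧ R = [cl a b l r (st q')]) ∨
    (∃ q' b, l = false ∧ q ∉ M.acc ∧ M.tr q g false r q' b .left ∧ R = [cl a b false r (ml q')]) ∨
    (∃ q' b, r = false ∧ q ∉ M.acc ∧ M.tr q g l false q' b .right ∧ R = [cl a b l false (mr q')]) ∨
    (q ∈ M.acc ∧ R = [cl a g l r al]) := by
  cases h with
  | stay _ _ _ _ _ q' b h1 h2 => exact Or.inl ⟨q', b, h1, h2, rfl⟩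
  | left _ _ _ _ q' b h1 h2 => exact Or.inr (Or.inl ⟨q', b, rfl, h1, h2, rfl⟩)
  | right _ _ _ _ q' b h1 h2 => exact Or.inr (Or.inr (Or.inl ⟨q', b, rfl, h1, h2, rfl⟩))
  | acc _ _ _ _ _ h1 => exact Or.inr (Or.inr (Or.inr ⟨h1, rfl⟩))

private theorem G3_ml [Finite T] {M : ALBA T} {u : List (T × M.Γ)} {a b0 : T} {b x : M.Γ} {v : List (T × M.Γ)}
    {q' : M.Q} (h : (XG M).Der (wd u b0 ((a, b) :: v)) (FD.hd (st q') u b0 x ((a, b) :: v)).form) :
    (XG M).Der (wd ((b0, x) :: u) a v) (lc ((b0, x) :: u) ++ [cl a b false v.isEmpty (ml q')] ++ rc v) := by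
  have h1 := G3_step (M := M) (w := wd u b0 ((a, b) :: v)) (lc u) (rc v)
    (GP.ml b0 x u.isEmpty false a b false v.isEmpty q') (G3_notU (by simp))
    (by simpa [FD.form, rc] using h)
  simpa [lc, wd] using h1

private theorem G3_mr [Finite T] {M : ALBA T} {u : List (T × M.Γ)} {a b0 : T} {b x : M.Γ} {v : List (T × M.Γ)}
    {q' : M.Q} (h : (XG M).Der (wd ((a, b) :: u) b0 v) (FD.hd (st q') ((a, b) :: u) b0 x v).form) :
    (XG M).Der (wd u a ((b0, x) :: v)) (lc u ++ [cl a b u.isEmpty false (mr q')] ++ rc ((b0, x) :: v)) := by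
  have h1 := G3_step (M := M) (w := wd ((a, b) :: u) b0 v) (lc u) (rc v)
    (GP.mr a b u.isEmpty false b0 x false v.isEmpty q') (G3_notU (by simp))
    (by simpa [FD.form, lc] using h)
  simpa [rc, wd] using h1

private theorem G3_acc [Finite T] {M : ALBA T} {q : M.Q} (hq : q ∈ M.acc) (u : List (T × M.Γ)) (a : T) (g : M.Γ)
    (v : List (T × M.Γ)) : (XG M).Der (wd u a v) (FD.hd (st q) u a g v).form := by
  have h1 := G3_al (M := M) u a g v
  have h := G3_step (M := M) (w := wd u a v) (lc u) (rc v)
    (GP.acc a g u.isEmpty v.isEmpty q hq)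
    (G3_notU (by
      intro a' g' l' r' q' he _
      simp only [XV.cell.injEq, HS.st.injEq] at he
      rw [← he.2.2.2.2]
      exact hq))
    (by simpa [FD.form] using h1)
  simpa [FD.form] using h

theorem XG_st_complete [Finite T] {M : ALBA T} {c : M.Conf} (h : M.Acc c) :
    ∀ (u : List (T × M.Γ)) (a : T) (g : M.Γ) (v : List (T × M.Γ)), c.u = u.map Prod.snd → c.a = g → c.v = v.map Prod.snd →
      (XG M).Der (wd u a v) (FD.hd (st c.q) u a g v).form := by
  induction h with
  | acc c hc => exact fun u a g v _ _ _ => G3_acc hc u a g v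
  | exi c c' hc hs hacc ih =>
    intro u a g v hu ha hv
    by_cases hq : c.q ∈ M.acc
    · exact G3_acc hq u a g v
    have hnu : ∀ (fl fr : Bool), XV.cell a g fl fr (st c.q) ∉ (XG M).U := fun fl fr =>
      G3_notU (by
        intro a' g' l' r' q' he h1
        simp only [XV.cell.injEq, HS.st.injEq] at he
        rw [← he.2.2.2.2] at h1
        exact absurd h1 hc)
    cases hs with
    | stay q U A V q' b htr =>
      simp only at hu ha hv hq hnu ih ⊢
      subst hu ha hv
      have h1 := ih u a b v rfl rfl rfl
      have htr' : M.tr q A u.isEmpty v.isEmpty q' b .stay := by simpa using htr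
      have h2 := G3_step (M := M) (w := wd u a v) (lc u) (rc v)
        (GP.stay a A u.isEmpty v.isEmpty q q' b hq htr') (hnu _ _) (by simpa [FD.form] using h1)
      simpa [FD.form] using h2
    | left q X U A V q' b htr =>
      simp only at hu ha hv hq hnu ih ⊢
      subst ha hv
      cases u with
      | nil => simp at hu
      | cons p u =>
        obtain ⟨b0, x⟩ := p
        simp only [List.map_cons, List.cons.injEq] at hu
        obtain ⟨rfl, rfl⟩ := hu
        have h1 := ih u b0 X ((a, b) :: v) rfl rfl rfl
        have htr' : M.tr q A false v.isEmpty q' b .left := by simpa using htr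
        have h2 := G3_step (M := M) (w := wd ((b0, X) :: u) a v) (lc ((b0, X) :: u)) (rc v)
          (GP.left a A v.isEmpty q q' b hq htr') (hnu _ _) (G3_ml h1)
        simpa [FD.form] using h2
    | right q U A X V q' b htr =>
      simp only at hu ha hv hq hnu ih ⊢
      subst hu ha
      cases v with
      | nil => simp at hv
      | cons p v =>
        obtain ⟨b0, x⟩ := p
        simp only [List.map_cons, List.cons.injEq] at hv
        obtain ⟨rfl, rfl⟩ := hv
        have h1 := ih ((a, b) :: u) b0 X v rfl rfl rfl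
        have htr' : M.tr q A u.isEmpty false q' b .right := by simpa using htr
        have h2 := G3_step (M := M) (w := wd u a ((b0, X) :: v)) (lc u) (rc ((b0, X) :: v))
          (GP.right a A u.isEmpty q q' b hq htr') (hnu _ _) (G3_mr h1)
        simpa [FD.form] using h2
  | uni c hc hex hall ih =>
    intro u a g v hu ha hv
    by_cases hq : c.q ∈ M.acc
    · exact G3_acc hq u a g v
    obtain ⟨q, U, A, V⟩ := c
    simp only at hu ha hv hq hc ih ⊢
    subst hu ha hv
    have hform : (FD.hd (st q) u a A v : FD M).form = lc u ++ [cl a A u.isEmpty v.isEmpty (st q)] ++ rc v := by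
      simp [FD.form]
    rw [hform]
    refine Grammar.Der.univ (G := XG M) (lc u) _ (rc v) ?_ ?_ ?_
    · exact ⟨[], XV.cell a A u.isEmpty v.isEmpty (st q), [], rfl, a, A, _, _, q, rfl, hc, hq⟩
    · obtain ⟨c', hs⟩ := hex
      generalize hU : u.map Prod.snd = U at hs
      generalize hV : v.map Prod.snd = V at hs
      cases hs with
      | stay _ _ _ _ q' b htr =>
        subst hU hV
        have htr' : M.tr q A u.isEmpty v.isEmpty q' b .stay := by simpa using htr
        exact ⟨_, GP.stay a A u.isEmpty v.isEmpty q q' b hq htr'⟩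
      | left _ X U' _ _ q' b htr =>
        subst hV
        cases u with
        | nil => simp at hU
        | cons p u =>
          have htr' : M.tr q A false v.isEmpty q' b .left := by simpa using htr
          exact ⟨_, GP.left a A v.isEmpty q q' b hq htr'⟩
      | right _ _ _ X V' q' b htr =>
        subst hU
        cases v with
        | nil => simp at hV
        | cons p v =>
          have htr' : M.tr q A u.isEmpty false q' b .right := by simpa using htr
          exact ⟨_, GP.right a A u.isEmpty q q' b hq htr'⟩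
    · intro R hR
      rcases G3_inv hR with ⟨q', b, _, htr, rfl⟩ | ⟨q', b, hl, _, htr, rfl⟩ | ⟨q', b, hr, _, htr, rfl⟩ | ⟨h1, _⟩
      · have hs : M.Step ⟨q, u.map Prod.snd, A, v.map Prod.snd⟩ ⟨q', u.map Prod.snd, b, v.map Prod.snd⟩ :=
          ALBA.Step.stay q _ A _ q' b (by simpa using htr)
        have h1 := ih _ hs u a b v rfl rfl rfl
        have e : (FD.hd (st q') u a b v : FD M).form =
            lc u ++ [cl a b u.isEmpty v.isEmpty (st q')] ++ rc v := by simp [FD.form]
        simp only at h1
        rw [e] at h1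
        exact h1
      · cases u with
        | nil => simp at hl
        | cons p u =>
          obtain ⟨b0, x⟩ := p
          have hs : M.Step ⟨q, ((b0, x) :: u).map Prod.snd, A, v.map Prod.snd⟩
              ⟨q', u.map Prod.snd, x, b :: v.map Prod.snd⟩ :=
            ALBA.Step.left q x _ A _ q' b (by simpa using htr)
          exact G3_ml (ih _ hs u b0 x ((a, b) :: v) rfl rfl rfl)
      · cases v with
        | nil => simp at hr
        | cons p v =>
          obtain ⟨b0, x⟩ := p
          have hs : M.Step ⟨q, u.map Prod.snd, A, ((b0, x) :: v).map Prod.snd⟩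
              ⟨q', b :: u.map Prod.snd, x, v.map Prod.snd⟩ :=
            ALBA.Step.right q _ A x _ q' b (by simpa using htr)
          exact G3_mr (ih _ hs ((a, b) :: u) b0 x v rfl rfl rfl)
      · exact absurd h1 hq

private theorem G3_sl [Finite T] {M : ALBA T} {w : List T} (hL : w ∈ M.lang) (u : List T) :
    ∀ (a : T) (v : List T), w = u.reverse ++ a :: v →
      (XG M).Der w (FD.hd sl (u.map fun a => (a, M.inp a)) a (M.inp a) (v.map fun a => (a, M.inp a)) : FD M).form := by
  induction u with
  | nil =>
    intro a v hw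
    obtain ⟨a', v', hw', hacc⟩ := hL
    rw [hw] at hw'
    simp only [List.reverse_nil, List.nil_append, List.cons.injEq] at hw'
    obtain ⟨rfl, rfl⟩ := hw'
    have h1 := XG_st_complete hacc [] a (M.inp a) (v.map fun a => (a, M.inp a)) rfl rfl
      (by simp [Function.comp_def])
    have hwd : wd (M := M) [] a (v.map fun a => (a, M.inp a)) = w := by
      rw [hw]
      simp [wd, Function.comp_def]
    rw [hwd] at h1
    have h2 := G3_step (M := M) (w := w) [] (rc (v.map fun a => (a, M.inp a)))
      (GP.sl2 a (M.inp a) (v.map fun a => (a, M.inp a)).isEmpty) (G3_notU (by simp))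
      (by simpa only [FD.form, lc, List.nil_append, List.isEmpty_nil, List.cons_append] using h1)
    simpa only [FD.form, lc, List.nil_append, List.isEmpty_nil, List.cons_append, List.map_nil] using h2
  | cons b u ih =>
    intro a v hw
    have h1 := ih b (a :: v) (by rw [hw]; simp)
    have h2 := G3_step (M := M) (w := w) (lc (u.map fun a => (a, M.inp a))) (rc (v.map fun a => (a, M.inp a)))
      (GP.sl1 b (M.inp b) (u.map fun a => (a, M.inp a)).isEmpty false a (M.inp a) false
        (v.map fun a => (a, M.inp a)).isEmpty) (G3_notU (by simp))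
      (by simpa [FD.form, rc] using h1)
    simpa [FD.form, lc] using h2

private theorem G3_gen [Finite T] {M : ALBA T} {w : List T} (hL : w ∈ M.lang) (y : List T) :
    ∀ (x : List T), x ≠ [] → y ≠ [] → w = x.reverse ++ y → (XG M).Der w (FD.gen x : FD M).form := by
  induction y with
  | nil => exact fun x _ h => absurd rfl h
  | cons b y ih =>
    intro x hx _ hw
    have hxe : x.isEmpty = false := by simpa using hx
    cases y with
    | nil =>
      have h1 := G3_sl hL x b [] hw
      have h2 := G3_step (M := M) (w := w) (lc (x.map fun a => (a, M.inp a))) [] (GP.g1 b)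
        (G3_notU (by simp)) (by simpa [FD.form, rc, hxe] using h1)
      simpa [FD.form] using h2
    | cons b' y =>
      have h1 := ih (b :: x) (by simp) (by simp) (by rw [hw]; simp)
      have h2 := G3_step (M := M) (w := w) (lc (x.map fun a => (a, M.inp a))) [] (GP.g2 b)
        (G3_notU (by simp)) (by simpa [FD.form, lc, hxe] using h1)
      simpa [FD.form] using h2

theorem XG_complete [Finite T] {M : ALBA T} {w : List T} (h : w ∈ M.lang) : (XG M).Der w [Sum.inl XV.S] := by
  obtain ⟨a, v, hw, hacc⟩ := h
  cases v with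
  | nil =>
    have h1 := G3_sl (M := M) ⟨a, [], hw, hacc⟩ [] a [] (by simpa using hw)
    have h2 := G3_step (M := M) (w := w) [] [] (GP.s1 a) (G3_notU (by simp))
      (by simpa [FD.form, rc, lc] using h1)
    exact h2
  | cons b v =>
    have h1 := G3_gen (M := M) ⟨a, b :: v, hw, hacc⟩ (b :: v) [a] (by simp) (by simp) (by simpa using hw)
    have h2 := G3_step (M := M) (w := w) [] [] (GP.s2 a) (G3_notU (by simp))
      (by simpa [FD.form, rc, lc] using h1)
    exact h2

end Pool.Agent.ACSG48
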