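import Pool.Agent.LibACSG48.G2
import Pool.Agent.LibACSG48.G3

/-! Block G4. -/

set_option autoImplicit false

namespace Pool.Agent.ACSG48

variable {T : Type}

theorem exists_grammar_of_ALBA [Finite T] (M : ALBA T) : ∃ G : Grammar T, G.lang = M.lang := by
  refine ⟨XG M, ?_⟩
  ext w
  constructor
  · intro h
    exact XG_sound h FD.S rfl
  · intro h
    exact XG_complete h

end Pool.Agent.ACSG48
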