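import Pool.Agent.LibACSG48.G0

/-!
# Block H: the alternating linear bounded automaton of an alternating context-sensitive grammar.  Definitions.

A cell holds a letter of the input and a symbol of the sentential form or a gap (`none`).  The machine moves its head freely, and it rewrites
windows of at most `K` adjacent cells: it rearranges symbols and gaps, or it replaces a left-hand side by a right-hand side.  States: `rd tag D t`:
the window symbols `D` (reversed) have been read, `t` must be read; `wr B`: the symbols `B` (reversed) must be written, from right to left.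
-/

set_option autoImplicit false

namespace Pool.Agent.ACSG48

variable {T : Type}

/-- symbol or gap -/
abbrev OS (G : Grammar T) := Option (G.V ⊕ T)

/-- short lists -/
abbrev BL (G : Grammar T) (K : ℕ) := {l : List (OS G) // l.length ≤ K}

/-- states -/
inductive HQ (G : Grammar T) (K : ℕ)
  | start | n0 | chk | ok
  | rd (tag : Bool) (D t : BL G K)
  | wr (B : BL G K)

/-- window rewriting; `tag = true`: universal -/
def WR (G : Grammar T) : Bool → List (OS G) → List (OS G) → Prop
  | false, A, B => A.length = B.length ∧
      (A.reduceOption = B.reduceOption ∨ ((A.reduceOption, B.reduceOption) ∈ G.P ∧ ¬ G.Univ A.reduceOption))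
  | true, A, B => A.length = B.length ∧ (A.reduceOption, B.reduceOption) ∈ G.P

/-- a window which is long enough for all right-hand sides -/
def WOK (G : Grammar T) (A : List (OS G)) : Prop :=
  G.Univ A.reduceOption ∧ ∀ r, (A.reduceOption, r) ∈ G.P → r.length ≤ A.length

open HQ

/-- transitions -/
inductive HTr (G : Grammar T) (K : ℕ) : HQ G K → (T × OS G) → Bool → Bool → HQ G K → (T × OS G) → Mv → Prop
  | start (a : T) (r : Bool) : HTr G K start (a, none) true r n0 (a, some (Sum.inl G.S)) .stay
  | left (c : T × OS G) (l r : Bool) : HTr G K n0 c l r n0 c .left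
  | right (c : T × OS G) (l r : Bool) : HTr G K n0 c l r n0 c .right
  | chk (c : T × OS G) (r : Bool) : HTr G K n0 c true r chk c .stay
  | chk1 (a : T) (l : Bool) : HTr G K chk (a, some (Sum.inr a)) l false chk (a, some (Sum.inr a)) .right
  | chk2 (a : T) (l : Bool) : HTr G K chk (a, some (Sum.inr a)) l true ok (a, some (Sum.inr a)) .stay
  | pick (c : T × OS G) (l r : Bool) (tag : Bool) (D t : BL G K) : D.1 = [] → t.1 ≠ [] → (tag = true → WOK G t.1) →
      HTr G K n0 c l r (rd tag D t) c .stay
  | rd (c : T × OS G) (l : Bool) (tag : Bool) (D t D' t' : BL G K) : t.1 = c.2 :: t'.1 → t'.1 ≠ [] → D'.1 = c.2 :: D.1 →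
      HTr G K (rd tag D t) c l false (rd tag D' t') c .right
  | last (c : T × OS G) (l r : Bool) (tag : Bool) (D t B' : BL G K) (B : List (OS G)) (b : OS G) : t.1 = [c.2] →
      WR G tag ((c.2 :: D.1).reverse) B → B.reverse = b :: B'.1 → B'.1 ≠ [] →
      HTr G K (rd tag D t) c l r (wr B') (c.1, b) .left
  | last1 (c : T × OS G) (l r : Bool) (tag : Bool) (D t : BL G K) (b : OS G) : t.1 = [c.2] →
      WR G tag ((c.2 :: D.1).reverse) [b] → HTr G K (rd tag D t) c l r n0 (c.1, b) .stay
  | wr (c : T × OS G) (l r : Bool) (B B' : BL G K) (b : OS G) : B.1 = b :: B'.1 → B'.1 ≠ [] →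
      HTr G K (wr B) c l r (wr B') (c.1, b) .left
  | wr1 (c : T × OS G) (l r : Bool) (B : BL G K) (b : OS G) : B.1 = [b] → HTr G K (wr B) c l r n0 (c.1, b) .stay

theorem finite_HQ [Finite T] (G : Grammar T) (K : ℕ) : Finite (HQ G K) := by
  have hV := G.finV
  have hB : Finite (BL G K) := (List.finite_length_le (OS G) K).to_subtype
  let f : HQ G K → (Fin 4 ⊕ (Bool × BL G K × BL G K)) ⊕ BL G K := fun s =>
    match s with
    | start => Sum.inl (Sum.inl 0)
    | n0 => Sum.inl (Sum.inl 1)
    | chk => Sum.inl (Sum.inl 2)
    | ok => Sum.inl (Sum.inl 3)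
    | rd tag D t => Sum.inl (Sum.inr (tag, D, t))
    | wr B => Sum.inr B
  refine Finite.of_injective f ?_
  intro s t h
  cases s <;> cases t <;> simp [f] at h ⊢ <;> exact h

/-- the automaton -/
def HM [Finite T] (G : Grammar T) (K : ℕ) : ALBA T where
  Q := HQ G K
  finQ := finite_HQ G K
  Γ := T × OS G
  finΓ := by
    have := G.finV
    infer_instance
  inp := fun a => (a, none)
  start := start
  acc := {ok}
  univ := {s | ∃ D t : BL G K, s = rd true D t ∧ t.1.length = 1}
  tr := HTr G K

/-- accepting from state `s`, head on the first cell of `Z`, the cells `X` to the left -/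
def AccAt [Finite T] (G : Grammar T) (K : ℕ) (s : HQ G K) (X Z : List (T × OS G)) : Prop :=
  ∃ (c : T × OS G) (v : List (T × OS G)), Z = c :: v ∧ (HM G K).Acc ⟨s, X.reverse, c, v⟩

/-- replace the symbols in the cells `Cs` by `B` -/
def rew {G : Grammar T} (Cs : List (T × OS G)) (B : List (OS G)) : List (T × OS G) :=
  List.zipWith (fun c b => (c.1, b)) Cs B

end Pool.Agent.ACSG48
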