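import Mathlib

/-! ROW H1.  Mathlib only.  Lists with gaps.
`gapSwap_connected`: two lists with the same symbols and the same length are connected by exchanging a symbol and a gap which are adjacent.
`GapSwap` is symmetric; every list `F` is connected to `F.reduceOption.map some ++ replicate (F.length - F.reduceOption.length) none`: induction on `F`;
`none :: F`: move the gap through `F.reduceOption.map some` (induction); `some a :: F`: congruence. -/

set_option autoImplicit false

namespace Pool.Agent.ACSG48

/-- exchange a symbol and an adjacent gap -/
def GapSwap {α : Type} (F F' : List (Option α)) : Prop :=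
  ∃ (X Y : List (Option α)) (a : Option α), (F = X ++ [a, none] ++ Y ∧ F' = X ++ [none, a] ++ Y) ∨
    (F = X ++ [none, a] ++ Y ∧ F' = X ++ [a, none] ++ Y)

private theorem h1_symm {α : Type} {F F' : List (Option α)} (h : GapSwap F F') : GapSwap F' F := by
  obtain ⟨X, Y, a, ⟨h1, h2⟩ | ⟨h1, h2⟩⟩ := h
  · exact ⟨X, Y, a, Or.inr ⟨h2, h1⟩⟩
  · exact ⟨X, Y, a, Or.inl ⟨h2, h1⟩⟩

private theorem h1_rsymm {α : Type} {F F' : List (Option α)} (h : Relation.ReflTransGen GapSwap F F') :
    Relation.ReflTransGen GapSwap F' F := by
  induction h with
  | refl => exact Relation.ReflTransGen.refl
  | tail _ h2 ih => exact Relation.ReflTransGen.head (h1_symm h2) ih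

private theorem h1_cons {α : Type} (x : Option α) {F F' : List (Option α)}
    (h : Relation.ReflTransGen GapSwap F F') : Relation.ReflTransGen GapSwap (x :: F) (x :: F') := by
  induction h with
  | refl => exact Relation.ReflTransGen.refl
  | tail _ h2 ih =>
    refine Relation.ReflTransGen.tail ih ?_
    obtain ⟨X, Y, a, ⟨h1, h2⟩ | ⟨h1, h2⟩⟩ := h2
    · exact ⟨x :: X, Y, a, Or.inl ⟨by rw [h1]; simp, by rw [h2]; simp⟩⟩
    · exact ⟨x :: X, Y, a, Or.inr ⟨by rw [h1]; simp, by rw [h2]; simp⟩⟩

private theorem h1_move {α : Type} (l : List α) (m : ℕ) :
    Relation.ReflTransGen GapSwap (none :: (l.map some ++ List.replicate m none))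
      (l.map some ++ List.replicate (m + 1) none) := by
  induction l with
  | nil =>
    rw [List.map_nil, List.nil_append, List.nil_append, List.replicate_succ]
  | cons a l ih =>
    have h1 : GapSwap (none :: ((a :: l).map some ++ List.replicate m none))
        (some a :: (none :: (l.map some ++ List.replicate m none))) :=
      ⟨[], l.map some ++ List.replicate m none, some a, Or.inr ⟨by simp, by simp⟩⟩
    exact (Relation.ReflTransGen.single h1).trans (h1_cons (some a) ih)

private theorem h1_nf {α : Type} (F : List (Option α)) : Relation.ReflTransGen GapSwap F
    (F.reduceOption.map some ++ List.replicate (F.length - F.reduceOption.length) none) := by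
  induction F with
  | nil => exact Relation.ReflTransGen.refl
  | cons x F ih =>
    cases x with
    | none =>
      have h2 := List.reduceOption_length_le F
      rw [List.reduceOption_cons_of_none]
      have h3 := h1_move F.reduceOption (F.length - F.reduceOption.length)
      have h4 : (none :: F).length - F.reduceOption.length = F.length - F.reduceOption.length + 1 := by
        rw [List.length_cons]
        omega
      rw [h4]
      exact (h1_cons none ih).trans h3
    | some a =>
      rw [List.reduceOption_cons_of_some]
      have h4 : (some a :: F).length - (a :: F.reduceOption).length = F.length - F.reduceOption.length := by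
        rw [List.length_cons, List.length_cons]
        omega
      rw [h4]
      exact h1_cons (some a) ih

theorem gapSwap_connected {α : Type} {F F' : List (Option α)} (hl : F.length = F'.length)
    (h : F.reduceOption = F'.reduceOption) : Relation.ReflTransGen GapSwap F F' := by
  have h1 := h1_nf F
  have h2 := h1_nf F'
  rw [← hl, ← h] at h2
  exact h1.trans (h1_rsymm h2)

/-- a list without gaps -/
theorem eq_map_some_of_length {α : Type} {F : List (Option α)} (h : F.reduceOption.length = F.length) :
    F = F.reduceOption.map some := by
  induction F with
  | nil => rfl
  | cons x F ih =>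
    cases x with
    | none =>
      have h2 := List.reduceOption_length_le F
      rw [List.reduceOption_cons_of_none, List.length_cons] at h
      omega
    | some a =>
      rw [List.reduceOption_cons_of_some, List.length_cons, List.length_cons] at h
      rw [List.reduceOption_cons_of_some, List.map_cons, ← ih (by omega)]

theorem reduceOption_map_some {α : Type} (l : List α) : (l.map some).reduceOption = l := by
  induction l with
  | nil => rfl
  | cons a l ih => rw [List.map_cons, List.reduceOption_cons_of_some, ih]

theorem reduceOption_pad {α : Type} (l : List α) (m : ℕ) : (l.map some ++ List.replicate m none).reduceOption = l := by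
  rw [List.reduceOption_append, reduceOption_map_some, List.reduceOption_replicate_none, List.append_nil]

end Pool.Agent.ACSG48
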