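import Pool.Agent.LibACSG48.H0
import Pool.Agent.LibACSG48.H1

/-! ROW H2.  Soundness of the automaton: induction on `Acc` for the meaning `HSem` of the states.
`n0`: moves do not change the tape; `chk` at the left end: all cells carry their own letter, `Der.leaf`; `pick`: `D = []`, same tape.
`rd` to `rd`: `u₁' = c :: u₁`.  `last` (`tag = false`, or the state is not universal: note that `rd false ..` is never universal and that `rd true D t`
with `|t| = 1` is universal): with `A = (c.2 :: D).reverse` and `B.reverse = b :: B'`, i.e. `B = B'.reverse ++ [b]`, the head moves onto the first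
cell `x` of `u₁ = x :: u₁'`, and `HSem (wr B')` gives `Der w ((u₂.reverse.map snd ++ B ++ v.map snd).reduceOption)`; if
`A.reduceOption = B.reduceOption` this is the claim, otherwise `Der.exi` with `γ = (u₂.reverse.map snd).reduceOption` and
`δ = (v.map snd).reduceOption` (`List.reduceOption_append`).
Universal: from `WOK`, `G.Univ A.reduceOption`; some successor exists, so some `(A.reduceOption, r) ∈ G.P`; for every `r` with
`(A.reduceOption, r) ∈ G.P`: `|r| ≤ |A|`, `B = r.map some ++ replicate (|A| - |r|) none`, the transition `last` (if `|A| ≥ 2`; then `u ≠ []`, because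
`|D| ≥ 1`) or `last1`; so `Der.univ`.
`wr`: `B = b :: B'`, write `b`, go left: same argument as for `last`. -/

set_option autoImplicit false

namespace Pool.Agent.ACSG48

variable {T : Type} [Finite T]

open HQ

/-- the meaning of the states -/
def HSem (G : Grammar T) (K : ℕ) : HQ G K → List (T × OS G) → (T × OS G) → List (T × OS G) → Prop
  | start, u, a, v => u = [] → (∀ p ∈ a :: v, p.2 = none) → (a :: v).map Prod.fst ∈ G.lang
  | n0, u, a, v => G.Der ((u.reverse ++ a :: v).map Prod.fst) ((u.reverse ++ a :: v).map Prod.snd).reduceOption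
  | chk, _, a, v => ∀ p ∈ a :: v, p.2 = some (Sum.inr p.1)
  | ok, _, _, _ => True
  | rd tag D t, u, a, v => (tag = true → WOK G (D.1.reverse ++ t.1)) → (∃ u₁ u₂, u = u₁ ++ u₂ ∧ u₁.map Prod.snd = D.1) →
      G.Der ((u.reverse ++ a :: v).map Prod.fst) ((u.reverse ++ a :: v).map Prod.snd).reduceOption
  | wr B, u, a, v => ∀ b B', B.1 = b :: B' → ∀ u₁ u₂, u = u₁ ++ u₂ → u₁.length = B'.length →
      G.Der ((u.reverse ++ a :: v).map Prod.fst) (u₂.reverse.map Prod.snd ++ B.1.reverse ++ v.map Prod.snd).reduceOption

section H2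

variable {G : Grammar T} {K : ℕ}

omit [Finite T] in
private theorem h2_wr_false {A B : List (OS G)} {w : List T} (X Y : List (OS G)) (h : WR G false A B)
    (hd : G.Der w (X ++ B ++ Y).reduceOption) : G.Der w (X ++ A ++ Y).reduceOption := by
  rw [List.reduceOption_append, List.reduceOption_append] at hd ⊢
  rcases h.2 with h | ⟨h1, h2⟩
  · rw [h]
    exact hd
  · exact Grammar.Der.exi _ _ _ _ h1 h2 hd

omit [Finite T] in
private theorem h2_use_wr {u' v : List (T × OS G)} {x c : T × OS G} {b : OS G} {B' : BL G K}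
    (hne : B'.1 ≠ []) (hs : HSem G K (wr B') u' x ((c.1, b) :: v)) {B : List (OS G)}
    (hB : B.reverse = b :: B'.1) {u₁ u₂ : List (T × OS G)} (hu : x :: u' = u₁ ++ u₂)
    (hl : u₁.length = B'.1.length) :
    G.Der (((x :: u').reverse ++ c :: v).map Prod.fst)
      (u₂.reverse.map Prod.snd ++ B ++ v.map Prod.snd).reduceOption := by
  obtain ⟨b₀, B₀, hB₀⟩ := List.exists_cons_of_ne_nil hne
  rw [hB₀] at hl
  obtain ⟨y, u₁', rfl⟩ : ∃ y u₁', u₁ = y :: u₁' := by
    cases u₁ with
    | nil => simp at hl
    | cons y u₁' => exact ⟨y, u₁', rfl⟩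
  rw [List.cons_append, List.cons.injEq] at hu
  obtain ⟨rfl, hu⟩ := hu
  have h1 := hs b₀ B₀ hB₀ u₁' u₂ hu (by simpa using hl)
  have hB2 : B = B'.1.reverse ++ [b] := by
    rw [← List.reverse_reverse B, hB, List.reverse_cons]
  have e1 : ((x :: u').reverse ++ c :: v).map Prod.fst =
      (u'.reverse ++ x :: (c.1, b) :: v).map Prod.fst := by simp
  have e2 : u₂.reverse.map Prod.snd ++ B ++ v.map Prod.snd =
      u₂.reverse.map Prod.snd ++ B'.1.reverse ++ ((c.1, b) :: v).map Prod.snd := by
    rw [hB2]; simp
  rw [e1, e2]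
  exact h1

omit [Finite T] in
/-- the tape as seen from the window -/
private theorem h2_snd {u v u₁ u₂ : List (T × OS G)} {c : T × OS G} {D : List (OS G)}
    (hu : u = u₁ ++ u₂) (hD : u₁.map Prod.snd = D) :
    (u.reverse ++ c :: v).map Prod.snd =
      u₂.reverse.map Prod.snd ++ (c.2 :: D).reverse ++ v.map Prod.snd := by
  rw [hu, ← hD]
  simp

omit [Finite T] in
private theorem h2_stay {q q' : HQ G K} {u v : List (T × OS G)} {a b : T × OS G}
    (hn : ∀ D t : BL G K, q = rd true D t → t.1.length ≠ 1)
    (ht : HTr G K q a u.isEmpty v.isEmpty q' b Mv.stay) (ih : HSem G K q' u b v) :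
    HSem G K q u a v := by
  generalize hl : u.isEmpty = l at ht
  generalize hr : v.isEmpty = r at ht
  generalize hm : Mv.stay = m at ht
  cases ht with
  | start a₀ r =>
    intro hu hall
    subst hu
    have e1 : ((((a₀, some (Sum.inl G.S)) :: v : List (T × OS G)).map Prod.snd)).reduceOption =
        [Sum.inl G.S] := by
      have h2 : (v.map Prod.snd).reduceOption = [] := by
        have h3 : v.map Prod.snd = List.replicate v.length none := by
          rw [List.eq_replicate_iff]
          refine ⟨by simp, fun p hp => ?_⟩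
          obtain ⟨x, hx, rfl⟩ := List.mem_map.1 hp
          exact hall x (List.mem_cons_of_mem _ hx)
        rw [h3, List.reduceOption_replicate_none]
      rw [List.map_cons, List.reduceOption_cons_of_some, h2]
    have h4 : G.Der (((a₀, some (Sum.inl G.S)) :: v : List (T × OS G)).map Prod.fst)
        ((((a₀, some (Sum.inl G.S)) :: v : List (T × OS G)).map Prod.snd)).reduceOption := ih
    rw [e1] at h4
    exact h4
  | chk c r =>
    have hu : u = [] := List.isEmpty_iff.1 hl
    subst hu
    have h1 : ∀ p ∈ a :: v, p.2 = some (Sum.inr p.1) := ih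
    have e1 : ((a :: v).map Prod.snd).reduceOption = ((a :: v).map Prod.fst).map Sum.inr := by
      have h2 : (a :: v).map Prod.snd = (((a :: v).map Prod.fst).map Sum.inr).map some := by
        rw [List.map_map, List.map_map]
        exact List.map_congr_left fun p hp => h1 p hp
      rw [h2, reduceOption_map_some]
    have h4 : G.Der ((a :: v).map Prod.fst) ((a :: v).map Prod.snd).reduceOption := by
      rw [e1]
      exact Grammar.Der.leaf
    exact h4
  | chk2 a₀ l =>
    have hv : v = [] := List.isEmpty_iff.1 hr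
    subst hv
    intro p hp
    rw [List.mem_singleton] at hp
    rw [hp]
  | pick c l r tag D t h1 h2 h3 =>
    refine ih (fun htag => ?_) ⟨[], u, rfl, ?_⟩
    · rw [h1]
      exact h3 htag
    · rw [h1]
      rfl
  | last1 c l r tag D t b₀ h1 h2 =>
    rintro hW ⟨u₁, u₂, hu, hD⟩
    have htag : tag = false := by
      cases tag with
      | false => rfl
      | true => exact absurd (by rw [h1]; rfl) (hn D t rfl)
    subst htag
    have hlen := h2.1
    have hD0 : D.1 = [] := by
      rw [List.length_reverse] at hlen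
      simpa using hlen
    rw [hD0] at hD h2
    have hu1 : u₁ = [] := List.map_eq_nil_iff.1 hD
    rw [hu1, List.nil_append] at hu
    subst hu
    rw [h2_snd (u := u) (u₁ := []) (u₂ := u) (D := []) rfl rfl]
    have e1 : (u.reverse ++ (a.1, b₀) :: v).map Prod.fst = (u.reverse ++ a :: v).map Prod.fst := by
      simp
    have e2 : (u.reverse ++ (a.1, b₀) :: v).map Prod.snd =
        u.reverse.map Prod.snd ++ [b₀] ++ v.map Prod.snd := by simp
    have h5 : G.Der ((u.reverse ++ (a.1, b₀) :: v).map Prod.fst)
      ((u.reverse ++ (a.1, b₀) :: v).map Prod.snd).reduceOption := ih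
    rw [e1, e2] at h5
    exact h2_wr_false _ _ h2 h5
  | wr1 c l r B b₀ h1 =>
    intro b₁ B₁ hB u₁ u₂ hu hlen
    rw [h1, List.cons.injEq] at hB
    obtain ⟨rfl, hB⟩ := hB
    subst hB
    have hu1 : u₁ = [] := List.eq_nil_of_length_eq_zero hlen
    rw [hu1, List.nil_append] at hu
    subst hu
    have e1 : (u.reverse ++ (a.1, b₀) :: v).map Prod.fst = (u.reverse ++ a :: v).map Prod.fst := by
      simp
    have e2 : (u.reverse ++ (a.1, b₀) :: v).map Prod.snd =
        u.reverse.map Prod.snd ++ [b₀].reverse ++ v.map Prod.snd := by simp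
    have h5 : G.Der ((u.reverse ++ (a.1, b₀) :: v).map Prod.fst)
      ((u.reverse ++ (a.1, b₀) :: v).map Prod.snd).reduceOption := ih
    rw [e1, e2] at h5
    rw [h1]
    exact h5
  | _ => cases hm

omit [Finite T] in
private theorem h2_left {q q' : HQ G K} {x : T × OS G} {u v : List (T × OS G)} {a b : T × OS G}
    (hn : ∀ D t : BL G K, q = rd true D t → t.1.length ≠ 1)
    (ht : HTr G K q a false v.isEmpty q' b Mv.left) (ih : HSem G K q' u x (b :: v)) :
    HSem G K q (x :: u) a v := by
  generalize hl : false = l at ht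
  generalize hr : v.isEmpty = r at ht
  generalize hm : Mv.left = m at ht
  cases ht with
  | left c l r =>
    have h5 : G.Der ((u.reverse ++ x :: a :: v).map Prod.fst)
      ((u.reverse ++ x :: a :: v).map Prod.snd).reduceOption := ih
    have e1 : u.reverse ++ x :: a :: v = (x :: u).reverse ++ a :: v := by simp
    rw [e1] at h5
    exact h5
  | last c l r tag D t B' B b₀ h1 h2 h3 h4 =>
    rintro hW ⟨u₁, u₂, hu, hD⟩
    have htag : tag = false := by
      cases tag with
      | false => rfl
      | true => exact absurd (by rw [h1]; rfl) (hn D t rfl)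
    subst htag
    rw [h2_snd hu hD]
    refine h2_wr_false _ _ h2 (h2_use_wr h4 ih h3 hu ?_)
    have h5 := congrArg List.length h3
    have h6 := congrArg List.length hD
    have h7 := h2.1
    rw [List.length_reverse] at h5 h7
    rw [List.length_map] at h6
    rw [List.length_cons] at h5 h7
    omega
  | wr c l r B B' b₀ h1 h2 =>
    intro b₁ B₁ hB u₁ u₂ hu hlen
    rw [h1, List.cons.injEq] at hB
    obtain ⟨rfl, hB⟩ := hB
    refine h2_use_wr h2 ih ?_ hu ?_
    · rw [List.reverse_reverse, h1]
    · rw [hB, hlen]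
  | _ => cases hm

omit [Finite T] in
private theorem h2_right {q q' : HQ G K} {x : T × OS G} {u v : List (T × OS G)} {a b : T × OS G}
    (ht : HTr G K q a u.isEmpty false q' b Mv.right) (ih : HSem G K q' (b :: u) x v) :
    HSem G K q u a (x :: v) := by
  generalize hl : u.isEmpty = l at ht
  generalize hr : false = r at ht
  generalize hm : Mv.right = m at ht
  cases ht with
  | right c l r =>
    have h5 : G.Der (((a :: u).reverse ++ x :: v).map Prod.fst)
      (((a :: u).reverse ++ x :: v).map Prod.snd).reduceOption := ih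
    have e1 : (a :: u).reverse ++ x :: v = u.reverse ++ a :: x :: v := by simp
    rw [e1] at h5
    exact h5
  | chk1 a₀ l =>
    intro p hp
    rcases List.mem_cons.1 hp with rfl | hp
    · rfl
    · exact ih p hp
  | rd c l tag D t D' t' h1 h2 h3 =>
    rintro hW ⟨u₁, u₂, hu, hD⟩
    have e1 : (a :: u).reverse ++ x :: v = u.reverse ++ a :: x :: v := by simp
    have h5 := ih (fun htag => ?_) ⟨a :: u₁, u₂, by rw [hu]; rfl, by rw [h3, ← hD]; rfl⟩
    · rw [e1] at h5
      exact h5
    · have h6 := hW htag
      have e2 : D'.1.reverse ++ t'.1 = D.1.reverse ++ t.1 := by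
        rw [h3, h1]
        simp
      rw [e2]
      exact h6
  | _ => cases hm

private theorem h2_uni {D t : BL G K} {u v : List (T × OS G)} {a : T × OS G} (ht1 : t.1.length = 1)
    (hex : ∃ c', (HM G K).Step ⟨rd true D t, u, a, v⟩ c')
    (ih : ∀ c', (HM G K).Step ⟨rd true D t, u, a, v⟩ c' → HSem G K c'.q c'.u c'.a c'.v) :
    HSem G K (rd true D t) u a v := by
  rintro hW ⟨u₁, u₂, hu, hD⟩
  have key : t.1 = [a.2] ∧ ∃ B, WR G true ((a.2 :: D.1).reverse) B := by
    obtain ⟨c', hst⟩ := hex
    cases hst with
    | stay _ _ _ _ q' b ht =>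
      change HTr G K (rd true D t) a u.isEmpty v.isEmpty q' b Mv.stay at ht
      generalize hl : u.isEmpty = l at ht
      generalize hr : v.isEmpty = r at ht
      generalize hm : Mv.stay = m at ht
      cases ht with
      | last1 c l r tag D t b h1 h2 => exact ⟨h1, _, h2⟩
      | _ => cases hm
    | left _ x u' _ _ q' b ht =>
      change HTr G K (rd true D t) a false v.isEmpty q' b Mv.left at ht
      generalize hl : false = l at ht
      generalize hr : v.isEmpty = r at ht
      generalize hm : Mv.left = m at ht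
      cases ht with
      | last c l r tag D t B' B b₀ h1 h2 h3 h4 => exact ⟨h1, _, h2⟩
      | _ => cases hm
    | right _ _ _ x v' q' b ht =>
      change HTr G K (rd true D t) a u.isEmpty false q' b Mv.right at ht
      generalize hl : u.isEmpty = l at ht
      generalize hr : false = r at ht
      generalize hm : Mv.right = m at ht
      cases ht with
      | rd c l tag D t D' t' h1 h2 h3 =>
        exfalso
        rw [h1, List.length_cons] at ht1
        exact h2 (List.eq_nil_of_length_eq_zero (by omega))
      | _ => cases hm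
  obtain ⟨ht2, B₀, hB₀⟩ := key
  have hWok := hW rfl
  have eA : D.1.reverse ++ t.1 = (a.2 :: D.1).reverse := by rw [ht2, List.reverse_cons]
  rw [eA] at hWok
  rw [h2_snd hu hD, List.reduceOption_append, List.reduceOption_append]
  refine Grammar.Der.univ _ _ _ hWok.1 ⟨_, hB₀.2⟩ fun r hr => ?_
  have hlen := hWok.2 r hr
  obtain ⟨A, hA⟩ : ∃ A : List (OS G), A = (a.2 :: D.1).reverse := ⟨_, rfl⟩
  obtain ⟨B, hB⟩ : ∃ B : List (OS G), B = r.map some ++ List.replicate (A.length - r.length) none :=
    ⟨_, rfl⟩
  have hAlen : A.length = D.1.length + 1 := by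
    rw [hA, List.length_reverse, List.length_cons]
  have hBred : B.reduceOption = r := by rw [hB]; exact reduceOption_pad r _
  rw [← hA] at hlen hr
  have hBlen : A.length = B.length := by
    rw [hB, List.length_append, List.length_map, List.length_replicate]
    omega
  have hWR : WR G true A B := ⟨hBlen, by rw [hBred]; exact hr⟩
  suffices goal : G.Der ((u.reverse ++ a :: v).map Prod.fst)
      (u₂.reverse.map Prod.snd ++ B ++ v.map Prod.snd).reduceOption by
    rw [List.reduceOption_append, List.reduceOption_append, hBred] at goal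
    exact goal
  obtain ⟨b, B₁, hBr⟩ : ∃ b B₁, B.reverse = b :: B₁ := by
    cases h : B.reverse with
    | nil =>
      rw [List.reverse_eq_nil_iff] at h
      rw [h, List.length_nil] at hBlen
      omega
    | cons b B₁ => exact ⟨b, B₁, rfl⟩
  have hB1 : B₁.length = D.1.length := by
    have h5 := congrArg List.length hBr
    rw [List.length_reverse, List.length_cons] at h5
    omega
  by_cases hD0 : D.1 = []
  · rw [hD0] at hD hB1
    have hu1 : u₁ = [] := List.map_eq_nil_iff.1 hD
    rw [hu1, List.nil_append] at hu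
    subst hu
    have hB1' : B₁ = [] := List.eq_nil_of_length_eq_zero hB1
    have hBb : B = [b] := by
      rw [← List.reverse_reverse B, hBr, hB1']
      rfl
    have hst : (HM G K).Step ⟨rd true D t, u, a, v⟩ ⟨n0, u, (a.1, b), v⟩ :=
      ALBA.Step.stay (M := HM G K) (rd true D t) u a v n0 (a.1, b)
        (HTr.last1 a _ _ true D t b ht2 (by rw [← hA, ← hBb]; exact hWR))
    have e1 : (u.reverse ++ (a.1, b) :: v).map Prod.fst = (u.reverse ++ a :: v).map Prod.fst := by
      simp
    have e2 : (u.reverse ++ (a.1, b) :: v).map Prod.snd =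
        u.reverse.map Prod.snd ++ [b] ++ v.map Prod.snd := by simp
    have h5 : G.Der ((u.reverse ++ (a.1, b) :: v).map Prod.fst)
      ((u.reverse ++ (a.1, b) :: v).map Prod.snd).reduceOption := ih _ hst
    rw [e1, e2] at h5
    rw [hBb]
    exact h5
  · obtain ⟨y, u₁', rfl⟩ : ∃ y u₁', u₁ = y :: u₁' := by
      cases u₁ with
      | nil => exact absurd hD.symm hD0
      | cons y u₁' => exact ⟨y, u₁', rfl⟩
    rw [List.cons_append] at hu
    subst hu
    have hne : B₁ ≠ [] := by
      intro h
      rw [h] at hB1
      exact hD0 (List.eq_nil_of_length_eq_zero hB1.symm)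
    have hK : B₁.length ≤ K := by rw [hB1]; exact D.2
    have hst : (HM G K).Step ⟨rd true D t, y :: (u₁' ++ u₂), a, v⟩
        ⟨wr ⟨B₁, hK⟩, u₁' ++ u₂, y, (a.1, b) :: v⟩ :=
      ALBA.Step.left (M := HM G K) (rd true D t) y (u₁' ++ u₂) a v (wr ⟨B₁, hK⟩) (a.1, b)
        (HTr.last a false v.isEmpty true D t ⟨B₁, hK⟩ B b ht2 (by rw [← hA]; exact hWR) hBr hne)
    have h5 : HSem G K (wr ⟨B₁, hK⟩) (u₁' ++ u₂) y ((a.1, b) :: v) := ih _ hst
    refine h2_use_wr (B' := ⟨B₁, hK⟩) hne h5 hBr (u₁ := y :: u₁') (u₂ := u₂) rfl ?_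
    have h6 := congrArg List.length hD
    rw [List.length_map] at h6
    rw [h6]
    exact hB1.symm

end H2

theorem HM_sound_aux {G : Grammar T} {K : ℕ} {c : (HM G K).Conf} (h : (HM G K).Acc c) : HSem G K c.q c.u c.a c.v := by
  induction h with
  | acc c hc =>
    have h1 : c.q = ok := hc
    rw [h1]
    trivial
  | exi c c' hn hst _ ih =>
    have hn' : ∀ D t : BL G K, c.q = rd true D t → t.1.length ≠ 1 := fun D t h1 h2 => hn ⟨D, t, h1, h2⟩
    cases hst with
    | stay q u a v q' b ht => exact h2_stay hn' ht ih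
    | left q x u a v q' b ht => exact h2_left hn' ht ih
    | right q u a x v q' b ht => exact h2_right ht ih
  | uni c hu hex _ ih =>
    obtain ⟨q, u, a, v⟩ := c
    obtain ⟨D, t, h1, h2⟩ := hu
    change q = rd true D t at h1
    subst h1
    exact h2_uni h2 hex ih

theorem HM_sound {G : Grammar T} {K : ℕ} {w : List T} (h : w ∈ (HM G K).lang) : w ∈ G.lang := by
  obtain ⟨a, v, rfl, h1⟩ := h
  have h2 := HM_sound_aux h1 rfl
  have h3 : (((a, none) :: v.map (fun a => (a, none)) : List (T × OS G)).map Prod.fst) = a :: v := by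
    simp [Function.comp_def]
  have h4 := h2 ?_
  · have h5 : (((a, none) :: v.map (fun a => (a, none)) : List (T × OS G)).map Prod.fst) ∈ G.lang := h4
    rw [h3] at h5
    exact h5
  · intro p hp
    rcases List.mem_cons.1 hp with rfl | hp
    · rfl
    · obtain ⟨x, _, rfl⟩ := List.mem_map.1 hp
      rfl

end Pool.Agent.ACSG48
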