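import Pool.Agent.LibACSG48.H0

/-! ROW H3.  Moves, windows, final check.
`wr_run`: induction on `Cs` from the right (or on the reversed list): the cells `Cs` (nonempty) are to be overwritten by `B`, head on the last of
them, state `wr B.reverse`; in zipper form: `u = (X ++ Cs').reverse`, head `c`, `Cs = Cs' ++ [c]`.
`rd_run`: from the first cell of the window with state `rd tag [] A` (`A = Cs.map snd`) to the last cell with `D = (A without the last).reverse`,
`t = [last]`: read to the right (these states are not universal, because `|t| ≥ 2`, the last one is if `tag = true`).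
`win_exi`: `pick`, `rd_run`, `last` / `last1`, `wr_run`.  `win_uni`: the same, the universal state has exactly the successors given by `last`,
`last1` with `WR G true`.  `move_acc`: walk to the left end and then to the right. -/

set_option autoImplicit false

namespace Pool.Agent.ACSG48

variable {T : Type} [Finite T]

open HQ

theorem h3_not_univ {G : Grammar T} {K : ℕ} {s : HQ G K} (h : ∀ D t : BL G K, s = rd true D t → t.1.length ≠ 1) :
    s ∉ (HM G K).univ := by
  rintro ⟨D, t, h1, h2⟩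
  exact h D t h1 h2

theorem h3_right {G : Grammar T} {K : ℕ} {X Z : List (T × OS G)} {c : T × OS G} (h : AccAt G K n0 (X ++ [c]) Z) :
    AccAt G K n0 X (c :: Z) := by
  obtain ⟨d, v, rfl, h1⟩ := h
  refine ⟨c, d :: v, rfl, ?_⟩
  rw [List.reverse_append] at h1
  exact ALBA.Acc.exi _ _ (h3_not_univ fun D t e => by cases e) (ALBA.Step.right _ _ _ _ _ _ _ (HTr.right _ _ _)) h1

theorem h3_left {G : Grammar T} {K : ℕ} {X Z : List (T × OS G)} {c : T × OS G} (hZ : Z ≠ [])
    (h : AccAt G K n0 X (c :: Z)) : AccAt G K n0 (X ++ [c]) Z := by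
  obtain ⟨d, v, rfl⟩ := List.exists_cons_of_ne_nil hZ
  obtain ⟨c', v', h0, h1⟩ := h
  obtain ⟨rfl, rfl⟩ := List.cons.inj h0
  refine ⟨d, v, rfl, ?_⟩
  rw [List.reverse_append]
  exact ALBA.Acc.exi _ _ (h3_not_univ fun D t e => by cases e) (ALBA.Step.left _ _ _ _ _ _ _ (HTr.left _ _ _)) h1

theorem h3_shift {G : Grammar T} {K : ℕ} (Y : List (T × OS G)) : ∀ (X Z : List (T × OS G)), Z ≠ [] →
    (AccAt G K n0 (X ++ Y) Z ↔ AccAt G K n0 X (Y ++ Z)) := by
  induction Y with
  | nil => intro X Z _; simp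
  | cons c Y ih =>
    intro X Z hZ
    have h1 := ih (X ++ [c]) Z hZ
    rw [List.append_assoc] at h1
    rw [show X ++ c :: Y = X ++ ([c] ++ Y) from rfl, h1]
    exact ⟨h3_right, h3_left (by simp [hZ])⟩

theorem move_acc {G : Grammar T} {K : ℕ} {X Z X' Z' : List (T × OS G)} (h : X ++ Z = X' ++ Z') (hZ : Z ≠ [])
    (hacc : AccAt G K n0 X' Z') : AccAt G K n0 X Z := by
  have hZ' : Z' ≠ [] := by
    obtain ⟨c, v, h1, _⟩ := hacc
    rw [h1]
    exact List.cons_ne_nil _ _
  have h1 := (h3_shift (K := K) X' [] Z' hZ').1 (by rwa [List.nil_append])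
  rw [← h] at h1
  have h2 := (h3_shift (K := K) X [] Z hZ).2 h1
  rwa [List.nil_append] at h2

theorem h3_chk {G : Grammar T} {K : ℕ} (w : List T) : ∀ (a : T) (u : List (T × OS G)),
    (HM G K).Acc ⟨HQ.chk, u, (a, some (Sum.inr a)), w.map fun a => (a, some (Sum.inr a))⟩ := by
  induction w with
  | nil =>
    intro a u
    exact ALBA.Acc.exi _ _ (h3_not_univ fun D t e => by cases e)
      (ALBA.Step.stay _ _ _ _ _ _ (HTr.chk2 a _)) (ALBA.Acc.acc _ rfl)
  | cons b w ih =>
    intro a u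
    exact ALBA.Acc.exi _ _ (h3_not_univ fun D t e => by cases e)
      (ALBA.Step.right _ _ _ _ _ _ _ (HTr.chk1 a _)) (ih b _)

theorem chk_acc {G : Grammar T} {K : ℕ} {w : List T} (hw : w ≠ []) :
    AccAt G K n0 [] (w.map fun a => (a, some (Sum.inr a))) := by
  obtain ⟨a, w, rfl⟩ := List.exists_cons_of_ne_nil hw
  refine ⟨_, _, rfl, ?_⟩
  exact ALBA.Acc.exi _ _ (h3_not_univ fun D t e => by cases e)
    (ALBA.Step.stay _ _ _ _ _ _ (HTr.chk _ _)) (h3_chk w a _)

theorem h3_rew {G : Grammar T} (Cs : List (T × OS G)) (c : T × OS G) (B : List (OS G)) (b : OS G)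
    (h : B.length = Cs.length) : rew (Cs ++ [c]) (B ++ [b]) = rew Cs B ++ [(c.1, b)] := by
  unfold rew
  rw [List.zipWith_append h.symm]
  rfl

theorem wr_run {G : Grammar T} {K : ℕ} (X Y Cs : List (T × OS G)) (c : T × OS G) (B : BL G K)
    (hB : B.1.length = Cs.length + 1) (h : AccAt G K n0 X (rew (Cs ++ [c]) B.1.reverse ++ Y)) :
    AccAt G K (wr B) (X ++ Cs) (c :: Y) := by
  induction Cs using List.reverseRecOn generalizing c Y B with
  | nil =>
    obtain ⟨b, hb⟩ : ∃ b, B.1 = [b] := List.length_eq_one_iff.1 hB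
    rw [hb] at h
    obtain ⟨d, v, h0, h1⟩ := h
    obtain ⟨rfl, rfl⟩ := List.cons.inj h0
    refine ⟨c, _, rfl, ?_⟩
    rw [List.append_nil]
    exact ALBA.Acc.exi _ _ (h3_not_univ fun D t e => by cases e)
      (ALBA.Step.stay _ _ _ _ _ _ (HTr.wr1 _ _ _ B b hb)) h1
  | append_singleton Cs e ih =>
    obtain ⟨b, B', hb⟩ : ∃ b B', B.1 = b :: B' := by
      cases h2 : B.1 with
      | nil => rw [h2] at hB; simp at hB
      | cons b B' => exact ⟨b, B', rfl⟩
    have hlen : B'.length = Cs.length + 1 := by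
      rw [hb] at hB
      simpa using hB
    have hBK : B'.length ≤ K := by
      have := B.2
      rw [hb] at this
      simp at this
      omega
    have hne : B' ≠ [] := by
      intro h3
      rw [h3] at hlen
      simp at hlen
    rw [hb, List.reverse_cons, h3_rew _ _ _ _ (by simp [hlen]), List.append_assoc] at h
    obtain ⟨d, v, h0, h1⟩ := ih ((c.1, b) :: Y) e ⟨B', hBK⟩ hlen h
    obtain ⟨rfl, rfl⟩ := List.cons.inj h0
    refine ⟨c, _, rfl, ?_⟩
    rw [← List.append_assoc, List.reverse_append]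
    exact ALBA.Acc.exi _ _ (h3_not_univ fun D t e => by cases e)
      (ALBA.Step.left _ _ _ _ _ _ _ (HTr.wr _ _ _ B ⟨B', hBK⟩ b hb hne)) h1

theorem h3_rd {G : Grammar T} {K : ℕ} (tag : Bool) (Cs Y : List (T × OS G)) (c : T × OS G) (D2 t2 : BL G K)
    (ht2 : t2.1 = [c.2]) : ∀ (X : List (T × OS G)) (D t : BL G K), t.1 = Cs.map Prod.snd ++ [c.2] →
      D2.1 = (Cs.map Prod.snd).reverse ++ D.1 → AccAt G K (rd tag D2 t2) (X ++ Cs) (c :: Y) →
      AccAt G K (rd tag D t) X (Cs ++ c :: Y) := by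
  induction Cs with
  | nil =>
    intro X D t ht hD h
    have h1 : D2 = D := Subtype.ext hD
    have h2 : t2 = t := Subtype.ext (by rw [ht2, ht]; rfl)
    rw [List.append_nil, h1, h2] at h
    exact h
  | cons e Cs ih =>
    intro X D t ht hD h
    have hlD : (e.2 :: D.1).length ≤ K := by
      have := D2.2
      rw [hD] at this
      simp at this
      simp
      omega
    have hlt : (Cs.map Prod.snd ++ [c.2]).length ≤ K := by
      have := t.2
      rw [ht] at this
      simp at this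
      simp
      omega
    obtain ⟨x, v, h1, h2⟩ := ih (X ++ [e]) ⟨e.2 :: D.1, hlD⟩ ⟨_, hlt⟩ rfl (by rw [hD]; simp) (by
      rw [List.append_assoc]
      exact h)
    refine ⟨e, Cs ++ c :: Y, rfl, ?_⟩
    rw [h1]
    rw [List.reverse_append] at h2
    refine ALBA.Acc.exi _ _ (h3_not_univ fun D' t' e' => ?_)
      (ALBA.Step.right _ _ _ _ _ _ _ (HTr.rd _ _ _ D t ⟨e.2 :: D.1, hlD⟩ ⟨_, hlt⟩ ht (by simp) rfl)) h2
    injection e' with _ _ e3
    rw [← e3, ht]
    simp

theorem h3_snoc {α : Type} (l : List α) : l = [] ∨ ∃ (l' : List α) (b : α), l = l' ++ [b] := by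
  rcases List.eq_nil_or_concat l with h | ⟨l', b, h⟩
  · exact Or.inl h
  · exact Or.inr ⟨l', b, by rw [h, List.concat_eq_append]⟩

theorem h3_len {G : Grammar T} {tag : Bool} {A B : List (OS G)} (h : WR G tag A B) : A.length = B.length := by
  cases tag with
  | false => exact h.1
  | true => exact h.1

theorem h3_split {G : Grammar T} {B : List (OS G)} {n : ℕ} (h : n + 2 = B.length) :
    ∃ (B' : List (OS G)) (b : OS G), B = B'.reverse ++ [b] ∧ B'.length = n + 1 := by
  rcases h3_snoc B with h1 | ⟨B1, b, h1⟩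
  · rw [h1] at h
    simp at h
  · refine ⟨B1.reverse, b, by rw [List.reverse_reverse, h1], ?_⟩
    rw [h1] at h
    simp at h
    simp
    omega

theorem h3_last {G : Grammar T} {K : ℕ} {tag : Bool} (X Cs Y : List (T × OS G)) (c : T × OS G) (D t : BL G K)
    (ht : t.1 = [c.2]) (hD : D.1 = (Cs.map Prod.snd).reverse) (B : List (OS G)) (hK : (Cs ++ [c]).length ≤ K)
    (hR : WR G tag ((Cs ++ [c]).map Prod.snd) B) :
    ∃ c', (HM G K).Step ⟨rd tag D t, (X ++ Cs).reverse, c, Y⟩ c' ∧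
      (AccAt G K n0 X (rew (Cs ++ [c]) B ++ Y) → (HM G K).Acc c') := by
  have hA : (c.2 :: D.1).reverse = (Cs ++ [c]).map Prod.snd := by
    rw [hD]
    simp
  have hl := h3_len hR
  rcases h3_snoc Cs with h1 | ⟨Cs', e, h1⟩
  · subst h1
    obtain ⟨b, hb⟩ : ∃ b, B = [b] := List.length_eq_one_iff.1 (by rw [← hl]; rfl)
    subst hb
    refine ⟨_, ALBA.Step.stay _ _ _ _ _ _ (HTr.last1 _ _ _ tag D t b ht (by rw [hA]; exact hR)), ?_⟩
    rintro ⟨d, v, h0, h2⟩
    obtain ⟨rfl, rfl⟩ := List.cons.inj h0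
    rw [List.append_nil]
    exact h2
  · subst h1
    obtain ⟨B', b, rfl, hB'⟩ := h3_split (B := B) (n := Cs'.length) (by rw [← hl]; simp)
    have hBK : B'.length ≤ K := by
      rw [hB']
      simp at hK
      omega
    have hne : B' ≠ [] := by
      intro h3
      rw [h3] at hB'
      simp at hB'
    rw [← List.append_assoc, List.reverse_append]
    refine ⟨_, ALBA.Step.left _ _ _ _ _ _ _ (HTr.last _ _ _ tag D t ⟨B', hBK⟩ (B'.reverse ++ [b]) b ht
      (by rw [hA]; exact hR) (by simp) hne), ?_⟩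
    intro h2
    rw [h3_rew _ _ _ _ (by simp [hB']), List.append_assoc] at h2
    obtain ⟨d, v, h0, h3⟩ := wr_run X ((c.1, b) :: Y) Cs' e ⟨B', hBK⟩ hB' h2
    obtain ⟨rfl, rfl⟩ := List.cons.inj h0
    exact h3

theorem h3_all {G : Grammar T} {K : ℕ} (X Cs Y : List (T × OS G)) (c : T × OS G) (D t : BL G K)
    (ht : t.1 = [c.2]) (hD : D.1 = (Cs.map Prod.snd).reverse) (hK : (Cs ++ [c]).length ≤ K)
    (h : ∀ B, WR G true ((Cs ++ [c]).map Prod.snd) B → AccAt G K n0 X (rew (Cs ++ [c]) B ++ Y))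
    (u : List (T × OS G)) (hu : u = (X ++ Cs).reverse)
    (c' : (HM G K).Conf) (hc : (HM G K).Step ⟨rd true D t, u, c, Y⟩ c') : (HM G K).Acc c' := by
  have hA : (c.2 :: D.1).reverse = (Cs ++ [c]).map Prod.snd := by
    rw [hD]
    simp
  cases hc with
  | stay _ _ _ _ q' b' htr =>
    have htr' : HTr G K (rd true D t) c u.isEmpty Y.isEmpty q' b' .stay := htr
    generalize u.isEmpty = l1 at htr'
    generalize Y.isEmpty = l2 at htr'
    cases htr' with
    | last1 _ _ _ _ _ _ b h1 h2 =>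
      rw [hA] at h2
      have h3 := h3_len h2
      have h4 : Cs = [] := by
        simp at h3
        exact h3
      subst h4
      obtain ⟨d, v, h0, h5⟩ := h [b] h2
      obtain ⟨rfl, rfl⟩ := List.cons.inj h0
      rw [hu, List.append_nil]
      exact h5
  | left _ x u' _ _ q' b' htr =>
    have htr' : HTr G K (rd true D t) c false Y.isEmpty q' b' .left := htr
    generalize Y.isEmpty = l2 at htr'
    cases htr' with
    | last _ _ _ _ _ _ B' B b h1 h2 h3 h4 =>
      rw [hA] at h2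
      have h5 := h3_len h2
      have hB : B = B'.1.reverse ++ [b] := by
        have := congrArg List.reverse h3
        simpa using this
      rcases h3_snoc Cs with h6 | ⟨Cs', e, h6⟩
      · subst h6
        exfalso
        rw [hB] at h5
        simp at h5
        exact h4 h5
      · subst h6
        have hB' : B'.1.length = Cs'.length + 1 := by
          rw [hB] at h5
          simp at h5
          exact h5.symm
        have h7 := h B h2
        rw [hB, h3_rew _ _ _ _ (by simp [hB']), List.append_assoc] at h7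
        obtain ⟨d, v, h0, h8⟩ := wr_run X ((c.1, b) :: Y) Cs' e B' hB' h7
        obtain ⟨rfl, rfl⟩ := List.cons.inj h0
        rw [← List.append_assoc, List.reverse_append] at hu
        obtain ⟨rfl, rfl⟩ := List.cons.inj hu
        exact h8
  | right _ _ _ x v q' b' htr =>
    have htr' : HTr G K (rd true D t) c u.isEmpty false q' b' .right := htr
    generalize u.isEmpty = l1 at htr'
    cases htr' with
    | rd _ _ _ _ _ D' t' h1 h2 h3 =>
      exfalso
      rw [ht] at h1
      exact h2 (List.cons.inj h1).2.symm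

theorem win_exi {G : Grammar T} {K : ℕ} (X Cs Y : List (T × OS G)) (B : List (OS G)) (hne : Cs ≠ []) (hK : Cs.length ≤ K)
    (hR : WR G false (Cs.map Prod.snd) B) (h : AccAt G K n0 X (rew Cs B ++ Y)) : AccAt G K n0 X (Cs ++ Y) := by
  rcases h3_snoc Cs with h1 | ⟨Cs', c, h1⟩
  · exact absurd h1 hne
  · subst h1
    have hDK : (Cs'.map Prod.snd).reverse.length ≤ K := by
      simp at hK
      simp
      omega
    have h1K : [c.2].length ≤ K := by
      simp at hK
      simp
      omega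
    have htK : ((Cs' ++ [c]).map Prod.snd).length ≤ K := by
      simpa using hK
    have h0K : ([] : List (OS G)).length ≤ K := by simp
    obtain ⟨c', hs, hc'⟩ := h3_last X Cs' Y c ⟨_, hDK⟩ ⟨[c.2], h1K⟩ rfl rfl B hK hR
    have h2 : AccAt G K (rd false ⟨_, hDK⟩ ⟨[c.2], h1K⟩) (X ++ Cs') (c :: Y) :=
      ⟨c, Y, rfl, ALBA.Acc.exi _ _ (h3_not_univ fun D t e => by cases e) hs (hc' h)⟩
    obtain ⟨d, v, h3, h4⟩ := h3_rd false Cs' Y c ⟨_, hDK⟩ ⟨[c.2], h1K⟩ rfl X ⟨[], h0K⟩ ⟨_, htK⟩ (by simp) (by simp) h2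
    refine ⟨d, v, by rw [List.append_assoc]; exact h3, ?_⟩
    refine ALBA.Acc.exi _ _ (h3_not_univ fun D t e => by cases e) (ALBA.Step.stay _ _ _ _ _ _
      (HTr.pick _ _ _ false ⟨[], h0K⟩ ⟨_, htK⟩ rfl (by simp) (fun h => by cases h))) h4

theorem win_uni {G : Grammar T} {K : ℕ} (X Cs Y : List (T × OS G)) (hne : Cs ≠ []) (hK : Cs.length ≤ K)
    (hok : WOK G (Cs.map Prod.snd)) (hex : ∃ B, WR G true (Cs.map Prod.snd) B)
    (h : ∀ B, WR G true (Cs.map Prod.snd) B → AccAt G K n0 X (rew Cs B ++ Y)) : AccAt G K n0 X (Cs ++ Y) := by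
  rcases h3_snoc Cs with h1 | ⟨Cs', c, h1⟩
  · exact absurd h1 hne
  · subst h1
    have hDK : (Cs'.map Prod.snd).reverse.length ≤ K := by
      simp at hK
      simp
      omega
    have h1K : [c.2].length ≤ K := by
      simp at hK
      simp
      omega
    have htK : ((Cs' ++ [c]).map Prod.snd).length ≤ K := by
      simpa using hK
    have h0K : ([] : List (OS G)).length ≤ K := by simp
    obtain ⟨B, hB⟩ := hex
    obtain ⟨c', hs, _⟩ := h3_last X Cs' Y c ⟨_, hDK⟩ ⟨[c.2], h1K⟩ rfl rfl B hK hB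
    have h2 : AccAt G K (rd true ⟨_, hDK⟩ ⟨[c.2], h1K⟩) (X ++ Cs') (c :: Y) :=
      ⟨c, Y, rfl, ALBA.Acc.uni _ ⟨_, _, rfl, rfl⟩ ⟨c', hs⟩
        (h3_all X Cs' Y c ⟨_, hDK⟩ ⟨[c.2], h1K⟩ rfl rfl hK h _ rfl)⟩
    obtain ⟨d, v, h3, h4⟩ := h3_rd true Cs' Y c ⟨_, hDK⟩ ⟨[c.2], h1K⟩ rfl X ⟨[], h0K⟩ ⟨_, htK⟩ (by simp) (by simp) h2
    refine ⟨d, v, by rw [List.append_assoc]; exact h3, ?_⟩
    refine ALBA.Acc.exi _ _ (h3_not_univ fun D t e => by cases e) (ALBA.Step.stay _ _ _ _ _ _
      (HTr.pick _ _ _ true ⟨[], h0K⟩ ⟨_, htK⟩ rfl (by simp) (fun _ => hok))) h4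

end Pool.Agent.ACSG48
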