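import Pool.Agent.LibACSG48.H1
import Pool.Agent.LibACSG48.H3

/-! ROW H4.  Completeness.
`rearr`: `gapSwap_connected` for the symbol lists; one swap is `win_exi` with a window of two cells (`WR G false [a, none] [none, a]`), then `move_acc`
back to the left end.
`HM_complete_aux`: induction on `Der`.  Leaf: there are `|w|` cells and `|w|` symbols, so no gaps, `chk_acc`.
`exi`: form `γ l δ`, `|γ| + |r| + |δ| ≤ |w|` (derivations do not shorten: `der_len`, and `Der w (γ ++ r ++ δ)`); rearrange (`rearr`) the symbols to
`γ.map some ++ (l.map some ++ replicate (|r| - |l|) none) ++ δ.map some ++ gaps`; `move_acc` to the window; `win_exi` with `B = r.map some`; `move_acc` back;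
induction hypothesis.  `univ`: `M = max |r|` over the finitely many `r` with `(l, r) ∈ G.P` (nonempty set); `|γ| + M + |δ| ≤ |w|`, `M ≤ K`; window
`l.map some ++ replicate (M - |l|) none`; `win_uni`; every `B` with `WR G true` gives the form `γ r δ` with `r = B.reduceOption`, induction hypothesis. -/

set_option autoImplicit false

namespace Pool.Agent.ACSG48

variable {T : Type}

open HQ

theorem der_len (G : Grammar T) {w : List T} {f : List (G.V ⊕ T)} (h : G.Der w f) : f.length ≤ w.length := by
  induction h with
  | leaf => simp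
  | exi γ l r δ hP hU _ ih =>
    have h1 := G.mono l r hP
    simp only [List.length_append] at ih ⊢
    omega
  | univ γ l δ hU hex _ ih =>
    obtain ⟨r, hr⟩ := hex
    have h1 := G.mono l r hr
    have h2 := ih r hr
    simp only [List.length_append] at h2 ⊢
    omega

theorem exists_KK (G : Grammar T) : ∃ K : ℕ, 2 ≤ K ∧ ∀ l r, (l, r) ∈ G.P → r.length ≤ K := by
  obtain ⟨M, hM⟩ := (G.finP.image fun p => p.2.length).bddAbove
  refine ⟨max 2 M, le_max_left _ _, fun l r h => le_trans ?_ (le_max_right _ _)⟩
  exact hM ⟨(l, r), h, rfl⟩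

theorem h4_pair {A B : Type} (g : A → B) : ∀ (Z : List (A × B)) (w : List A), Z.map Prod.fst = w →
    Z.map Prod.snd = w.map g → Z = w.map fun a => (a, g a) := by
  intro Z
  induction Z with
  | nil =>
    intro w h1 _
    subst h1
    rfl
  | cons c Z ih =>
    intro w h1 h2
    subst h1
    simp only [List.map_cons] at h2 ⊢
    obtain ⟨h3, h4⟩ := List.cons.inj h2
    rw [← ih _ rfl h4, ← h3]

theorem h4_rew_fst {G : Grammar T} : ∀ (Cs : List (T × OS G)) (B : List (OS G)), Cs.length = B.length →
    (rew Cs B).map Prod.fst = Cs.map Prod.fst := by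
  intro Cs
  induction Cs with
  | nil => intro B _; rfl
  | cons c Cs ih =>
    intro B h
    cases B with
    | nil => simp at h
    | cons b B =>
      have h1 := ih B (by simpa using h)
      simp only [rew] at h1
      simp [rew, h1]

theorem h4_rew_snd {G : Grammar T} : ∀ (Cs : List (T × OS G)) (B : List (OS G)), Cs.length = B.length →
    (rew Cs B).map Prod.snd = B := by
  intro Cs
  induction Cs with
  | nil =>
    intro B h
    cases B with
    | nil => rfl
    | cons b B => simp at h
  | cons c Cs ih =>
    intro B h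
    cases B with
    | nil => simp at h
    | cons b B =>
      have h1 := ih B (by simpa using h)
      simp only [rew] at h1
      simp [rew, h1]

theorem h4_zip_fst {A B : Type} (w : List A) (F : List B) (h : w.length = F.length) : (w.zip F).map Prod.fst = w :=
  List.map_fst_zip (le_of_eq h)

theorem h4_zip_snd {A B : Type} (w : List A) (F : List B) (h : w.length = F.length) : (w.zip F).map Prod.snd = F :=
  List.map_snd_zip (le_of_eq h.symm)

theorem h4_swap [Finite T] {G : Grammar T} {K : ℕ} (hK : 2 ≤ K) (X Y : List (T × OS G)) (c1 c2 : T × OS G) (b1 b2 : OS G)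
    (hr : [c1.2, c2.2].reduceOption = [b1, b2].reduceOption)
    (h : AccAt G K n0 [] (X ++ ([(c1.1, b1), (c2.1, b2)] ++ Y))) : AccAt G K n0 [] (X ++ ([c1, c2] ++ Y)) := by
  refine move_acc (X' := X) (Z' := [c1, c2] ++ Y) rfl (by simp) ?_
  refine win_exi X [c1, c2] Y [b1, b2] (by simp) hK ⟨rfl, Or.inl hr⟩ ?_
  exact move_acc (X' := []) (Z' := X ++ ([(c1.1, b1), (c2.1, b2)] ++ Y)) rfl (by simp [rew]) h

theorem h4_split2 {A : Type} (Z : List A) (F1 F3 : List A) (n : ℕ) (h : Z.length = F1.length + (n + F3.length)) :
    ∃ X Cs Y : List A, Z = X ++ (Cs ++ Y) ∧ X.length = F1.length ∧ Cs.length = n ∧ Y.length = F3.length := by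
  refine ⟨Z.take F1.length, (Z.drop F1.length).take n, (Z.drop F1.length).drop n, ?_, ?_, ?_, ?_⟩
  · rw [List.take_append_drop, List.take_append_drop]
  · rw [List.length_take]
    omega
  · rw [List.length_take, List.length_drop]
    omega
  · rw [List.length_drop, List.length_drop]
    omega

theorem h4_split_snd {A B : Type} (Z : List (A × B)) (F1 F3 : List B) (a b : B)
    (h : Z.map Prod.snd = F1 ++ [a, b] ++ F3) :
    ∃ (X : List (A × B)) (c1 c2 : A × B) (Y : List (A × B)), Z = X ++ ([c1, c2] ++ Y) ∧ X.map Prod.snd = F1 ∧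
      c1.2 = a ∧ c2.2 = b ∧ Y.map Prod.snd = F3 := by
  rw [List.append_assoc] at h
  obtain ⟨X, Z', h1, h2, h3⟩ := List.map_eq_append_iff.1 h
  obtain ⟨C, Y, h4, h5, h6⟩ := List.map_eq_append_iff.1 h3
  match C, h5 with
  | [c1, c2], h5 =>
    simp at h5
    exact ⟨X, c1, c2, Y, by rw [h1, h4], h2, h5.1, h5.2, h6⟩
  | [], h5 => simp at h5
  | [c1], h5 => simp at h5
  | c1 :: c2 :: c3 :: C, h5 => simp at h5

theorem rearr [Finite T] {G : Grammar T} {K : ℕ} (hK : 2 ≤ K) {Z Z' : List (T × OS G)} (h1 : Z.map Prod.fst = Z'.map Prod.fst)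
    (h2 : (Z.map Prod.snd).reduceOption = (Z'.map Prod.snd).reduceOption) (h : AccAt G K n0 [] Z') : AccAt G K n0 [] Z := by
  have hlen : Z.length = Z'.length := by
    have := congrArg List.length h1
    simpa using this
  have hc := gapSwap_connected (F := Z.map Prod.snd) (F' := Z'.map Prod.snd) (by simpa using hlen) h2
  have key : ∀ F : List (OS G), Relation.ReflTransGen GapSwap F (Z'.map Prod.snd) →
      ∀ Z : List (T × OS G), Z.map Prod.snd = F → Z.map Prod.fst = Z'.map Prod.fst → AccAt G K n0 [] Z := by
    intro F hF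
    induction hF using Relation.ReflTransGen.head_induction_on with
    | refl =>
      intro Z hs hf
      have : Z = Z' := by
        have e1 : ∀ W : List (T × OS G), W = (W.map Prod.fst).zip (W.map Prod.snd) := by
          intro W
          induction W with
          | nil => rfl
          | cons c W ih => simp [← ih]
        rw [e1 Z, hs, hf, ← e1]
      rw [this]
      exact h
    | head hswap _ ih =>
      intro Z hs hf
      obtain ⟨F1, F3, a, h3 | h3⟩ := hswap
      · rw [h3.1] at hs
        obtain ⟨X, c1, c2, Y, rfl, hX, hc1, hc2, hY⟩ := h4_split_snd Z F1 F3 a none hs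
        refine h4_swap hK X Y c1 c2 none a ?_ (ih _ ?_ ?_)
        · rw [hc1, hc2]
          cases a <;> rfl
        · rw [h3.2]
          simp [hX, hY]
        · rw [← hf]
          simp
      · rw [h3.1] at hs
        obtain ⟨X, c1, c2, Y, rfl, hX, hc1, hc2, hY⟩ := h4_split_snd Z F1 F3 none a hs
        refine h4_swap hK X Y c1 c2 a none ?_ (ih _ ?_ ?_)
        · rw [hc1, hc2]
          cases a <;> rfl
        · rw [h3.2]
          simp [hX, hY]
        · rw [← hf]
          simp
  exact key _ hc Z rfl h1

theorem h4_arrange {G : Grammar T} (w : List T) (γ l δ : List (G.V ⊕ T)) (m : ℕ) (hl : l.length ≤ m)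
    (h : γ.length + m + δ.length ≤ w.length) : ∃ X Cs Y : List (T × OS G), (X ++ (Cs ++ Y)).map Prod.fst = w ∧
      Cs.map Prod.snd = l.map some ++ List.replicate (m - l.length) none ∧ Cs.length = m ∧
      ∀ C : List (T × OS G), ((X ++ (C ++ Y)).map Prod.snd).reduceOption = γ ++ (C.map Prod.snd).reduceOption ++ δ := by
  obtain ⟨w1, w2, w3, h1, h2, h3, h4⟩ := h4_split2 w (w.take γ.length) (w.drop (γ.length + m)) m (by
    rw [List.length_take, List.length_drop]
    omega)
  have h2' : w1.length = (γ.map some).length := by
    rw [h2, List.length_take, List.length_map]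
    omega
  have h3' : w2.length = (l.map some ++ List.replicate (m - l.length) (none : OS G)).length := by
    rw [h3]
    simp
    omega
  have h4' : w3.length = (δ.map some ++ List.replicate (w.length - (γ.length + m + δ.length)) (none : OS G)).length := by
    rw [h4, List.length_drop]
    simp
    omega
  refine ⟨w1.zip (γ.map some), w2.zip (l.map some ++ List.replicate (m - l.length) none),
    w3.zip (δ.map some ++ List.replicate (w.length - (γ.length + m + δ.length)) none), ?_, ?_, ?_, ?_⟩
  · rw [List.map_append, List.map_append, h4_zip_fst _ _ h2', h4_zip_fst _ _ h3', h4_zip_fst _ _ h4', ← h1]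
  · rw [h4_zip_snd _ _ h3']
  · rw [List.length_zip, ← h3', h3, min_self]
  · intro C
    rw [List.map_append, List.map_append, h4_zip_snd _ _ h2', h4_zip_snd _ _ h4', List.reduceOption_append,
      List.reduceOption_append, reduceOption_map_some, reduceOption_pad, List.append_assoc]

theorem HM_complete_aux [Finite T] {G : Grammar T} {K : ℕ} (hK : 2 ≤ K) (hG : ∀ l r, (l, r) ∈ G.P → r.length ≤ K) {w : List T}
    {f : List (G.V ⊕ T)} (h : G.Der w f) : ∀ Z : List (T × OS G), Z.map Prod.fst = w → (Z.map Prod.snd).reduceOption = f →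
      Z ≠ [] → AccAt G K n0 [] Z := by
  induction h with
  | leaf =>
    intro Z h1 h2 hZ
    have h3 : (Z.map Prod.snd).reduceOption.length = (Z.map Prod.snd).length := by
      rw [h2, ← h1]
      simp
    have h4 := eq_map_some_of_length h3
    rw [h2, List.map_map] at h4
    have h5 := h4_pair _ Z w h1 h4
    rw [h5]
    refine chk_acc ?_
    intro h6
    rw [h6] at h1
    exact hZ (List.map_eq_nil_iff.1 h1)
  | exi γ l r δ hP hU hder ih =>
    intro Z h1 h2 hZ
    have hl := G.mono l r hP
    have hlen := der_len G hder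
    simp only [List.length_append] at hlen
    obtain ⟨x, A, α, β, hlx, _⟩ := G.shape l r hP
    have hl1 : 1 ≤ l.length := by
      rw [hlx, List.length_append, List.length_cons]
      omega
    obtain ⟨X, Cs, Y, h3, h4, h5, h6⟩ := h4_arrange w γ l δ r.length hl (by omega)
    have hCs : Cs ≠ [] := by
      intro h7
      rw [h7] at h5
      simp at h5
      omega
    have hB : Cs.length = (r.map (some : G.V ⊕ T → OS G)).length := by
      rw [h5, List.length_map]
    refine rearr hK (Z' := X ++ (Cs ++ Y)) (by rw [h1, h3]) ?_ ?_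
    · rw [h2, h6, h4, reduceOption_pad]
    · refine move_acc (X' := X) (Z' := Cs ++ Y) rfl (by simp [hCs]) ?_
      refine win_exi X Cs Y (r.map some) hCs (by rw [h5]; exact hG l r hP) ⟨?_, Or.inr ?_⟩ ?_
      · rw [List.length_map, hB]
      · rw [h4, reduceOption_pad, reduceOption_map_some]
        exact ⟨hP, hU⟩
      · have hne : rew Cs (r.map some) ≠ [] := by
          intro h7
          have h8 := h4_rew_fst Cs (r.map some) hB
          rw [h7] at h8
          exact hCs (List.map_eq_nil_iff.1 h8.symm)
        refine move_acc (X' := []) (Z' := X ++ (rew Cs (r.map some) ++ Y)) rfl (by simp [hne]) (ih _ ?_ ?_ ?_)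
        · rw [← h3, List.map_append, List.map_append, h4_rew_fst _ _ hB, List.map_append, List.map_append]
        · rw [h6, h4_rew_snd _ _ hB, reduceOption_map_some]
        · simp [hne]
  | univ γ l δ hU hex hder ih =>
    intro Z h1 h2 hZ
    have hfin : {r | (l, r) ∈ G.P}.Finite := by
      refine (G.finP.image Prod.snd).subset ?_
      intro r hr
      exact ⟨(l, r), hr, rfl⟩
    obtain ⟨r0, hr0, hmax⟩ := Set.exists_max_image _ (fun r : List (G.V ⊕ T) => r.length) hfin hex
    have hr0' : (l, r0) ∈ G.P := hr0
    have hl := G.mono l r0 hr0'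
    have hlen := der_len G (hder r0 hr0')
    simp only [List.length_append] at hlen
    obtain ⟨x, A, α, β, hlx, _⟩ := G.shape l r0 hr0'
    have hl1 : 1 ≤ l.length := by
      rw [hlx, List.length_append, List.length_cons]
      omega
    obtain ⟨X, Cs, Y, h3, h4, h5, h6⟩ := h4_arrange w γ l δ r0.length hl (by omega)
    have hCs : Cs ≠ [] := by
      intro h7
      rw [h7] at h5
      simp at h5
      omega
    have hred : (Cs.map Prod.snd).reduceOption = l := by
      rw [h4, reduceOption_pad]
    refine rearr hK (Z' := X ++ (Cs ++ Y)) (by rw [h1, h3]) ?_ ?_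
    · rw [h2, h6, hred]
    · refine move_acc (X' := X) (Z' := Cs ++ Y) rfl (by simp [hCs]) ?_
      refine win_uni X Cs Y hCs (by rw [h5]; exact hG l r0 hr0') ⟨?_, ?_⟩ ⟨r0.map some, ?_, ?_⟩ ?_
      · rw [hred]
        exact hU
      · intro r hr
        rw [hred] at hr
        rw [List.length_map, h5]
        exact hmax r hr
      · rw [List.length_map, List.length_map, h5]
      · rw [hred, reduceOption_map_some]
        exact hr0'
      · intro B hB
        have hBl : Cs.length = B.length := by
          have := hB.1
          rwa [List.length_map] at this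
        have hBr : (l, B.reduceOption) ∈ G.P := by
          have := hB.2
          rwa [hred] at this
        have hne : rew Cs B ≠ [] := by
          intro h7
          have h8 := h4_rew_fst Cs B hBl
          rw [h7] at h8
          exact hCs (List.map_eq_nil_iff.1 h8.symm)
        refine move_acc (X' := []) (Z' := X ++ (rew Cs B ++ Y)) rfl (by simp [hne]) (ih _ hBr _ ?_ ?_ ?_)
        · rw [← h3, List.map_append, List.map_append, h4_rew_fst _ _ hBl, List.map_append, List.map_append]
        · rw [h6, h4_rew_snd _ _ hBl]
        · simp [hne]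

theorem HM_complete [Finite T] {G : Grammar T} {K : ℕ} (hK : 2 ≤ K) (hG : ∀ l r, (l, r) ∈ G.P → r.length ≤ K) {w : List T}
    (h : w ∈ G.lang) : w ∈ (HM G K).lang := by
  have hder : G.Der w [Sum.inl G.S] := h
  have hlen := der_len G hder
  have hw : w ≠ [] := by
    intro h1
    rw [h1] at hlen
    simp at hlen
  obtain ⟨a, v, rfl⟩ := List.exists_cons_of_ne_nil hw
  refine ⟨a, v, rfl, ?_⟩
  have hf : ∀ v : List T, (v.map fun a => (a, (none : OS G))).map Prod.fst = v := by
    intro v
    induction v with
    | nil => rfl
    | cons b v ih => rw [List.map_cons, List.map_cons, ih]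
  have hs : ∀ v : List T, (v.map fun a => (a, (none : OS G))).map Prod.snd = List.replicate v.length none := by
    intro v
    induction v with
    | nil => rfl
    | cons b v ih => rw [List.map_cons, List.map_cons, ih, List.length_cons, List.replicate_succ]
  have h1 := HM_complete_aux hK hG hder ((a, some (Sum.inl G.S)) :: v.map fun a => (a, none)) (by
    rw [List.map_cons, hf]) (by
    rw [List.map_cons, hs]
    exact reduceOption_pad [(Sum.inl G.S : G.V ⊕ T)] v.length) (by simp)
  obtain ⟨c, u, h2, h3⟩ := h1
  obtain ⟨rfl, rfl⟩ := List.cons.inj h2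
  exact ALBA.Acc.exi _ _ (h3_not_univ fun D t e => by cases e)
    (ALBA.Step.stay _ _ _ _ _ _ (HTr.start a _)) h3

end Pool.Agent.ACSG48
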