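import Pool.Agent.LibACSG48.H2
import Pool.Agent.LibACSG48.H4
import Pool.Agent.LibACSG48.G4
import Pool.Agent.LibACSG48.F7

/-! Block H5. -/

set_option autoImplicit false

namespace Pool.Agent.ACSG48

variable {T : Type}

theorem exists_ALBA_of_grammar [Finite T] (G : Grammar T) : ∃ M : ALBA T, M.lang = G.lang := by
  obtain ⟨K, hK, hG⟩ := exists_KK G
  refine ⟨HM G K, ?_⟩
  ext w
  exact ⟨HM_sound, HM_complete hK hG⟩

theorem classes_eq_iff_ALBA [Finite T] :
    {L : Set (List T) | ∃ G : Grammar T, G.langLM = L} = {L : Set (List T) | ∃ G : Grammar T, G.lang = L} ↔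
      ∀ M : ALBA T, AltLinTime M.lang := by
  rw [classes_eq_iff]
  constructor
  · intro h M
    obtain ⟨G, hG⟩ := exists_grammar_of_ALBA M
    rw [← hG]
    exact h G
  · intro h G
    obtain ⟨M, hM⟩ := exists_ALBA_of_grammar G
    rw [← hM]
    exact h M

end Pool.Agent.ACSG48
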